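import Pool.Agent.Helper25.NU.Homog2

/-!
# Project NU, block A6: 2-homogenisation of a value function (assembly)

`exists_seminorm`: a convex function `Ψ ≥ 0` with `Ψ (c z) = c² Ψ z` is the square of a seminorm.
Proof: `q z = √(Ψ z)`; `q (c z) = |c| q z`.  Triangle inequality: for `0 < lam < 1`,
`x + y = lam (lam⁻¹ x) + (1 - lam) ((1 - lam)⁻¹ y)`, so by convexity
`Ψ (x + y) ≤ Ψ x / lam + Ψ y / (1 - lam)`.  If `q x, q y > 0` take `lam = q x / (q x + q y)`: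
`Ψ (x + y) ≤ (q x + q y)²`.  If `q x = 0` then `Ψ (x + y) ≤ Ψ y / (1 - lam)` for all
`0 < lam < 1`; let `lam → 0`; similarly for `q y = 0`.

`homog` is then the combination of the statements about `Psi`.
-/

namespace Pool.Agent.Helper25.NU

variable {V : Type} [AddCommGroup V] [Module ℝ V]

theorem exists_seminorm {Ψ : V → ℝ} (h0 : ∀ z, 0 ≤ Ψ z) (hc : ConvexOn ℝ Set.univ Ψ)
    (hh : ∀ (c : ℝ) z, Ψ (c • z) = c ^ 2 * Ψ z) :
    ∃ q : Seminorm ℝ V, ∀ z, q z ^ 2 = Ψ z := by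
  have hconv : ∀ (x y : V) (lam : ℝ), 0 < lam → lam < 1 → Ψ (x + y) ≤ Ψ x / lam + Ψ y / (1 - lam) := by
    intro x y lam h1 h2
    have h3 : (1 - lam) ≠ 0 := by intro h; linarith
    have h4 := hc.2 (Set.mem_univ (lam⁻¹ • x)) (Set.mem_univ ((1 - lam)⁻¹ • y)) h1.le
      (by linarith : (0 : ℝ) ≤ 1 - lam) (by ring)
    rw [smul_inv_smul₀ h1.ne', smul_inv_smul₀ h3, hh, hh, smul_eq_mul, smul_eq_mul] at h4
    refine h4.trans (le_of_eq ?_)
    field_simp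
  have hadd : ∀ x y, Real.sqrt (Ψ (x + y)) ≤ Real.sqrt (Ψ x) + Real.sqrt (Ψ y) := by
    intro x y
    refine le_of_forall_pos_le_add fun ε hε => ?_
    have ha := Real.sqrt_nonneg (Ψ x)
    have hb := Real.sqrt_nonneg (Ψ y)
    have ha2 := Real.sq_sqrt (h0 x)
    have hb2 := Real.sq_sqrt (h0 y)
    generalize Real.sqrt (Ψ x) = a at *
    generalize Real.sqrt (Ψ y) = b at *
    rw [Real.sqrt_le_iff]
    refine ⟨by positivity, ?_⟩
    have hs : 0 < a + b + ε := by positivity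
    have hl : 1 - (a + ε / 2) / (a + b + ε) = (b + ε / 2) / (a + b + ε) := by
      field_simp
      ring
    have h5 := hconv x y ((a + ε / 2) / (a + b + ε)) (by positivity)
      (by rw [div_lt_one hs]; linarith)
    rw [hl, ← ha2, ← hb2] at h5
    refine h5.trans ?_
    have h6 : a ^ 2 / ((a + ε / 2) / (a + b + ε)) ≤ (a + ε / 2) * (a + b + ε) := by
      rw [div_div_eq_mul_div, div_le_iff₀ (by positivity)]
      have h7 : a ^ 2 ≤ (a + ε / 2) ^ 2 := pow_le_pow_left₀ ha (by linarith) 2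
      have h8 := mul_le_mul_of_nonneg_right h7 hs.le
      have h9 : (a + ε / 2) * (a + b + ε) * (a + ε / 2) = (a + ε / 2) ^ 2 * (a + b + ε) := by ring
      rw [h9]
      exact h8
    have h6' : b ^ 2 / ((b + ε / 2) / (a + b + ε)) ≤ (b + ε / 2) * (a + b + ε) := by
      rw [div_div_eq_mul_div, div_le_iff₀ (by positivity)]
      have h7 : b ^ 2 ≤ (b + ε / 2) ^ 2 := pow_le_pow_left₀ hb (by linarith) 2
      have h8 := mul_le_mul_of_nonneg_right h7 hs.le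
      have h9 : (b + ε / 2) * (a + b + ε) * (b + ε / 2) = (b + ε / 2) ^ 2 * (a + b + ε) := by ring
      rw [h9]
      exact h8
    have h10 : (a + b + ε) ^ 2 = (a + ε / 2) * (a + b + ε) + (b + ε / 2) * (a + b + ε) := by ring
    rw [h10]
    exact add_le_add h6 h6'
  refine ⟨Seminorm.of (fun z => Real.sqrt (Ψ z)) hadd ?_, fun z => Real.sq_sqrt (h0 z)⟩
  intro c z
  rw [hh, Real.sqrt_mul (sq_nonneg c), Real.sqrt_sq_eq_abs, Real.norm_eq_abs]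

theorem homog {κ : Seminorm ℝ V} {C₀ : ℝ} {Vf : V → ℝ} (h : VF κ C₀ Vf) {Jf : V → ℝ} {φ : ℝ → ℝ}
    (hJ : ∀ (c : ℝ) y, Jf (c • y) = |c| * Jf y) (hκJ : ∀ y, κ y ≤ Jf y)
    (hsm : ∀ z y, (Vf (z + y) + Vf (z - y)) / 2 ≤ Vf z + φ (Jf y)) :
    ∃ q : Seminorm ℝ V, (∀ z, κ z ^ 2 ≤ 2 * (1 + C₀) * q z ^ 2) ∧ (∀ z, q z ^ 2 ≤ κ z ^ 2 / 2) ∧
      ∀ ε C : ℝ, 0 < ε → 0 ≤ C → (∀ u, 0 ≤ u → φ u ≤ ε * u + C * u ^ 2) → ∀ z y,
        (q (z + y) ^ 2 + q (z - y) ^ 2) / 2 ≤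
          q z ^ 2 + 2 * ε * Jf y * κ z + (C / ε + 4) * Jf y ^ 2 := by
  obtain ⟨q, hq⟩ := exists_seminorm (Ψ := Psi C₀ Vf) (VF.Psi_nonneg C₀ Vf) h.Psi_convex h.Psi_smul
  refine ⟨q, fun z => by rw [hq]; exact h.le_Psi z, fun z => by rw [hq]; exact h.Psi_le z, ?_⟩
  intro ε C hε hC hφ z y
  rw [hq, hq, hq]
  exact h.Psi_smooth hJ hκJ hsm hε hC hφ z y

end Pool.Agent.Helper25.NU
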