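import Pool.Agent.Helper25.NU.Interp1

/-!
# Project NU, block A9: the interpolation norm and its smoothness

Setting: `c₁ ≥ 1`, `Cε : ℝ → ℝ`, `q i` (`i ∈ ℤ`) seminorms on `V` with
(Q1) `K_{2^i}(z)² ≤ 2 c₁ q_i(z)²`, (Q2) `q_i(z)² ≤ K_{2^i}(z)²/2`, and
(Q3) for all `ε > 0`, `i`, `z`, `y`:
`(q_i(z+y)² + q_i(z-y)²)/2 ≤ q_i(z)² + 2 ε J_{2^i}(y) K_{2^i}(z) + (Cε ε/ε + 4) J_{2^i}(y)²`,
where `Cε ε ≥ 0`.

The norm is `p z = √(∑_i 2^{-i} q_i(z)²)` (`wsum`).  It is a seminorm: `q_i(z + z') ≤ q_i z + q_i z'`,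
`wsum_mono`, `wsum_add_le`.  By (Q2) and `wsum_K_le`, `p² ≤ (2 a² + b²)/2 ≤ a² + b²`.  By (Q1)
`∑ 2^{-i} K_{2^i}(z)² ≤ 2 c₁ p(z)²`.  If `b ≤ a` then `b z ≤ K_1(z)` (`le_K_one`), and the term
`i = 0` gives `b(z)² ≤ 2 c₁ p(z)²`.

Smoothness (`US`).  Let `ε₀ > 0`.  Choose `W : ℕ` with `16 c₁ / 2^W ≤ ε₀²` and then
`ε = ε₀ / (16 c₁ 2^W)`, and `C' ε₀ = (Cε ε/ε + 4) · 32 c₁ 2^W`.
If `K_{2^i}(y) = 0` for some `i`, then for all `i` (`K_mono_mul`), so `q_i(y) = 0` for all `i`,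
`q_i (z ± y) = q_i z`, `p(z ± y) = p(z)`, `p(y) = 0`, and the inequality is an equality.
Otherwise take `y', w'` from `exists_decomp`.  For each `i` let
`A_i = √((q_i(z+y'_i)² + q_i(z-y'_i)²)/2)` and `B_i = q_i(w'_i)`.  From
`q_i(z ± y) ≤ q_i(z ± y'_i) + B_i` (since `y = y'_i + w'_i`) and Minkowski's inequality in the plane
`√((q_i(z+y)² + q_i(z-y)²)/2) ≤ A_i + B_i`.  So
`√((p(z+y)² + p(z-y)²)/2) = √(∑ 2^{-i} (q_i(z+y)² + q_i(z-y)²)/2) ≤ √(∑ 2^{-i} (A_i + B_i)²)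
≤ √(∑ 2^{-i} A_i²) + √(∑ 2^{-i} B_i²)` (`wsum_mono`, `wsum_add_le`).
By (Q3) and Cauchy-Schwarz (`wsum_mul_le`), with `SJ = ∑ 2^{-i} J(y'_i)² ≤ 16 · 2^W · 2 c₁ p(y)²` and
`SK = ∑ 2^{-i} K(z)² ≤ 2 c₁ p(z)²`:
`∑ 2^{-i} A_i² ≤ p(z)² + 2 ε √SJ √SK + (Cε ε/ε + 4) SJ
≤ p(z)² + 2 ε · (4 · 2^W √(2 c₁) p(y)) (√(2 c₁) p(z)) + C' ε₀ p(y)²
= p(z)² + 16 ε c₁ 2^W p(y) p(z) + C' ε₀ p(y)² = p(z)² + ε₀ p(z) p(y) + C' ε₀ p(y)²`
(using `√(16 · 2^W) ≤ 4 · 2^W`).  And by (Q2)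
`∑ 2^{-i} B_i² ≤ (1/2) ∑ 2^{-i} K(w'_i)² ≤ (1/2) (16/2^W) 2 c₁ p(y)² = (16 c₁/2^W) p(y)² ≤ ε₀² p(y)²`.
The sequences `A`, `B` are summable in the sense of `WS` because `A_i ≤ q_i z + q_i y'_i`, with
`q_i ≤ K_{2^i}` and `K ≤ J`.
-/

namespace Pool.Agent.Helper25.NU

section H23

variable {V : Type} [AddCommGroup V] [Module ℝ V] {a b : Seminorm ℝ V} {q : ℤ → Seminorm ℝ V}

theorem h23_le_of_sq {x y : ℝ} (hy : 0 ≤ y) (h : x ^ 2 ≤ y ^ 2) : x ≤ y :=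
  le_of_sq_le_sq h hy

theorem h23_q_le_K (Q2 : ∀ i z, q i z ^ 2 ≤ K a b (2 ^ i) z ^ 2 / 2) (i : ℤ) (z : V) :
    q i z ≤ K a b (2 ^ i) z := by
  have h0 : 0 ≤ K a b (2 ^ i) z := K_nonneg a b (by positivity) z
  exact h23_le_of_sq h0 (by nlinarith [Q2 i z, sq_nonneg (K a b (2 ^ i) z)])

theorem h23_ws_q (Q2 : ∀ i z, q i z ^ 2 ≤ K a b (2 ^ i) z ^ 2 / 2) (z : V) :
    WS (fun i => q i z) :=
  WS.mono (ws_K a b z) (fun _ => apply_nonneg _ _) (fun i => h23_q_le_K Q2 i z)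

/-- half of the sum of `K` -/
theorem h23_half {f g : ℤ → ℝ} (hg : WS g) (hf0 : ∀ i, 0 ≤ f i) (hg0 : ∀ i, 0 ≤ g i) {c : ℝ}
    (hc : 0 ≤ c) (h : ∀ i, f i ^ 2 ≤ c * g i ^ 2) : wsum f ≤ c * wsum g := by
  have h1 : ∀ i, f i ≤ √c * g i := fun i =>
    h23_le_of_sq (mul_nonneg (Real.sqrt_nonneg c) (hg0 i)) (by
      rw [mul_pow, Real.sq_sqrt hc]
      exact h i)
  have h2 := wsum_mono (hg.const_mul (√c)) hf0 h1
  rwa [wsum_const_mul, Real.sq_sqrt hc] at h2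

/-- the interpolation seminorm -/
noncomputable def h23p (Q2 : ∀ i z, q i z ^ 2 ≤ K a b (2 ^ i) z ^ 2 / 2) : Seminorm ℝ V :=
  Seminorm.of (fun z => √(wsum fun i => q i z))
    (fun x y => by
      have h1 : wsum (fun i => q i (x + y)) ≤ wsum (fun i => q i x + q i y) :=
        wsum_mono ((h23_ws_q Q2 x).add (h23_ws_q Q2 y)) (fun _ => apply_nonneg _ _)
          (fun i => map_add_le_add (q i) x y)
      exact (Real.sqrt_le_sqrt h1).trans (wsum_add_le (h23_ws_q Q2 x) (h23_ws_q Q2 y)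
        (fun _ => apply_nonneg _ _) (fun _ => apply_nonneg _ _)))
    (fun c x => by
      have h1 : (fun i => q i (c • x)) = fun i => |c| * q i x := by
        ext i
        rw [map_smul_eq_mul, Real.norm_eq_abs]
      rw [h1, wsum_const_mul, Real.sqrt_mul (by positivity), Real.sqrt_sq (abs_nonneg c),
        Real.norm_eq_abs])

theorem h23p_apply (Q2 : ∀ i z, q i z ^ 2 ≤ K a b (2 ^ i) z ^ 2 / 2) (z : V) :
    h23p Q2 z = √(wsum fun i => q i z) := rfl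

theorem h23p_sq (Q2 : ∀ i z, q i z ^ 2 ≤ K a b (2 ^ i) z ^ 2 / 2) (z : V) :
    h23p Q2 z ^ 2 = wsum fun i => q i z := by
  rw [h23p_apply, Real.sq_sqrt (wsum_nonneg _)]

theorem h23_K_sum {c₁ : ℝ} (hc : 1 ≤ c₁) (Q1 : ∀ i z, K a b (2 ^ i) z ^ 2 ≤ 2 * c₁ * q i z ^ 2)
    (Q2 : ∀ i z, q i z ^ 2 ≤ K a b (2 ^ i) z ^ 2 / 2) (z : V) :
    wsum (fun i : ℤ => K a b (2 ^ i) z) ≤ 2 * c₁ * h23p Q2 z ^ 2 := by
  rw [h23p_sq]
  exact h23_half (h23_ws_q Q2 z) (fun i => K_nonneg a b (by positivity) z)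
    (fun _ => apply_nonneg _ _) (by linarith) (fun i => Q1 i z)

theorem h23_mink {α β B A x y : ℝ} (hx0 : 0 ≤ x) (hy0 : 0 ≤ y) (hB : 0 ≤ B) (hA : 0 ≤ A)
    (hx : x ≤ α + B) (hy : y ≤ β + B) (hA2 : A ^ 2 = (α ^ 2 + β ^ 2) / 2) :
    √((x ^ 2 + y ^ 2) / 2) ≤ A + B := by
  have h1 : (α + β) / 2 ≤ A := by
    refine h23_le_of_sq hA ?_
    rw [hA2]
    nlinarith [sq_nonneg (α - β)]
  rw [Real.sqrt_le_iff]
  refine ⟨by linarith, ?_⟩
  have h2 : x ^ 2 ≤ (α + B) ^ 2 := pow_le_pow_left₀ hx0 hx 2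
  have h3 : y ^ 2 ≤ (β + B) ^ 2 := pow_le_pow_left₀ hy0 hy 2
  nlinarith [mul_le_mul_of_nonneg_right h1 hB]

/-- the sum of the quadratic means -/
theorem h23_wsum_mean {f g : ℤ → ℝ} (hf : WS f) (hg : WS g) :
    wsum (fun i => √((f i ^ 2 + g i ^ 2) / 2)) = (wsum f + wsum g) / 2 := by
  have h1 := ((Summable.hasSum hf).add (Summable.hasSum hg)).div_const 2
  refine HasSum.tsum_eq ?_
  have h2 : (fun i : ℤ => (2 : ℝ) ^ (-i) * √((f i ^ 2 + g i ^ 2) / 2) ^ 2) =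
      fun i : ℤ => ((2 : ℝ) ^ (-i) * f i ^ 2 + (2 : ℝ) ^ (-i) * g i ^ 2) / 2 := by
    ext i
    rw [Real.sq_sqrt (by positivity)]
    ring
  rw [h2]
  exact h1

theorem h23_three {A Z Jf Kf : ℤ → ℝ} (hA : WS A) (hZ : WS Z) (hJ : WS Jf) (hK : WS Kf)
    {ε C : ℝ} (hε : 0 ≤ ε)
    (h : ∀ i, A i ^ 2 ≤ Z i ^ 2 + 2 * ε * Jf i * Kf i + C * Jf i ^ 2) :
    wsum A ≤ wsum Z + 2 * ε * (√(wsum Jf) * √(wsum Kf)) + C * wsum Jf := by
  have h1 := ((Summable.hasSum hZ).add ((hJ.summable_mul hK).hasSum.mul_left (2 * ε))).add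
    ((Summable.hasSum hJ).mul_left C)
  have h2 : wsum A ≤ wsum Z + 2 * ε * (∑' i : ℤ, (2 : ℝ) ^ (-i) * (Jf i * Kf i)) +
      C * wsum Jf := by
    refine hasSum_le (fun i => ?_) (Summable.hasSum hA) h1
    have h3 : (0 : ℝ) ≤ (2 : ℝ) ^ (-i) := by positivity
    have h4 := mul_le_mul_of_nonneg_left (h i) h3
    refine h4.trans (le_of_eq ?_)
    ring
  have h3 := mul_le_mul_of_nonneg_left (wsum_mul_le hJ hK) (show (0 : ℝ) ≤ 2 * ε by linarith)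
  linarith

theorem h23_smooth {c₁ : ℝ} (hc : 1 ≤ c₁)
    (Q1 : ∀ i z, K a b (2 ^ i) z ^ 2 ≤ 2 * c₁ * q i z ^ 2)
    (Q2 : ∀ i z, q i z ^ 2 ≤ K a b (2 ^ i) z ^ 2 / 2) {ε₀ ε C : ℝ} (hε₀ : 0 < ε₀) (hC : 0 ≤ C)
    {W : ℕ} (hW : 16 * c₁ / 2 ^ W ≤ ε₀ ^ 2) (hε : ε = ε₀ / (16 * c₁ * 2 ^ W))
    (Q3 : ∀ i z y, (q i (z + y) ^ 2 + q i (z - y) ^ 2) / 2 ≤
          q i z ^ 2 + 2 * ε * J a b (2 ^ i) y * K a b (2 ^ i) z + C * J a b (2 ^ i) y ^ 2)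
    (z y : V) :
    √((h23p Q2 (z + y) ^ 2 + h23p Q2 (z - y) ^ 2) / 2) ≤
      √(h23p Q2 z ^ 2 + ε₀ * h23p Q2 z * h23p Q2 y +
        (C * (32 * c₁ * 2 ^ W)) * h23p Q2 y ^ 2) + ε₀ * h23p Q2 y := by
  set p := h23p Q2 with hp
  have hpn : ∀ x, 0 ≤ p x := fun x => apply_nonneg p x
  by_cases hy : ∀ i : ℤ, 0 < K a b (2 ^ i) y
  · obtain ⟨y', w', hyw, wsJ, wJ, wsK, wK⟩ := exists_decomp a b hy W
    have h2W : (0 : ℝ) < 2 ^ W := by positivity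
    have h2W1 : (1 : ℝ) ≤ 2 ^ W := one_le_pow₀ (by norm_num)
    have hc0 : 0 < c₁ := by linarith
    have hεp : 0 < ε := by rw [hε]; positivity
    have hKy := h23_K_sum hc Q1 Q2 y
    have hKz := h23_K_sum hc Q1 Q2 z
    rw [← hp] at hKy hKz
    -- the sequences
    set A : ℤ → ℝ := fun i => √((q i (z + y' i) ^ 2 + q i (z - y' i) ^ 2) / 2) with hA
    set B : ℤ → ℝ := fun i => q i (w' i) with hB
    have hA0 : ∀ i, 0 ≤ A i := fun i => Real.sqrt_nonneg _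
    have hB0 : ∀ i, 0 ≤ B i := fun i => apply_nonneg _ _
    have hA2 : ∀ i, A i ^ 2 = (q i (z + y' i) ^ 2 + q i (z - y' i) ^ 2) / 2 := fun i =>
      Real.sq_sqrt (by positivity)
    have hqJ : ∀ i, q i (y' i) ≤ J a b (2 ^ i) (y' i) := fun i =>
      (h23_q_le_K Q2 i (y' i)).trans (K_le_J a b (by positivity) (y' i))
    have wsqy' : WS (fun i => q i (y' i)) := WS.mono wsJ (fun _ => apply_nonneg _ _) hqJ
    have hAle : ∀ i, A i ≤ q i z + q i (y' i) := by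
      intro i
      have e1 : q i (z + y' i) ≤ q i z + q i (y' i) := map_add_le_add (q i) _ _
      have e2 : q i (z - y' i) ≤ q i z + q i (y' i) := map_sub_le_add (q i) _ _
      have e3 : 0 ≤ q i z + q i (y' i) := add_nonneg (apply_nonneg _ _) (apply_nonneg _ _)
      refine h23_le_of_sq e3 ?_
      rw [hA2]
      have e4 := pow_le_pow_left₀ (apply_nonneg (q i) (z + y' i)) e1 2
      have e5 := pow_le_pow_left₀ (apply_nonneg (q i) (z - y' i)) e2 2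
      linarith
    have wsA : WS A := WS.mono ((h23_ws_q Q2 z).add wsqy') hA0 hAle
    have wsB : WS B := WS.mono wsK hB0 fun i => h23_q_le_K Q2 i (w' i)
    have hD : ∀ i, √((q i (z + y) ^ 2 + q i (z - y) ^ 2) / 2) ≤ A i + B i := by
      intro i
      refine h23_mink (apply_nonneg _ _) (apply_nonneg _ _) (hB0 i) (hA0 i) ?_ ?_ (hA2 i)
      · have e1 : z + y = (z + y' i) + w' i := by rw [← hyw i]; abel
        rw [e1]
        exact map_add_le_add (q i) _ _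
      · have e1 : z - y = (z - y' i) - w' i := by rw [← hyw i]; abel
        rw [e1]
        exact map_sub_le_add (q i) _ _
    have hstep : √((p (z + y) ^ 2 + p (z - y) ^ 2) / 2) ≤ √(wsum A) + √(wsum B) := by
      rw [hp, h23p_sq, h23p_sq, ← h23_wsum_mean (h23_ws_q Q2 (z + y)) (h23_ws_q Q2 (z - y))]
      exact (Real.sqrt_le_sqrt (wsum_mono (wsA.add wsB) (fun _ => Real.sqrt_nonneg _) hD)).trans
        (wsum_add_le wsA wsB hA0 hB0)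
    -- the first sum
    set SJ := wsum (fun i => J a b (2 ^ i) (y' i)) with hSJ
    set SK := wsum (fun i : ℤ => K a b (2 ^ i) z) with hSK
    have hSJ0 : 0 ≤ SJ := wsum_nonneg _
    have hSJ1 : SJ ≤ 32 * c₁ * 2 ^ W * p y ^ 2 := by
      refine wJ.trans ?_
      have e1 := mul_le_mul_of_nonneg_left hKy (show (0 : ℝ) ≤ 16 * 2 ^ W by positivity)
      refine e1.trans (le_of_eq ?_)
      ring
    have hsq : √SJ * √SK ≤ 8 * c₁ * 2 ^ W * (p z * p y) := by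
      rw [← Real.sqrt_mul hSJ0, Real.sqrt_le_iff]
      refine ⟨by have := hpn z; have := hpn y; positivity, ?_⟩
      have e1 : SJ * SK ≤ (32 * c₁ * 2 ^ W * p y ^ 2) * (2 * c₁ * p z ^ 2) :=
        mul_le_mul hSJ1 hKz (wsum_nonneg _) (by positivity)
      have e2 : (32 * c₁ * 2 ^ W * p y ^ 2) * (2 * c₁ * p z ^ 2) =
          64 * c₁ ^ 2 * (p z * p y) ^ 2 * 2 ^ W := by ring
      have e3 : (8 * c₁ * 2 ^ W * (p z * p y)) ^ 2 =
          64 * c₁ ^ 2 * (p z * p y) ^ 2 * 2 ^ W * 2 ^ W := by ring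
      rw [e3]
      rw [e2] at e1
      refine e1.trans ?_
      exact le_mul_of_one_le_right (by positivity) h2W1
    have hAsum : wsum A ≤ p z ^ 2 + ε₀ * p z * p y + C * (32 * c₁ * 2 ^ W) * p y ^ 2 := by
      have e1 := h23_three wsA (h23_ws_q Q2 z) wsJ (ws_K a b z) hεp.le (C := C)
        (fun i => by rw [hA2]; exact Q3 i z (y' i))
      rw [← h23p_sq Q2 z, ← hp] at e1
      refine e1.trans ?_
      have e2 := mul_le_mul_of_nonneg_left hsq (show (0 : ℝ) ≤ 2 * ε by linarith)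
      have e3 : 2 * ε * (8 * c₁ * 2 ^ W * (p z * p y)) = ε₀ * p z * p y := by
        rw [hε]
        field_simp
        ring
      rw [e3] at e2
      have e4 := mul_le_mul_of_nonneg_left hSJ1 hC
      have e5 : C * (32 * c₁ * 2 ^ W * p y ^ 2) = C * (32 * c₁ * 2 ^ W) * p y ^ 2 := by ring
      rw [e5] at e4
      exact add_le_add (add_le_add le_rfl e2) e4
    have hBsum : √(wsum B) ≤ ε₀ * p y := by
      rw [Real.sqrt_le_iff]
      refine ⟨mul_nonneg hε₀.le (hpn y), ?_⟩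
      have e1 : wsum B ≤ 1 / 2 * wsum (fun i => K a b (2 ^ i) (w' i)) :=
        h23_half wsK hB0 (fun i => K_nonneg a b (by positivity) _) (by norm_num)
          (fun i => (Q2 i (w' i)).trans (le_of_eq (by ring)))
      have e2 : wsum B ≤ 16 * c₁ / 2 ^ W * p y ^ 2 := by
        refine e1.trans ?_
        have e3 := wK.trans (mul_le_mul_of_nonneg_left hKy
          (show (0 : ℝ) ≤ 16 / 2 ^ W by positivity))
        have e4 : 16 * c₁ / 2 ^ W * p y ^ 2 = 1 / 2 * (16 / 2 ^ W * (2 * c₁ * p y ^ 2)) := by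
          ring
        rw [e4]
        linarith
      rw [mul_pow]
      exact e2.trans (mul_le_mul_of_nonneg_right hW (by positivity))
    exact hstep.trans (add_le_add (Real.sqrt_le_sqrt hAsum) hBsum)
  · push Not at hy
    obtain ⟨i, hi⟩ := hy
    have hK0 : ∀ j : ℤ, K a b (2 ^ j) y = 0 := by
      intro j
      refine le_antisymm ?_ (K_nonneg a b (by positivity) y)
      refine (K_mono_mul a b (s := 2 ^ j) (t := 2 ^ i) (by positivity) (by positivity) y).trans ?_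
      exact mul_nonpos_of_nonneg_of_nonpos (by positivity) hi
    have hq0 : ∀ j, q j y = 0 := by
      intro j
      refine le_antisymm ?_ (apply_nonneg _ _)
      rw [← hK0 j]
      exact h23_q_le_K Q2 j y
    have hpy : p y = 0 := by
      rw [hp, h23p_apply]
      have e1 : (fun i => q i y) = fun _ => (0 : ℝ) := funext hq0
      rw [e1, wsum]
      simp
    have e1 : p (z + y) ≤ p z := by
      have := map_add_le_add p z y
      rwa [hpy, add_zero] at this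
    have e2 : p (z - y) ≤ p z := by
      have := map_sub_le_add p z y
      rwa [hpy, add_zero] at this
    rw [hpy]
    have e3 : √((p (z + y) ^ 2 + p (z - y) ^ 2) / 2) ≤ √(p z ^ 2) := by
      refine Real.sqrt_le_sqrt ?_
      have e4 := pow_le_pow_left₀ (hpn (z + y)) e1 2
      have e5 := pow_le_pow_left₀ (hpn (z - y)) e2 2
      linarith
    simpa using e3

end H23

theorem interp (c₁ : ℝ) (hc : 1 ≤ c₁) (Cε : ℝ → ℝ) (hCε : ∀ ε, 0 < ε → 0 ≤ Cε ε) :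
    ∃ C' : ℝ → ℝ, (∀ ε, 0 < ε → 0 ≤ C' ε) ∧
      ∀ (V : Type) [AddCommGroup V] [Module ℝ V] (a b : Seminorm ℝ V) (q : ℤ → Seminorm ℝ V),
        (∀ i z, K a b (2 ^ i) z ^ 2 ≤ 2 * c₁ * q i z ^ 2) →
        (∀ i z, q i z ^ 2 ≤ K a b (2 ^ i) z ^ 2 / 2) →
        (∀ ε, 0 < ε → ∀ i z y, (q i (z + y) ^ 2 + q i (z - y) ^ 2) / 2 ≤
          q i z ^ 2 + 2 * ε * J a b (2 ^ i) y * K a b (2 ^ i) z +
            (Cε ε / ε + 4) * J a b (2 ^ i) y ^ 2) →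
        ∃ p : Seminorm ℝ V, US C' p ∧ (∀ z, p z ^ 2 ≤ a z ^ 2 + b z ^ 2) ∧
          ((∀ z, b z ≤ a z) → ∀ z, b z ^ 2 ≤ 2 * c₁ * p z ^ 2) := by
  have hc0 : 0 < c₁ := by linarith
  have hW : ∀ ε₀ : ℝ, 0 < ε₀ → ∃ W : ℕ, 16 * c₁ / 2 ^ W ≤ ε₀ ^ 2 := by
    intro ε₀ hε₀
    obtain ⟨W, hW⟩ := pow_unbounded_of_one_lt (16 * c₁ / ε₀ ^ 2) (one_lt_two (α := ℝ))
    refine ⟨W, ?_⟩
    rw [div_lt_iff₀ (by positivity)] at hW
    rw [div_le_iff₀ (by positivity)]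
    linarith
  choose! W hW using hW
  refine ⟨fun ε₀ => (Cε (ε₀ / (16 * c₁ * 2 ^ W ε₀)) / (ε₀ / (16 * c₁ * 2 ^ W ε₀)) + 4) *
    (32 * c₁ * 2 ^ W ε₀), ?_, ?_⟩
  · intro ε₀ hε₀
    have h1 : 0 < ε₀ / (16 * c₁ * 2 ^ W ε₀) := by positivity
    have h2 := hCε _ h1
    positivity
  · intro V _ _ a b q Q1 Q2 Q3
    refine ⟨h23p Q2, ?_, ?_, ?_⟩
    · intro ε₀ hε₀ z y
      have h1 : 0 < ε₀ / (16 * c₁ * 2 ^ W ε₀) := by positivity
      have h2 := hCε _ h1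
      exact h23_smooth hc Q1 Q2 hε₀ (by positivity) (hW ε₀ hε₀) rfl (Q3 _ h1) z y
    · intro z
      rw [h23p_sq]
      have h1 : wsum (fun i => q i z) ≤ 1 / 2 * wsum (fun i : ℤ => K a b (2 ^ i) z) :=
        h23_half (ws_K a b z) (fun _ => apply_nonneg _ _)
          (fun i => K_nonneg a b (by positivity) _) (by norm_num)
          (fun i => (Q2 i z).trans (le_of_eq (by ring)))
      have h2 := wsum_K_le a b z
      nlinarith [sq_nonneg (b z)]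
    · intro hab z
      have h1 := le_K_one a b hab z
      have h2 : b z ^ 2 ≤ K a b (2 ^ (0 : ℤ)) z ^ 2 := by
        rw [zpow_zero]
        exact pow_le_pow_left₀ (apply_nonneg _ _) h1 2
      have h3 := term_le_wsum (h23_ws_q Q2 z) 0
      rw [← h23p_sq Q2 z] at h3
      simp only [neg_zero, zpow_zero, one_mul] at h3
      have h4 := mul_le_mul_of_nonneg_left h3 (show (0 : ℝ) ≤ 2 * c₁ by linarith)
      exact h2.trans ((Q1 0 z).trans h4)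

end Pool.Agent.Helper25.NU
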