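import Pool.Agent.Helper25.NU.Defs

/-!
# Project NU, block A0: elementary facts about the `K`- and the `J`-functional

`K a b t z = ⨅ u, a u + t b (z - u)` for `t ≥ 0`; the set of the values is bounded below by `0`.
`K_le`: take the value at `u` (`ciInf_le`).  `K_le_a`: `u = z`; `K_le_b`: `u = 0`.
`K_add`: for all `u, u'`: `K (z + z') ≤ a (u + u') + t b (z + z' - u - u')`; take the infima.
`K_smul`: the substitution `u = c • u'` (for `c = 0`: `K 0 = 0`).
`K_mono_mul`: for `0 < s`, `0 < t`: `a u + s b (z - u) ≤ max 1 (s/t) (a u + t b (z - u))`.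
`exists_K_near`: if `0 < K t z` then `K t z < 2 K t z`, so some value is `≤ 2 K t z`
(`exists_lt_of_ciInf_lt`).
`J` is a maximum of two seminorms.
-/

namespace Pool.Agent.Helper25.NU

variable {V : Type} [AddCommGroup V] [Module ℝ V] (a b : Seminorm ℝ V)

theorem K_le {t : ℝ} (ht : 0 ≤ t) (z u : V) : K a b t z ≤ a u + t * b (z - u) := by
  refine ciInf_le (f := fun u : V => a u + t * b (z - u)) ⟨0, ?_⟩ u
  rintro _ ⟨v, rfl⟩
  exact add_nonneg (apply_nonneg a v) (mul_nonneg ht (apply_nonneg b _))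

theorem le_K {t : ℝ} (z : V) {c : ℝ} (h : ∀ u, c ≤ a u + t * b (z - u)) : c ≤ K a b t z :=
  le_ciInf h

theorem K_nonneg {t : ℝ} (ht : 0 ≤ t) (z : V) : 0 ≤ K a b t z :=
  le_K a b z fun u => add_nonneg (apply_nonneg a u) (mul_nonneg ht (apply_nonneg b _))

theorem K_le_a {t : ℝ} (ht : 0 ≤ t) (z : V) : K a b t z ≤ a z := by
  simpa using K_le a b ht z z

theorem K_le_b {t : ℝ} (ht : 0 ≤ t) (z : V) : K a b t z ≤ t * b z := by
  simpa using K_le a b ht z 0

theorem K_le_J {t : ℝ} (ht : 0 ≤ t) (z : V) : K a b t z ≤ J a b t z :=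
  (K_le_a a b ht z).trans (le_max_left _ _)

theorem K_add {t : ℝ} (ht : 0 ≤ t) (z z' : V) : K a b t (z + z') ≤ K a b t z + K a b t z' := by
  have h1 : ∀ u u' : V, K a b t (z + z') ≤
      (a u + t * b (z - u)) + (a u' + t * b (z' - u')) := by
    intro u u'
    have h2 := K_le a b ht (z + z') (u + u')
    have h3 := map_add_le_add a u u'
    have h4 := map_add_le_add b (z - u) (z' - u')
    have h5 : z + z' - (u + u') = (z - u) + (z' - u') := by abel
    rw [h5] at h2
    have h6 := mul_le_mul_of_nonneg_left h4 ht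
    linarith
  have h2 : ∀ u' : V, K a b t (z + z') - (a u' + t * b (z' - u')) ≤ K a b t z := by
    intro u'
    apply le_K
    intro u
    linarith [h1 u u']
  have h3 : K a b t (z + z') - K a b t z ≤ K a b t z' := by
    apply le_K
    intro u'
    linarith [h2 u']
  linarith

private theorem h42_K_zero {t : ℝ} (ht : 0 ≤ t) : K a b t (0 : V) = 0 :=
  le_antisymm (by simpa using K_le_a a b ht (0 : V)) (K_nonneg a b ht 0)

private theorem h42_K_smul_le {t : ℝ} (ht : 0 ≤ t) {c : ℝ} (hc : c ≠ 0) (z : V) :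
    K a b t (c • z) ≤ |c| * K a b t z := by
  have hc' : 0 < |c| := abs_pos.2 hc
  rw [← div_le_iff₀' hc']
  apply le_K
  intro u
  rw [div_le_iff₀' hc']
  have h1 := K_le a b ht (c • z) (c • u)
  rw [← smul_sub, map_smul_eq_mul, map_smul_eq_mul, Real.norm_eq_abs] at h1
  linarith

theorem K_smul {t : ℝ} (ht : 0 ≤ t) (c : ℝ) (z : V) : K a b t (c • z) = |c| * K a b t z := by
  rcases eq_or_ne c 0 with rfl | hc
  · rw [zero_smul, abs_zero, zero_mul, h42_K_zero a b ht]
  · apply le_antisymm (h42_K_smul_le a b ht hc z)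
    have h1 := h42_K_smul_le a b ht (inv_ne_zero hc) (c • z)
    rw [smul_smul, inv_mul_cancel₀ hc, one_smul, abs_inv] at h1
    have hc' : 0 < |c| := abs_pos.2 hc
    calc |c| * K a b t z ≤ |c| * (|c|⁻¹ * K a b t (c • z)) :=
          mul_le_mul_of_nonneg_left h1 hc'.le
      _ = K a b t (c • z) := by rw [← mul_assoc, mul_inv_cancel₀ hc'.ne', one_mul]

theorem K_neg {t : ℝ} (ht : 0 ≤ t) (z : V) : K a b t (-z) = K a b t z := by
  have h := K_smul a b ht (-1) z
  simpa using h

/-- `K_t`, as a seminorm. -/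
noncomputable def Kn {t : ℝ} (ht : 0 ≤ t) : Seminorm ℝ V :=
  Seminorm.of (K a b t) (K_add a b ht) (fun c z => by rw [K_smul a b ht, Real.norm_eq_abs])

theorem K_sum_le {t : ℝ} (ht : 0 ≤ t) (s : List V) :
    K a b t s.sum ≤ (s.map fun v => K a b t v).sum := by
  induction s with
  | nil => simp [h42_K_zero a b ht]
  | cons v s ih =>
    rw [List.sum_cons, List.map_cons, List.sum_cons]
    exact (K_add a b ht _ _).trans (by linarith)

theorem K_mono_mul {s t : ℝ} (hs : 0 < s) (ht : 0 < t) (z : V) :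
    K a b s z ≤ max 1 (s / t) * K a b t z := by
  have hm : 0 < max 1 (s / t) := lt_max_of_lt_left one_pos
  rw [← div_le_iff₀' hm]
  apply le_K
  intro u
  rw [div_le_iff₀' hm]
  refine (K_le a b hs.le z u).trans ?_
  have h1 : a u ≤ max 1 (s / t) * a u :=
    le_mul_of_one_le_left (apply_nonneg a u) (le_max_left _ _)
  have h2 : s * b (z - u) ≤ max 1 (s / t) * (t * b (z - u)) := by
    rw [← mul_assoc]
    apply mul_le_mul_of_nonneg_right _ (apply_nonneg b _)
    have h3 : s / t * t ≤ max 1 (s / t) * t :=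
      mul_le_mul_of_nonneg_right (le_max_right _ _) ht.le
    rwa [div_mul_cancel₀ _ ht.ne'] at h3
  linarith

theorem exists_K_near {t : ℝ} (z : V) (h : 0 < K a b t z) :
    ∃ u, a u + t * b (z - u) ≤ 2 * K a b t z := by
  have h1 : K a b t z < 2 * K a b t z := by linarith
  obtain ⟨u, hu⟩ := exists_lt_of_ciInf_lt (f := fun u : V => a u + t * b (z - u)) h1
  exact ⟨u, hu.le⟩

/-- For `b ≤ a` one has `K_1 = b`. -/
theorem le_K_one (hab : ∀ z, b z ≤ a z) (z : V) : b z ≤ K a b 1 z := by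
  apply le_K
  intro u
  have h1 := map_add_le_add b u (z - u)
  rw [add_sub_cancel] at h1
  linarith [hab u]

theorem J_nonneg (t : ℝ) (z : V) : 0 ≤ J a b t z :=
  (apply_nonneg a z).trans (le_max_left _ _)

theorem J_smul (t : ℝ) (c : ℝ) (z : V) : J a b t (c • z) = |c| * J a b t z := by
  unfold J
  rw [mul_max_of_nonneg _ _ (abs_nonneg c), map_smul_eq_mul, map_smul_eq_mul, Real.norm_eq_abs]
  congr 1
  ring

theorem J_neg (t : ℝ) (z : V) : J a b t (-z) = J a b t z := by
  unfold J
  rw [map_neg_eq_map, map_neg_eq_map]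

theorem J_zero (t : ℝ) : J a b t (0 : V) = 0 := by
  unfold J
  rw [map_zero, map_zero]
  simp

end Pool.Agent.Helper25.NU
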