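import Pool.Agent.Helper25.NU.Tree
import Pool.Agent.Helper25.NU.KJ

/-!
# Project NU, block A3: the value function

Fix `t > 0` and suppose `E K_t(M) ≤ E ∑_j φ(J_t(x_j)) + C₀` for all trees (`φ ≥ 0`).  Define
`Vf z = sup_T E_T (K_t(z + s.sum) - ∑_j φ(J_t(s_j)))`, the supremum over all trees `T`.

* The supremum is over a non-empty set bounded above by `K_t z + C₀`, since
  `K_t(z + s.sum) ≤ K_t z + K_t(s.sum)`.  So `Vf z ≤ K_t z + C₀`, and `T = leaf` gives
  `K_t z ≤ Vf z`.
* Convexity: for fixed `T` the function `z ↦ E_T (K_t(z + s.sum) - ..)` is convex (induction on `T`,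
  for functionals `s ↦ h (z + s.sum) - c s`), and a supremum of convex functions, bounded above
  pointwise, is convex.
* Evenness: `K_t` is even; replace `T` by `T.map (fun x => -x)` (`E_map`, and `J_t` is even).
* `Vf (z + w) ≤ Vf z + K_t w`: the same inequality holds for each `T`.
* For trees `l`, `r` the tree `node y l r` gives
  `Vf z ≥ (E_l (K_t(z + y + s.sum) - ∑ φ) + E_r (K_t(z - y + s.sum) - ∑ φ)) / 2 - φ(J_t y)`
  (`J_t (-y) = J_t y`); take the suprema over `l` and `r`.
-/

namespace Pool.Agent.Helper25.NU

variable {V : Type} [AddCommGroup V] [Module ℝ V]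

theorem sum_map_neg_h30 {V : Type} [AddCommGroup V] (s : List V) :
    (s.map fun x => -x).sum = -s.sum := by
  induction s with
  | nil => simp
  | cons x s ih => rw [List.map_cons, List.sum_cons, List.sum_cons, ih, neg_add]

theorem exists_value (a b : Seminorm ℝ V) {φ : ℝ → ℝ} (hφ : ∀ u, 0 ≤ φ u) {C₀ : ℝ} (hC : 0 ≤ C₀)
    {t : ℝ} (ht : 0 < t)
    (h : ∀ T : Tree V, T.E (fun s => K a b t s.sum) ≤
      T.E (fun s => (s.map fun x => φ (J a b t x)).sum) + C₀) :
    ∃ Vf : V → ℝ, ConvexOn ℝ Set.univ Vf ∧ (∀ z, Vf (-z) = Vf z) ∧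
      (∀ z, K a b t z ≤ Vf z) ∧ (∀ z, Vf z ≤ K a b t z + C₀) ∧
      (∀ z w, Vf (z + w) ≤ Vf z + K a b t w) ∧
      (∀ z y, (Vf (z + y) + Vf (z - y)) / 2 ≤ Vf z + φ (J a b t y)) := by
  classical
  haveI : Nonempty (Tree V) := ⟨Tree.leaf⟩
  obtain ⟨Φ, hΦ⟩ : ∃ Φ : List V → ℝ, Φ = fun s => (s.map fun x => φ (J a b t x)).sum := ⟨_, rfl⟩
  have h' : ∀ T : Tree V, T.E (fun s => K a b t s.sum) ≤ T.E Φ + C₀ := by
    rw [hΦ]; exact h
  obtain ⟨F, hF⟩ : ∃ F : Tree V → V → ℝ,
      F = fun T z => T.E (fun s => K a b t (z + s.sum) - Φ s) := ⟨_, rfl⟩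
  have hF' : ∀ T z, F T z = T.E (fun s => K a b t (z + s.sum) - Φ s) := fun T z => by rw [hF]
  have hub : ∀ T z, F T z ≤ K a b t z + C₀ := by
    intro T z
    have h1 : F T z ≤ T.E (fun s => K a b t z + (K a b t s.sum - Φ s)) := by
      rw [hF']
      refine Tree.E_mono (Tree.All_of_forall T fun s => ?_)
      have := K_add a b ht.le z s.sum
      linarith
    rw [Tree.E_add T (fun _ => K a b t z) (fun s => K a b t s.sum - Φ s), Tree.E_const,
      Tree.E_sub T (fun s => K a b t s.sum) Φ] at h1
    have h2 := h' T
    linarith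
  have hbdd : ∀ z, BddAbove (Set.range fun T => F T z) := by
    intro z
    refine ⟨K a b t z + C₀, ?_⟩
    rintro _ ⟨T, rfl⟩
    exact hub T z
  have hle : ∀ T z, F T z ≤ ⨆ T, F T z := fun T z => le_ciSup (hbdd z) T
  refine ⟨fun z => ⨆ T, F T z, ⟨convex_univ, ?_⟩, ?_, ?_, ?_, ?_, ?_⟩
  · intro x _ y _ α β hα hβ hαβ
    refine ciSup_le fun T => ?_
    have h1 : F T (α • x + β • y) ≤ α * F T x + β * F T y := by
      rw [hF', hF', hF', ← Tree.E_mul, ← Tree.E_mul, ← Tree.E_add]
      refine Tree.E_mono (Tree.All_of_forall T fun s => ?_)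
      have e1 : α • x + β • y + s.sum = α • (x + s.sum) + β • (y + s.sum) := by
        have e2 : s.sum = α • s.sum + β • s.sum := by rw [← add_smul, hαβ, one_smul]
        rw [smul_add, smul_add]
        nth_rewrite 1 [e2]
        abel
      have e3 := K_add a b ht.le (α • (x + s.sum)) (β • (y + s.sum))
      rw [K_smul a b ht.le, K_smul a b ht.le, abs_of_nonneg hα, abs_of_nonneg hβ] at e3
      rw [e1]
      have e4 : Φ s = α * Φ s + β * Φ s := by rw [← add_mul, hαβ, one_mul]
      have e5 : α * (K a b t (x + s.sum) - Φ s) + β * (K a b t (y + s.sum) - Φ s) =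
        α * K a b t (x + s.sum) + β * K a b t (y + s.sum) - (α * Φ s + β * Φ s) := by ring
      rw [e5, ← e4]
      linarith
    refine h1.trans ?_
    simp only [smul_eq_mul]
    exact add_le_add (mul_le_mul_of_nonneg_left (hle T x) hα)
      (mul_le_mul_of_nonneg_left (hle T y) hβ)
  · have key : ∀ z, (⨆ T, F T (-z)) ≤ ⨆ T, F T z := by
      intro z
      refine ciSup_le fun T => ?_
      have h1 : F T (-z) = F (T.map fun x => -x) z := by
        rw [hF', hF', Tree.E_map (fun x => rfl)]
        congr 1
        funext s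
        have e1 : K a b t (z + (s.map fun x => -x).sum) = K a b t (-z + s.sum) := by
          rw [sum_map_neg_h30, ← K_neg a b ht.le (-z + s.sum)]
          congr 1
          abel
        have e2 : Φ (s.map fun x => -x) = Φ s := by
          rw [hΦ]
          simp only [List.map_map]
          congr 1
          refine List.map_congr_left fun x _ => ?_
          simp only [Function.comp]
          rw [J_neg]
        rw [e1, e2]
      rw [h1]
      exact hle _ z
    intro z
    refine le_antisymm (key z) ?_
    have h2 := key (-z)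
    rw [neg_neg] at h2
    exact h2
  · intro z
    have h1 : F Tree.leaf z = K a b t z := by
      rw [hF']
      change K a b t (z + List.sum []) - Φ [] = _
      rw [hΦ]
      simp
    rw [← h1]
    exact hle _ z
  · intro z
    exact ciSup_le fun T => hub T z
  · intro z w
    refine ciSup_le fun T => ?_
    have h1 : F T (z + w) ≤ F T z + K a b t w := by
      rw [hF', hF']
      have e1 : T.E (fun s => K a b t (z + s.sum) - Φ s) + K a b t w =
          T.E (fun s => (K a b t (z + s.sum) - Φ s) + K a b t w) := by
        rw [Tree.E_add T (fun s => K a b t (z + s.sum) - Φ s) (fun _ => K a b t w), Tree.E_const]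
      rw [e1]
      refine Tree.E_mono (Tree.All_of_forall T fun s => ?_)
      have e2 := K_add a b ht.le (z + s.sum) w
      have e3 : z + w + s.sum = z + s.sum + w := by abel
      rw [e3]
      linarith
    exact h1.trans (add_le_add_left (hle T z) _)
  · intro z y
    have key : ∀ l r : Tree V, (F l (z + y) + F r (z - y)) / 2 ≤
        (⨆ T, F T z) + φ (J a b t y) := by
      intro l r
      have h1 : F (Tree.node y l r) z =
          (F l (z + y) + F r (z - y)) / 2 - φ (J a b t y) := by
        rw [hF', hF', hF']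
        change (l.E (fun s => K a b t (z + (y :: s).sum) - Φ (y :: s)) +
          r.E (fun s => K a b t (z + (-y :: s).sum) - Φ (-y :: s))) / 2 = _
        have e1 : l.E (fun s => K a b t (z + (y :: s).sum) - Φ (y :: s)) =
            l.E (fun s => K a b t (z + y + s.sum) - Φ s) - φ (J a b t y) := by
          have e0 : (fun s => K a b t (z + (y :: s).sum) - Φ (y :: s)) =
              fun s => (K a b t (z + y + s.sum) - Φ s) - φ (J a b t y) := by
            funext s
            rw [hΦ]
            simp only [List.map_cons, List.sum_cons]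
            rw [← add_assoc]
            ring
          rw [e0, Tree.E_sub l (fun s => K a b t (z + y + s.sum) - Φ s) (fun _ => φ (J a b t y)),
            Tree.E_const]
        have e2 : r.E (fun s => K a b t (z + (-y :: s).sum) - Φ (-y :: s)) =
            r.E (fun s => K a b t (z - y + s.sum) - Φ s) - φ (J a b t y) := by
          have e0 : (fun s => K a b t (z + (-y :: s).sum) - Φ (-y :: s)) =
              fun s => (K a b t (z - y + s.sum) - Φ s) - φ (J a b t y) := by
            funext s
            rw [hΦ]
            simp only [List.map_cons, List.sum_cons]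
            rw [← add_assoc, ← sub_eq_add_neg, J_neg]
            ring
          rw [e0, Tree.E_sub r (fun s => K a b t (z - y + s.sum) - Φ s) (fun _ => φ (J a b t y)),
            Tree.E_const]
        rw [e1, e2]
        ring
      have h2 := hle (Tree.node y l r) z
      rw [h1] at h2
      linarith
    have h3 : ∀ r : Tree V, (⨆ T, F T (z + y)) ≤
        2 * ((⨆ T, F T z) + φ (J a b t y)) - F r (z - y) := by
      intro r
      refine ciSup_le fun l => ?_
      have := key l r
      linarith
    have h4 : (⨆ T, F T (z - y)) ≤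
        2 * ((⨆ T, F T z) + φ (J a b t y)) - ⨆ T, F T (z + y) := by
      refine ciSup_le fun r => ?_
      have := h3 r
      linarith
    linarith

end Pool.Agent.Helper25.NU
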