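import Pool.Agent.Helper25.NU.Levels
import Pool.Agent.Helper25.NU.Value
import Pool.Agent.Helper25.NU.Homog3
import Pool.Agent.Helper25.NU.Interp2

/-!
# Project NU, block A10: the abstract theorem

Let `m : ℕ → ℕ` be positive.  There are `c₁ ≥ 1` and `C' : ℝ → ℝ` such that for every couple of
seminorms `a`, `b` with `b ≤ a` which satisfies `BI a b (1 / (i + 1)) (m i)` for all `i` there is a
seminorm `p` with `US C' p`, `p² ≤ a² + b²` and `b² ≤ 2 c₁ p²`.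

Proof.  `levels` gives `φ`, `C₀`, `Cε`.  For each `i : ℤ` let `t = 2^i`; `exists_value` gives `Vf`, and
`VF (Kn a b ht) C₀ Vf` holds.  `homog` with `Jf = J a b t` (`J_smul`, `K_le_J`) gives the seminorm
`q i`, with `c₁ = 1 + C₀`; its last property with `C = Cε ε` is the hypothesis (Q3) of `interp`.
-/

namespace Pool.Agent.Helper25.NU

theorem abstract_thm (m : ℕ → ℕ) (hm : ∀ i, 0 < m i) :
    ∃ (c₁ : ℝ) (C' : ℝ → ℝ), 1 ≤ c₁ ∧ (∀ ε, 0 < ε → 0 ≤ C' ε) ∧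
      ∀ (V : Type) [AddCommGroup V] [Module ℝ V] (a b : Seminorm ℝ V),
        (∀ i : ℕ, BI a b (1 / (i + 1)) (m i)) → (∀ z, b z ≤ a z) →
        ∃ p : Seminorm ℝ V, US C' p ∧ (∀ z, p z ^ 2 ≤ a z ^ 2 + b z ^ 2) ∧
          (∀ z, b z ^ 2 ≤ 2 * c₁ * p z ^ 2) := by
  obtain ⟨φ, C₀, Cε, hC₀, hφ0, -, hφ, hlev⟩ := levels m hm
  have hc : (1 : ℝ) ≤ 1 + C₀ := by linarith
  obtain ⟨C', hC', hint⟩ := interp (1 + C₀) hc Cε (fun ε hε => (hφ ε hε).1)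
  refine ⟨1 + C₀, C', hc, hC', ?_⟩
  intro V _ _ a b hBI hab
  have key : ∀ i : ℤ, ∃ q : Seminorm ℝ V, (∀ z, K a b (2 ^ i) z ^ 2 ≤ 2 * (1 + C₀) * q z ^ 2) ∧
      (∀ z, q z ^ 2 ≤ K a b (2 ^ i) z ^ 2 / 2) ∧
      ∀ ε C : ℝ, 0 < ε → 0 ≤ C → (∀ u, 0 ≤ u → φ u ≤ ε * u + C * u ^ 2) → ∀ z y,
        (q (z + y) ^ 2 + q (z - y) ^ 2) / 2 ≤
          q z ^ 2 + 2 * ε * J a b (2 ^ i) y * K a b (2 ^ i) z + (C / ε + 4) * J a b (2 ^ i) y ^ 2 := by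
    intro i
    have ht : (0 : ℝ) < 2 ^ i := by positivity
    obtain ⟨Vf, h1, h2, h3, h4, h5, h6⟩ := exists_value a b hφ0 hC₀ ht (hlev V a b hBI _ ht)
    have hVF : VF (Kn a b ht.le) C₀ Vf := ⟨hC₀, h1, h2, h3, h4, h5⟩
    exact homog hVF (Jf := J a b (2 ^ i)) (φ := φ) (fun c y => J_smul a b _ c y)
      (fun y => K_le_J a b ht.le y) h6
  choose q hq1 hq2 hq3 using key
  obtain ⟨p, hp1, hp2, hp3⟩ := hint V a b q (fun i z => hq1 i z) (fun i z => hq2 i z)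
    (fun ε hε i z y => hq3 i ε (Cε ε) hε (hφ ε hε).1 (hφ ε hε).2 z y)
  exact ⟨p, hp1, hp2, hp3 hab⟩

end Pool.Agent.Helper25.NU
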