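import Pool.Agent.Helper25.NU.Defs

/-!
# Project NU, block F1: affine planes (without the vertical lines)

`q` prime; points `(a, b)`, lines `(m, c)` over `ZMod q`; `(a, b)` is on `(m, c)` iff `b = a m + c`.

* `aff q`: every line has `q` points (one for each `a`), two distinct lines `(m, c)`, `(m', c')` have
  at most one common point: `a (m - m') = c' - c`; for `m ≠ m'` this determines `a`, for `m = m'` it
  is impossible, as `c ≠ c'`.
* `card_through`: every point is on `q` lines (one for each `m`).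
* `affT q p ℓ = (1/q if p is on ℓ, else 0) - 1/q²`.
* `sum_abs_row`, `sum_abs_col`: `∑_ℓ |affT| ≤ 2`, `∑_p |affT| ≤ 2`: there are `q` entries `≤ 1/q` and
  `q²` times `1/q²`.
* `row_pairing`: `∑_ℓ affT p ℓ * 1[p on ℓ] = q (1/q - 1/q²) = 1 - 1/q`.
* `sum_sq_le`: `∑_p (∑_ℓ affT p ℓ g ℓ)² ≤ (1/q) ∑_ℓ (g ℓ)²`.
  Proof.  For a point `p = (a, b)` let `S p = ∑_m g (m, b - a m)` be the sum over the lines through
  `p`, and `t = ∑_ℓ g ℓ`.  `∑_p (S p)² = ∑_{ℓ,ℓ'} g ℓ g ℓ' |ℓ ∩ ℓ'|`, with `|ℓ ∩ ℓ'| = q` for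
  `ℓ = ℓ'`, `1` if the slopes differ, `0` if the slopes agree and `ℓ ≠ ℓ'`.  So
  `∑_p (S p)² = q ∑ g² + t² - ∑_m (∑_c g (m, c))²`.  `∑_p S p = q t`.  Hence
  `∑_p (S p/q - t/q²)² = (1/q²) ∑ (S p)² - (2 t/q³) q t + t²/q²
   = (1/q) ∑ g² - (1/q²) ∑_m (∑_c g (m, c))² ≤ (1/q) ∑ g²`.
* `sum_sq_le'`: `(a, b)` is on `(m, c)` iff `(m, -c)` is on `(a, -b)`; so
  `affT p ℓ = affT ℓ' p'` with `ℓ' = (ℓ.1, -ℓ.2)`, `p' = (p.1, -p.2)`, and the claim is `sum_sq_le` for the
  function `p ↦ g (p.1, -p.2)` after the substitutions `p ↦ p'`, `ℓ ↦ ℓ'`.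
-/

namespace Pool.Agent.Helper25.NU

open Finset

variable (q : ℕ) [Fact q.Prime]

/-- The affine plane over `ZMod q`, without the vertical lines. -/
def aff : Inc (ZMod q × ZMod q) (ZMod q × ZMod q) where
  k := q
  k_pos := (Fact.out : q.Prime).pos
  line := fun ℓ => univ.image fun a => (a, a * ℓ.1 + ℓ.2)
  card := by
    intro ℓ
    rw [Finset.card_image_of_injective _ (fun a b h => congrArg Prod.fst h), Finset.card_univ, ZMod.card]
  inter := by
    intro ℓ ℓ' hne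
    rw [Finset.card_le_one]
    rintro ⟨a, b⟩ h ⟨a', b'⟩ h'
    rw [Finset.mem_inter, Finset.mem_image, Finset.mem_image] at h h'
    obtain ⟨⟨x1, -, e1⟩, ⟨x2, -, e2⟩⟩ := h
    obtain ⟨⟨x3, -, e3⟩, ⟨x4, -, e4⟩⟩ := h'
    rw [Prod.mk.injEq] at e1 e2 e3 e4
    obtain ⟨rfl, e1⟩ := e1
    obtain ⟨rfl, e2⟩ := e2
    obtain ⟨rfl, e3⟩ := e3
    obtain ⟨rfl, e4⟩ := e4
    have key : (x2 - x4) * (ℓ.1 - ℓ'.1) = 0 := by
      linear_combination e1 - e2 - e3 + e4
    rcases mul_eq_zero.1 key with hk | hk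
    · have hx : x2 = x4 := sub_eq_zero.1 hk
      subst hx
      rw [← e1, ← e3]
    · exfalso
      apply hne
      have h1 : ℓ.1 = ℓ'.1 := sub_eq_zero.1 hk
      have h2 : ℓ.2 = ℓ'.2 := by
        rw [h1] at e1
        linear_combination e1 - e2
      exact Prod.ext h1 h2

private theorem mem24 (p ℓ : ZMod q × ZMod q) : p ∈ (aff q).line ℓ ↔ p.2 = p.1 * ℓ.1 + ℓ.2 := by
  show p ∈ univ.image (fun a => (a, a * ℓ.1 + ℓ.2)) ↔ _
  rw [Finset.mem_image]
  constructor
  · rintro ⟨a, -, rfl⟩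
    rfl
  · intro h
    exact ⟨p.1, Finset.mem_univ _, Prod.ext rfl h.symm⟩

private theorem qpos24 : (0 : ℝ) < (q : ℝ) := by
  have : 0 < q := (Fact.out : q.Prime).pos
  exact_mod_cast this

private theorem card24 : Fintype.card (ZMod q × ZMod q) = q ^ 2 := by
  rw [Fintype.card_prod, ZMod.card, sq]

/-- The normalised incidence operator, minus its mean. -/
noncomputable def affT (p ℓ : ZMod q × ZMod q) : ℝ :=
  (if p ∈ (aff q).line ℓ then 1 / (q : ℝ) else 0) - 1 / (q : ℝ) ^ 2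

private theorem abs24 (p ℓ : ZMod q × ZMod q) :
    |affT q p ℓ| ≤ (if p ∈ (aff q).line ℓ then 1 / (q : ℝ) else 0) + 1 / (q : ℝ) ^ 2 := by
  have hq := qpos24 q
  unfold affT
  refine (abs_sub _ _).trans ?_
  have h1 : 0 ≤ (if p ∈ (aff q).line ℓ then 1 / (q : ℝ) else 0) := by
    split_ifs
    · positivity
    · exact le_rfl
  rw [abs_of_nonneg h1, abs_of_nonneg (by positivity)]

theorem aff_k : (aff q).k = q := rfl

theorem card_through (p : ZMod q × ZMod q) :
    (univ.filter fun ℓ => p ∈ (aff q).line ℓ).card = q := by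
  have h : (univ.filter fun ℓ => p ∈ (aff q).line ℓ) = univ.image fun m : ZMod q => (m, p.2 - p.1 * m) := by
    ext ℓ
    rw [Finset.mem_filter, mem24, Finset.mem_image]
    constructor
    · rintro ⟨-, h⟩
      refine ⟨ℓ.1, Finset.mem_univ _, Prod.ext rfl ?_⟩
      show p.2 - p.1 * ℓ.1 = ℓ.2
      rw [h]
      ring
    · rintro ⟨m, -, h⟩
      refine ⟨Finset.mem_univ _, ?_⟩
      rw [← h]
      show p.2 = p.1 * m + (p.2 - p.1 * m)
      ring
  rw [h, Finset.card_image_of_injective _ (fun a b h => congrArg Prod.fst h), Finset.card_univ, ZMod.card]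

theorem sum_abs_row (p : ZMod q × ZMod q) : ∑ ℓ, |affT q p ℓ| ≤ 2 := by
  have hq := qpos24 q
  have h1 : ∀ ℓ, |affT q p ℓ| ≤ (if p ∈ (aff q).line ℓ then 1 / (q : ℝ) else 0) + 1 / (q : ℝ) ^ 2 :=
    fun ℓ => abs24 q p ℓ
  refine (Finset.sum_le_sum fun ℓ _ => h1 ℓ).trans ?_
  rw [Finset.sum_add_distrib, ← Finset.sum_filter, Finset.sum_const, card_through, Finset.sum_const,
    Finset.card_univ, card24, nsmul_eq_mul, nsmul_eq_mul]
  push_cast
  field_simp
  norm_num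

theorem sum_abs_col (ℓ : ZMod q × ZMod q) : ∑ p, |affT q p ℓ| ≤ 2 := by
  have hq := qpos24 q
  have h1 : ∀ p, |affT q p ℓ| ≤ (if p ∈ (aff q).line ℓ then 1 / (q : ℝ) else 0) + 1 / (q : ℝ) ^ 2 :=
    fun p => abs24 q p ℓ
  refine (Finset.sum_le_sum fun p _ => h1 p).trans ?_
  have h2 : (univ.filter fun p => p ∈ (aff q).line ℓ).card = q := by
    rw [Finset.filter_mem_eq_inter, Finset.univ_inter]
    exact (aff q).card ℓ
  rw [Finset.sum_add_distrib, ← Finset.sum_filter, Finset.sum_const, h2, Finset.sum_const,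
    Finset.card_univ, card24, nsmul_eq_mul, nsmul_eq_mul]
  push_cast
  field_simp
  norm_num

theorem row_pairing (p : ZMod q × ZMod q) :
    ∑ ℓ, affT q p ℓ * (if p ∈ (aff q).line ℓ then 1 else 0) = 1 - 1 / (q : ℝ) := by
  have hq := qpos24 q
  have h1 : ∀ ℓ, affT q p ℓ * (if p ∈ (aff q).line ℓ then 1 else 0) =
      if p ∈ (aff q).line ℓ then (1 / (q : ℝ) - 1 / (q : ℝ) ^ 2) else 0 := by
    intro ℓ
    unfold affT
    split_ifs <;> ring
  simp only [h1]
  rw [← Finset.sum_filter, Finset.sum_const, card_through, nsmul_eq_mul]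
  field_simp

theorem sum_sq_le (g : ZMod q × ZMod q → ℝ) :
    ∑ p, (∑ ℓ, affT q p ℓ * g ℓ) ^ 2 ≤ 1 / (q : ℝ) * ∑ ℓ, g ℓ ^ 2 := by
  have hq := qpos24 q
  set t : ℝ := ∑ ℓ, g ℓ with ht
  set G : ZMod q → ℝ := fun m => ∑ c, g (m, c) with hG
  set S : ZMod q × ZMod q → ℝ := fun p => ∑ m, g (m, p.2 - p.1 * m) with hS
  have htG : t = ∑ m, G m := by
    rw [ht, Fintype.sum_prod_type]
  have h1 : ∀ p, ∑ ℓ, affT q p ℓ * g ℓ = S p / q - t / (q : ℝ) ^ 2 := by
    intro p
    have e1 : ∀ ℓ, affT q p ℓ * g ℓ = (if p ∈ (aff q).line ℓ then g ℓ / (q : ℝ) else 0) - g ℓ / (q : ℝ) ^ 2 := by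
      intro ℓ
      unfold affT
      split_ifs <;> ring
    simp only [e1]
    rw [Finset.sum_sub_distrib, ← Finset.sum_div, ← ht]
    congr 1
    rw [hS, Finset.sum_div, Fintype.sum_prod_type]
    refine Finset.sum_congr rfl fun m _ => ?_
    rw [Finset.sum_eq_single (p.2 - p.1 * m)]
    · rw [if_pos]
      rw [mem24]
      show p.2 = p.1 * m + (p.2 - p.1 * m)
      ring
    · intro c _ hc
      rw [if_neg]
      rw [mem24]
      intro h
      apply hc
      have h' : p.2 = p.1 * m + c := h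
      rw [h']
      ring
    · intro h
      exact absurd (Finset.mem_univ _) h
  have hline : ∀ (f : ZMod q → ℝ) (m : ZMod q), ∑ p : ZMod q × ZMod q, f (p.2 - p.1 * m) = q * ∑ c, f c := by
    intro f m
    rw [Fintype.sum_prod_type]
    have : ∀ a : ZMod q, ∑ b : ZMod q, f ((a, b).2 - (a, b).1 * m) = ∑ c, f c := by
      intro a
      exact Equiv.sum_comp (Equiv.subRight (a * m)) f
    simp only [this]
    rw [Finset.sum_const, Finset.card_univ, ZMod.card, nsmul_eq_mul]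
  have h2 : ∑ p, S p = q * t := by
    rw [hS, Finset.sum_comm]
    have : ∀ m : ZMod q, ∑ p : ZMod q × ZMod q, g (m, p.2 - p.1 * m) = q * G m := fun m =>
      hline (fun c => g (m, c)) m
    simp only [this]
    rw [← Finset.mul_sum, ← htG]
  have hcross : ∀ m m' : ZMod q, m ≠ m' →
      ∑ p : ZMod q × ZMod q, g (m, p.2 - p.1 * m) * g (m', p.2 - p.1 * m') = G m * G m' := by
    intro m m' hne
    have hsub : m' - m ≠ 0 := sub_ne_zero.2 (Ne.symm hne)
    let e : (ZMod q × ZMod q) ≃ (ZMod q × ZMod q) :=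
      { toFun := fun p => (p.2 - p.1 * m, p.2 - p.1 * m')
        invFun := fun z => ((z.1 - z.2) / (m' - m), z.1 + (z.1 - z.2) / (m' - m) * m)
        left_inv := by
          rintro ⟨a, b⟩
          have e1 : (b - a * m - (b - a * m')) / (m' - m) = a := by
            rw [div_eq_iff hsub]
            ring
          apply Prod.ext
          · exact e1
          · show b - a * m + (b - a * m - (b - a * m')) / (m' - m) * m = b
            rw [e1]
            ring
        right_inv := by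
          rintro ⟨x, y⟩
          have e1 : (x - y) / (m' - m) * (m' - m) = x - y := div_mul_cancel₀ _ hsub
          apply Prod.ext
          · show x + (x - y) / (m' - m) * m - (x - y) / (m' - m) * m = x
            ring
          · show x + (x - y) / (m' - m) * m - (x - y) / (m' - m) * m' = y
            linear_combination -e1 }
    have h3 := Equiv.sum_comp e (fun z : ZMod q × ZMod q => g (m, z.1) * g (m', z.2))
    refine h3.trans ?_
    rw [Fintype.sum_prod_type, hG, Finset.sum_mul_sum]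
  have h3 : ∑ p, S p ^ 2 = q * ∑ ℓ, g ℓ ^ 2 + t ^ 2 - ∑ m, G m ^ 2 := by
    have e1 : ∀ p, S p ^ 2 = ∑ m, ∑ m', g (m, p.2 - p.1 * m) * g (m', p.2 - p.1 * m') := by
      intro p
      rw [sq, hS, Finset.sum_mul_sum]
    simp only [e1]
    rw [Finset.sum_comm]
    have e2 : ∀ m : ZMod q, ∑ p : ZMod q × ZMod q, ∑ m', g (m, p.2 - p.1 * m) * g (m', p.2 - p.1 * m') =
        (q * ∑ c, g (m, c) ^ 2) + (G m * ∑ m', G m' - G m ^ 2) := by
      intro m
      rw [Finset.sum_comm]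
      rw [← Finset.add_sum_erase _ _ (Finset.mem_univ m)]
      congr 1
      · rw [← hline (fun c => g (m, c) ^ 2) m]
        refine Finset.sum_congr rfl fun p _ => ?_
        rw [sq]
      · rw [← Finset.add_sum_erase _ G (Finset.mem_univ m)]
        rw [mul_add, sq, add_sub_cancel_left, Finset.mul_sum]
        refine Finset.sum_congr rfl fun m' hm' => ?_
        exact hcross m m' (Finset.ne_of_mem_erase hm').symm
    simp only [e2]
    rw [Finset.sum_add_distrib, Finset.sum_sub_distrib, ← Finset.mul_sum, ← Finset.sum_mul, ← htG,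
      Fintype.sum_prod_type]
    ring
  simp only [h1]
  have h4 : ∑ p, (S p / q - t / (q : ℝ) ^ 2) ^ 2 =
      (∑ p, S p ^ 2) / (q : ℝ) ^ 2 - 2 * t / (q : ℝ) ^ 3 * ∑ p, S p + (q : ℝ) ^ 2 * (t ^ 2 / (q : ℝ) ^ 4) := by
    have e1 : ∀ p, (S p / q - t / (q : ℝ) ^ 2) ^ 2 =
        S p ^ 2 / (q : ℝ) ^ 2 - 2 * t / (q : ℝ) ^ 3 * S p + t ^ 2 / (q : ℝ) ^ 4 := by
      intro p
      field_simp
      ring
    simp only [e1]
    rw [Finset.sum_add_distrib, Finset.sum_sub_distrib, ← Finset.sum_div, ← Finset.mul_sum, Finset.sum_const,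
      Finset.card_univ, card24, nsmul_eq_mul]
    push_cast
    ring
  have h5 : 0 ≤ ∑ m, G m ^ 2 := Finset.sum_nonneg fun m _ => sq_nonneg _
  rw [h4, h2, h3]
  have h6 : (q * ∑ ℓ, g ℓ ^ 2 + t ^ 2 - ∑ m, G m ^ 2) / (q : ℝ) ^ 2 - 2 * t / (q : ℝ) ^ 3 * (q * t) +
      (q : ℝ) ^ 2 * (t ^ 2 / (q : ℝ) ^ 4) = 1 / (q : ℝ) * ∑ ℓ, g ℓ ^ 2 - (∑ m, G m ^ 2) / (q : ℝ) ^ 2 := by
    field_simp
    ring
  rw [h6]
  have h7 : 0 ≤ (∑ m, G m ^ 2) / (q : ℝ) ^ 2 := by positivity
  linarith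

/-- The same for the transposed operator. -/
theorem sum_sq_le' (g : ZMod q × ZMod q → ℝ) :
    ∑ ℓ, (∑ p, affT q p ℓ * g p) ^ 2 ≤ 1 / (q : ℝ) * ∑ p, g p ^ 2 := by
  let e : (ZMod q × ZMod q) ≃ (ZMod q × ZMod q) := (Equiv.refl _).prodCongr (Equiv.neg _)
  have he : ∀ x, e x = (x.1, -x.2) := fun x => rfl
  have h1 : ∀ p ℓ, affT q p ℓ = affT q (e ℓ) (e p) := by
    intro p ℓ
    unfold affT
    have : (p ∈ (aff q).line ℓ) ↔ (e ℓ ∈ (aff q).line (e p)) := by
      rw [mem24, mem24, he, he]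
      constructor
      · intro h
        show -ℓ.2 = ℓ.1 * p.1 + -p.2
        rw [h]
        ring
      · intro h
        have h' : -ℓ.2 = ℓ.1 * p.1 + -p.2 := h
        linear_combination h'
    simp only [this]
  have h2 : ∑ ℓ, (∑ p, affT q p ℓ * g p) ^ 2 = ∑ x, (∑ y, affT q x y * g (e.symm y)) ^ 2 := by
    refine Eq.trans ?_ (Equiv.sum_comp e (fun x => (∑ y, affT q x y * g (e.symm y)) ^ 2))
    refine Finset.sum_congr rfl fun ℓ _ => ?_
    have h3 : ∑ p, affT q p ℓ * g p = ∑ y, affT q (e ℓ) y * g (e.symm y) := by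
      refine Eq.trans ?_ (Equiv.sum_comp e (fun y => affT q (e ℓ) y * g (e.symm y)))
      refine Finset.sum_congr rfl fun p _ => ?_
      rw [h1 p ℓ, Equiv.symm_apply_apply]
    rw [h3]
  rw [h2]
  refine (sum_sq_le q (fun y => g (e.symm y))).trans (le_of_eq ?_)
  congr 1
  exact Equiv.sum_comp e.symm (fun y => g y ^ 2)

end Pool.Agent.Helper25.NU
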