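import Pool.Agent.Helper25.NU.Defs

/-!
# Project NU, block G1: the correction function

For a set `V` of lines and coefficients `c` let `corr G V c = ∑_{ℓ ∈ V} (c ℓ / k) 1_ℓ : P → ℝ`.

* `n1_corr_le`: `‖corr‖₁ ≤ ∑_V |c ℓ| |ℓ| / k = ∑_V |c ℓ|` (each line has `k` points).
* `A_corr_le`: the sum of `corr` over the line `ℓ'` is `∑_{ℓ ∈ V} c ℓ |ℓ ∩ ℓ'| / k`.  For `ℓ = ℓ'` the
  term is `c ℓ'`; for `ℓ ≠ ℓ'`, `|ℓ ∩ ℓ'| ≤ 1`.  So up to `(∑_V |c ℓ|) / k` the sum is `c ℓ'` if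
  `ℓ' ∈ V` and `0` otherwise.
* `sum_corr_sq_le`: `∑_p corr² = ∑_{ℓ, ℓ' ∈ V} c ℓ c ℓ' |ℓ ∩ ℓ'| / k²`; the terms `ℓ = ℓ'` give
  `∑_V (c ℓ)² / k`, the others at most `(∑_V |c ℓ|)² / k²`; and `(∑_V |c ℓ|)² ≤ |V| ∑_V (c ℓ)²`.
* `nq_pow_four_le`: if `u : P → ℝ` vanishes outside `s` then by Hölder's inequality
  (exponents `3/2`, `3`) `∑ |u| ^ (4/3) ≤ (∑ u²) ^ (2/3) |s| ^ (1/3)`, i.e.
  `nq u ^ 4 ≤ |s| (∑ u²)²`.
* `nq_corr_le`: `corr` vanishes outside the union of the lines of `V`, which has at most `k |V|`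
  points, so `nq corr ^ 4 ≤ k |V| ((∑_V c²) / k + |V| (∑_V c²) / k²)² =
  (|V| / k) (1 + |V| / k)² (∑_V c²)²`.
-/

namespace Pool.Agent.Helper25.NU

open Finset

variable {P L : Type} [Fintype P] [Fintype L] [DecidableEq P] [DecidableEq L]

/-- The correction function. -/
noncomputable def Inc.corr (G : Inc P L) (V : Finset L) (c : L → ℝ) : P → ℝ :=
  fun p => ∑ ℓ ∈ V, if p ∈ G.line ℓ then c ℓ / G.k else 0

private theorem k_ne94 (G : Inc P L) : (G.k : ℝ) ≠ 0 := by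
  have := G.k_pos
  positivity

private theorem A_corr_eq94 (G : Inc P L) (V : Finset L) (c : L → ℝ) (ℓ' : L) :
    G.A (G.corr V c) ℓ' = ∑ ℓ ∈ V, ((G.line ℓ' ∩ G.line ℓ).card : ℝ) * (c ℓ / G.k) := by
  unfold Inc.A Inc.corr
  rw [Finset.sum_comm]
  refine Finset.sum_congr rfl fun ℓ _ => ?_
  rw [Finset.sum_ite_mem, Finset.sum_const, nsmul_eq_mul]

theorem Inc.n1_corr_le (G : Inc P L) (V : Finset L) (c : L → ℝ) :
    n1 (G.corr V c) ≤ ∑ ℓ ∈ V, |c ℓ| := by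
  unfold n1 Inc.corr
  calc ∑ p, |∑ ℓ ∈ V, if p ∈ G.line ℓ then c ℓ / G.k else 0|
      ≤ ∑ p, ∑ ℓ ∈ V, |if p ∈ G.line ℓ then c ℓ / G.k else 0| :=
        Finset.sum_le_sum fun p _ => Finset.abs_sum_le_sum_abs _ _
    _ = ∑ ℓ ∈ V, ∑ p, |if p ∈ G.line ℓ then c ℓ / G.k else 0| := Finset.sum_comm
    _ = ∑ ℓ ∈ V, |c ℓ| := by
        refine Finset.sum_congr rfl fun ℓ _ => ?_
        have h1 : ∀ p : P, |if p ∈ G.line ℓ then c ℓ / G.k else 0| =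
            if p ∈ G.line ℓ then |c ℓ| / G.k else 0 := by
          intro p
          split_ifs
          · rw [abs_div, Nat.abs_cast]
          · exact abs_zero
        simp_rw [h1]
        rw [Finset.sum_ite_mem, Finset.univ_inter, Finset.sum_const, nsmul_eq_mul, G.card]
        exact mul_div_cancel₀ _ (k_ne94 G)
    _ ≤ ∑ ℓ ∈ V, |c ℓ| := le_rfl

theorem Inc.A_corr_le (G : Inc P L) (V : Finset L) (c : L → ℝ) (ℓ' : L) :
    |G.A (G.corr V c) ℓ' - (if ℓ' ∈ V then c ℓ' else 0)| ≤ (∑ ℓ ∈ V, |c ℓ|) / G.k := by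
  have h1 : (if ℓ' ∈ V then c ℓ' else 0) = ∑ ℓ ∈ V, if ℓ' = ℓ then c ℓ else 0 := by
    rw [Finset.sum_ite_eq]
  rw [A_corr_eq94, h1, ← Finset.sum_sub_distrib, Finset.sum_div]
  refine (Finset.abs_sum_le_sum_abs _ _).trans (Finset.sum_le_sum fun ℓ _ => ?_)
  have hk : (0 : ℝ) < G.k := by
    have := G.k_pos
    positivity
  by_cases h : ℓ' = ℓ
  · subst h
    rw [if_pos rfl, Finset.inter_self, G.card, mul_div_cancel₀ _ hk.ne', sub_self, abs_zero]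
    positivity
  · rw [if_neg h, sub_zero, abs_mul, abs_div, Nat.abs_cast, Nat.abs_cast]
    have h2 : ((G.line ℓ' ∩ G.line ℓ).card : ℝ) ≤ 1 := by exact_mod_cast G.inter ℓ' ℓ h
    exact mul_le_of_le_one_left (by positivity) h2

theorem Inc.sum_corr_sq_le (G : Inc P L) (V : Finset L) (c : L → ℝ) :
    ∑ p, G.corr V c p ^ 2 ≤
      (∑ ℓ ∈ V, c ℓ ^ 2) / G.k + V.card * (∑ ℓ ∈ V, c ℓ ^ 2) / (G.k : ℝ) ^ 2 := by
  have hk : (0 : ℝ) < G.k := by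
    have := G.k_pos
    positivity
  have h1 : ∑ p, G.corr V c p ^ 2 = ∑ ℓ ∈ V, c ℓ / G.k * G.A (G.corr V c) ℓ := by
    calc ∑ p, G.corr V c p ^ 2
        = ∑ p, ∑ ℓ ∈ V, G.corr V c p * (if p ∈ G.line ℓ then c ℓ / G.k else 0) := by
          refine Finset.sum_congr rfl fun p _ => ?_
          rw [← Finset.mul_sum, sq]
          rfl
      _ = ∑ ℓ ∈ V, ∑ p, G.corr V c p * (if p ∈ G.line ℓ then c ℓ / G.k else 0) :=
          Finset.sum_comm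
      _ = ∑ ℓ ∈ V, c ℓ / G.k * G.A (G.corr V c) ℓ := by
          refine Finset.sum_congr rfl fun ℓ _ => ?_
          unfold Inc.A
          rw [Finset.mul_sum]
          have h2 : ∀ p : P, G.corr V c p * (if p ∈ G.line ℓ then c ℓ / G.k else 0) =
              if p ∈ G.line ℓ then c ℓ / G.k * G.corr V c p else 0 := by
            intro p
            split_ifs
            · ring
            · ring
          simp_rw [h2]
          rw [Finset.sum_ite_mem, Finset.univ_inter]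
  have h3 : ∀ ℓ ∈ V, c ℓ / G.k * G.A (G.corr V c) ℓ ≤
      c ℓ ^ 2 / G.k + |c ℓ| * ((∑ ℓ ∈ V, |c ℓ|) / (G.k : ℝ) ^ 2) := by
    intro ℓ hℓ
    have h4 := G.A_corr_le V c ℓ
    rw [if_pos hℓ] at h4
    have h5 : c ℓ / G.k * G.A (G.corr V c) ℓ =
        c ℓ ^ 2 / G.k + c ℓ / G.k * (G.A (G.corr V c) ℓ - c ℓ) := by ring
    rw [h5]
    have h6 : c ℓ / G.k * (G.A (G.corr V c) ℓ - c ℓ) ≤
        |c ℓ| / G.k * ((∑ ℓ ∈ V, |c ℓ|) / G.k) := by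
      refine (le_abs_self _).trans ?_
      rw [abs_mul, abs_div, Nat.abs_cast]
      exact mul_le_mul_of_nonneg_left h4 (by positivity)
    have h7 : |c ℓ| / G.k * ((∑ ℓ ∈ V, |c ℓ|) / G.k) =
        |c ℓ| * ((∑ ℓ ∈ V, |c ℓ|) / (G.k : ℝ) ^ 2) := by
      rw [sq]
      field_simp
    rw [h7] at h6
    linarith
  have h8 : (∑ ℓ ∈ V, |c ℓ|) ^ 2 ≤ V.card * ∑ ℓ ∈ V, c ℓ ^ 2 := by
    have := sq_sum_le_card_mul_sum_sq (s := V) (f := fun ℓ => |c ℓ|)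
    simpa only [sq_abs] using this
  rw [h1]
  refine (Finset.sum_le_sum h3).trans ?_
  rw [Finset.sum_add_distrib, ← Finset.sum_div, ← Finset.sum_mul]
  have h9 : (∑ ℓ ∈ V, |c ℓ|) * ((∑ ℓ ∈ V, |c ℓ|) / (G.k : ℝ) ^ 2) ≤
      V.card * (∑ ℓ ∈ V, c ℓ ^ 2) / (G.k : ℝ) ^ 2 := by
    rw [← mul_div_assoc, ← sq]
    exact div_le_div_of_nonneg_right h8 (by positivity)
  linarith

theorem nq_pow_four_le {P : Type} [Fintype P] (u : P → ℝ) (s : Finset P)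
    (hs : ∀ p, p ∉ s → u p = 0) : nq u ^ 4 ≤ s.card * (∑ p, u p ^ 2) ^ 2 := by
  classical
  obtain ⟨A, hA⟩ : ∃ A : ℝ, A = ∑ p, |u p| ^ (4 / 3 : ℝ) := ⟨_, rfl⟩
  have hA0 : 0 ≤ A := by
    rw [hA]
    exact Finset.sum_nonneg fun _ _ => Real.rpow_nonneg (abs_nonneg _) _
  have h1 : nq u ^ 4 = A ^ 3 := by
    unfold nq
    rw [← hA, ← Real.rpow_natCast, ← Real.rpow_mul hA0, ← Real.rpow_natCast A 3]
    norm_num
  have h2 : A = ∑ p ∈ s, |(|u p| ^ (4 / 3 : ℝ))| := by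
    rw [hA]
    symm
    refine (Finset.sum_congr rfl fun p _ => abs_of_nonneg
      (Real.rpow_nonneg (abs_nonneg (u p)) _)).trans ?_
    refine Finset.sum_subset (Finset.subset_univ s) fun p _ hp => ?_
    rw [hs p hp, abs_zero, Real.zero_rpow (by norm_num)]
  have h3 : ∑ p, u p ^ 2 = ∑ p ∈ s, |(|u p| ^ (4 / 3 : ℝ))| ^ (3 / 2 : ℝ) := by
    symm
    refine (Finset.sum_congr rfl fun p _ => ?_ : _ = ∑ p ∈ s, u p ^ 2).trans ?_
    · rw [abs_of_nonneg (Real.rpow_nonneg (abs_nonneg (u p)) _), ← Real.rpow_mul (abs_nonneg _)]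
      norm_num
    · refine Finset.sum_subset (Finset.subset_univ s) fun p _ hp => ?_
      rw [hs p hp]
      norm_num
  have h4 := Real.rpow_sum_le_const_mul_sum_rpow s (fun p => |u p| ^ (4 / 3 : ℝ))
    (show (1 : ℝ) ≤ 3 / 2 by norm_num)
  rw [← h2, ← h3] at h4
  have h5 : (A ^ (3 / 2 : ℝ)) ^ 2 = A ^ 3 := by
    rw [← Real.rpow_natCast, ← Real.rpow_mul hA0, ← Real.rpow_natCast A 3]
    norm_num
  have h6 : (((s.card : ℝ) ^ ((3 / 2 : ℝ) - 1)) * ∑ p, u p ^ 2) ^ 2 =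
      s.card * (∑ p, u p ^ 2) ^ 2 := by
    rw [mul_pow, ← Real.rpow_natCast ((s.card : ℝ) ^ ((3 / 2 : ℝ) - 1)),
      ← Real.rpow_mul (Nat.cast_nonneg _)]
    norm_num
  rw [h1, ← h5, ← h6]
  exact pow_le_pow_left₀ (Real.rpow_nonneg hA0 _) h4 2

theorem Inc.nq_corr_le (G : Inc P L) (V : Finset L) (c : L → ℝ) :
    nq (G.corr V c) ^ 4 ≤
      (V.card / G.k : ℝ) * (1 + V.card / G.k) ^ 2 * (∑ ℓ ∈ V, c ℓ ^ 2) ^ 2 := by
  have hk : (0 : ℝ) < G.k := by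
    have := G.k_pos
    positivity
  have h1 := nq_pow_four_le (G.corr V c) (V.biUnion G.line) (fun p hp => by
    unfold Inc.corr
    refine Finset.sum_eq_zero fun ℓ hℓ => if_neg fun h => hp ?_
    exact Finset.mem_biUnion.2 ⟨ℓ, hℓ, h⟩)
  have h2 : ((V.biUnion G.line).card : ℝ) ≤ V.card * G.k := by
    have h3 : (V.biUnion G.line).card ≤ V.card * G.k :=
      Finset.card_biUnion_le_card_mul V G.line G.k fun ℓ _ => (G.card ℓ).le
    exact_mod_cast h3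
  have h4 := G.sum_corr_sq_le V c
  have h5 : 0 ≤ ∑ p, G.corr V c p ^ 2 := Finset.sum_nonneg fun _ _ => sq_nonneg _
  refine h1.trans ?_
  calc ((V.biUnion G.line).card : ℝ) * (∑ p, G.corr V c p ^ 2) ^ 2
      ≤ (V.card * G.k) * ((∑ ℓ ∈ V, c ℓ ^ 2) / G.k +
          V.card * (∑ ℓ ∈ V, c ℓ ^ 2) / (G.k : ℝ) ^ 2) ^ 2 :=
        mul_le_mul h2 (pow_le_pow_left₀ h5 h4 2) (by positivity) (by positivity)
    _ = (V.card / G.k : ℝ) * (1 + V.card / G.k) ^ 2 * (∑ ℓ ∈ V, c ℓ ^ 2) ^ 2 := by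
        field_simp

end Pool.Agent.Helper25.NU
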