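import Pool.Agent.Helper25.NU.Count

/-!
# Project NU, block C2: few lines have large sums (first counting lemma)

Let `t > 0`, `0 < δ ≤ 1`, `η = δ⁵ / 8192`, `‖x‖₁ ≤ 1`, `‖x‖_{4/3} ≤ 1/t` and `|x p| ≤ η / t` for all
`p`.  If `|A x ℓ| ≥ δ/t` for all `ℓ ∈ B`, `N = |B|`, then

  (i) `N ≤ 2 t / δ`,   (ii) `N³ ≤ 16 k / δ⁴`.

Proof.  Write `mu p = G.mu B p`.  By `sum_abs_A_le`,
`N δ / t ≤ ∑_{ℓ ∈ B} |A x ℓ| ≤ ∑_p |x p| mu p = Σ₁ + Σ₂`, where `Σ₁` is the sum over the `p` with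
`mu p = 1` and `Σ₂` the one over the `p` with `mu p ≥ 2`.

Bound of `Σ₂`.  Let `lam = δ² / 32`.
(a) Points with `mu p ≥ 2`, `mu p > lam N`: each has `mu² > lam² N²`, so by `sum_mu_sq_le` their
number is at most `2 / lam²`; since `|x p| ≤ η/t` and `mu p ≤ N` they contribute at most
`(2 / lam²) (η/t) N = (N/t) (2 η / lam²) = (N/t) δ/4`.
(Alternatively: `|x p| mu p ≤ (η/t) mu p ≤ (η/t) (mu p)² / (lam N)`, with sum at most
`(η/t) 2 N² / (lam N) = (N/t) 2 η / lam`, even better; this needs `N > 0`.)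
(b) Points with `2 ≤ mu p ≤ lam N`: by Hölder's inequality (`4/3`, `4`)
(`Real.inner_le_Lp_mul_Lq`) they contribute at most
`‖x‖_{4/3} (∑ mu⁴)^{1/4} ≤ (1/t) (lam² N² · 2 N²)^{1/4} = (N/t) (2 lam²)^{1/4} ≤ (N/t) δ/4`, since
`2 lam² = 2 δ⁴ / 1024 = δ⁴/512 ≤ (δ/4)⁴ = δ⁴/256`.
So `Σ₂ ≤ N δ / (2 t)` and hence `N δ / (2 t) ≤ Σ₁`.

(i) `Σ₁ ≤ ‖x‖₁ ≤ 1`.
(ii) By Hölder, `Σ₁ ≤ ‖x‖_{4/3} · #{p : mu p = 1}^{1/4} ≤ (1/t) (k N)^{1/4}` (`card_pos_mu_le`).  So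
`N δ / 2 ≤ (k N)^{1/4}`, and by taking fourth powers `N⁴ δ⁴ / 16 ≤ k N`.

(`nq x = (∑ |x p| ^ (4/3)) ^ (3/4)` is the `ℓ_{4/3}`-norm, `n1` the `ℓ₁`-norm.)
-/

namespace Pool.Agent.Helper25.NU

open Finset

variable {P L : Type} [Fintype P] [Fintype L] [DecidableEq P] [DecidableEq L]

/-- Hölder's inequality with exponents `4/3` and `4`, in the form used here. -/
theorem holder43 {P : Type} [Fintype P] (x : P → ℝ) (s : Finset P) (f : P → ℝ)
    (hf : ∀ p ∈ s, 0 ≤ f p) :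
    ∑ p ∈ s, |x p| * f p ≤ nq x * (∑ p ∈ s, f p ^ 4) ^ (1 / 4 : ℝ) := by
  have hpq : (4 / 3 : ℝ).HolderConjugate 4 := by
    rw [Real.holderConjugate_iff]
    norm_num
  have h := Real.inner_le_Lp_mul_Lq s (fun p => |x p|) f hpq
  have h1 : ∑ p ∈ s, |(|x p|)| ^ (4 / 3 : ℝ) ≤ ∑ p, |x p| ^ (4 / 3 : ℝ) := by
    simp only [abs_abs]
    exact Finset.sum_le_sum_of_subset_of_nonneg (Finset.subset_univ s)
      (fun _ _ _ => Real.rpow_nonneg (abs_nonneg _) _)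
  have h2 : ∑ p ∈ s, |f p| ^ (4 : ℝ) = ∑ p ∈ s, f p ^ 4 := by
    refine Finset.sum_congr rfl fun p hp => ?_
    rw [abs_of_nonneg (hf p hp)]
    exact_mod_cast Real.rpow_natCast (f p) 4
  rw [h2] at h
  refine h.trans (mul_le_mul_of_nonneg_right ?_
    (Real.rpow_nonneg (Finset.sum_nonneg fun p hp => pow_nonneg (hf p hp) 4) _))
  unfold nq
  rw [show (1 / (4 / 3) : ℝ) = 3 / 4 by norm_num]
  exact Real.rpow_le_rpow (Finset.sum_nonneg fun _ _ => Real.rpow_nonneg (abs_nonneg _) _) h1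
    (by norm_num)

private theorem pow_quarter77 {a : ℝ} (ha : 0 ≤ a) : (a ^ 4) ^ (1 / 4 : ℝ) = a := by
  rw [← Real.rpow_natCast, ← Real.rpow_mul ha]
  norm_num

private theorem large77 (G : Inc P L) {t δ : ℝ} (ht : 0 < t) (hδ : 0 < δ) (hδ1 : δ ≤ 1)
    {x : P → ℝ} (hx : ∀ p, |x p| ≤ δ ^ 5 / 8192 / t) (B : Finset L) (hB : (0 : ℝ) < B.card) :
    ∑ p ∈ (univ.filter fun p => 2 ≤ G.mu B p).filter
      (fun p => δ ^ 2 / 32 * B.card < G.mu B p), |x p| * G.mu B p ≤ B.card * δ / (4 * t) := by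
  have hmu0 : ∀ p, (0 : ℝ) ≤ G.mu B p := fun p => Nat.cast_nonneg _
  obtain ⟨N, hN⟩ : ∃ N : ℝ, N = B.card := ⟨_, rfl⟩
  have hsq := G.sum_mu_sq_le B
  rw [← hN] at hB hsq ⊢
  have h1 : ∀ p ∈ (univ.filter fun p => 2 ≤ G.mu B p).filter
      (fun p => δ ^ 2 / 32 * N < G.mu B p), |x p| * G.mu B p ≤
      (δ ^ 5 / 8192 / t) / (δ ^ 2 / 32 * N) * (G.mu B p : ℝ) ^ 2 := by
    intro p hp
    rw [Finset.mem_filter] at hp
    have h2 := hp.2.le
    calc |x p| * G.mu B p ≤ (δ ^ 5 / 8192 / t) * G.mu B p :=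
          mul_le_mul_of_nonneg_right (hx p) (hmu0 p)
      _ ≤ (δ ^ 5 / 8192 / t) * ((G.mu B p : ℝ) * ((G.mu B p : ℝ) / (δ ^ 2 / 32 * N))) := by
          apply mul_le_mul_of_nonneg_left _ (by positivity)
          refine le_mul_of_one_le_right (hmu0 p) ?_
          rw [one_le_div (by positivity)]
          exact h2
      _ = _ := by ring
  refine (Finset.sum_le_sum h1).trans ?_
  rw [← Finset.mul_sum]
  have h3 : ∑ p ∈ (univ.filter fun p => 2 ≤ G.mu B p).filter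
      (fun p => δ ^ 2 / 32 * N < G.mu B p), (G.mu B p : ℝ) ^ 2 ≤ 2 * N ^ 2 :=
    (Finset.sum_le_sum_of_subset_of_nonneg (Finset.filter_subset _ _)
      (fun _ _ _ => sq_nonneg _)).trans hsq
  have hd : δ ^ 2 / 32 ≤ 1 := by nlinarith
  calc _ ≤ (δ ^ 5 / 8192 / t) / (δ ^ 2 / 32 * N) * (2 * N ^ 2) :=
        mul_le_mul_of_nonneg_left h3 (by positivity)
    _ = N * δ / (4 * t) * (δ ^ 2 / 32) := by
        field_simp
        norm_num
    _ ≤ N * δ / (4 * t) := mul_le_of_le_one_right (by positivity) hd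

private theorem small77 (G : Inc P L) {t δ : ℝ} (ht : 0 < t) (hδ : 0 < δ)
    {x : P → ℝ} (hq : nq x ≤ 1 / t) (B : Finset L) :
    ∑ p ∈ (univ.filter fun p => 2 ≤ G.mu B p).filter
      (fun p => ¬ δ ^ 2 / 32 * B.card < G.mu B p), |x p| * G.mu B p ≤ B.card * δ / (4 * t) := by
  have hmu0 : ∀ p, (0 : ℝ) ≤ G.mu B p := fun p => Nat.cast_nonneg _
  have hB : (0 : ℝ) ≤ B.card := Nat.cast_nonneg _
  obtain ⟨N, hN⟩ : ∃ N : ℝ, N = B.card := ⟨_, rfl⟩
  have hsq := G.sum_mu_sq_le B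
  rw [← hN] at hB hsq ⊢
  refine (holder43 x _ (fun p => (G.mu B p : ℝ)) (fun p _ => hmu0 p)).trans ?_
  have h3 : ∑ p ∈ (univ.filter fun p => 2 ≤ G.mu B p).filter
      (fun p => ¬ δ ^ 2 / 32 * N < G.mu B p), (G.mu B p : ℝ) ^ 4 ≤ (N * δ / 4) ^ 4 := by
    have h4 : ∀ p ∈ (univ.filter fun p => 2 ≤ G.mu B p).filter
        (fun p => ¬ δ ^ 2 / 32 * N < G.mu B p), (G.mu B p : ℝ) ^ 4 ≤
        (δ ^ 2 / 32 * N) ^ 2 * (G.mu B p : ℝ) ^ 2 := by
      intro p hp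
      rw [Finset.mem_filter, not_lt] at hp
      calc (G.mu B p : ℝ) ^ 4 = (G.mu B p : ℝ) ^ 2 * (G.mu B p : ℝ) ^ 2 := by ring
        _ ≤ _ := mul_le_mul_of_nonneg_right (pow_le_pow_left₀ (hmu0 p) hp.2 2) (sq_nonneg _)
    refine (Finset.sum_le_sum h4).trans ?_
    rw [← Finset.mul_sum]
    have h5 : ∑ p ∈ (univ.filter fun p => 2 ≤ G.mu B p).filter
        (fun p => ¬ δ ^ 2 / 32 * N < G.mu B p), (G.mu B p : ℝ) ^ 2 ≤ 2 * N ^ 2 :=
      (Finset.sum_le_sum_of_subset_of_nonneg (Finset.filter_subset _ _)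
        (fun _ _ _ => sq_nonneg _)).trans hsq
    calc _ ≤ (δ ^ 2 / 32 * N) ^ 2 * (2 * N ^ 2) :=
          mul_le_mul_of_nonneg_left h5 (by positivity)
      _ = (N * δ / 4) ^ 4 / 2 := by ring
      _ ≤ (N * δ / 4) ^ 4 := half_le_self (by positivity)
  calc _ ≤ 1 / t * ((N * δ / 4) ^ 4) ^ (1 / 4 : ℝ) :=
        mul_le_mul hq (Real.rpow_le_rpow (Finset.sum_nonneg fun _ _ => pow_nonneg (hmu0 _) 4) h3
          (by norm_num)) (Real.rpow_nonneg (Finset.sum_nonneg fun _ _ => pow_nonneg (hmu0 _) 4) _)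
          (by positivity)
    _ = 1 / t * (N * δ / 4) := by rw [pow_quarter77 (by positivity)]
    _ = N * δ / (4 * t) := by
        field_simp

private theorem one77 (G : Inc P L) {t δ : ℝ} (ht : 0 < t) (hδ : 0 < δ) (hδ1 : δ ≤ 1)
    {x : P → ℝ} (hq : nq x ≤ 1 / t) (hx : ∀ p, |x p| ≤ δ ^ 5 / 8192 / t) (B : Finset L)
    (hB0 : (0 : ℝ) < B.card) (hB : ∀ ℓ ∈ B, δ / t ≤ |G.A x ℓ|) :
    B.card * δ / (2 * t) ≤ ∑ p with G.mu B p = 1, |x p| * 1 := by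
  have hS : B.card * δ / t ≤ ∑ p, |x p| * G.mu B p := by
    refine le_trans ?_ (G.sum_abs_A_le B x)
    have h := Finset.sum_le_sum hB
    rw [Finset.sum_const, nsmul_eq_mul] at h
    calc B.card * δ / t = B.card * (δ / t) := by ring
      _ ≤ _ := h
  have h1 : ∑ p with ¬ 2 ≤ G.mu B p, |x p| * (G.mu B p : ℝ) ≤
      ∑ p with G.mu B p = 1, |x p| * 1 := by
    rw [Finset.sum_filter, Finset.sum_filter]
    refine Finset.sum_le_sum fun p _ => ?_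
    by_cases h2 : G.mu B p = 1
    · rw [if_pos (by omega), if_pos h2, h2, Nat.cast_one]
    · rw [if_neg h2]
      by_cases h3 : 2 ≤ G.mu B p
      · rw [if_neg (not_not.2 h3)]
      · have h4 : G.mu B p = 0 := by omega
        rw [if_pos h3, h4, Nat.cast_zero, mul_zero]
  have h2 := large77 G ht hδ hδ1 hx B hB0
  have h3 := small77 G ht hδ hq B
  have h4 := Finset.sum_filter_add_sum_filter_not (univ.filter fun p => 2 ≤ G.mu B p)
    (fun p => δ ^ 2 / 32 * B.card < G.mu B p) (fun p => |x p| * (G.mu B p : ℝ))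
  have h5 := Finset.sum_filter_add_sum_filter_not univ (fun p => 2 ≤ G.mu B p)
    (fun p => |x p| * (G.mu B p : ℝ))
  have h6 : B.card * δ / t = B.card * δ / (2 * t) + (B.card * δ / (4 * t) +
      B.card * δ / (4 * t)) := by
    field_simp
    norm_num
  linarith

theorem Inc.count1 (G : Inc P L) {t δ : ℝ} (ht : 0 < t) (hδ : 0 < δ) (hδ1 : δ ≤ 1) {x : P → ℝ}
    (h1 : n1 x ≤ 1) (hq : nq x ≤ 1 / t) (hx : ∀ p, |x p| ≤ δ ^ 5 / 8192 / t) (B : Finset L)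
    (hB : ∀ ℓ ∈ B, δ / t ≤ |G.A x ℓ|) :
    (B.card : ℝ) ≤ 2 * t / δ ∧ (B.card : ℝ) ^ 3 ≤ 16 * G.k / δ ^ 4 := by
  have hk : (0 : ℝ) ≤ G.k := Nat.cast_nonneg _
  rcases (Nat.cast_nonneg (α := ℝ) B.card).eq_or_lt with h | hB0
  · rw [← h]
    constructor
    · positivity
    · rw [zero_pow (by norm_num)]
      positivity
  have hmain := one77 G ht hδ hδ1 hq hx B hB0 hB
  constructor
  · have h2 : ∑ p with G.mu B p = 1, |x p| * 1 ≤ 1 := by
      simp only [mul_one]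
      exact (Finset.sum_le_univ_sum_of_nonneg fun p => abs_nonneg _).trans h1
    have h3 := hmain.trans h2
    rw [div_le_one (by positivity)] at h3
    rw [le_div_iff₀ hδ]
    exact h3
  · have h2 := holder43 x (univ.filter fun p => G.mu B p = 1) (fun _ => (1 : ℝ))
      (fun _ _ => zero_le_one)
    have h3 : ∑ p with G.mu B p = 1, (1 : ℝ) ^ 4 ≤ G.k * B.card := by
      refine le_trans ?_ (G.card_pos_mu_le B)
      rw [one_pow, Finset.sum_const, nsmul_eq_mul, mul_one]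
      exact_mod_cast Finset.card_le_card (fun p hp => by
        rw [Finset.mem_filter] at hp ⊢
        exact ⟨hp.1, hp.2.ge⟩)
    have h4 : B.card * δ / (2 * t) ≤ 1 / t * (G.k * B.card : ℝ) ^ (1 / 4 : ℝ) := by
      refine hmain.trans (h2.trans ?_)
      have h5 : (0 : ℝ) ≤ ∑ p with G.mu B p = 1, (1 : ℝ) ^ 4 :=
        Finset.sum_nonneg fun _ _ => by norm_num
      exact mul_le_mul hq (Real.rpow_le_rpow h5 h3 (by norm_num)) (Real.rpow_nonneg h5 _)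
        (by positivity)
    have h5 : B.card * δ / 2 ≤ (G.k * B.card : ℝ) ^ (1 / 4 : ℝ) := by
      have h6 := mul_le_mul_of_nonneg_left h4 ht.le
      have h7 : t * (B.card * δ / (2 * t)) = B.card * δ / 2 := by
        field_simp
      have h8 : t * (1 / t * (G.k * B.card : ℝ) ^ (1 / 4 : ℝ)) =
          (G.k * B.card : ℝ) ^ (1 / 4 : ℝ) := by
        field_simp
      rwa [h7, h8] at h6
    have h6 : (B.card * δ / 2) ^ 4 ≤ G.k * B.card := by
      have h7 := pow_le_pow_left₀ (by positivity) h5 4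
      have h8 : ((G.k * B.card : ℝ) ^ (1 / 4 : ℝ)) ^ 4 = G.k * B.card := by
        rw [← Real.rpow_natCast, ← Real.rpow_mul (by positivity)]
        norm_num
      rwa [h8] at h7
    rw [le_div_iff₀ (by positivity)]
    have h9 : (B.card : ℝ) * (B.card ^ 3 * δ ^ 4) ≤ B.card * (16 * G.k) := by
      have : (B.card : ℝ) * (B.card ^ 3 * δ ^ 4) = 16 * (B.card * δ / 2) ^ 4 := by ring
      rw [this]
      linarith
    exact le_of_mul_le_mul_left h9 hB0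

end Pool.Agent.Helper25.NU
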