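import Pool.Agent.Helper25.NU.KJ
import Pool.Agent.Helper25.NU.Count1

/-!
# Project NU, block G2: the case of large `t`, facts about single labels

`hv r x` is the part of `x : P → ℝ` on the points with `|x p| ≥ r` (heavy points), `lt r x` the part
on the other points; `act G r d x ℓ` is the sum of `lt r x` over the line `ℓ` if its absolute value is
at least `d`, and `0` otherwise.  All are odd in `x`.

Let `0 < δ ≤ 1`, `η = δ⁵/8192`, `e = η^(-1/3)` (real power), `H = 1 + e`, `t > 0`, `r = η/t`,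
`d = δ/t`, and let `x` be a label with `J_t x ≤ 1`, i.e. `n1 x ≤ 1`, `t nq x ≤ 1`, `t F x ≤ 1`.

* `n1_hv_le`: `n1 (hv r x) ≤ e/t`: for `|x p| ≥ r`,
  `|x p| = |x p|^(4/3) |x p|^(-1/3) ≤ |x p|^(4/3) r^(-1/3)`, and
  `∑ |x p|^(4/3) = nq x ^ (4/3) ≤ t^(-4/3)`, so
  `n1 (hv r x) ≤ t^(-4/3) η^(-1/3) t^(1/3) = e/t`.
* `nq_lt_le`: `nq (lt r x) ≤ nq x`; `n1_lt_le`: `n1 (lt r x) ≤ n1 x`; `|lt r x p| ≤ r`.
* `abs_act_le`: `|act| ≤ H/t`: `|A (lt r x) ℓ| = |A x ℓ - A (hv r x) ℓ| ≤ F x + n1 (hv r x) ≤ (1 + e)/t`.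
* `abs_A_sub_act_le`: `|A (lt r x) ℓ - act ℓ| ≤ d`.
* `card_act`: the number of the lines with `act ≠ 0` is at most `n`, where `n` is any number with
  `min (2 t/δ) ((16 k/δ⁴)^(1/3)) ≤ n`; we use `nmax G t δ = min (2 t/δ) ((16 k/δ⁴)^(1/3))` itself
  (`Inc.count1` for `lt r x` and the set of these lines).
* so `∑_ℓ act² ≤ nmax (H/t)²` and `∑_ℓ |act| ≤ nmax (H/t)`.
* `nmax_le`: `nmax ≤ 2t/δ`, `nmax³ ≤ 16 k/δ⁴`, `nmax ≤ 16 k/δ⁴` (if `nmax ≤ 1` this holds since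
  `k ≥ 1`, `δ ≤ 1`; if `nmax ≥ 1` then `nmax ≤ nmax³`), `0 ≤ nmax`.
-/

namespace Pool.Agent.Helper25.NU

open Finset

variable {P L : Type} [Fintype P] [Fintype L] [DecidableEq P] [DecidableEq L]

noncomputable def hv {P : Type} (r : ℝ) (x : P → ℝ) : P → ℝ := fun p => if r ≤ |x p| then x p else 0

noncomputable def lt {P : Type} (r : ℝ) (x : P → ℝ) : P → ℝ := fun p => if r ≤ |x p| then 0 else x p

noncomputable def act (G : Inc P L) (r d : ℝ) (ℓ : L) (x : P → ℝ) : ℝ :=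
  if d ≤ |G.A (lt r x) ℓ| then G.A (lt r x) ℓ else 0

/-- `η = δ⁵/8192`. -/
noncomputable def eta (δ : ℝ) : ℝ := δ ^ 5 / 8192

/-- `H = 1 + η^(-1/3)`. -/
noncomputable def HH (δ : ℝ) : ℝ := 1 + eta δ ^ (-(1 / 3) : ℝ)

/-- The bound for the number of active lines. -/
noncomputable def nmax (G : Inc P L) (t δ : ℝ) : ℝ :=
  min (2 * t / δ) ((16 * G.k / δ ^ 4) ^ (1 / 3 : ℝ))

theorem hv_add_lt {P : Type} (r : ℝ) (x : P → ℝ) : hv r x + lt r x = x := by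
  funext p
  rw [Pi.add_apply]
  unfold hv lt
  by_cases h : r ≤ |x p|
  · rw [if_pos h, if_pos h, add_zero]
  · rw [if_neg h, if_neg h, zero_add]

theorem hv_neg {P : Type} (r : ℝ) (x : P → ℝ) : hv r (-x) = -hv r x := by
  funext p
  rw [Pi.neg_apply]
  unfold hv
  rw [Pi.neg_apply, abs_neg]
  by_cases h : r ≤ |x p|
  · rw [if_pos h, if_pos h]
  · rw [if_neg h, if_neg h, neg_zero]

theorem lt_neg {P : Type} (r : ℝ) (x : P → ℝ) : lt r (-x) = -lt r x := by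
  funext p
  rw [Pi.neg_apply]
  unfold lt
  rw [Pi.neg_apply, abs_neg]
  by_cases h : r ≤ |x p|
  · rw [if_pos h, if_pos h, neg_zero]
  · rw [if_neg h, if_neg h]

theorem act_neg (G : Inc P L) (r d : ℝ) (ℓ : L) (x : P → ℝ) :
    act G r d ℓ (-x) = -act G r d ℓ x := by
  unfold act
  rw [lt_neg, G.A_neg, abs_neg]
  by_cases h : d ≤ |G.A (lt r x) ℓ|
  · rw [if_pos h, if_pos h]
  · rw [if_neg h, if_neg h, neg_zero]

private theorem abs_lt_le56 {P : Type} (r : ℝ) (x : P → ℝ) (p : P) : |lt r x p| ≤ |x p| := by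
  unfold lt
  by_cases h : r ≤ |x p|
  · rw [if_pos h, abs_zero]
    exact abs_nonneg _
  · rw [if_neg h]

private theorem abs_lt_le_r56 {P : Type} {r : ℝ} (hr : 0 ≤ r) (x : P → ℝ) (p : P) : |lt r x p| ≤ r := by
  unfold lt
  by_cases h : r ≤ |x p|
  · rw [if_pos h, abs_zero]
    exact hr
  · rw [if_neg h]
    exact (not_le.1 h).le

theorem nq_lt_le {P : Type} [Fintype P] (r : ℝ) (x : P → ℝ) : nq (lt r x) ≤ nq x := by
  unfold nq
  refine Real.rpow_le_rpow (Finset.sum_nonneg fun _ _ => Real.rpow_nonneg (abs_nonneg _) _) ?_ (by norm_num)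
  exact Finset.sum_le_sum fun p _ => Real.rpow_le_rpow (abs_nonneg _) (abs_lt_le56 r x p) (by norm_num)

theorem n1_lt_le {P : Type} [Fintype P] (r : ℝ) (x : P → ℝ) : n1 (lt r x) ≤ n1 x :=
  Finset.sum_le_sum fun p _ => abs_lt_le56 r x p

theorem abs_A_sub_act_le (G : Inc P L) {r d : ℝ} (hd : 0 ≤ d) (ℓ : L) (x : P → ℝ) :
    |G.A (lt r x) ℓ - act G r d ℓ x| ≤ d := by
  unfold act
  by_cases h : d ≤ |G.A (lt r x) ℓ|
  · rw [if_pos h, sub_self, abs_zero]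
    exact hd
  · rw [if_neg h, sub_zero]
    exact (not_le.1 h).le

private theorem eta_pos56 {δ : ℝ} (hδ : 0 < δ) : 0 < eta δ := by
  unfold eta
  positivity

private theorem HH_nonneg56 {δ : ℝ} (hδ : 0 < δ) : 0 ≤ HH δ := by
  have h := eta_pos56 hδ
  unfold HH
  positivity

theorem n1_hv_le {P : Type} [Fintype P] {t δ : ℝ} (ht : 0 < t) (hδ : 0 < δ) {x : P → ℝ}
    (hq : t * nq x ≤ 1) : n1 (hv (eta δ / t) x) ≤ (HH δ - 1) / t := by
  have hη := eta_pos56 hδ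
  obtain ⟨r, hr⟩ : ∃ r, r = eta δ / t := ⟨_, rfl⟩
  have hr0 : 0 < r := by
    rw [hr]
    positivity
  have hq' : nq x ≤ 1 / t := by
    rw [le_div_iff₀ ht, mul_comm]
    exact hq
  have h1 : ∀ p, |hv r x p| ≤ |x p| ^ (4 / 3 : ℝ) * r ^ (-(1 / 3) : ℝ) := by
    intro p
    unfold hv
    by_cases h : r ≤ |x p|
    · rw [if_pos h]
      have hx0 : 0 < |x p| := hr0.trans_le h
      calc |x p| = |x p| ^ (4 / 3 : ℝ) * |x p| ^ (-(1 / 3) : ℝ) := by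
            rw [← Real.rpow_add hx0]
            norm_num
        _ ≤ |x p| ^ (4 / 3 : ℝ) * r ^ (-(1 / 3) : ℝ) :=
            mul_le_mul_of_nonneg_left (Real.rpow_le_rpow_of_nonpos hr0 h (by norm_num))
              (Real.rpow_nonneg (abs_nonneg _) _)
    · rw [if_neg h, abs_zero]
      exact mul_nonneg (Real.rpow_nonneg (abs_nonneg _) _) (Real.rpow_nonneg hr0.le _)
  have h2 : n1 (hv r x) ≤ nq x ^ (4 / 3 : ℝ) * r ^ (-(1 / 3) : ℝ) := by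
    rw [nq_rpow, Finset.sum_mul]
    exact Finset.sum_le_sum fun p _ => h1 p
  have h3 : nq x ^ (4 / 3 : ℝ) ≤ (1 / t) ^ (4 / 3 : ℝ) :=
    Real.rpow_le_rpow (nq_nonneg x) hq' (by norm_num)
  have h4 : (1 / t) ^ (4 / 3 : ℝ) * r ^ (-(1 / 3) : ℝ) = (HH δ - 1) / t := by
    have h5 : t ^ (4 / 3 : ℝ) * t ^ (-(1 / 3) : ℝ) = t := by
      rw [← Real.rpow_add ht]
      norm_num
    have h6 : 0 < t ^ (4 / 3 : ℝ) := Real.rpow_pos_of_pos ht _
    have h7 : 0 < t ^ (-(1 / 3) : ℝ) := Real.rpow_pos_of_pos ht _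
    rw [hr, Real.div_rpow zero_le_one ht.le, Real.div_rpow hη.le ht.le, Real.one_rpow,
      div_mul_div_comm, h5, one_mul]
    unfold HH
    rw [add_sub_cancel_left]
  rw [← hr]
  exact h2.trans ((mul_le_mul_of_nonneg_right h3 (Real.rpow_nonneg hr0.le _)).trans h4.le)

private theorem unJ56 (G : Inc P L) {t : ℝ} (ht : 0 < t) {x : P → ℝ} (hx : J (sn1 P) G.sN t x ≤ 1) :
    n1 x ≤ 1 ∧ t * nq x ≤ 1 ∧ t * G.F x ≤ 1 := by
  have h1 : n1 x ≤ 1 := (le_max_left _ _).trans hx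
  have h2 : t * max (nq x) (G.F x) ≤ 1 := (le_max_right _ _).trans hx
  exact ⟨h1, (mul_le_mul_of_nonneg_left (le_max_left _ _) ht.le).trans h2,
    (mul_le_mul_of_nonneg_left (le_max_right _ _) ht.le).trans h2⟩

theorem abs_act_le (G : Inc P L) {t δ d : ℝ} (ht : 0 < t) (hδ : 0 < δ) (ℓ : L) {x : P → ℝ}
    (hx : J (sn1 P) G.sN t x ≤ 1) : |act G (eta δ / t) d ℓ x| ≤ HH δ / t := by
  obtain ⟨-, h2, h3⟩ := unJ56 G ht hx
  unfold act
  by_cases h : d ≤ |G.A (lt (eta δ / t) x) ℓ|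
  · rw [if_pos h]
    have h4 : G.A (lt (eta δ / t) x) ℓ = G.A x ℓ - G.A (hv (eta δ / t) x) ℓ := by
      have h5 := congrArg (fun y => G.A y ℓ) (hv_add_lt (eta δ / t) x)
      simp only [G.A_add] at h5
      linarith
    have h5 : |G.A x ℓ| ≤ 1 / t := by
      refine (G.abs_A_le_F x ℓ).trans ?_
      rw [le_div_iff₀ ht, mul_comm]
      exact h3
    have h6 : |G.A (hv (eta δ / t) x) ℓ| ≤ (HH δ - 1) / t :=
      (G.abs_A_le _ ℓ).trans (n1_hv_le ht hδ h2)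
    have h7 : |G.A x ℓ - G.A (hv (eta δ / t) x) ℓ| ≤ |G.A x ℓ| + |G.A (hv (eta δ / t) x) ℓ| := abs_sub _ _
    have h8 : HH δ / t = 1 / t + (HH δ - 1) / t := by ring
    rw [h4, h8]
    linarith
  · rw [if_neg h, abs_zero]
    exact div_nonneg (HH_nonneg56 hδ) ht.le

private theorem card_act56 (G : Inc P L) {t δ : ℝ} (ht : 0 < t) (hδ : 0 < δ) (hδ1 : δ ≤ 1)
    {x : P → ℝ} (hx : J (sn1 P) G.sN t x ≤ 1) :
    (((univ.filter fun ℓ => act G (eta δ / t) (δ / t) ℓ x ≠ 0).card : ℕ) : ℝ) ≤ nmax G t δ := by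
  obtain ⟨h1, h2, -⟩ := unJ56 G ht hx
  have hη := eta_pos56 hδ
  have hq : nq (lt (eta δ / t) x) ≤ 1 / t := by
    refine (nq_lt_le _ x).trans ?_
    rw [le_div_iff₀ ht, mul_comm]
    exact h2
  have hr : ∀ p, |lt (eta δ / t) x p| ≤ δ ^ 5 / 8192 / t := fun p => abs_lt_le_r56 (by positivity) x p
  have hc := G.count1 ht hδ hδ1 ((n1_lt_le (eta δ / t) x).trans h1) hq hr
    (univ.filter fun ℓ => act G (eta δ / t) (δ / t) ℓ x ≠ 0) (by
      intro ℓ hℓ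
      rw [Finset.mem_filter] at hℓ
      by_contra hcon
      refine hℓ.2 ?_
      unfold act
      rw [if_neg hcon])
  obtain ⟨N, hN⟩ : ∃ N : ℝ, N = (((univ.filter fun ℓ => act G (eta δ / t) (δ / t) ℓ x ≠ 0).card : ℕ) : ℝ) :=
    ⟨_, rfl⟩
  rw [← hN] at hc ⊢
  have hN0 : 0 ≤ N := by
    rw [hN]
    exact Nat.cast_nonneg _
  refine le_min hc.1 ?_
  have h3 : N = (N ^ 3) ^ (1 / 3 : ℝ) := by
    rw [← Real.rpow_natCast, ← Real.rpow_mul hN0]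
    norm_num
  rw [h3]
  exact Real.rpow_le_rpow (by positivity) hc.2 (by norm_num)

private theorem sum_le56 (G : Inc P L) {t δ c : ℝ} (ht : 0 < t) (hδ : 0 < δ) (hδ1 : δ ≤ 1)
    {x : P → ℝ} (hx : J (sn1 P) G.sN t x ≤ 1) (hc : 0 ≤ c) (f : L → ℝ)
    (hf : ∀ ℓ, act G (eta δ / t) (δ / t) ℓ x = 0 → f ℓ = 0) (hfc : ∀ ℓ, f ℓ ≤ c) :
    ∑ ℓ, f ℓ ≤ nmax G t δ * c := by
  calc ∑ ℓ, f ℓ = ∑ ℓ with act G (eta δ / t) (δ / t) ℓ x ≠ 0, f ℓ := by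
        rw [Finset.sum_filter]
        refine Finset.sum_congr rfl fun ℓ _ => ?_
        by_cases h : act G (eta δ / t) (δ / t) ℓ x = 0
        · rw [if_neg (not_not.2 h), hf ℓ h]
        · rw [if_pos h]
    _ ≤ ∑ ℓ with act G (eta δ / t) (δ / t) ℓ x ≠ 0, c := Finset.sum_le_sum fun ℓ _ => hfc ℓ
    _ = (((univ.filter fun ℓ => act G (eta δ / t) (δ / t) ℓ x ≠ 0).card : ℕ) : ℝ) * c := by
        rw [Finset.sum_const, nsmul_eq_mul]
    _ ≤ nmax G t δ * c := mul_le_mul_of_nonneg_right (card_act56 G ht hδ hδ1 hx) hc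

theorem sum_act_sq_le (G : Inc P L) {t δ : ℝ} (ht : 0 < t) (hδ : 0 < δ) (hδ1 : δ ≤ 1)
    {x : P → ℝ} (hx : J (sn1 P) G.sN t x ≤ 1) :
    ∑ ℓ, act G (eta δ / t) (δ / t) ℓ x ^ 2 ≤ nmax G t δ * (HH δ / t) ^ 2 := by
  refine sum_le56 G ht hδ hδ1 hx (sq_nonneg _) _ (fun ℓ h => ?_) (fun ℓ => ?_)
  · rw [h]
    norm_num
  · rw [← sq_abs]
    exact pow_le_pow_left₀ (abs_nonneg _) (abs_act_le G ht hδ ℓ hx) 2

theorem sum_abs_act_le (G : Inc P L) {t δ : ℝ} (ht : 0 < t) (hδ : 0 < δ) (hδ1 : δ ≤ 1)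
    {x : P → ℝ} (hx : J (sn1 P) G.sN t x ≤ 1) :
    ∑ ℓ, |act G (eta δ / t) (δ / t) ℓ x| ≤ nmax G t δ * (HH δ / t) := by
  refine sum_le56 G ht hδ hδ1 hx (div_nonneg (HH_nonneg56 hδ) ht.le) _ (fun ℓ h => ?_)
    (fun ℓ => abs_act_le G ht hδ ℓ hx)
  rw [h, abs_zero]

theorem nmax_nonneg (G : Inc P L) {t δ : ℝ} (ht : 0 < t) (hδ : 0 < δ) : 0 ≤ nmax G t δ := by
  have hk : (0 : ℝ) ≤ G.k := Nat.cast_nonneg _
  exact le_min (by positivity) (by positivity)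

theorem nmax_le (G : Inc P L) {t δ : ℝ} (ht : 0 < t) (hδ : 0 < δ) (hδ1 : δ ≤ 1) :
    nmax G t δ ≤ 2 * t / δ ∧ nmax G t δ ^ 3 ≤ 16 * G.k / δ ^ 4 ∧ nmax G t δ ≤ 16 * G.k / δ ^ 4 := by
  have hk : (1 : ℝ) ≤ G.k := by exact_mod_cast G.k_pos
  have hk0 : (0 : ℝ) ≤ 16 * G.k / δ ^ 4 := by positivity
  have h0 := nmax_nonneg G ht hδ
  have h1 : nmax G t δ ^ 3 ≤ 16 * G.k / δ ^ 4 := by
    have h2 : nmax G t δ ≤ (16 * G.k / δ ^ 4) ^ (1 / 3 : ℝ) := min_le_right _ _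
    refine (pow_le_pow_left₀ h0 h2 3).trans (le_of_eq ?_)
    rw [← Real.rpow_natCast, ← Real.rpow_mul hk0]
    norm_num
  refine ⟨min_le_left _ _, h1, ?_⟩
  rcases le_total (nmax G t δ) 1 with h2 | h2
  · refine h2.trans ?_
    rw [le_div_iff₀ (by positivity), one_mul]
    have h3 : δ ^ 4 ≤ 1 := pow_le_one₀ hδ.le hδ1
    linarith
  · refine le_trans ?_ h1
    calc nmax G t δ = nmax G t δ ^ 1 := (pow_one _).symm
      _ ≤ nmax G t δ ^ 3 := pow_le_pow_right₀ h2 (by norm_num)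

end Pool.Agent.Helper25.NU
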