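import Pool.Agent.Helper25.NU.Tree
import Pool.Agent.Helper25.NU.Corr
import Pool.Agent.Helper25.NU.LargeA

/-!
# Project NU, block G3: the case of large `t`, bound for a single path

Let `0 < δ ≤ 1`, `r = eta δ / t`, `d = δ / t`, `t ≥ (HH δ - 1) / δ`, `t > 0`, and let `s` be a path
with all labels `J_t v ≤ 1` and `nz s ≤ m`, `m ≥ 1`.  Put
`S_ℓ = ∑_j act G r d ℓ (s_j)`, `Q = ∑_ℓ S_ℓ²`, `Ml = ∑_j lt r (s_j)`, `Mh = ∑_j hv r (s_j)`,
`n = nmax G t δ`, `H = HH δ`, `D = nH/(δ k) * (1 + nH/(δ k))²`.  Then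

`K_t(s.sum) ≤ 3 δ m + (t/(δ m)) Q + (t²/(δ m k)) Q + t D^(1/4) √Q + t nq Ml`.

Proof.  `s.sum = Mh + Ml`.  Let `θ = δ m/t > 0`, `V = {ℓ : θ < |S_ℓ|}`, `u₁ = corr G V S`,
`u = Mh + u₁`.  Then `K_t(s.sum) ≤ n1 u + t max (nq (Ml - u₁)) (F (Ml - u₁))` (`K_le`).

* `n1 Mh ≤ ∑_j n1 (hv r s_j) ≤ m (H - 1)/t ≤ δ m` (`n1_hv_le`, `sum_map_le_nz`: zero labels
  contribute nothing).
* `n1 u₁ ≤ ∑_V |S_ℓ| ≤ ∑_V S_ℓ²/θ ≤ Q/θ = (t/(δ m)) Q` (`Inc.n1_corr_le`).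
* For each line `ℓ`: `|A Ml ℓ - S_ℓ| ≤ ∑_j |A (lt r s_j) ℓ - act ℓ s_j| ≤ d m = θ`
  (`abs_A_sub_act_le`, zero labels contribute nothing).  By `Inc.A_corr_le`
  `A u₁ ℓ` is `S_ℓ` (if `ℓ ∈ V`) or `0` (if `ℓ ∉ V`, and then `|S_ℓ| ≤ θ`), up to
  `(∑_V |S|)/k ≤ Q/(θ k)`.  So `|A (Ml - u₁) ℓ| ≤ 2 θ + Q/(θ k)` in both cases, and
  `t F (Ml - u₁) ≤ 2 δ m + t Q/(θ k) = 2 δ m + (t²/(δ m k)) Q`.
* `nq (Ml - u₁) ≤ nq Ml + nq u₁`.  `|V| θ ≤ ∑_V |S_ℓ| ≤ ∑_j ∑_ℓ |act ℓ s_j| ≤ m n H/t`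
  (`sum_abs_act_le`), so `|V| ≤ n H/δ`.  By `Inc.nq_corr_le`
  `nq u₁ ^ 4 ≤ (|V|/k) (1 + |V|/k)² Q² ≤ D Q²`, so `nq u₁ ≤ D^(1/4) √Q`.
Since the maximum is at most the sum, the claim follows.
-/

namespace Pool.Agent.Helper25.NU

open Finset

variable {P L : Type} [Fintype P] [Fintype L] [DecidableEq P] [DecidableEq L]

/-- `D = nH/(δ k) * (1 + nH/(δ k))²`. -/
noncomputable def DD (G : Inc P L) (t δ : ℝ) : ℝ :=
  nmax G t δ * HH δ / (δ * G.k) * (1 + nmax G t δ * HH δ / (δ * G.k)) ^ 2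

/-! Auxiliary lemmas (helper2). -/

private theorem n1_list2 {P : Type} [Fintype P] (s : List (P → ℝ)) :
    n1 s.sum ≤ (s.map n1).sum := by
  induction s with
  | nil => simp [n1]
  | cons v s ih =>
    rw [List.sum_cons, List.map_cons, List.sum_cons]
    exact (n1_add _ _).trans (by linarith)

private theorem A_list2 (G : Inc P L) (ℓ : L) (s : List (P → ℝ)) :
    G.A s.sum ℓ = (s.map fun v => G.A v ℓ).sum := by
  induction s with
  | nil => simp [Inc.A]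
  | cons v s ih =>
    rw [List.sum_cons, List.map_cons, List.sum_cons, G.A_add, ih]

private theorem sum_split2 {P : Type} (r : ℝ) (s : List (P → ℝ)) :
    s.sum = (s.map (hv r)).sum + (s.map (lt r)).sum := by
  induction s with
  | nil => simp
  | cons v s ih =>
    rw [List.sum_cons, List.map_cons, List.sum_cons, List.map_cons, List.sum_cons, ih]
    nth_rewrite 1 [← hv_add_lt r v]
    abel

private theorem hv_zero2 {P : Type} (r : ℝ) : hv r (0 : P → ℝ) = 0 := by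
  ext p
  simp [hv]

private theorem lt_zero2 {P : Type} (r : ℝ) : lt r (0 : P → ℝ) = 0 := by
  ext p
  simp [lt]

private theorem A_zero2 (G : Inc P L) (ℓ : L) : G.A (0 : P → ℝ) ℓ = 0 := by
  simp [Inc.A]

private theorem act_zero2 (G : Inc P L) (r d : ℝ) (ℓ : L) : act G r d ℓ (0 : P → ℝ) = 0 := by
  simp [act, lt_zero2, A_zero2]

private theorem list_sum_sub2 {V : Type} (s : List V) (f g : V → ℝ) :
    (s.map f).sum - (s.map g).sum = (s.map fun v => f v - g v).sum := by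
  induction s with
  | nil => simp
  | cons v s ih =>
    simp only [List.map_cons, List.sum_cons]
    linarith

private theorem sum_list_comm2 {V ι : Type} (I : Finset ι) (s : List V) (f : ι → V → ℝ) :
    ∑ i ∈ I, (s.map (f i)).sum = (s.map fun v => ∑ i ∈ I, f i v).sum := by
  induction s with
  | nil => simp
  | cons v s ih =>
    simp only [List.map_cons, List.sum_cons]
    rw [Finset.sum_add_distrib, ih]

private theorem nq_neg2 {P : Type} [Fintype P] (x : P → ℝ) : nq (-x) = nq x := by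
  have h := nq_smul (-1) x
  simpa using h

theorem Inc.K_path_le (G : Inc P L) {m : ℕ} (hm : 0 < m) {t δ : ℝ} (ht : 0 < t) (hδ : 0 < δ)
    (hδ1 : δ ≤ 1) (htδ : (HH δ - 1) / δ ≤ t) {s : List (P → ℝ)}
    (h1 : ∀ v ∈ s, J (sn1 P) G.sN t v ≤ 1) (hs : nz s ≤ m) :
    K (sn1 P) G.sN t s.sum ≤ 3 * δ * m +
      t / (δ * m) * (∑ ℓ, ((s.map (act G (eta δ / t) (δ / t) ℓ)).sum) ^ 2) +
      t ^ 2 / (δ * m * G.k) * (∑ ℓ, ((s.map (act G (eta δ / t) (δ / t) ℓ)).sum) ^ 2) +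
      t * (DD G t δ ^ (1 / 4 : ℝ) *
        √(∑ ℓ, ((s.map (act G (eta δ / t) (δ / t) ℓ)).sum) ^ 2)) +
      t * nq (s.map (lt (eta δ / t))).sum := by
  classical
  have hk : (0 : ℝ) < G.k := by
    have := G.k_pos
    positivity
  have hm' : (0 : ℝ) < m := by exact_mod_cast hm
  obtain ⟨r, hr⟩ : ∃ r, r = eta δ / t := ⟨_, rfl⟩
  obtain ⟨d, hd⟩ : ∃ d, d = δ / t := ⟨_, rfl⟩
  rw [← hr, ← hd]
  have hd0 : 0 < d := by rw [hd]; positivity
  obtain ⟨S, hS⟩ : ∃ S : L → ℝ, S = fun ℓ => (s.map (act G r d ℓ)).sum := ⟨_, rfl⟩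
  have hSl : ∀ ℓ, (s.map (act G r d ℓ)).sum = S ℓ := fun ℓ => by rw [hS]
  simp_rw [hSl]
  obtain ⟨Q, hQ⟩ : ∃ Q, Q = ∑ ℓ, S ℓ ^ 2 := ⟨_, rfl⟩
  rw [← hQ]
  have hQ0 : 0 ≤ Q := by rw [hQ]; exact Finset.sum_nonneg fun _ _ => sq_nonneg _
  obtain ⟨θ, hθ⟩ : ∃ θ, θ = δ * m / t := ⟨_, rfl⟩
  have hθ0 : 0 < θ := by rw [hθ]; positivity
  obtain ⟨V, hV⟩ : ∃ V : Finset L, V = Finset.univ.filter fun ℓ => θ < |S ℓ| := ⟨_, rfl⟩
  have hVm : ∀ ℓ, ℓ ∈ V ↔ θ < |S ℓ| := by intro ℓ; rw [hV]; simp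
  obtain ⟨u₁, hu₁⟩ : ∃ u₁, u₁ = G.corr V S := ⟨_, rfl⟩
  obtain ⟨Mh, hMh⟩ : ∃ Mh, Mh = (s.map (hv r)).sum := ⟨_, rfl⟩
  obtain ⟨Ml, hMl⟩ : ∃ Ml, Ml = (s.map (lt r)).sum := ⟨_, rfl⟩
  rw [← hMl]
  -- the labels
  have hnq : ∀ v ∈ s, t * nq v ≤ 1 := by
    intro v hv'
    have h2 : t * G.sN v ≤ 1 := (le_max_right _ _).trans (h1 v hv')
    have h3 : nq v ≤ G.sN v := by rw [G.sN_apply]; exact le_max_left _ _
    exact (mul_le_mul_of_nonneg_left h3 ht.le).trans h2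
  -- the heavy part
  have hH0 : 0 ≤ HH δ - 1 := by
    unfold HH
    have : 0 ≤ eta δ := by unfold eta; positivity
    have := Real.rpow_nonneg this (-(1 / 3) : ℝ)
    linarith
  have e1 : n1 Mh ≤ δ * m := by
    have h2 : n1 Mh ≤ (s.map fun v => n1 (hv r v)).sum := by
      rw [hMh]
      refine (n1_list2 _).trans (le_of_eq ?_)
      rw [List.map_map]
      rfl
    have h3 : (s.map fun v => n1 (hv r v)).sum ≤ (HH δ - 1) / t * nz s := by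
      refine sum_map_le_nz ?_ ?_
      · rw [hv_zero2]
        simp [n1]
      · intro v hv'
        rw [hr]
        exact n1_hv_le ht hδ (hnq v hv')
    have h4 : (HH δ - 1) / t * nz s ≤ (HH δ - 1) / t * m :=
      mul_le_mul_of_nonneg_left hs (div_nonneg hH0 ht.le)
    have h5 : (HH δ - 1) / t ≤ δ := by
      rw [div_le_iff₀ ht]
      rw [div_le_iff₀ hδ] at htδ
      linarith
    have h6 : (HH δ - 1) / t * m ≤ δ * m := mul_le_mul_of_nonneg_right h5 hm'.le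
    linarith
  -- sums over V
  have e2 : ∑ ℓ ∈ V, |S ℓ| ≤ Q / θ := by
    rw [le_div_iff₀ hθ0, Finset.sum_mul, hQ]
    refine (Finset.sum_le_sum fun ℓ hℓ => ?_).trans (Finset.sum_le_univ_sum_of_nonneg
      fun ℓ => sq_nonneg (S ℓ))
    have h2 := (hVm ℓ).1 hℓ
    rw [← sq_abs, sq]
    exact mul_le_mul_of_nonneg_left h2.le (abs_nonneg _)
  have e3 : n1 u₁ ≤ Q / θ := by
    rw [hu₁]
    exact (G.n1_corr_le V S).trans e2
  -- sums over lines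
  have e4 : ∀ ℓ, |G.A Ml ℓ - S ℓ| ≤ θ := by
    intro ℓ
    have h2 : G.A Ml ℓ = (s.map fun v => G.A (lt r v) ℓ).sum := by
      rw [hMl, A_list2, List.map_map]
      rfl
    rw [h2, ← hSl, list_sum_sub2]
    refine (abs_sum_map_le _ _).trans ?_
    have h3 : (s.map fun v => |G.A (lt r v) ℓ - act G r d ℓ v|).sum ≤ d * nz s := by
      refine sum_map_le_nz ?_ ?_
      · rw [lt_zero2, act_zero2, A_zero2, sub_self, abs_zero]
      · intro v _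
        exact abs_A_sub_act_le G hd0.le ℓ v
    have h4 : d * nz s ≤ d * m := mul_le_mul_of_nonneg_left hs hd0.le
    have h5 : d * m = θ := by rw [hd, hθ]; ring
    linarith
  have e5 : G.F (Ml - u₁) ≤ 2 * θ + Q / θ / G.k := by
    refine G.F_le (by positivity) fun ℓ => ?_
    rw [G.A_sub]
    have h2 := e4 ℓ
    have h3 := G.A_corr_le V S ℓ
    rw [← hu₁] at h3
    have h4 : (∑ ℓ ∈ V, |S ℓ|) / G.k ≤ Q / θ / G.k := div_le_div_of_nonneg_right e2 hk.le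
    have h5 : |S ℓ - (if ℓ ∈ V then S ℓ else 0)| ≤ θ := by
      by_cases h : ℓ ∈ V
      · rw [if_pos h, sub_self, abs_zero]
        exact hθ0.le
      · rw [if_neg h, sub_zero]
        exact not_lt.1 fun h6 => h ((hVm ℓ).2 h6)
    have h6 : G.A Ml ℓ - G.A u₁ ℓ = (G.A Ml ℓ - S ℓ) + (S ℓ - (if ℓ ∈ V then S ℓ else 0)) -
        (G.A u₁ ℓ - (if ℓ ∈ V then S ℓ else 0)) := by ring
    rw [h6]
    refine (abs_sub _ _).trans ?_
    have h7 := abs_add_le (G.A Ml ℓ - S ℓ) (S ℓ - (if ℓ ∈ V then S ℓ else 0))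
    linarith
  -- the number of lines in V
  have hn0 := nmax_nonneg G ht hδ
  have e6 : (V.card : ℝ) ≤ nmax G t δ * HH δ / δ := by
    have h2 : (V.card : ℝ) * θ ≤ ∑ ℓ ∈ V, |S ℓ| := by
      rw [← nsmul_eq_mul, ← Finset.sum_const]
      exact Finset.sum_le_sum fun ℓ hℓ => ((hVm ℓ).1 hℓ).le
    have h3 : ∑ ℓ ∈ V, |S ℓ| ≤ ∑ ℓ, |S ℓ| :=
      Finset.sum_le_univ_sum_of_nonneg fun ℓ => abs_nonneg (S ℓ)
    have h4 : ∑ ℓ, |S ℓ| ≤ ∑ ℓ, (s.map fun v => |act G r d ℓ v|).sum := by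
      refine Finset.sum_le_sum fun ℓ _ => ?_
      rw [← hSl]
      exact abs_sum_map_le _ _
    rw [sum_list_comm2] at h4
    have h5 : (s.map fun v => ∑ ℓ, |act G r d ℓ v|).sum ≤ nmax G t δ * (HH δ / t) * nz s := by
      refine sum_map_le_nz ?_ ?_
      · refine Finset.sum_eq_zero fun ℓ _ => ?_
        rw [act_zero2, abs_zero]
      · intro v hv'
        rw [hr, hd]
        exact sum_abs_act_le G ht hδ hδ1 (h1 v hv')
    have hHH : 0 ≤ HH δ := by linarith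
    have h6 : nmax G t δ * (HH δ / t) * nz s ≤ nmax G t δ * (HH δ / t) * m :=
      mul_le_mul_of_nonneg_left hs (by positivity)
    have h7 : (V.card : ℝ) * θ ≤ nmax G t δ * (HH δ / t) * m := by linarith
    rw [hθ] at h7
    rw [le_div_iff₀ hδ]
    have h8 : (V.card : ℝ) * δ * (m / t) ≤ nmax G t δ * HH δ * (m / t) := by
      calc (V.card : ℝ) * δ * (m / t) = (V.card : ℝ) * (δ * m / t) := by ring
        _ ≤ nmax G t δ * (HH δ / t) * m := h7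
        _ = nmax G t δ * HH δ * (m / t) := by ring
    exact le_of_mul_le_mul_right h8 (by positivity)
  -- the bound for nq u₁
  obtain ⟨x, hx⟩ : ∃ x, x = nmax G t δ * HH δ / (δ * G.k) := ⟨_, rfl⟩
  have hx0 : 0 ≤ x := by
    have hHH : 0 ≤ HH δ := by linarith
    rw [hx]; positivity
  have hDD : DD G t δ = x * (1 + x) ^ 2 := by rw [DD, hx]
  have hVk : (V.card : ℝ) / G.k ≤ x := by
    rw [hx, ← div_div]
    exact div_le_div_of_nonneg_right e6 hk.le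
  have hVk0 : 0 ≤ (V.card : ℝ) / G.k := by positivity
  have e7 : nq u₁ ^ 4 ≤ DD G t δ * Q ^ 2 := by
    rw [hu₁]
    refine (G.nq_corr_le V S).trans ?_
    have h2 : ∑ ℓ ∈ V, S ℓ ^ 2 ≤ Q := by
      rw [hQ]
      exact Finset.sum_le_univ_sum_of_nonneg fun ℓ => sq_nonneg (S ℓ)
    have h3 : (∑ ℓ ∈ V, S ℓ ^ 2) ^ 2 ≤ Q ^ 2 :=
      pow_le_pow_left₀ (Finset.sum_nonneg fun _ _ => sq_nonneg _) h2 2
    have h4 : (V.card / G.k : ℝ) * (1 + V.card / G.k) ^ 2 ≤ x * (1 + x) ^ 2 := by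
      refine mul_le_mul hVk ?_ (by positivity) hx0
      exact pow_le_pow_left₀ (by positivity) (by linarith) 2
    rw [hDD]
    exact mul_le_mul h4 h3 (by positivity) (by positivity)
  have hD0 : 0 ≤ DD G t δ := by rw [hDD]; positivity
  have e8 : nq u₁ ≤ DD G t δ ^ (1 / 4 : ℝ) * √Q := by
    have h2 : (DD G t δ ^ (1 / 4 : ℝ) * √Q) ^ 4 = DD G t δ * Q ^ 2 := by
      rw [mul_pow, ← Real.rpow_natCast (DD G t δ ^ (1 / 4 : ℝ)) 4, ← Real.rpow_mul hD0]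
      have h3 : √Q ^ 4 = Q ^ 2 := by
        calc √Q ^ 4 = (√Q ^ 2) ^ 2 := by ring
          _ = Q ^ 2 := by rw [Real.sq_sqrt hQ0]
      rw [h3]
      norm_num
    rw [← h2] at e7
    exact le_of_pow_le_pow_left₀ (by norm_num)
      (mul_nonneg (Real.rpow_nonneg hD0 _) (Real.sqrt_nonneg _)) e7
  have e9 : nq (Ml - u₁) ≤ nq Ml + DD G t δ ^ (1 / 4 : ℝ) * √Q := by
    rw [sub_eq_add_neg]
    refine (nq_add _ _).trans ?_
    rw [nq_neg2]
    linarith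
  -- conclusion
  have f1 := K_le (sn1 P) G.sN ht.le s.sum (Mh + u₁)
  have f2 : s.sum - (Mh + u₁) = Ml - u₁ := by
    rw [sum_split2 r s, ← hMh, ← hMl]
    abel
  rw [f2] at f1
  have f3 : sn1 P (Mh + u₁) ≤ δ * m + Q / θ := by
    rw [sn1_apply]
    exact (n1_add _ _).trans (by linarith)
  have f4 : G.sN (Ml - u₁) ≤ nq (Ml - u₁) + G.F (Ml - u₁) := by
    rw [G.sN_apply]
    exact max_le (by linarith [G.F_nonneg (Ml - u₁)]) (by linarith [nq_nonneg (Ml - u₁)])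
  have f5 : t * G.sN (Ml - u₁) ≤ t * ((nq Ml + DD G t δ ^ (1 / 4 : ℝ) * √Q) +
      (2 * θ + Q / θ / G.k)) :=
    mul_le_mul_of_nonneg_left (by linarith) ht.le
  have f6 : Q / θ = t / (δ * m) * Q := by
    rw [hθ]
    field_simp
  have f7 : t * (2 * θ) = 2 * δ * m := by
    rw [hθ]
    field_simp
  have f8 : t * (Q / θ / G.k) = t ^ 2 / (δ * m * G.k) * Q := by
    rw [hθ]
    field_simp
  have f9 : t * ((nq Ml + DD G t δ ^ (1 / 4 : ℝ) * √Q) + (2 * θ + Q / θ / G.k)) =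
      t * nq Ml + t * (DD G t δ ^ (1 / 4 : ℝ) * √Q) + t * (2 * θ) + t * (Q / θ / G.k) := by
    ring
  rw [f9, f7, f8] at f5
  rw [f6] at f3
  linarith

end Pool.Agent.Helper25.NU
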