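import Pool.Agent.Helper25.NU.Moments
import Pool.Agent.Helper25.NU.LargeB

/-!
# Project NU, block G4: the case of large `t`, expectation

Claim.  For `0 < δ ≤ 1` there are `T₀ > 0`, `C ≥ 0` such that for all incidence structures, all
`t ≥ T₀`, all `m ≥ 1` and all trees with labels `J_t ≤ 1` and `nz ≤ m` on each path
`E K_t(M) ≤ 3 δ m + C (1 + √m) + m^(3/4)`.

Proof.  Let `T₀ = max 1 ((HH δ - 1)/δ)`, `H = HH δ`, `n = nmax G t δ`, `r = eta δ/t`, `d = δ/t`.  Take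
expectations in `Inc.K_path_le`.  With `Q(s) = ∑_ℓ (∑_j act ℓ s_j)²`:
`E Q = ∑_ℓ E ∑_j (act ℓ s_j)² = E ∑_j ∑_ℓ (act ℓ s_j)² ≤ m n (H/t)²` (`Tree.E_sum`, `Tree.E_sq`,
`sum_act_sq_le`, zero labels contribute nothing, `sum_map_le_nz`), and `E √Q ≤ √(E Q)`.
`E nq Ml ≤ m^(3/4)/t` (`Tree.E_nq_le` with `g = lt r`, `c = 1/t`, since
`nq (lt r v) ≤ nq v ≤ 1/t`).  Hence
`E K_t ≤ 3 δ m + n H²/(δ t) + n H²/(δ k) + D^(1/4) √(m n) H + m^(3/4)`.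
By `nmax_le`: `n ≤ 2 t/δ`, so `n H²/(δ t) ≤ 2 H²/δ²`; `n ≤ 16 k/δ⁴`, so `n H²/(δ k) ≤ 16 H²/δ⁵`,
`n H/(δ k) ≤ 16 H/δ⁵`; and `D^(1/4) √n = (D n²)^(1/4)` with
`D n² = (n³/k) (H/δ) (1 + nH/(δ k))² ≤ (16/δ⁴) (H/δ) (1 + 16 H/δ⁵)²`.
So `C = 2 H²/δ² + 16 H²/δ⁵ + H ((16/δ⁴) (H/δ) (1 + 16 H/δ⁵)²)^(1/4)` is possible.
-/

namespace Pool.Agent.Helper25.NU

private theorem HH_pos17 {δ : ℝ} (hδ : 0 < δ) : 1 ≤ HH δ := by
  unfold HH eta
  have : 0 ≤ (δ ^ 5 / 8192) ^ (-(1 / 3) : ℝ) := Real.rpow_nonneg (by positivity) _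
  linarith

/-- The expectation of the square sum. -/
private theorem E_Q_le17 {P L : Type} [Fintype P] [Fintype L] [DecidableEq P] [DecidableEq L]
    (G : Inc P L) {t δ : ℝ} (ht : 0 < t) (hδ : 0 < δ) (hδ1 : δ ≤ 1) {m : ℕ} {T : Tree (P → ℝ)}
    (h : T.All (fun s => (∀ v ∈ s, J (sn1 P) G.sN t v ≤ 1) ∧ nz s ≤ m)) :
    T.E (fun s => ∑ ℓ, ((s.map (act G (eta δ / t) (δ / t) ℓ)).sum) ^ 2) ≤
      m * (nmax G t δ * (HH δ / t) ^ 2) := by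
  have h0 : ∀ ℓ, act G (eta δ / t) (δ / t) ℓ 0 = 0 := by
    intro ℓ
    have h1 := act_neg G (eta δ / t) (δ / t) ℓ 0
    rw [neg_zero] at h1
    linarith
  rw [Tree.E_sum]
  have h1 : ∀ ℓ, T.E (fun s => ((s.map (act G (eta δ / t) (δ / t) ℓ)).sum) ^ 2) =
      T.E (fun s => (s.map fun x => act G (eta δ / t) (δ / t) ℓ x ^ 2).sum) := fun ℓ =>
    Tree.E_sq T (g := act G (eta δ / t) (δ / t) ℓ) (act_neg G _ _ ℓ)
  rw [Finset.sum_congr rfl fun ℓ _ => h1 ℓ, ← Tree.E_sum]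
  refine Tree.E_le_const (Tree.All_mono h ?_)
  rintro s ⟨hs1, hs2⟩
  have hswap : ∑ ℓ, (s.map fun x => act G (eta δ / t) (δ / t) ℓ x ^ 2).sum =
      (s.map fun x => ∑ ℓ, act G (eta δ / t) (δ / t) ℓ x ^ 2).sum := by
    clear hs1 hs2
    induction s with
    | nil => simp
    | cons a r ih => simp [Finset.sum_add_distrib, ih]
  rw [hswap]
  refine (sum_map_le_nz (c := nmax G t δ * (HH δ / t) ^ 2) ?_ ?_).trans ?_
  · refine Finset.sum_eq_zero fun ℓ _ => ?_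
    rw [h0 ℓ]
    norm_num
  · intro v hv
    exact sum_act_sq_le G ht hδ hδ1 (hs1 v hv)
  · rw [mul_comm]
    exact mul_le_mul_of_nonneg_right hs2
      (mul_nonneg (nmax_nonneg G ht hδ) (sq_nonneg _))

private theorem E_lt_le17 {P L : Type} [Fintype P] [Fintype L] [DecidableEq P] [DecidableEq L]
    (G : Inc P L) {t : ℝ} (r : ℝ) (ht : 0 < t) {m : ℕ} {T : Tree (P → ℝ)}
    (h : T.All (fun s => (∀ v ∈ s, J (sn1 P) G.sN t v ≤ 1) ∧ nz s ≤ m)) :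
    T.E (fun s => nq (s.map (lt r)).sum) ≤ (m : ℝ) ^ (3 / 4 : ℝ) * (1 / t) := by
  refine Tree.E_nq_le T (g := lt r) (lt_neg r) (by positivity) (Tree.All_mono h ?_)
  rintro s ⟨hs1, hs2⟩
  refine ⟨fun v hv => (nq_lt_le r v).trans ?_, hs2⟩
  have h1 : t * G.sN v ≤ 1 := (le_max_right _ _).trans (hs1 v hv)
  rw [Inc.sN_apply] at h1
  have h2 : nq v ≤ max (nq v) (G.F v) := le_max_left _ _
  rw [le_div_iff₀ ht]
  calc nq v * t ≤ max (nq v) (G.F v) * t := mul_le_mul_of_nonneg_right h2 ht.le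
    _ = t * max (nq v) (G.F v) := mul_comm _ _
    _ ≤ 1 := h1

/-- The constant. -/
private theorem scalar17 {n k t δ H m : ℝ} (hn : 0 ≤ n) (hk : 1 ≤ k) (ht : 0 < t) (hδ : 0 < δ)
    (hH : 1 ≤ H) (hm : 0 < m) (h1 : n ≤ 2 * t / δ) (h2 : n ^ 3 ≤ 16 * k / δ ^ 4)
    (h3 : n ≤ 16 * k / δ ^ 4) :
    t / (δ * m) * (m * (n * (H / t) ^ 2)) + t ^ 2 / (δ * m * k) * (m * (n * (H / t) ^ 2)) +
      t * ((n * H / (δ * k) * (1 + n * H / (δ * k)) ^ 2) ^ (1 / 4 : ℝ) *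
        √(m * (n * (H / t) ^ 2))) ≤
    (2 * H ^ 2 / δ ^ 2 + 16 * H ^ 2 / δ ^ 5 +
      H * ((16 / δ ^ 4) * (H / δ) * (1 + 16 * H / δ ^ 5) ^ 2) ^ (1 / 4 : ℝ)) * (1 + √m) := by
  have hk0 : 0 < k := by linarith
  have hH0 : 0 < H := by linarith
  have e1 : t / (δ * m) * (m * (n * (H / t) ^ 2)) ≤ 2 * H ^ 2 / δ ^ 2 := by
    have : t / (δ * m) * (m * (n * (H / t) ^ 2)) = n * (H ^ 2 / (δ * t)) := by
      field_simp
    rw [this]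
    calc n * (H ^ 2 / (δ * t)) ≤ 2 * t / δ * (H ^ 2 / (δ * t)) :=
          mul_le_mul_of_nonneg_right h1 (by positivity)
      _ = 2 * H ^ 2 / δ ^ 2 := by field_simp
  have e2 : t ^ 2 / (δ * m * k) * (m * (n * (H / t) ^ 2)) ≤ 16 * H ^ 2 / δ ^ 5 := by
    have : t ^ 2 / (δ * m * k) * (m * (n * (H / t) ^ 2)) = n * (H ^ 2 / (δ * k)) := by
      field_simp
    rw [this]
    calc n * (H ^ 2 / (δ * k)) ≤ 16 * k / δ ^ 4 * (H ^ 2 / (δ * k)) :=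
          mul_le_mul_of_nonneg_right h3 (by positivity)
      _ = 16 * H ^ 2 / δ ^ 5 := by field_simp
  have e3 : n * H / (δ * k) ≤ 16 * H / δ ^ 5 := by
    calc n * H / (δ * k) = n * (H / (δ * k)) := by ring
      _ ≤ 16 * k / δ ^ 4 * (H / (δ * k)) := mul_le_mul_of_nonneg_right h3 (by positivity)
      _ = 16 * H / δ ^ 5 := by field_simp
  obtain ⟨D, hD⟩ : ∃ D, D = n * H / (δ * k) * (1 + n * H / (δ * k)) ^ 2 := ⟨_, rfl⟩
  obtain ⟨B, hB⟩ : ∃ B, B = (16 / δ ^ 4) * (H / δ) * (1 + 16 * H / δ ^ 5) ^ 2 := ⟨_, rfl⟩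
  rw [← hD, ← hB]
  have hx0 : 0 ≤ n * H / (δ * k) := by positivity
  have hD0 : 0 ≤ D := by rw [hD]; positivity
  have hB0 : 0 ≤ B := by rw [hB]; positivity
  have e4 : D * n ^ 2 ≤ B := by
    rw [hD, hB]
    have h4 : n * H / (δ * k) * (1 + n * H / (δ * k)) ^ 2 * n ^ 2 =
        n ^ 3 * (H / (δ * k)) * (1 + n * H / (δ * k)) ^ 2 := by ring
    rw [h4]
    have h5 : n ^ 3 * (H / (δ * k)) ≤ (16 / δ ^ 4) * (H / δ) := by
      calc n ^ 3 * (H / (δ * k)) ≤ 16 * k / δ ^ 4 * (H / (δ * k)) :=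
            mul_le_mul_of_nonneg_right h2 (by positivity)
        _ = (16 / δ ^ 4) * (H / δ) := by field_simp
    have h6 : (1 + n * H / (δ * k)) ^ 2 ≤ (1 + 16 * H / δ ^ 5) ^ 2 :=
      pow_le_pow_left₀ (by positivity) (by linarith) 2
    exact mul_le_mul h5 h6 (sq_nonneg _) (by positivity)
  have e5 : D ^ (1 / 4 : ℝ) * √n ≤ B ^ (1 / 4 : ℝ) := by
    have h4 : √n = (n ^ 2) ^ (1 / 4 : ℝ) := by
      rw [Real.sqrt_eq_rpow, ← Real.rpow_natCast, ← Real.rpow_mul hn]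
      norm_num
    rw [h4, ← Real.mul_rpow hD0 (sq_nonneg _)]
    exact Real.rpow_le_rpow (mul_nonneg hD0 (sq_nonneg _)) e4 (by norm_num)
  have e6 : √(m * (n * (H / t) ^ 2)) = √m * √n * (H / t) := by
    rw [Real.sqrt_mul hm.le, Real.sqrt_mul hn, Real.sqrt_sq (by positivity)]
    ring
  have e7 : t * (D ^ (1 / 4 : ℝ) * √(m * (n * (H / t) ^ 2))) ≤ H * B ^ (1 / 4 : ℝ) * √m := by
    rw [e6]
    have h4 : t * (D ^ (1 / 4 : ℝ) * (√m * √n * (H / t))) =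
        H * (D ^ (1 / 4 : ℝ) * √n) * √m := by
      field_simp
    rw [h4]
    exact mul_le_mul_of_nonneg_right (mul_le_mul_of_nonneg_left e5 hH0.le) (Real.sqrt_nonneg _)
  have e8 : 0 ≤ √m := Real.sqrt_nonneg _
  have e9 : 0 ≤ 2 * H ^ 2 / δ ^ 2 := by positivity
  have e10 : 0 ≤ 16 * H ^ 2 / δ ^ 5 := by positivity
  have e11 : 0 ≤ H * B ^ (1 / 4 : ℝ) := mul_nonneg hH0.le (Real.rpow_nonneg hB0 _)
  have e12 : (2 * H ^ 2 / δ ^ 2 + 16 * H ^ 2 / δ ^ 5 + H * B ^ (1 / 4 : ℝ)) * (1 + √m) =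
      2 * H ^ 2 / δ ^ 2 + 16 * H ^ 2 / δ ^ 5 + H * B ^ (1 / 4 : ℝ) * √m +
        ((2 * H ^ 2 / δ ^ 2) * √m + (16 * H ^ 2 / δ ^ 5) * √m + H * B ^ (1 / 4 : ℝ)) := by
    ring
  have e13 := mul_nonneg e9 e8
  have e14 := mul_nonneg e10 e8
  rw [e12]
  linarith

theorem E_K_large {δ : ℝ} (hδ : 0 < δ) (hδ1 : δ ≤ 1) :
    ∃ T₀ C : ℝ, 0 < T₀ ∧ 0 ≤ C ∧
      ∀ (P L : Type) [Fintype P] [Fintype L] [DecidableEq P] [DecidableEq L] (G : Inc P L) (t : ℝ),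
        T₀ ≤ t → ∀ m : ℕ, 0 < m → ∀ T : Tree (P → ℝ),
          T.All (fun s => (∀ v ∈ s, J (sn1 P) G.sN t v ≤ 1) ∧ nz s ≤ m) →
            T.E (fun s => K (sn1 P) G.sN t s.sum) ≤
              3 * δ * m + C * (1 + √m) + (m : ℝ) ^ (3 / 4 : ℝ) := by
  have hH := HH_pos17 hδ
  have hH0 : 0 < HH δ := by linarith
  refine ⟨max 1 ((HH δ - 1) / δ), 2 * HH δ ^ 2 / δ ^ 2 + 16 * HH δ ^ 2 / δ ^ 5 +
    HH δ * ((16 / δ ^ 4) * (HH δ / δ) * (1 + 16 * HH δ / δ ^ 5) ^ 2) ^ (1 / 4 : ℝ),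
    lt_of_lt_of_le one_pos (le_max_left _ _), ?_, ?_⟩
  · have : 0 ≤ ((16 / δ ^ 4) * (HH δ / δ) * (1 + 16 * HH δ / δ ^ 5) ^ 2) ^ (1 / 4 : ℝ) :=
      Real.rpow_nonneg (by positivity) _
    positivity
  · intro P L _ _ _ _ G t hT m hm T h
    have ht1 : 1 ≤ t := (le_max_left _ _).trans hT
    have ht : 0 < t := by linarith
    have htδ : (HH δ - 1) / δ ≤ t := (le_max_right _ _).trans hT
    have hm' : (0 : ℝ) < m := by exact_mod_cast hm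
    have hk : (1 : ℝ) ≤ G.k := by exact_mod_cast G.k_pos
    have hn := nmax_nonneg G ht hδ
    obtain ⟨hn1, hn2, hn3⟩ := nmax_le G ht hδ hδ1
    have hmain : T.E (fun s => K (sn1 P) G.sN t s.sum) ≤ T.E (fun s => 3 * δ * m +
        t / (δ * m) * (∑ ℓ, ((s.map (act G (eta δ / t) (δ / t) ℓ)).sum) ^ 2) +
        t ^ 2 / (δ * m * G.k) * (∑ ℓ, ((s.map (act G (eta δ / t) (δ / t) ℓ)).sum) ^ 2) +
        t * (DD G t δ ^ (1 / 4 : ℝ) *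
          √(∑ ℓ, ((s.map (act G (eta δ / t) (δ / t) ℓ)).sum) ^ 2)) +
        t * nq (s.map (lt (eta δ / t))).sum) :=
      Tree.E_mono (Tree.All_mono h fun s hs => G.K_path_le hm ht hδ hδ1 htδ hs.1 hs.2)
    refine hmain.trans ?_
    rw [Tree.E_add, Tree.E_add, Tree.E_add, Tree.E_add, Tree.E_const, Tree.E_mul, Tree.E_mul,
      Tree.E_mul, Tree.E_mul, Tree.E_mul]
    have hQ := E_Q_le17 G ht hδ hδ1 h
    have hQ0 : 0 ≤ T.E (fun s => ∑ ℓ, ((s.map (act G (eta δ / t) (δ / t) ℓ)).sum) ^ 2) :=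
      Tree.E_nonneg (Tree.All_of_forall T fun s => Finset.sum_nonneg fun _ _ => sq_nonneg _)
    have hsQ : T.E (fun s => √(∑ ℓ, ((s.map (act G (eta δ / t) (δ / t) ℓ)).sum) ^ 2)) ≤
        √(m * (nmax G t δ * (HH δ / t) ^ 2)) :=
      (Tree.E_sqrt (Tree.All_of_forall T fun s => Finset.sum_nonneg fun _ _ => sq_nonneg _)).trans
        (Real.sqrt_le_sqrt hQ)
    have hM := E_lt_le17 G (eta δ / t) ht h
    have hDD : 0 ≤ DD G t δ ^ (1 / 4 : ℝ) := by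
      refine Real.rpow_nonneg ?_ _
      unfold DD
      positivity
    have hs := scalar17 hn hk ht hδ hH hm' hn1 hn2 hn3
    have a1 : t / (δ * m) * T.E (fun s => ∑ ℓ, ((s.map (act G (eta δ / t) (δ / t) ℓ)).sum) ^ 2) ≤
        t / (δ * m) * (m * (nmax G t δ * (HH δ / t) ^ 2)) :=
      mul_le_mul_of_nonneg_left hQ (by positivity)
    have a2 : t ^ 2 / (δ * m * G.k) *
        T.E (fun s => ∑ ℓ, ((s.map (act G (eta δ / t) (δ / t) ℓ)).sum) ^ 2) ≤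
        t ^ 2 / (δ * m * G.k) * (m * (nmax G t δ * (HH δ / t) ^ 2)) :=
      mul_le_mul_of_nonneg_left hQ (by positivity)
    have a3 : t * (DD G t δ ^ (1 / 4 : ℝ) *
        T.E (fun s => √(∑ ℓ, ((s.map (act G (eta δ / t) (δ / t) ℓ)).sum) ^ 2))) ≤
        t * (DD G t δ ^ (1 / 4 : ℝ) * √(m * (nmax G t δ * (HH δ / t) ^ 2))) :=
      mul_le_mul_of_nonneg_left (mul_le_mul_of_nonneg_left hsQ hDD) ht.le
    have a4 : t * T.E (fun s => nq (s.map (lt (eta δ / t))).sum) ≤ (m : ℝ) ^ (3 / 4 : ℝ) := by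
      have h1 := mul_le_mul_of_nonneg_left hM ht.le
      have h2 : t * ((m : ℝ) ^ (3 / 4 : ℝ) * (1 / t)) = (m : ℝ) ^ (3 / 4 : ℝ) := by
        field_simp
      rwa [h2] at h1
    unfold DD at a3 ⊢
    linarith

end Pool.Agent.Helper25.NU
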