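import Pool.Agent.Helper25.NU.SmallB
import Pool.Agent.Helper25.NU.LargeC
import Pool.Agent.Helper25.NU.KJ

/-!
# Project NU, block G5: the basic inequality for incidence structures

Claim.  For every `δ > 0` there is `m ≥ 1` such that `BI (sn1 P) G.sN δ m` holds for all incidence
structures `G`.

Proof.  Let `δ₁ = min 1 (δ/6)` and let `T₀`, `C` be as in `E_K_large` for `δ₁`.  Let
`δ₂ = δ/(4 T₀)`.

For `t ≥ T₀`: `E K_t(M) ≤ 3 δ₁ m + C (1 + √m) + m^(3/4) ≤ (δ/2) m + C (1 + √m) + m^(3/4)`, which is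
at most `δ m` if `m` is large.

For `0 < t < T₀`: `K_t(M) ≤ t G.sN M ≤ T₀ (nq M + F M)` (`K_le_b`), the labels satisfy
`n1 v ≤ J_t v ≤ 1`, `nq v ≤ n1 v ≤ 1`.  By `Tree.E_nq_le` (`g = id`, `c = 1`) and `Inc.E_F_le`
`E K_t(M) ≤ T₀ (m^(3/4) + δ₂ m + √(2 m/δ₂) + √(8 m)/δ₂) ≤ (δ/4) m + T₀ (...)`, at most `δ m` if
`m` is large.

Both conditions on `m` hold for all large `m`, since `√m / m → 0` and `m^(3/4) / m → 0`.
-/

namespace Pool.Agent.Helper25.NU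

theorem exists_BI {δ : ℝ} (hδ : 0 < δ) :
    ∃ m : ℕ, 0 < m ∧
      ∀ (P L : Type) [Fintype P] [Fintype L] [DecidableEq P] [DecidableEq L] (G : Inc P L),
        BI (sn1 P) G.sN δ m := by
  classical
  obtain ⟨T₀, C, hT₀, hC, hlarge⟩ := E_K_large (δ := min 1 (δ / 6)) (by positivity) (min_le_left _ _)
  set δ₂ : ℝ := δ / (4 * T₀) with hδ₂
  have hδ₂0 : 0 < δ₂ := by positivity
  set D : ℝ := 1 + √(2 / δ₂) + √8 / δ₂ with hD
  have hD0 : 0 ≤ D := by positivity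
  obtain ⟨N, hN⟩ := exists_nat_ge (max 1 (max ((2 * C + 1) * (2 / δ)) (T₀ * D * (2 / δ))))
  have hN1 : (1 : ℝ) ≤ N := (le_max_left _ _).trans hN
  have hN2 : (2 * C + 1) * (2 / δ) ≤ N := (le_max_left _ _).trans ((le_max_right _ _).trans hN)
  have hN3 : T₀ * D * (2 / δ) ≤ N := (le_max_right _ _).trans ((le_max_right _ _).trans hN)
  have hN2' : 2 * C + 1 ≤ δ / 2 * N := by
    have h := mul_le_mul_of_nonneg_left hN2 (show (0 : ℝ) ≤ δ / 2 by positivity)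
    have e : δ / 2 * ((2 * C + 1) * (2 / δ)) = 2 * C + 1 := by field_simp
    rwa [e] at h
  have hN3' : T₀ * D ≤ δ / 2 * N := by
    have h := mul_le_mul_of_nonneg_left hN3 (show (0 : ℝ) ≤ δ / 2 by positivity)
    have e : δ / 2 * (T₀ * D * (2 / δ)) = T₀ * D := by field_simp
    rwa [e] at h
  have hN0 : (0 : ℝ) < N := by linarith
  have hm0 : 0 < N ^ 4 := pow_pos (by exact_mod_cast hN0) 4
  have hcast : ((N ^ 4 : ℕ) : ℝ) = (N : ℝ) ^ 4 := by push_cast; ring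
  have hsq : √((N ^ 4 : ℕ) : ℝ) = (N : ℝ) ^ 2 := by
    rw [hcast, show (N : ℝ) ^ 4 = ((N : ℝ) ^ 2) ^ 2 by ring]
    exact Real.sqrt_sq (by positivity)
  have hpow : (((N ^ 4 : ℕ) : ℝ)) ^ (3 / 4 : ℝ) = (N : ℝ) ^ 3 := by
    rw [hcast, ← Real.rpow_natCast (N : ℝ) 4, ← Real.rpow_natCast (N : ℝ) 3,
      ← Real.rpow_mul hN0.le]
    norm_num
  have h12 : (1 : ℝ) ≤ (N : ℝ) ^ 2 := one_le_pow₀ hN1
  have h23 : (N : ℝ) ^ 2 ≤ (N : ℝ) ^ 3 := pow_le_pow_right₀ hN1 (by norm_num)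
  have hN30 : (0 : ℝ) < (N : ℝ) ^ 3 := by positivity
  refine ⟨N ^ 4, hm0, ?_⟩
  intro P L _ _ _ _ G t ht T hT
  rw [hcast]
  by_cases htT : T₀ ≤ t
  · have h := hlarge P L G t htT (N ^ 4) hm0 T hT
    rw [hsq, hpow, hcast] at h
    refine h.trans ?_
    have h1 : 3 * min 1 (δ / 6) * (N : ℝ) ^ 4 ≤ δ / 2 * (N : ℝ) ^ 4 := by
      refine mul_le_mul_of_nonneg_right ?_ (by positivity)
      have := min_le_right 1 (δ / 6)
      linarith
    have h2 : C * (1 + (N : ℝ) ^ 2) + (N : ℝ) ^ 3 ≤ (2 * C + 1) * (N : ℝ) ^ 3 := by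
      have h3 : C * (1 + (N : ℝ) ^ 2) ≤ C * (2 * (N : ℝ) ^ 3) :=
        mul_le_mul_of_nonneg_left (by linarith) hC
      linarith
    have h4 : (2 * C + 1) * (N : ℝ) ^ 3 ≤ δ / 2 * N * (N : ℝ) ^ 3 :=
      mul_le_mul_of_nonneg_right hN2' hN30.le
    have h5 : δ / 2 * N * (N : ℝ) ^ 3 = δ / 2 * (N : ℝ) ^ 4 := by ring
    linarith
  · have htT' : t < T₀ := not_le.mp htT
    have hn1 : T.All (fun s => (∀ v ∈ s, n1 v ≤ 1) ∧ nz s ≤ (N ^ 4 : ℕ)) :=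
      Tree.All_mono hT fun s hs =>
        ⟨fun v hv => (le_max_left _ _).trans (hs.1 v hv), hs.2⟩
    have hq := Tree.E_nq_le (g := fun v => v) T (fun x => rfl) (m := N ^ 4) (c := 1) zero_le_one
      (Tree.All_mono hn1 fun s hs => ⟨fun v hv => (nq_le_n1 v).trans (hs.1 v hv), hs.2⟩)
    have hF := G.E_F_le hm0 hδ₂0 T hn1
    have hmid : ∀ s : List (P → ℝ), (s.map fun v => v) = s := fun s => List.map_id' s
    simp only [hmid] at hq
    have h1 : T.E (fun s => K (sn1 P) G.sN t s.sum) ≤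
        T.E (fun s => T₀ * (nq s.sum + G.F s.sum)) := by
      refine Tree.E_mono (Tree.All_of_forall T fun s => ?_)
      refine (K_le_b _ _ ht.le _).trans ?_
      rw [G.sN_apply]
      have h2 : max (nq s.sum) (G.F s.sum) ≤ nq s.sum + G.F s.sum :=
        max_le (le_add_of_nonneg_right (G.F_nonneg _)) (le_add_of_nonneg_left (nq_nonneg _))
      exact mul_le_mul htT'.le h2 (le_max_of_le_left (nq_nonneg _)) hT₀.le
    rw [Tree.E_mul, Tree.E_add] at h1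
    refine h1.trans ?_
    rw [hpow, mul_one] at hq
    have e1 : √(2 * ((N ^ 4 : ℕ) : ℝ) / δ₂) = √(2 / δ₂) * (N : ℝ) ^ 2 := by
      rw [← hsq, ← Real.sqrt_mul (by positivity)]
      congr 1
      ring
    have e2 : √(8 * ((N ^ 4 : ℕ) : ℝ)) / δ₂ = √8 / δ₂ * (N : ℝ) ^ 2 := by
      rw [← hsq, Real.sqrt_mul (by norm_num)]
      ring
    rw [e1, e2, hcast] at hF
    have h3 : T.E (fun s => nq s.sum) + T.E (fun s => G.F s.sum) ≤
        D * (N : ℝ) ^ 3 + δ₂ * (N : ℝ) ^ 4 := by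
      have h4 : √(2 / δ₂) * (N : ℝ) ^ 2 ≤ √(2 / δ₂) * (N : ℝ) ^ 3 :=
        mul_le_mul_of_nonneg_left h23 (Real.sqrt_nonneg _)
      have h5 : √8 / δ₂ * (N : ℝ) ^ 2 ≤ √8 / δ₂ * (N : ℝ) ^ 3 :=
        mul_le_mul_of_nonneg_left h23 (by positivity)
      rw [hD]
      linarith
    have h6 := mul_le_mul_of_nonneg_left h3 hT₀.le
    have h7 : T₀ * (D * (N : ℝ) ^ 3 + δ₂ * (N : ℝ) ^ 4) =
        T₀ * D * (N : ℝ) ^ 3 + δ / 4 * (N : ℝ) ^ 4 := by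
      rw [hδ₂]
      field_simp
    have h8 : T₀ * D * (N : ℝ) ^ 3 ≤ δ / 2 * N * (N : ℝ) ^ 3 :=
      mul_le_mul_of_nonneg_right hN3' hN30.le
    have h9 : δ / 2 * N * (N : ℝ) ^ 3 = δ / 2 * (N : ℝ) ^ 4 := by ring
    have h10 : (0 : ℝ) ≤ δ / 4 * (N : ℝ) ^ 4 := by positivity
    linarith

end Pool.Agent.Helper25.NU
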