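import Pool.Agent.Helper25.NU.Tree
import Pool.Agent.Helper25.NU.KJ

/-!
# Project NU, block A1: from the basic inequality to trees with any number of steps

Claim (`BI.blocks`).  If `BI a b δ m` holds (`0 ≤ δ`, `0 < m`), `t > 0` and all labels of `T` have
`J_t ≤ 1`, then `E K_t(M) ≤ δ E nz + δ m`.

Proof.  Write `U T = E (K_t(s.sum) - δ nz s)`.  Claim: `U T ≤ δ m`.  Strong induction on the
depth (or the size) of `T`.

For `j : ℕ` let `trunc j T` be the tree in which everything after the `j`-th non-zero label is cut: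
`trunc 0 T = leaf`, `trunc (j+1) leaf = leaf`,
`trunc (j+1) (node x l r) = node x (trunc (j+1) l) (trunc (j+1) r)` if `x = 0` and
`node x (trunc j l) (trunc j r)` if `x ≠ 0`.
All paths of `trunc j T` have `nz ≤ j` and their labels still satisfy `J_t ≤ 1`.

(1) Let `j : ℕ`, `z : V`, and suppose `U T' ≤ δ m` for all subtrees `T'` of `T` with labels
`J_t ≤ 1` [in the induction: for all trees with labels `J_t ≤ 1` of depth `≤ depth T`]. Then
`E_T (K_t(z + s.sum) - δ nz s) ≤ E_{trunc j T} (K_t(z + s.sum) - δ nz s + (if j ≤ nz s then δ m else 0))`.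
By induction on `T`, generalizing `j`, `z`.  If `j = 0`: the left hand side is at most
`K_t z + E_T (K_t(s.sum) - δ nz s) ≤ K_t z + δ m` (`K_add`), which is the right hand side.
If `T = leaf`, `j ≥ 1`: equality.  If `T = node x l r` and `x = 0`: use the induction hypothesis
for `l`, `r`, the same `j`, `z`.  If `x ≠ 0`, `j = j' + 1`: use it for `j'`, `z ± x`; the label
contributes `-δ` on both sides, and `j' + 1 ≤ 1 + nz s` iff `j' ≤ nz s`.

(2) Now the step of the strong induction: for `T = leaf` the claim is clear (`0 ≤ δ m`).  For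
`T = node x l r` with `x = 0` use the claim for `l`, `r`.  For `x ≠ 0` let `m = j + 1` and apply (1)
to the subtrees `l` (with `z = x`) and `r` (with `z = -x`), `j`; together:
`U T ≤ E_{trunc m T} (K_t(s.sum) - δ nz s + (if m ≤ nz s then δ m else 0))`.  On `trunc m T` the
integrand is at most `K_t(s.sum)` (if `m ≤ nz s` then `- δ nz s + δ m ≤ 0`), so by `BI`
`U T ≤ E_{trunc m T} K_t(s.sum) ≤ δ m`.
-/

namespace Pool.Agent.Helper25.NU

variable {V : Type} [AddCommGroup V] [Module ℝ V]

omit [Module ℝ V] in
private theorem E_sub_const45 (T : Tree V) (f : List V → ℝ) (c : ℝ) :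
    T.E (fun s => f s + -c) = T.E f + -c := by
  rw [Tree.E_add, Tree.E_const]

omit [Module ℝ V] in
private theorem nz_nil45 : nz ([] : List V) = 0 := by simp [nz]

omit [Module ℝ V] in
private theorem nz_zero45 (s : List V) : nz ((0 : V) :: s) = nz s := by simp [nz]

omit [Module ℝ V] in
private theorem nz_ne45 {x : V} (hx : x ≠ 0) (s : List V) : nz (x :: s) = nz s + 1 := by
  simp [nz, hx, add_comm]

omit [Module ℝ V] in
private theorem nz_nonneg45 (s : List V) : 0 ≤ nz s := by
  unfold nz
  apply List.sum_nonneg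
  intro x hx
  rw [List.mem_map] at hx
  obtain ⟨v, -, rfl⟩ := hx
  split_ifs
  · exact le_refl _
  · exact zero_le_one

open Classical in
/-- The tree cut after the `j`-th non-zero label. -/
private noncomputable def trunc45 : Tree V → ℕ → Tree V
  | .leaf, _ => .leaf
  | .node _ _ _, 0 => .leaf
  | .node x l r, (j + 1) =>
    if x = 0 then .node x (trunc45 l (j + 1)) (trunc45 r (j + 1)) else .node x (trunc45 l j) (trunc45 r j)

omit [Module ℝ V] in
private theorem trunc_zero45 {x : V} (hx : x = 0) (l r : Tree V) (j : ℕ) :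
    trunc45 (.node x l r) (j + 1) = .node x (trunc45 l (j + 1)) (trunc45 r (j + 1)) := by
  rw [trunc45, if_pos hx]

omit [Module ℝ V] in
private theorem trunc_ne45 {x : V} (hx : x ≠ 0) (l r : Tree V) (j : ℕ) :
    trunc45 (.node x l r) (j + 1) = .node x (trunc45 l j) (trunc45 r j) := by
  rw [trunc45, if_neg hx]

omit [Module ℝ V] in
private theorem exists_path45 {T : Tree V} : ∀ {Q : List V → Prop}, T.All Q → ∃ s, Q s := by
  induction T with
  | leaf => exact fun h => ⟨[], h⟩
  | node x l r hl hr =>
    intro Q h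
    obtain ⟨s, hs⟩ := hl h.1
    exact ⟨_, hs⟩

omit [Module ℝ V] in
private theorem all_trunc45 (Q : V → Prop) (T : Tree V) : ∀ j : ℕ, T.All (fun s => ∀ v ∈ s, Q v) →
    (trunc45 T j).All (fun s => (∀ v ∈ s, Q v) ∧ nz s ≤ j) := by
  have hleaf : ∀ j : ℕ, (Tree.leaf : Tree V).All (fun s => (∀ v ∈ s, Q v) ∧ nz s ≤ j) := by
    intro j
    refine ⟨fun v hv => absurd hv List.not_mem_nil, ?_⟩
    rw [nz_nil45]
    exact Nat.cast_nonneg j
  induction T with
  | leaf => exact fun j _ => hleaf j
  | node x l r hl hr =>
    intro j h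
    obtain ⟨s1, hs1⟩ := exists_path45 h.1
    obtain ⟨s2, hs2⟩ := exists_path45 h.2
    have hx : Q x := hs1 x List.mem_cons_self
    have hx' : Q (-x) := hs2 (-x) List.mem_cons_self
    have h1 : l.All (fun s => ∀ v ∈ s, Q v) :=
      Tree.All_mono h.1 (fun s hs v hv => hs v (List.mem_cons_of_mem _ hv))
    have h2 : r.All (fun s => ∀ v ∈ s, Q v) :=
      Tree.All_mono h.2 (fun s hs v hv => hs v (List.mem_cons_of_mem _ hv))
    cases j with
    | zero => exact hleaf 0
    | succ j =>
      by_cases h0 : x = 0
      · rw [trunc_zero45 h0]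
        refine ⟨Tree.All_mono (hl (j + 1) h1) fun s hs => ⟨?_, ?_⟩,
          Tree.All_mono (hr (j + 1) h2) fun s hs => ⟨?_, ?_⟩⟩
        · intro v hv
          rcases List.mem_cons.1 hv with rfl | hv
          · exact hx
          · exact hs.1 v hv
        · rw [h0, nz_zero45]
          exact hs.2
        · intro v hv
          rcases List.mem_cons.1 hv with rfl | hv
          · exact hx'
          · exact hs.1 v hv
        · rw [h0, neg_zero, nz_zero45]
          exact hs.2
      · rw [trunc_ne45 h0]
        refine ⟨Tree.All_mono (hl j h1) fun s hs => ⟨?_, ?_⟩,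
          Tree.All_mono (hr j h2) fun s hs => ⟨?_, ?_⟩⟩
        · intro v hv
          rcases List.mem_cons.1 hv with rfl | hv
          · exact hx
          · exact hs.1 v hv
        · rw [nz_ne45 h0, Nat.cast_add, Nat.cast_one]
          exact add_le_add_left hs.2 1
        · intro v hv
          rcases List.mem_cons.1 hv with rfl | hv
          · exact hx'
          · exact hs.1 v hv
        · rw [nz_ne45 (neg_ne_zero.2 h0), Nat.cast_add, Nat.cast_one]
          exact add_le_add_left hs.2 1

open Classical in
/-- Step (1). -/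
private theorem step45 {a b : Seminorm ℝ V} {δ : ℝ} {m : ℕ} (hδ : 0 ≤ δ) {t : ℝ} (ht : 0 < t)
    (d : ℕ) (IH : ∀ T : Tree V, T.depth ≤ d → T.All (fun s => ∀ v ∈ s, J a b t v ≤ 1) →
      T.E (fun s => K a b t s.sum - δ * nz s) ≤ δ * m) (T : Tree V) :
    ∀ (j : ℕ) (z : V), T.depth ≤ d → T.All (fun s => ∀ v ∈ s, J a b t v ≤ 1) →
      T.E (fun s => K a b t (z + s.sum) - δ * nz s) ≤
        (trunc45 T j).E (fun s => K a b t (z + s.sum) - δ * nz s +
          (if (j : ℝ) ≤ nz s then δ * m else 0)) := by
  have hδm : 0 ≤ δ * (m : ℝ) := mul_nonneg hδ (Nat.cast_nonneg m)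
  induction T with
  | leaf =>
    intro j z _ _
    show K a b t (z + ([] : List V).sum) - δ * nz ([] : List V) ≤
      K a b t (z + ([] : List V).sum) - δ * nz ([] : List V) + (if (j : ℝ) ≤ nz ([] : List V) then δ * m else 0)
    split_ifs <;> linarith
  | node x l r hl hr =>
    intro j z hd h
    have hdl : l.depth ≤ d := by
      have : (Tree.node x l r).depth = max l.depth r.depth + 1 := rfl
      omega
    have hdr : r.depth ≤ d := by
      have : (Tree.node x l r).depth = max l.depth r.depth + 1 := rfl
      omega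
    have h1 : l.All (fun s => ∀ v ∈ s, J a b t v ≤ 1) :=
      Tree.All_mono h.1 (fun s hs v hv => hs v (List.mem_cons_of_mem _ hv))
    have h2 : r.All (fun s => ∀ v ∈ s, J a b t v ≤ 1) :=
      Tree.All_mono h.2 (fun s hs v hv => hs v (List.mem_cons_of_mem _ hv))
    cases j with
    | zero =>
      have e : (trunc45 (Tree.node x l r) 0).E (fun s => K a b t (z + s.sum) - δ * nz s +
          (if ((0 : ℕ) : ℝ) ≤ nz s then δ * m else 0)) = K a b t z + δ * m := by
        show K a b t (z + ([] : List V).sum) - δ * nz ([] : List V) +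
          (if ((0 : ℕ) : ℝ) ≤ nz ([] : List V) then δ * m else 0) = _
        rw [nz_nil45, List.sum_nil, if_pos (by simp)]
        simp
      rw [e]
      have h3 : (Tree.node x l r).E (fun s => K a b t (z + s.sum) - δ * nz s) ≤
          (Tree.node x l r).E (fun s => K a b t z + (K a b t s.sum - δ * nz s)) := by
        apply Tree.E_mono
        apply Tree.All_of_forall
        intro s
        have := K_add a b ht.le z s.sum
        linarith
      refine h3.trans ?_
      rw [Tree.E_add, Tree.E_const]
      exact add_le_add (le_refl _) (IH _ hd h)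
    | succ j =>
      by_cases h0 : x = 0
      · subst h0
        rw [trunc_zero45 rfl]
        have e1 := hl (j + 1) z hdl h1
        have e2 := hr (j + 1) z hdr h2
        show (l.E (fun s => K a b t (z + ((0 : V) :: s).sum) - δ * nz ((0 : V) :: s)) +
            r.E (fun s => K a b t (z + (-(0 : V) :: s).sum) - δ * nz (-(0 : V) :: s))) / 2 ≤
          ((trunc45 l (j + 1)).E (fun s => K a b t (z + ((0 : V) :: s).sum) - δ * nz ((0 : V) :: s) +
              (if ((j + 1 : ℕ) : ℝ) ≤ nz ((0 : V) :: s) then δ * m else 0)) +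
            (trunc45 r (j + 1)).E (fun s => K a b t (z + (-(0 : V) :: s).sum) - δ * nz (-(0 : V) :: s) +
              (if ((j + 1 : ℕ) : ℝ) ≤ nz (-(0 : V) :: s) then δ * m else 0))) / 2
        simp only [neg_zero, List.sum_cons, zero_add, nz_zero45]
        linarith
      · rw [trunc_ne45 h0]
        have hx' : -x ≠ 0 := neg_ne_zero.2 h0
        have e1 := hl j (z + x) hdl h1
        have e2 := hr j (z + -x) hdr h2
        show (l.E (fun s => K a b t (z + (x :: s).sum) - δ * nz (x :: s)) +
            r.E (fun s => K a b t (z + (-x :: s).sum) - δ * nz (-x :: s))) / 2 ≤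
          ((trunc45 l j).E (fun s => K a b t (z + (x :: s).sum) - δ * nz (x :: s) +
              (if ((j + 1 : ℕ) : ℝ) ≤ nz (x :: s) then δ * m else 0)) +
            (trunc45 r j).E (fun s => K a b t (z + (-x :: s).sum) - δ * nz (-x :: s) +
              (if ((j + 1 : ℕ) : ℝ) ≤ nz (-x :: s) then δ * m else 0))) / 2
        have f1 : ∀ y : V, y ≠ 0 → (fun s : List V => K a b t (z + (y :: s).sum) - δ * nz (y :: s)) =
            fun s => (K a b t ((z + y) + s.sum) - δ * nz s) + -δ := by
          intro y hy
          funext s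
          rw [List.sum_cons, nz_ne45 hy, add_assoc]
          ring
        have f2 : ∀ y : V, y ≠ 0 → (fun s : List V => K a b t (z + (y :: s).sum) - δ * nz (y :: s) +
              (if ((j + 1 : ℕ) : ℝ) ≤ nz (y :: s) then δ * m else 0)) =
            fun s => (K a b t ((z + y) + s.sum) - δ * nz s + (if (j : ℝ) ≤ nz s then δ * m else 0)) + -δ := by
          intro y hy
          funext s
          rw [List.sum_cons, nz_ne45 hy, show z + (y + s.sum) = z + y + s.sum from (add_assoc _ _ _).symm]
          have : (((j + 1 : ℕ) : ℝ) ≤ nz s + 1) ↔ ((j : ℝ) ≤ nz s) := by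
            rw [Nat.cast_add, Nat.cast_one]
            constructor <;> intro h <;> linarith
          simp only [this]
          ring
        rw [f1 x h0, f1 (-x) hx', f2 x h0, f2 (-x) hx', E_sub_const45, E_sub_const45, E_sub_const45, E_sub_const45]
        linarith

open Classical in
/-- Step (2). -/
private theorem main45 {a b : Seminorm ℝ V} {δ : ℝ} {m : ℕ} (h : BI a b δ m) (hδ : 0 ≤ δ) (hm : 0 < m)
    {t : ℝ} (ht : 0 < t) (d : ℕ) : ∀ T : Tree V, T.depth ≤ d →
      T.All (fun s => ∀ v ∈ s, J a b t v ≤ 1) →
      T.E (fun s => K a b t s.sum - δ * nz s) ≤ δ * m := by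
  have hδm : 0 ≤ δ * (m : ℝ) := mul_nonneg hδ (Nat.cast_nonneg m)
  have hleaf : (Tree.leaf : Tree V).E (fun s => K a b t s.sum - δ * nz s) ≤ δ * m := by
    show K a b t ([] : List V).sum - δ * nz ([] : List V) ≤ δ * m
    rw [nz_nil45, List.sum_nil]
    have := K_le_a a b ht.le (0 : V)
    rw [map_zero] at this
    linarith
  induction d with
  | zero =>
    intro T hT _
    cases T with
    | leaf => exact hleaf
    | node x l r =>
      exfalso
      have : (Tree.node x l r).depth = max l.depth r.depth + 1 := rfl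
      omega
  | succ d IH =>
    intro T hT hA
    cases T with
    | leaf => exact hleaf
    | node x l r =>
      have hd : (Tree.node x l r).depth = max l.depth r.depth + 1 := rfl
      have hdl : l.depth ≤ d := by omega
      have hdr : r.depth ≤ d := by omega
      have h1 : l.All (fun s => ∀ v ∈ s, J a b t v ≤ 1) :=
        Tree.All_mono hA.1 (fun s hs v hv => hs v (List.mem_cons_of_mem _ hv))
      have h2 : r.All (fun s => ∀ v ∈ s, J a b t v ≤ 1) :=
        Tree.All_mono hA.2 (fun s hs v hv => hs v (List.mem_cons_of_mem _ hv))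
      by_cases h0 : x = 0
      · subst h0
        have e1 := IH l hdl h1
        have e2 := IH r hdr h2
        show (l.E (fun s => K a b t ((0 : V) :: s).sum - δ * nz ((0 : V) :: s)) +
            r.E (fun s => K a b t (-(0 : V) :: s).sum - δ * nz (-(0 : V) :: s))) / 2 ≤ _
        simp only [neg_zero, List.sum_cons, zero_add, nz_zero45]
        linarith
      · obtain ⟨j, rfl⟩ : ∃ j, m = j + 1 := ⟨m - 1, by omega⟩
        have hx' : -x ≠ 0 := neg_ne_zero.2 h0
        have e1 := step45 hδ ht d IH l j x hdl h1
        have e2 := step45 hδ ht d IH r j (-x) hdr h2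
        have f1 : ∀ y : V, y ≠ 0 → (fun s : List V => K a b t (y :: s).sum - δ * nz (y :: s)) =
            fun s => (K a b t (y + s.sum) - δ * nz s) + -δ := by
          intro y hy
          funext s
          rw [List.sum_cons, nz_ne45 hy]
          ring
        have f2 : ∀ y : V, y ≠ 0 → (fun s : List V => K a b t (y :: s).sum - δ * nz (y :: s) +
              (if ((j + 1 : ℕ) : ℝ) ≤ nz (y :: s) then δ * ((j + 1 : ℕ) : ℝ) else 0)) =
            fun s => (K a b t (y + s.sum) - δ * nz s +
              (if (j : ℝ) ≤ nz s then δ * ((j + 1 : ℕ) : ℝ) else 0)) + -δ := by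
          intro y hy
          funext s
          rw [List.sum_cons, nz_ne45 hy]
          have : (((j + 1 : ℕ) : ℝ) ≤ nz s + 1) ↔ ((j : ℝ) ≤ nz s) := by
            rw [Nat.cast_add, Nat.cast_one]
            constructor <;> intro h <;> linarith
          simp only [this]
          ring
        have e3 : (Tree.node x l r).E (fun s => K a b t s.sum - δ * nz s) ≤
            (trunc45 (Tree.node x l r) (j + 1)).E (fun s => K a b t s.sum - δ * nz s +
              (if ((j + 1 : ℕ) : ℝ) ≤ nz s then δ * ((j + 1 : ℕ) : ℝ) else 0)) := by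
          rw [trunc_ne45 h0]
          show (l.E (fun s => K a b t (x :: s).sum - δ * nz (x :: s)) +
              r.E (fun s => K a b t (-x :: s).sum - δ * nz (-x :: s))) / 2 ≤
            ((trunc45 l j).E (fun s => K a b t (x :: s).sum - δ * nz (x :: s) +
                (if ((j + 1 : ℕ) : ℝ) ≤ nz (x :: s) then δ * ((j + 1 : ℕ) : ℝ) else 0)) +
              (trunc45 r j).E (fun s => K a b t (-x :: s).sum - δ * nz (-x :: s) +
                (if ((j + 1 : ℕ) : ℝ) ≤ nz (-x :: s) then δ * ((j + 1 : ℕ) : ℝ) else 0))) / 2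
          rw [f1 x h0, f1 (-x) hx', f2 x h0, f2 (-x) hx', E_sub_const45, E_sub_const45, E_sub_const45, E_sub_const45]
          linarith
        refine e3.trans (le_trans (Tree.E_mono (Tree.All_of_forall _ fun s => ?_))
          (h t ht _ (all_trunc45 _ _ (j + 1) hA)))
        have hn := mul_nonneg hδ (nz_nonneg45 s)
        split_ifs with hc
        · have := mul_le_mul_of_nonneg_left hc hδ
          linarith
        · linarith

theorem BI.blocks {a b : Seminorm ℝ V} {δ : ℝ} {m : ℕ} (h : BI a b δ m) (hδ : 0 ≤ δ) (hm : 0 < m)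
    {t : ℝ} (ht : 0 < t) {T : Tree V} (hT : T.All (fun s => ∀ v ∈ s, J a b t v ≤ 1)) :
    T.E (fun s => K a b t s.sum) ≤ δ * T.E (fun s => nz s) + δ * m := by
  have h1 := main45 h hδ hm ht T.depth T le_rfl hT
  rw [Tree.E_sub, Tree.E_mul] at h1
  linarith

end Pool.Agent.Helper25.NU
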