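import Pool.Agent.Helper25.NU.Defs

/-!
# Project NU, block C1: double counting for a set of lines

`mu B p` is the number of the lines of `B` through the point `p`.

* `sum_abs_A_le`: `∑_{ℓ ∈ B} |A x ℓ| ≤ ∑_p |x p| * mu B p` (triangle inequality and exchange of the
  sums).
* `sum_mu_sq_le`: since two distinct lines have at most one common point,
  `∑_p mu (mu - 1) = #{(ℓ, ℓ', p) : ℓ ≠ ℓ' ∈ B, p ∈ ℓ ∩ ℓ'} ≤ |B|²`; and for the points with `mu ≥ 2`
  one has `mu² ≤ 2 mu (mu - 1)`.  So `∑_{p : mu p ≥ 2} mu² ≤ 2 |B|²`.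
* `sum_mu`: `∑_p mu B p = k |B|`.  So at most `k |B|` points have `mu ≥ 1`.
-/

namespace Pool.Agent.Helper25.NU

open Finset

variable {P L : Type} [Fintype P] [Fintype L] [DecidableEq P] [DecidableEq L]

/-- The number of the lines of `B` through `p`. -/
def Inc.mu (G : Inc P L) (B : Finset L) (p : P) : ℕ := (B.filter fun ℓ => p ∈ G.line ℓ).card

theorem Inc.sum_abs_A_le (G : Inc P L) (B : Finset L) (x : P → ℝ) :
    ∑ ℓ ∈ B, |G.A x ℓ| ≤ ∑ p, |x p| * G.mu B p := by
  calc ∑ ℓ ∈ B, |G.A x ℓ| ≤ ∑ ℓ ∈ B, ∑ p ∈ G.line ℓ, |x p| :=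
        Finset.sum_le_sum fun ℓ _ => Finset.abs_sum_le_sum_abs _ _
    _ = ∑ ℓ ∈ B, ∑ p, if p ∈ G.line ℓ then |x p| else 0 := by
        refine Finset.sum_congr rfl fun ℓ _ => ?_
        rw [Finset.sum_ite_mem, Finset.univ_inter]
    _ = ∑ p, ∑ ℓ ∈ B, if p ∈ G.line ℓ then |x p| else 0 := Finset.sum_comm
    _ = ∑ p, |x p| * G.mu B p := by
        refine Finset.sum_congr rfl fun p _ => ?_
        rw [← Finset.sum_filter, Finset.sum_const, nsmul_eq_mul, mul_comm]
        rfl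

theorem Inc.sum_mu (G : Inc P L) (B : Finset L) : ∑ p, G.mu B p = G.k * B.card := by
  calc ∑ p, G.mu B p = ∑ p, ∑ ℓ ∈ B, if p ∈ G.line ℓ then 1 else 0 := by
        refine Finset.sum_congr rfl fun p _ => ?_
        rw [← Finset.sum_filter, Finset.sum_const, smul_eq_mul, mul_one]
        rfl
    _ = ∑ ℓ ∈ B, ∑ p, if p ∈ G.line ℓ then 1 else 0 := Finset.sum_comm
    _ = ∑ ℓ ∈ B, G.k := by
        refine Finset.sum_congr rfl fun ℓ _ => ?_
        rw [Finset.sum_ite_mem, Finset.univ_inter, Finset.sum_const, smul_eq_mul, mul_one, G.card]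
    _ = G.k * B.card := by
        rw [Finset.sum_const, smul_eq_mul, mul_comm]

theorem Inc.sum_mu_sq_le (G : Inc P L) (B : Finset L) :
    ∑ p with 2 ≤ G.mu B p, (G.mu B p : ℝ) ^ 2 ≤ 2 * (B.card : ℝ) ^ 2 := by
  have h1 : ∀ p, 2 ≤ G.mu B p → (G.mu B p : ℝ) ^ 2 ≤
      2 * (((B.filter fun ℓ => p ∈ G.line ℓ).offDiag.card : ℕ) : ℝ) := by
    intro p hp
    have h2 : ((B.filter fun ℓ => p ∈ G.line ℓ).offDiag.card : ℕ) + G.mu B p =
        G.mu B p * G.mu B p := by
      rw [Finset.offDiag_card]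
      change G.mu B p * G.mu B p - G.mu B p + G.mu B p = _
      exact Nat.sub_add_cancel (Nat.le_mul_self _)
    have h3 : (((B.filter fun ℓ => p ∈ G.line ℓ).offDiag.card : ℕ) : ℝ) + G.mu B p =
        G.mu B p * G.mu B p := by exact_mod_cast h2
    have h4 : (2 : ℝ) ≤ G.mu B p := by exact_mod_cast hp
    nlinarith
  have h5 : ∀ p, (((B.filter fun ℓ => p ∈ G.line ℓ).offDiag.card : ℕ) : ℝ) =
      ∑ q ∈ B.offDiag, if p ∈ G.line q.1 ∩ G.line q.2 then (1 : ℝ) else 0 := by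
    intro p
    rw [← Finset.sum_filter, Finset.sum_const, nsmul_eq_mul, mul_one]
    congr 2
    ext q
    simp only [Finset.mem_offDiag, Finset.mem_filter, Finset.mem_inter]
    tauto
  calc ∑ p with 2 ≤ G.mu B p, (G.mu B p : ℝ) ^ 2
      ≤ ∑ p with 2 ≤ G.mu B p, 2 * (((B.filter fun ℓ => p ∈ G.line ℓ).offDiag.card : ℕ) : ℝ) := by
        refine Finset.sum_le_sum fun p hp => h1 p ?_
        rw [Finset.mem_filter] at hp
        exact hp.2
    _ ≤ ∑ p, 2 * (((B.filter fun ℓ => p ∈ G.line ℓ).offDiag.card : ℕ) : ℝ) := by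
        refine Finset.sum_le_sum_of_subset_of_nonneg (Finset.filter_subset _ _) fun p _ _ => ?_
        positivity
    _ = 2 * ∑ p, ∑ q ∈ B.offDiag, if p ∈ G.line q.1 ∩ G.line q.2 then (1 : ℝ) else 0 := by
        rw [← Finset.mul_sum]
        simp_rw [h5]
    _ = 2 * ∑ q ∈ B.offDiag, ∑ p, if p ∈ G.line q.1 ∩ G.line q.2 then (1 : ℝ) else 0 := by
        rw [Finset.sum_comm]
    _ ≤ 2 * ∑ q ∈ B.offDiag, (1 : ℝ) := by
        refine mul_le_mul_of_nonneg_left (Finset.sum_le_sum fun q hq => ?_) (by norm_num)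
        rw [Finset.sum_ite_mem, Finset.univ_inter, Finset.sum_const, nsmul_eq_mul, mul_one]
        rw [Finset.mem_offDiag] at hq
        exact_mod_cast G.inter q.1 q.2 hq.2.2
    _ ≤ 2 * (B.card : ℝ) ^ 2 := by
        rw [Finset.sum_const, nsmul_eq_mul, mul_one]
        have h6 : B.offDiag.card ≤ B.card * B.card := by
          rw [Finset.offDiag_card]
          exact Nat.sub_le _ _
        have h7 : ((B.offDiag.card : ℕ) : ℝ) ≤ B.card * B.card := by exact_mod_cast h6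
        nlinarith

/-- The number of the points which are on some line of `B`. -/
theorem Inc.card_pos_mu_le (G : Inc P L) (B : Finset L) :
    ((univ.filter fun p => 1 ≤ G.mu B p).card : ℝ) ≤ G.k * B.card := by
  have h1 : (univ.filter fun p => 1 ≤ G.mu B p).card ≤ ∑ p, G.mu B p := by
    rw [Finset.card_eq_sum_ones]
    calc ∑ p with 1 ≤ G.mu B p, 1 ≤ ∑ p with 1 ≤ G.mu B p, G.mu B p := by
          refine Finset.sum_le_sum fun p hp => ?_
          rw [Finset.mem_filter] at hp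
          exact hp.2
      _ ≤ ∑ p, G.mu B p := Finset.sum_le_sum_of_subset (Finset.filter_subset _ _)
  rw [G.sum_mu B] at h1
  exact_mod_cast h1

end Pool.Agent.Helper25.NU
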