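import Pool.Agent.Helper25.NU.Count

/-!
# Project NU, block C3: few lines have large sums (second counting lemma)

Let `0 < δ`, `0 < m`, `0 ≤ w p ≤ δ² m / 8` for all points `p` and `∑_p w p ≤ m`.  If
`δ m ≤ A w ℓ = ∑_{p ∈ ℓ} w p` for all `ℓ ∈ B`, then `|B| ≤ 2 / δ`.

Proof.  Let `N = |B|` and `mu p = G.mu B p`.  By `sum_abs_A_le` (here `|w p| = w p`),
`N δ m ≤ ∑_p w p * mu p = Σ₁ + Σ₂` with `Σ₁` the sum over `mu p ≤ 1` and `Σ₂` over `mu p ≥ 2`.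
`Σ₁ ≤ ∑ w ≤ m`.  By Cauchy-Schwarz and `sum_mu_sq_le`,
`Σ₂² ≤ (∑ w²) (∑_{mu ≥ 2} mu²) ≤ (δ² m / 8 · m) (2 N²) = (δ m N / 2)²`.
So `N δ m / 2 ≤ m`.
-/

namespace Pool.Agent.Helper25.NU

open Finset

variable {P L : Type} [Fintype P] [Fintype L] [DecidableEq P] [DecidableEq L]

private theorem le_of_sq_le_sq88 {a b : ℝ} (h : a ^ 2 ≤ b ^ 2) (hb : 0 ≤ b) : a ≤ b :=
  le_trans (le_abs_self a) (abs_le_of_sq_le_sq h hb)

theorem Inc.count2 (G : Inc P L) {m δ : ℝ} (hm : 0 < m) (hδ : 0 < δ) {w : P → ℝ}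
    (hw0 : ∀ p, 0 ≤ w p) (hw : ∀ p, w p ≤ δ ^ 2 / 8 * m) (hsum : ∑ p, w p ≤ m) (B : Finset L)
    (hB : ∀ ℓ ∈ B, δ * m ≤ G.A w ℓ) :
    (B.card : ℝ) ≤ 2 / δ := by
  have hmu0 : ∀ p, (0 : ℝ) ≤ G.mu B p := fun p => Nat.cast_nonneg _
  -- lower bound
  have h1 : (B.card : ℝ) * (δ * m) ≤ ∑ p, w p * G.mu B p := by
    calc (B.card : ℝ) * (δ * m) = ∑ _ℓ ∈ B, δ * m := by rw [sum_const, nsmul_eq_mul]
      _ ≤ ∑ ℓ ∈ B, |G.A w ℓ| := sum_le_sum fun ℓ hℓ => (hB ℓ hℓ).trans (le_abs_self _)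
      _ ≤ ∑ p, |w p| * G.mu B p := G.sum_abs_A_le B w
      _ = ∑ p, w p * G.mu B p := sum_congr rfl fun p _ => by rw [abs_of_nonneg (hw0 p)]
  have h2 : ∑ p, w p * G.mu B p = ∑ p with 2 ≤ G.mu B p, w p * G.mu B p +
      ∑ p with ¬ 2 ≤ G.mu B p, w p * G.mu B p := (sum_filter_add_sum_filter_not _ _ _).symm
  have h3 : ∑ p with ¬ 2 ≤ G.mu B p, w p * G.mu B p ≤ m := by
    calc ∑ p with ¬ 2 ≤ G.mu B p, w p * G.mu B p ≤ ∑ p with ¬ 2 ≤ G.mu B p, w p := by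
          apply sum_le_sum
          intro p hp
          rw [mem_filter] at hp
          have h4 : (G.mu B p : ℝ) ≤ 1 := by
            have : G.mu B p ≤ 1 := by omega
            exact_mod_cast this
          exact mul_le_of_le_one_right (hw0 p) h4
      _ ≤ ∑ p, w p := sum_le_sum_of_subset_of_nonneg (filter_subset _ _) fun p _ _ => hw0 p
      _ ≤ m := hsum
  have h5 : (∑ p with 2 ≤ G.mu B p, w p * G.mu B p) ^ 2 ≤ (δ * m * B.card / 2) ^ 2 := by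
    have h6 := sum_mul_sq_le_sq_mul_sq (univ.filter fun p => 2 ≤ G.mu B p) w (fun p => (G.mu B p : ℝ))
    have h7 : ∑ p with 2 ≤ G.mu B p, w p ^ 2 ≤ δ ^ 2 / 8 * m * m := by
      calc ∑ p with 2 ≤ G.mu B p, w p ^ 2 ≤ ∑ p, w p ^ 2 :=
            sum_le_sum_of_subset_of_nonneg (filter_subset _ _) fun p _ _ => sq_nonneg _
        _ ≤ ∑ p, (δ ^ 2 / 8 * m) * w p := by
            apply sum_le_sum
            intro p _
            rw [sq]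
            exact mul_le_mul_of_nonneg_right (hw p) (hw0 p)
        _ = (δ ^ 2 / 8 * m) * ∑ p, w p := by rw [mul_sum]
        _ ≤ (δ ^ 2 / 8 * m) * m := mul_le_mul_of_nonneg_left hsum (by positivity)
    have h8 := G.sum_mu_sq_le B
    calc (∑ p with 2 ≤ G.mu B p, w p * G.mu B p) ^ 2
        ≤ (∑ p with 2 ≤ G.mu B p, w p ^ 2) * ∑ p with 2 ≤ G.mu B p, (G.mu B p : ℝ) ^ 2 := h6
      _ ≤ (δ ^ 2 / 8 * m * m) * (2 * (B.card : ℝ) ^ 2) :=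
          mul_le_mul h7 h8 (sum_nonneg fun p _ => sq_nonneg _) (by positivity)
      _ = (δ * m * B.card / 2) ^ 2 := by ring
  have h9 : ∑ p with 2 ≤ G.mu B p, w p * G.mu B p ≤ δ * m * B.card / 2 :=
    le_of_sq_le_sq88 h5 (by positivity)
  rw [le_div_iff₀ hδ]
  have h10 : (B.card : ℝ) * δ * m ≤ 2 * m := by
    have : (B.card : ℝ) * δ * m = B.card * (δ * m) := by ring
    linarith [h1, h2, h3, h9]
  exact le_of_mul_le_mul_right h10 hm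

end Pool.Agent.Helper25.NU
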