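import Mathlib

/-!
# Project NU (MP_460089_an): a uniformly convex space which is not uniformly curved.  Definitions

* `Tree V`: finite binary trees with labels in `V`.  They encode dyadic martingales: at a node with
  label `x` the martingale moves by `x` or by `-x`, with probability `1/2` each, and goes on with the
  left or the right subtree.  A path is encoded by the list of its signed labels; so the end point
  of the martingale along the path `s : List V` is `s.sum`.
* `Tree.E T f`: the expectation of the path functional `f`.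
* `Tree.All T Q`: all the paths of `T` satisfy `Q`.
* `nz s`: the number of non-zero labels of the path `s`.
* `K a b t`, `J a b t`: the functionals of real interpolation of the couple of seminorms `a`, `b`.
* `BI a b δ m`: the basic inequality, `E K_t(M) ≤ δ m` for all `t > 0` and all dyadic martingales `M`
  with labels of `J_t`-size at most one, with at most `m` non-zero labels on each path.
* `US C p`: uniform smoothness of `p`, with modulus given by `C`.
* `Inc P L`: finite incidence structures.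
-/

namespace Pool.Agent.Helper25.NU

/-- Binary trees with labels in `V`. -/
inductive Tree (V : Type) where
  | leaf : Tree V
  | node : V → Tree V → Tree V → Tree V

/-- The expectation of the path functional `f`; a path is the list of its signed labels. -/
noncomputable def Tree.E {V : Type} [Neg V] : Tree V → (List V → ℝ) → ℝ
  | .leaf, f => f []
  | .node x l r, f => (l.E (fun s => f (x :: s)) + r.E (fun s => f (-x :: s))) / 2

/-- All paths of the tree satisfy `Q`. -/
def Tree.All {V : Type} [Neg V] : Tree V → (List V → Prop) → Prop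
  | .leaf, Q => Q []
  | .node x l r, Q => l.All (fun s => Q (x :: s)) ∧ r.All (fun s => Q (-x :: s))

/-- The tree with labels replaced by their images under `g`. -/
def Tree.map {V W : Type} (g : V → W) : Tree V → Tree W
  | .leaf => .leaf
  | .node x l r => .node (g x) (l.map g) (r.map g)

/-- The depth of a tree. -/
def Tree.depth {V : Type} : Tree V → ℕ
  | .leaf => 0
  | .node _ l r => max l.depth r.depth + 1

open Classical in
/-- The number of non-zero labels of a path. -/
noncomputable def nz {V : Type} [Zero V] (s : List V) : ℝ :=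
  (s.map fun v => if v = 0 then (0 : ℝ) else 1).sum

/-- The sum of `g σ x` along a path, where the state `σ` is updated by `upd` at each step (the
value of `g` at a step uses the state before the step). -/
def R {σ V : Type} (upd : σ → V → σ) (g : σ → V → ℝ) : σ → List V → ℝ
  | _, [] => 0
  | q, x :: s => g q x + R upd g (upd q x) s

section Couple

variable {V : Type} [AddCommGroup V] [Module ℝ V]

/-- The `K`-functional of the couple of seminorms `a`, `b`. -/
noncomputable def K (a b : Seminorm ℝ V) (t : ℝ) (z : V) : ℝ := ⨅ u : V, (a u + t * b (z - u))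

/-- The `J`-functional of the couple of seminorms `a`, `b`. -/
noncomputable def J (a b : Seminorm ℝ V) (t : ℝ) (z : V) : ℝ := max (a z) (t * b z)

/-- The basic inequality. -/
def BI (a b : Seminorm ℝ V) (δ : ℝ) (m : ℕ) : Prop :=
  ∀ t : ℝ, 0 < t → ∀ T : Tree V, T.All (fun s => (∀ v ∈ s, J a b t v ≤ 1) ∧ nz s ≤ m) →
    T.E (fun s => K a b t s.sum) ≤ δ * m

/-- Uniform smoothness, with a modulus given by the function `C`. -/
def US (C : ℝ → ℝ) (p : V → ℝ) : Prop :=
  ∀ ε : ℝ, 0 < ε → ∀ z y : V,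
    √((p (z + y) ^ 2 + p (z - y) ^ 2) / 2) ≤
      √(p z ^ 2 + ε * p z * p y + C ε * p y ^ 2) + ε * p y

end Couple

/-- Finite incidence structures: `line ℓ` is the set of the points of the line `ℓ`; all lines have
`k ≥ 1` points, and two distinct lines have at most one common point. -/
structure Inc (P L : Type) [Fintype P] [Fintype L] [DecidableEq P] [DecidableEq L] where
  k : ℕ
  k_pos : 0 < k
  line : L → Finset P
  card : ∀ ℓ, (line ℓ).card = k
  inter : ∀ ℓ ℓ', ℓ ≠ ℓ' → (line ℓ ∩ line ℓ').card ≤ 1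

section Norms

variable {P : Type} [Fintype P]

/-- The `ℓ₁`-norm. -/
noncomputable def n1 (x : P → ℝ) : ℝ := ∑ p, |x p|

/-- The `ℓ_{4/3}`-norm. -/
noncomputable def nq (x : P → ℝ) : ℝ := (∑ p, |x p| ^ (4 / 3 : ℝ)) ^ (3 / 4 : ℝ)

theorem n1_nonneg (x : P → ℝ) : 0 ≤ n1 x := Finset.sum_nonneg fun _ _ => abs_nonneg _

theorem n1_add (x y : P → ℝ) : n1 (x + y) ≤ n1 x + n1 y := by
  unfold n1
  rw [← Finset.sum_add_distrib]
  exact Finset.sum_le_sum fun p _ => abs_add_le _ _

theorem n1_smul (c : ℝ) (x : P → ℝ) : n1 (c • x) = |c| * n1 x := by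
  simp [n1, Finset.mul_sum, abs_mul]

theorem nq_nonneg (x : P → ℝ) : 0 ≤ nq x :=
  Real.rpow_nonneg (Finset.sum_nonneg fun _ _ => Real.rpow_nonneg (abs_nonneg _) _) _

theorem nq_add (x y : P → ℝ) : nq (x + y) ≤ nq x + nq y := by
  unfold nq
  have h := Real.Lp_add_le (Finset.univ : Finset P) x y (p := (4 / 3 : ℝ)) (by norm_num)
  norm_num at h ⊢
  exact h

theorem nq_smul (c : ℝ) (x : P → ℝ) : nq (c • x) = |c| * nq x := by
  unfold nq
  have h1 : ∀ p, |(c • x) p| ^ (4 / 3 : ℝ) = |c| ^ (4 / 3 : ℝ) * |x p| ^ (4 / 3 : ℝ) := by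
    intro p
    rw [Pi.smul_apply, smul_eq_mul, abs_mul, Real.mul_rpow (abs_nonneg _) (abs_nonneg _)]
  simp_rw [h1]
  rw [← Finset.mul_sum, Real.mul_rpow (Real.rpow_nonneg (abs_nonneg _) _)
    (Finset.sum_nonneg fun _ _ => Real.rpow_nonneg (abs_nonneg _) _),
    ← Real.rpow_mul (abs_nonneg _)]
  norm_num

/-- `‖x‖_{4/3}^{4/3}`. -/
theorem nq_rpow (x : P → ℝ) : nq x ^ (4 / 3 : ℝ) = ∑ p, |x p| ^ (4 / 3 : ℝ) := by
  unfold nq
  rw [← Real.rpow_mul (Finset.sum_nonneg fun _ _ => Real.rpow_nonneg (abs_nonneg _) _)]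
  norm_num

/-- Each coordinate is at most the `ℓ_{4/3}`-norm. -/
theorem abs_le_nq (x : P → ℝ) (p : P) : |x p| ≤ nq x := by
  have h : |x p| ^ (4 / 3 : ℝ) ≤ ∑ p, |x p| ^ (4 / 3 : ℝ) :=
    Finset.single_le_sum (f := fun p => |x p| ^ (4 / 3 : ℝ))
      (fun _ _ => Real.rpow_nonneg (abs_nonneg _) _) (Finset.mem_univ p)
  have h2 := Real.rpow_le_rpow (Real.rpow_nonneg (abs_nonneg _) _) h
    (show (0 : ℝ) ≤ 3 / 4 by norm_num)
  rw [← Real.rpow_mul (abs_nonneg _)] at h2
  norm_num at h2
  unfold nq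
  norm_num
  exact h2

theorem nq_le_n1 (x : P → ℝ) : nq x ≤ n1 x := by
  have h0 := n1_nonneg x
  rcases h0.eq_or_lt with h | h
  · have h3 : ∀ p, x p = 0 := by
      intro p
      have h4 := (Finset.sum_eq_zero_iff_of_nonneg (s := (Finset.univ : Finset P))
        (f := fun p => |x p|) (fun _ _ => abs_nonneg _)).1 h.symm p (Finset.mem_univ p)
      exact abs_eq_zero.1 h4
    have h5 : nq x = 0 := by
      unfold nq
      have : ∀ p, |x p| ^ (4 / 3 : ℝ) = 0 := by
        intro p
        rw [h3 p, abs_zero, Real.zero_rpow (by norm_num)]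
      simp_rw [this]
      rw [Finset.sum_const_zero, Real.zero_rpow (by norm_num)]
    rw [h5]; exact h0
  · have key : ∀ p, |x p| ^ (4 / 3 : ℝ) ≤ |x p| * (n1 x) ^ (1 / 3 : ℝ) := by
      intro p
      have h1 : |x p| ≤ n1 x :=
        Finset.single_le_sum (f := fun p => |x p|) (fun _ _ => abs_nonneg _) (Finset.mem_univ p)
      have h2 : |x p| ^ (4 / 3 : ℝ) = |x p| * |x p| ^ (1 / 3 : ℝ) := by
        rcases (abs_nonneg (x p)).eq_or_lt with h6 | h6
        · rw [← h6, Real.zero_rpow (by norm_num)]; ring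
        · rw [show (4 / 3 : ℝ) = 1 + 1 / 3 by norm_num, Real.rpow_add h6, Real.rpow_one]
      rw [h2]
      exact mul_le_mul_of_nonneg_left
        (Real.rpow_le_rpow (abs_nonneg _) h1 (by norm_num)) (abs_nonneg _)
    have h7 : ∑ p, |x p| ^ (4 / 3 : ℝ) ≤ (n1 x) ^ (4 / 3 : ℝ) := by
      refine (Finset.sum_le_sum fun p _ => key p).trans ?_
      rw [← Finset.sum_mul]
      change n1 x * _ ≤ _
      rw [show (4 / 3 : ℝ) = 1 + 1 / 3 by norm_num, Real.rpow_add h, Real.rpow_one]
    have h8 := Real.rpow_le_rpow (Finset.sum_nonneg fun _ _ => Real.rpow_nonneg (abs_nonneg _) _)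
      h7 (show (0 : ℝ) ≤ 3 / 4 by norm_num)
    rw [← Real.rpow_mul h0] at h8
    norm_num at h8
    unfold nq
    norm_num
    exact h8

/-- The `ℓ₁`-norm, as a seminorm. -/
noncomputable def sn1 (P : Type) [Fintype P] : Seminorm ℝ (P → ℝ) :=
  Seminorm.of n1 n1_add (fun c x => by rw [n1_smul, Real.norm_eq_abs])

theorem sn1_apply (x : P → ℝ) : sn1 P x = n1 x := rfl

end Norms

section Inc

variable {P L : Type} [Fintype P] [Fintype L] [DecidableEq P] [DecidableEq L]

/-- The sum of a function over the points of a line. -/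
def Inc.A (G : Inc P L) (x : P → ℝ) (ℓ : L) : ℝ := ∑ p ∈ G.line ℓ, x p

/-- The largest absolute value of the sums over lines. -/
noncomputable def Inc.F (G : Inc P L) (x : P → ℝ) : ℝ := ⨆ ℓ, |G.A x ℓ|

theorem Inc.A_add (G : Inc P L) (x y : P → ℝ) (ℓ : L) : G.A (x + y) ℓ = G.A x ℓ + G.A y ℓ := by
  simp [Inc.A, Finset.sum_add_distrib]

theorem Inc.A_smul (G : Inc P L) (c : ℝ) (x : P → ℝ) (ℓ : L) : G.A (c • x) ℓ = c * G.A x ℓ := by
  simp [Inc.A, Finset.mul_sum]

theorem Inc.A_neg (G : Inc P L) (x : P → ℝ) (ℓ : L) : G.A (-x) ℓ = -G.A x ℓ := by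
  simp [Inc.A]

theorem Inc.A_sub (G : Inc P L) (x y : P → ℝ) (ℓ : L) : G.A (x - y) ℓ = G.A x ℓ - G.A y ℓ := by
  simp [Inc.A]

theorem Inc.abs_A_le (G : Inc P L) (x : P → ℝ) (ℓ : L) : |G.A x ℓ| ≤ n1 x := by
  unfold Inc.A n1
  refine (Finset.abs_sum_le_sum_abs _ _).trans ?_
  exact Finset.sum_le_univ_sum_of_nonneg (fun p => abs_nonneg _)

theorem Inc.abs_A_le_F (G : Inc P L) (x : P → ℝ) (ℓ : L) : |G.A x ℓ| ≤ G.F x :=
  le_ciSup (f := fun ℓ => |G.A x ℓ|) (Set.finite_range _).bddAbove ℓ

theorem Inc.F_le (G : Inc P L) {x : P → ℝ} {c : ℝ} (hc : 0 ≤ c) (h : ∀ ℓ, |G.A x ℓ| ≤ c) :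
    G.F x ≤ c := Real.iSup_le h hc

theorem Inc.F_nonneg (G : Inc P L) (x : P → ℝ) : 0 ≤ G.F x :=
  Real.iSup_nonneg fun _ => abs_nonneg _

theorem Inc.F_add (G : Inc P L) (x y : P → ℝ) : G.F (x + y) ≤ G.F x + G.F y := by
  refine G.F_le (add_nonneg (G.F_nonneg x) (G.F_nonneg y)) fun ℓ => ?_
  rw [G.A_add]
  exact (abs_add_le _ _).trans (add_le_add (G.abs_A_le_F x ℓ) (G.abs_A_le_F y ℓ))

theorem Inc.F_smul (G : Inc P L) (c : ℝ) (x : P → ℝ) : G.F (c • x) = |c| * G.F x := by
  unfold Inc.F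
  simp_rw [G.A_smul, abs_mul]
  exact (Real.mul_iSup_of_nonneg (abs_nonneg c) _).symm

theorem Inc.F_le_n1 (G : Inc P L) (x : P → ℝ) : G.F x ≤ n1 x :=
  G.F_le (n1_nonneg x) (G.abs_A_le x)

/-- The norm `max (‖·‖_{4/3}, F)`, as a seminorm. -/
noncomputable def Inc.sN (G : Inc P L) : Seminorm ℝ (P → ℝ) :=
  Seminorm.of (fun x => max (nq x) (G.F x))
    (fun x y => max_le
      ((nq_add x y).trans (add_le_add (le_max_left _ _) (le_max_left _ _)))
      ((G.F_add x y).trans (add_le_add (le_max_right _ _) (le_max_right _ _))))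
    (fun c x => by
      rw [nq_smul, G.F_smul, Real.norm_eq_abs, mul_max_of_nonneg _ _ (abs_nonneg c)])

theorem Inc.sN_apply (G : Inc P L) (x : P → ℝ) : G.sN x = max (nq x) (G.F x) := rfl

theorem Inc.sN_le (G : Inc P L) (x : P → ℝ) : G.sN x ≤ sn1 P x :=
  max_le (nq_le_n1 x) (G.F_le_n1 x)

end Inc

end Pool.Agent.Helper25.NU
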