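import Pool.Agent.Helper25.NU.Defs

/-!
# Project NU, block D2: the dual of a uniformly smooth space is uniformly convex

Let `E` be a real normed space whose norm satisfies `US C`, `C ≥ 0`.

Claim.  `UniformConvexSpace (StrongDual ℝ E)`.

Proof.  Let `f, g` be functionals with `‖f‖ = ‖g‖ = 1`, `s > 0`, `ε > 0`.
(1) `‖f + g‖ + s ‖f - g‖ ≤ 2 + 3 ε s + C ε s²`: for all `z, y` with `‖z‖ ≤ 1`, `‖y‖ ≤ 1`,
`(f+g) z + s (f-g) y = f (z + s y) + g (z - s y) ≤ ‖z + s y‖ + ‖z - s y‖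
≤ 2 √((‖z + s y‖² + ‖z - s y‖²)/2) ≤ 2 (√(‖z‖² + ε ‖z‖ ‖s y‖ + C ε ‖s y‖²) + ε ‖s y‖)
≤ 2 (√(1 + ε s + C ε s²) + ε s) ≤ 2 + ε s + C ε s² + 2 ε s`
(`√(1 + u) ≤ 1 + u/2`).  Take the suprema over `z` and over `y`.
(2) Let `‖f - g‖ ≥ e > 0`.  With `ε = e/6` and `D = C ε + 1 > 0`:
`‖f + g‖ ≤ 2 + s e/2 + D s² - s e = 2 - s e/2 + D s²`; with `s = e/(4 D)` this is
`2 - e²/(8 D) + e²/(16 D) = 2 - e²/(16 D)`.
-/

namespace Pool.Agent.Helper25.NU

private theorem norm_le_67 {E : Type} [NormedAddCommGroup E] [NormedSpace ℝ E] (h : StrongDual ℝ E)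
    (M : ℝ) (hM : ∀ z : E, ‖z‖ ≤ 1 → h z ≤ M) : ‖h‖ ≤ M := by
  have hM0 : 0 ≤ M := by
    have := hM 0 (by simp)
    simpa using this
  have key : ∀ x : E, h x ≤ M * ‖x‖ := by
    intro x
    rcases (norm_nonneg x).eq_or_lt with h0 | h0
    · have hx : x = 0 := norm_eq_zero.1 h0.symm
      rw [hx]
      simp
    · have h1 : ‖(‖x‖⁻¹ • x)‖ ≤ 1 := by
        rw [norm_smul, norm_inv, norm_norm, inv_mul_cancel₀ h0.ne']
      have h2 := hM _ h1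
      rw [map_smul, smul_eq_mul] at h2
      have h3 : ‖x‖ * (‖x‖⁻¹ * h x) ≤ ‖x‖ * M := mul_le_mul_of_nonneg_left h2 h0.le
      rw [← mul_assoc, mul_inv_cancel₀ h0.ne', one_mul] at h3
      linarith
  refine ContinuousLinearMap.opNorm_le_bound _ hM0 fun x => ?_
  rw [Real.norm_eq_abs, abs_le]
  constructor
  · have h1 := key (-x)
    rw [map_neg, norm_neg] at h1
    linarith
  · exact key x

private theorem step_67 {E : Type} [NormedAddCommGroup E] [NormedSpace ℝ E] {C : ℝ → ℝ}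
    (hC : ∀ ε, 0 < ε → 0 ≤ C ε) (h : US C (fun z : E => ‖z‖)) {f g : StrongDual ℝ E} (hf : ‖f‖ = 1)
    (hg : ‖g‖ = 1) {s ε : ℝ} (hs : 0 < s) (hε : 0 < ε) :
    ‖f + g‖ + s * ‖f - g‖ ≤ 2 + 3 * ε * s + C ε * s ^ 2 := by
  have hCε := hC ε hε
  have key : ∀ z y : E, ‖z‖ ≤ 1 → ‖y‖ ≤ 1 →
      (f + g) z + s * (f - g) y ≤ 2 + 3 * ε * s + C ε * s ^ 2 := by
    intro z y hz hy
    have h1 : (f + g) z + s * (f - g) y = f (z + s • y) + g (z - s • y) := by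
      rw [map_add, map_sub, map_smul, map_smul, _root_.add_apply,
        _root_.sub_apply, smul_eq_mul, smul_eq_mul]
      ring
    have h2 : f (z + s • y) ≤ ‖z + s • y‖ := by
      have := (le_abs_self _).trans ((Real.norm_eq_abs _).symm.le.trans (f.le_opNorm (z + s • y)))
      rwa [hf, one_mul] at this
    have h3 : g (z - s • y) ≤ ‖z - s • y‖ := by
      have := (le_abs_self _).trans ((Real.norm_eq_abs _).symm.le.trans (g.le_opNorm (z - s • y)))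
      rwa [hg, one_mul] at this
    have h4 : (‖z + s • y‖ + ‖z - s • y‖) / 2 ≤ √((‖z + s • y‖ ^ 2 + ‖z - s • y‖ ^ 2) / 2) := by
      apply Real.le_sqrt_of_sq_le
      nlinarith [sq_nonneg (‖z + s • y‖ - ‖z - s • y‖)]
    have h5 := h ε hε z (s • y)
    have h6 : ‖s • y‖ ≤ s := by
      rw [norm_smul, Real.norm_eq_abs, abs_of_pos hs]
      nlinarith
    have h7 : √(‖z‖ ^ 2 + ε * ‖z‖ * ‖s • y‖ + C ε * ‖s • y‖ ^ 2) ≤ 1 + (ε * s + C ε * s ^ 2) / 2 := by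
      apply Real.sqrt_le_iff.2
      have hz0 := norm_nonneg z
      have hy0 := norm_nonneg (s • y)
      have a1 : ‖z‖ ^ 2 ≤ 1 := by nlinarith
      have a2 : ‖z‖ * ‖s • y‖ ≤ 1 * s := mul_le_mul hz h6 hy0 zero_le_one
      have a3 : ε * (‖z‖ * ‖s • y‖) ≤ ε * (1 * s) := mul_le_mul_of_nonneg_left a2 hε.le
      have a4 : ‖s • y‖ ^ 2 ≤ s ^ 2 := pow_le_pow_left₀ hy0 h6 2
      have a5 : C ε * ‖s • y‖ ^ 2 ≤ C ε * s ^ 2 := mul_le_mul_of_nonneg_left a4 hCε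
      have a6 : 0 ≤ ε * s + C ε * s ^ 2 := by positivity
      refine ⟨by positivity, ?_⟩
      nlinarith [sq_nonneg (ε * s + C ε * s ^ 2)]
    have h8 : ε * ‖s • y‖ ≤ ε * s := mul_le_mul_of_nonneg_left h6 hε.le
    rw [h1]
    have h5' : √((‖z + s • y‖ ^ 2 + ‖z - s • y‖ ^ 2) / 2) ≤
        √(‖z‖ ^ 2 + ε * ‖z‖ * ‖s • y‖ + C ε * ‖s • y‖ ^ 2) + ε * ‖s • y‖ := h5
    linarith
  have h1 : ∀ y : E, ‖y‖ ≤ 1 → ‖f + g‖ ≤ 2 + 3 * ε * s + C ε * s ^ 2 - s * (f - g) y := by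
    intro y hy
    apply norm_le_67
    intro z hz
    have := key z y hz hy
    linarith
  have h2 : ‖f - g‖ ≤ (2 + 3 * ε * s + C ε * s ^ 2 - ‖f + g‖) / s := by
    apply norm_le_67
    intro y hy
    rw [le_div_iff₀ hs]
    have := h1 y hy
    linarith
  rw [le_div_iff₀ hs] at h2
  linarith

theorem US_dual {C : ℝ → ℝ} (hC : ∀ ε, 0 < ε → 0 ≤ C ε) (E : Type) [NormedAddCommGroup E]
    [NormedSpace ℝ E] (h : US C (fun z : E => ‖z‖)) : UniformConvexSpace (StrongDual ℝ E) := by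
  refine ⟨fun e he => ?_⟩
  have hε : 0 < e / 6 := by positivity
  have hCε := hC _ hε
  have hD : 0 < C (e / 6) + 1 := by linarith
  refine ⟨e ^ 2 / (16 * (C (e / 6) + 1)), by positivity, fun f hf g hg hfg => ?_⟩
  have hs : 0 < e / (4 * (C (e / 6) + 1)) := by positivity
  have h1 := step_67 hC h hf hg hs hε
  have h2 : e / (4 * (C (e / 6) + 1)) * e ≤ e / (4 * (C (e / 6) + 1)) * ‖f - g‖ :=
    mul_le_mul_of_nonneg_left hfg hs.le
  have h3 : C (e / 6) * (e / (4 * (C (e / 6) + 1))) ^ 2 ≤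
      (C (e / 6) + 1) * (e / (4 * (C (e / 6) + 1))) ^ 2 :=
    mul_le_mul_of_nonneg_right (by linarith) (sq_nonneg _)
  have h4 : 3 * (e / 6) * (e / (4 * (C (e / 6) + 1))) +
      (C (e / 6) + 1) * (e / (4 * (C (e / 6) + 1))) ^ 2 - e / (4 * (C (e / 6) + 1)) * e =
      -(e ^ 2 / (16 * (C (e / 6) + 1))) := by
    field_simp
    ring
  linarith

end Pool.Agent.Helper25.NU
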