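import Mathlib

/-!
# Project NU, block A4: 2-homogenisation of a value function (first part)

Setting (`VF κ C₀ Vf`): `κ` is a seminorm on the real vector space `V`, `C₀ ≥ 0`, and `Vf : V → ℝ` is
convex, even, `κ z ≤ Vf z ≤ κ z + C₀`, `Vf (z + w) ≤ Vf z + κ w`.

For `s > 0` let `gf z s = s Vf (s⁻¹ z) - (1 + C₀) s`, `Gf z s = max (gf z s) 0`, and
`Psi z = ∫_0^∞ Gf z s ds` (`MeasureTheory`, over `Set.Ioi 0`).

* `gf_le`: `gf z s ≤ κ z - s`; `le_gf`: `κ z - (1 + C₀) s ≤ gf z s` (multiply the bounds of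
  `Vf (s⁻¹ z)` by `s`, `κ (s⁻¹ z) = s⁻¹ κ z`).
* `gf_slope`: for `0 < s ≤ s'`: `gf z s' ≤ gf z s - (s' - s)`.  Proof: `s'⁻¹ z` is the convex
  combination `(s/s') (s⁻¹ z) + (1 - s/s') 0`, so by convexity
  `s' Vf (s'⁻¹ z) ≤ s Vf (s⁻¹ z) + (s' - s) Vf 0` and `Vf 0 ≤ κ 0 + C₀ = C₀`.
* `gf_lip`: `gf (z + w) s ≤ gf z s + κ w` (`Vf (s⁻¹ (z + w)) ≤ Vf (s⁻¹ z) + κ (s⁻¹ w)`).
* `gf_convex`: for `s > 0` the function `z ↦ gf z s` is convex; so is `z ↦ Gf z s`.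
* `integrable`: `s ↦ Gf z s` is continuous on `(0, ∞)` (`|Vf (r z) - Vf (r' z)| ≤ |r - r'| κ z`),
  between `0` and `κ z`, and zero for `s ≥ κ z`; so it is integrable on `(0, ∞)`.
* `Psi_le`: `Psi z ≤ ∫_0^{κ z} (κ z - s) ds = (κ z)²/2`; `le_Psi`: with `c = 1 + C₀`,
  `Psi z ≥ ∫_0^{κ z / c} (κ z - c s) ds = (κ z)² / (2 c)`.
* `Psi_smul`: `Psi (c z) = c² Psi z`: for `c > 0` substitute `s = c r` (`gf (c z) (c r) = c gf z r`;
  `MeasureTheory.integral_comp_mul_left_Ioi`), `Psi (-z) = Psi z` since `Vf` is even, and `Psi 0 = 0`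
  since `Psi 0 ≤ (κ 0)²/2`.
* `Psi_convex`: integrate the convexity inequality.
-/

namespace Pool.Agent.Helper25.NU

open MeasureTheory

variable {V : Type} [AddCommGroup V] [Module ℝ V]

/-- The setting of the 2-homogenisation. -/
structure VF (κ : Seminorm ℝ V) (C₀ : ℝ) (Vf : V → ℝ) : Prop where
  nonneg : 0 ≤ C₀
  conv : ConvexOn ℝ Set.univ Vf
  even : ∀ z, Vf (-z) = Vf z
  low : ∀ z, κ z ≤ Vf z
  up : ∀ z, Vf z ≤ κ z + C₀
  lip : ∀ z w, Vf (z + w) ≤ Vf z + κ w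

noncomputable def gf (C₀ : ℝ) (Vf : V → ℝ) (z : V) (s : ℝ) : ℝ := s * Vf (s⁻¹ • z) - (1 + C₀) * s

noncomputable def Gf (C₀ : ℝ) (Vf : V → ℝ) (z : V) (s : ℝ) : ℝ := max (gf C₀ Vf z s) 0

noncomputable def Psi (C₀ : ℝ) (Vf : V → ℝ) (z : V) : ℝ := ∫ s in Set.Ioi (0 : ℝ), Gf C₀ Vf z s

variable {κ : Seminorm ℝ V} {C₀ : ℝ} {Vf : V → ℝ}

theorem h43_kap (κ : Seminorm ℝ V) (z : V) {s : ℝ} (hs : 0 < s) : s * κ (s⁻¹ • z) = κ z := by
  rw [map_smul_eq_mul, Real.norm_eq_abs, abs_of_pos (inv_pos.2 hs), ← mul_assoc, mul_inv_cancel₀ hs.ne',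
    one_mul]

theorem VF.gf_le (h : VF κ C₀ Vf) (z : V) {s : ℝ} (hs : 0 < s) : gf C₀ Vf z s ≤ κ z - s := by
  have h1 := mul_le_mul_of_nonneg_left (h.up (s⁻¹ • z)) hs.le
  rw [mul_add, h43_kap κ z hs] at h1
  unfold gf
  linarith

theorem VF.le_gf (h : VF κ C₀ Vf) (z : V) {s : ℝ} (hs : 0 < s) :
    κ z - (1 + C₀) * s ≤ gf C₀ Vf z s := by
  have h1 := mul_le_mul_of_nonneg_left (h.low (s⁻¹ • z)) hs.le
  rw [h43_kap κ z hs] at h1
  unfold gf
  linarith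

theorem VF.gf_slope (h : VF κ C₀ Vf) (z : V) {s s' : ℝ} (hs : 0 < s) (hss : s ≤ s') :
    gf C₀ Vf z s' ≤ gf C₀ Vf z s - (s' - s) := by
  have hs' : 0 < s' := hs.trans_le hss
  have h0 : Vf 0 ≤ C₀ := by
    have := h.up 0
    rwa [map_zero, zero_add] at this
  have hq0 : 0 ≤ s / s' := div_nonneg hs.le hs'.le
  have hq1 : 0 ≤ 1 - s / s' := by rw [sub_nonneg]; exact (div_le_one hs').2 hss
  have h1 := h.conv.2 (Set.mem_univ (s⁻¹ • z)) (Set.mem_univ (0 : V)) hq0 hq1 (by ring)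
  have e1 : (s / s') • s⁻¹ • z + (1 - s / s') • (0 : V) = s'⁻¹ • z := by
    rw [smul_zero, add_zero, smul_smul]
    congr 1
    field_simp
  rw [e1, smul_eq_mul, smul_eq_mul] at h1
  have h2 := mul_le_mul_of_nonneg_left h1 hs'.le
  have e2 : s' * (s / s' * Vf (s⁻¹ • z) + (1 - s / s') * Vf 0) = s * Vf (s⁻¹ • z) + (s' - s) * Vf 0 := by
    field_simp
  rw [e2] at h2
  have h3 : (s' - s) * Vf 0 ≤ (s' - s) * C₀ := mul_le_mul_of_nonneg_left h0 (by linarith)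
  unfold gf
  linarith

theorem VF.gf_lip (h : VF κ C₀ Vf) (z w : V) {s : ℝ} (hs : 0 < s) :
    gf C₀ Vf (z + w) s ≤ gf C₀ Vf z s + κ w := by
  have h1 := mul_le_mul_of_nonneg_left (h.lip (s⁻¹ • z) (s⁻¹ • w)) hs.le
  rw [mul_add, h43_kap κ w hs, ← smul_add] at h1
  unfold gf
  linarith

theorem VF.gf_convex (h : VF κ C₀ Vf) {s : ℝ} (hs : 0 < s) :
    ConvexOn ℝ Set.univ (fun z => gf C₀ Vf z s) := by
  refine ⟨convex_univ, fun x _ y _ a b ha hb hab => ?_⟩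
  have h1 := h.conv.2 (Set.mem_univ (s⁻¹ • x)) (Set.mem_univ (s⁻¹ • y)) ha hb hab
  have e1 : a • s⁻¹ • x + b • s⁻¹ • y = s⁻¹ • (a • x + b • y) := by
    rw [smul_add, smul_comm a, smul_comm b]
  rw [e1] at h1
  have h2 := mul_le_mul_of_nonneg_left h1 hs.le
  simp only [smul_eq_mul] at h2 ⊢
  have e2 : (1 + C₀) * s = a * ((1 + C₀) * s) + b * ((1 + C₀) * s) := by rw [← add_mul, hab, one_mul]
  unfold gf
  rw [e2]
  nlinarith [h2]

theorem VF.Gf_convex (h : VF κ C₀ Vf) {s : ℝ} (hs : 0 < s) :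
    ConvexOn ℝ Set.univ (fun z => Gf C₀ Vf z s) :=
  (h.gf_convex hs).sup (convexOn_const 0 convex_univ)

theorem h43_cont (h : VF κ C₀ Vf) (z : V) : Continuous (fun r : ℝ => Vf (r • z)) := by
  have h1 : LipschitzWith ⟨κ z, apply_nonneg κ z⟩ (fun r : ℝ => Vf (r • z)) := by
    apply LipschitzWith.of_le_add_mul
    intro r r'
    have h2 := h.lip (r' • z) ((r - r') • z)
    rw [← add_smul, add_sub_cancel, map_smul_eq_mul] at h2
    rw [Real.dist_eq, ← Real.norm_eq_abs]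
    change Vf (r • z) ≤ Vf (r' • z) + κ z * ‖r - r'‖
    linarith
  exact h1.continuous

theorem VF.continuousOn (h : VF κ C₀ Vf) (z : V) :
    ContinuousOn (fun s => gf C₀ Vf z s) (Set.Ioi 0) := by
  unfold gf
  refine ContinuousOn.sub (ContinuousOn.mul continuousOn_id ?_) (by fun_prop)
  have h1 : ContinuousOn (fun s : ℝ => s⁻¹) (Set.Ioi 0) :=
    continuousOn_inv₀.mono fun s hs => (ne_of_gt hs)
  exact (h43_cont h z).comp_continuousOn h1

theorem h43_contG (h : VF κ C₀ Vf) (z : V) : ContinuousOn (fun s => Gf C₀ Vf z s) (Set.Ioi 0) :=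
  (h.continuousOn z).sup continuousOn_const

theorem h43_Gf_nonneg (C₀ : ℝ) (Vf : V → ℝ) (z : V) (s : ℝ) : 0 ≤ Gf C₀ Vf z s := le_max_right _ _

theorem h43_Gf_le (h : VF κ C₀ Vf) (z : V) {s : ℝ} (hs : 0 < s) :
    Gf C₀ Vf z s ≤ (Set.Ioc 0 (κ z)).indicator (fun s => κ z - s) s := by
  by_cases h1 : s ≤ κ z
  · rw [Set.indicator_of_mem (show s ∈ Set.Ioc 0 (κ z) from ⟨hs, h1⟩)]
    exact max_le (h.gf_le z hs) (by linarith)
  · rw [Set.indicator_of_notMem (fun hc => h1 hc.2)]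
    refine max_le ((h.gf_le z hs).trans ?_) le_rfl
    push Not at h1
    linarith

theorem h43_ind_int (a c d : ℝ) :
    Integrable ((Set.Ioc 0 a).indicator (fun s => c - d * s)) := by
  rw [integrable_indicator_iff measurableSet_Ioc]
  exact (Continuous.integrableOn_Icc (by fun_prop)).mono_set Set.Ioc_subset_Icc_self

theorem VF.integrable (h : VF κ C₀ Vf) (z : V) :
    IntegrableOn (fun s => Gf C₀ Vf z s) (Set.Ioi 0) := by
  have h1 := (h43_ind_int (κ z) (κ z) 1).integrableOn (s := Set.Ioi 0)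
  refine Integrable.mono' h1 ((h43_contG h z).aestronglyMeasurable measurableSet_Ioi) ?_
  refine (ae_restrict_iff' measurableSet_Ioi).2 (Filter.Eventually.of_forall fun s hs => ?_)
  rw [Real.norm_eq_abs, abs_of_nonneg (h43_Gf_nonneg _ _ _ _)]
  simpa using h43_Gf_le h z hs

theorem VF.Psi_nonneg (C₀ : ℝ) (Vf : V → ℝ) (z : V) : 0 ≤ Psi C₀ Vf z :=
  setIntegral_nonneg measurableSet_Ioi fun _ _ => h43_Gf_nonneg _ _ _ _

theorem h43_ind_val (a c d : ℝ) (ha : 0 ≤ a) :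
    ∫ s in Set.Ioi (0 : ℝ), (Set.Ioc 0 a).indicator (fun s => c - d * s) s = c * a - d * a ^ 2 / 2 := by
  rw [setIntegral_indicator measurableSet_Ioc,
    Set.inter_eq_self_of_subset_right Set.Ioc_subset_Ioi_self, ← intervalIntegral.integral_of_le ha]
  rw [intervalIntegral.integral_sub (by simp) (Continuous.intervalIntegrable (by fun_prop) _ _),
    intervalIntegral.integral_const_mul, integral_id]
  simp
  ring

theorem VF.Psi_le (h : VF κ C₀ Vf) (z : V) : Psi C₀ Vf z ≤ κ z ^ 2 / 2 := by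
  have h1 := h43_ind_val (κ z) (κ z) 1 (apply_nonneg κ z)
  have h2 : Psi C₀ Vf z ≤ ∫ s in Set.Ioi (0 : ℝ), (Set.Ioc 0 (κ z)).indicator (fun s => κ z - 1 * s) s := by
    refine setIntegral_mono_on (h.integrable z) (h43_ind_int (κ z) (κ z) 1).integrableOn
      measurableSet_Ioi fun s hs => ?_
    simpa using h43_Gf_le h z hs
  rw [h1] at h2
  linarith

theorem VF.le_Psi (h : VF κ C₀ Vf) (z : V) : κ z ^ 2 ≤ 2 * (1 + C₀) * Psi C₀ Vf z := by
  have hc : 0 < 1 + C₀ := by have := h.nonneg; linarith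
  have h1 := h43_ind_val (κ z / (1 + C₀)) (κ z) (1 + C₀) (div_nonneg (apply_nonneg κ z) hc.le)
  have h2 : ∫ s in Set.Ioi (0 : ℝ), (Set.Ioc 0 (κ z / (1 + C₀))).indicator
      (fun s => κ z - (1 + C₀) * s) s ≤ Psi C₀ Vf z := by
    refine setIntegral_mono_on (h43_ind_int _ _ _).integrableOn (h.integrable z)
      measurableSet_Ioi fun s hs => ?_
    by_cases h3 : s ∈ Set.Ioc 0 (κ z / (1 + C₀))
    · rw [Set.indicator_of_mem h3]
      exact (h.le_gf z hs).trans (le_max_left _ _)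
    · rw [Set.indicator_of_notMem h3]
      exact h43_Gf_nonneg _ _ _ _
  rw [h1] at h2
  have h3 := mul_le_mul_of_nonneg_left h2 (show 0 ≤ 2 * (1 + C₀) by positivity)
  refine le_trans (le_of_eq ?_) h3
  field_simp
  ring

theorem h43_Psi_smul_pos (C₀ : ℝ) (Vf : V → ℝ) {c : ℝ} (hc : 0 < c) (z : V) :
    Psi C₀ Vf (c • z) = c ^ 2 * Psi C₀ Vf z := by
  have h1 := integral_comp_mul_left_Ioi (fun s => Gf C₀ Vf (c • z) s) 0 hc
  rw [mul_zero] at h1
  have h2 : ∫ s in Set.Ioi (0 : ℝ), Gf C₀ Vf (c • z) (c * s) = ∫ s in Set.Ioi (0 : ℝ), c * Gf C₀ Vf z s := by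
    refine setIntegral_congr_fun measurableSet_Ioi fun s hs => ?_
    have hs' : (0 : ℝ) < s := hs
    have h3 : gf C₀ Vf (c • z) (c * s) = c * gf C₀ Vf z s := by
      unfold gf
      have e1 : (c * s)⁻¹ • c • z = s⁻¹ • z := by
        rw [smul_smul]
        congr 1
        field_simp
      rw [e1]
      ring
    change max (gf C₀ Vf (c • z) (c * s)) 0 = c * max (gf C₀ Vf z s) 0
    rw [h3, mul_max_of_nonneg _ _ hc.le, mul_zero]
  rw [h2, integral_const_mul, smul_eq_mul] at h1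
  change c * Psi C₀ Vf z = c⁻¹ * Psi C₀ Vf (c • z) at h1
  have h4 : Psi C₀ Vf (c • z) = c * (c⁻¹ * Psi C₀ Vf (c • z)) := by
    rw [← mul_assoc, mul_inv_cancel₀ hc.ne', one_mul]
  rw [h4, ← h1]
  ring

theorem VF.Psi_smul (h : VF κ C₀ Vf) (c : ℝ) (z : V) :
    Psi C₀ Vf (c • z) = c ^ 2 * Psi C₀ Vf z := by
  rcases lt_trichotomy c 0 with hc | rfl | hc
  · have h1 : Psi C₀ Vf (c • z) = Psi C₀ Vf ((-c) • z) := by
      unfold Psi
      refine setIntegral_congr_fun measurableSet_Ioi fun s _ => ?_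
      change max (gf C₀ Vf (c • z) s) 0 = max (gf C₀ Vf ((-c) • z) s) 0
      unfold gf
      rw [neg_smul, smul_neg, h.even]
    rw [h1, h43_Psi_smul_pos C₀ Vf (neg_pos.2 hc)]
    ring
  · rw [zero_smul]
    have h1 := h.Psi_le 0
    rw [map_zero] at h1
    have h2 := VF.Psi_nonneg C₀ Vf 0
    have h3 : Psi C₀ Vf 0 = 0 := le_antisymm (by simpa using h1) h2
    rw [h3]
    ring
  · exact h43_Psi_smul_pos C₀ Vf hc z

theorem VF.Psi_convex (h : VF κ C₀ Vf) : ConvexOn ℝ Set.univ (Psi C₀ Vf) := by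
  refine ⟨convex_univ, fun x _ y _ a b ha hb hab => ?_⟩
  have h1 : Psi C₀ Vf (a • x + b • y) ≤
      ∫ s in Set.Ioi (0 : ℝ), (a * Gf C₀ Vf x s + b * Gf C₀ Vf y s) := by
    refine setIntegral_mono_on (h.integrable _) (((h.integrable x).const_mul a).add
      ((h.integrable y).const_mul b)) measurableSet_Ioi fun s hs => ?_
    exact (h.Gf_convex hs).2 (Set.mem_univ x) (Set.mem_univ y) ha hb hab
  rw [integral_add ((h.integrable x).const_mul a) ((h.integrable y).const_mul b),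
    integral_const_mul, integral_const_mul] at h1
  exact h1

end Pool.Agent.Helper25.NU
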