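import Pool.Agent.Helper25.NU.Homog1

/-!
# Project NU, block A5: 2-homogenisation of a value function (smoothness)

Let `VF κ C₀ Vf`, and `(Vf (z + y) + Vf (z - y)) / 2 ≤ Vf z + φ (Jf y)` for all `z, y`, where
`Jf (c y) = |c| Jf y`, `κ y ≤ Jf y`, and let `ε > 0`, `C ≥ 0` with `φ u ≤ ε u + C u²` for `u ≥ 0`.

Claim (`Psi_smooth`): `(Psi (z + y) + Psi (z - y)) / 2 ≤ Psi z + 2 ε J κ z + (C/ε + 4) J²`, with
`J = Jf y`.

Proof.  Let `k = κ y ≤ J`, and for `s > 0` `g s = gf z s`, `D s = (Gf (z+y) s + Gf (z-y) s)/2 - Gf z s`.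
By `gf_lip` (`κ (-y) = κ y`): `|gf (z ± y) s - g s| ≤ k`.  So
(a) `D s ≤ k` always (`max · 0` is 1-Lipschitz);
(b) if `g s ≤ -k`, then `Gf (z ± y) s = 0`, `D s ≤ 0`;
(c) if `g s ≥ k`, then all three `gf` are `≥ 0`, so
`D s = (gf (z+y) s + gf (z-y) s)/2 - g s ≤ s φ (Jf (s⁻¹ y)) = s φ (J/s) ≤ ε J + C J²/s`; and
`s ≤ κ z` since `0 ≤ k ≤ g s ≤ κ z - s`.
In case (c), if `s > C J / ε` then `C J²/s ≤ ε J`, so `D s ≤ 2 ε J`; if `s ≤ C J / ε` we use (a).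
The set `S` of the `s > 0` with `|g s| < k` has diameter `≤ 2 k`: for `s < s'` in `S`,
`g s' ≤ g s - (s' - s)` (`gf_slope`), so `s' - s ≤ g s - g s' < 2 k`.  Hence `S ⊆ [s₁, s₁ + 2 k]`,
`s₁ = inf S`.
Altogether, for `s > 0`: `D s ≤ k 1[s₁ ≤ s ≤ s₁ + 2k] + J 1[s ≤ C J/ε] + 2 ε J 1[s ≤ κ z]`,
and integration over `(0, ∞)` gives
`(Psi (z+y) + Psi (z-y))/2 - Psi z ≤ 2 k² + (C/ε) J² + 2 ε J κ z`.
(`J ≥ κ y ≥ 0`.)
-/

namespace Pool.Agent.Helper25.NU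

open MeasureTheory

variable {V : Type} [AddCommGroup V] [Module ℝ V] {κ : Seminorm ℝ V} {C₀ : ℝ} {Vf : V → ℝ}

private theorem ind24 (a b c : ℝ) (hc : 0 ≤ c) (hab : a ≤ b) :
    IntegrableOn ((Set.Icc a b).indicator (fun _ : ℝ => c)) (Set.Ioi (0 : ℝ)) ∧
      ∫ s in Set.Ioi (0 : ℝ), (Set.Icc a b).indicator (fun _ : ℝ => c) s ≤ (b - a) * c := by
  have h1 : Integrable ((Set.Icc a b).indicator (fun _ : ℝ => c)) (volume : Measure ℝ) := by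
    rw [integrable_indicator_iff measurableSet_Icc]
    exact integrableOn_const (by rw [Real.volume_Icc]; exact ENNReal.ofReal_ne_top)
  refine ⟨h1.integrableOn, ?_⟩
  have h2 : ∫ s in Set.Ioi (0 : ℝ), (Set.Icc a b).indicator (fun _ : ℝ => c) s ≤
      ∫ s, (Set.Icc a b).indicator (fun _ : ℝ => c) s := by
    refine setIntegral_le_integral h1 (Filter.Eventually.of_forall fun s => ?_)
    exact Set.indicator_nonneg (fun _ _ => hc) s
  refine h2.trans ?_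
  rw [integral_indicator measurableSet_Icc, setIntegral_const, Real.volume_real_Icc_of_le hab, smul_eq_mul]

private theorem VF.band24 (h : VF κ C₀ Vf) (z : V) {k : ℝ} (hk : 0 ≤ k) :
    ∃ s1 : ℝ, ∀ s, 0 < s → |gf C₀ Vf z s| < k → s1 ≤ s ∧ s ≤ s1 + 2 * k := by
  by_cases hne : ({s | 0 < s ∧ |gf C₀ Vf z s| < k} : Set ℝ).Nonempty
  · have hbd : BddBelow {s | 0 < s ∧ |gf C₀ Vf z s| < k} := ⟨0, fun s hs => hs.1.le⟩
    refine ⟨sInf {s | 0 < s ∧ |gf C₀ Vf z s| < k}, fun s hs hg => ⟨csInf_le hbd ⟨hs, hg⟩, ?_⟩⟩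
    have h1 : s - 2 * k ≤ sInf {s | 0 < s ∧ |gf C₀ Vf z s| < k} := by
      refine le_csInf hne fun s' hs' => ?_
      rcases le_total s s' with hss | hss
      · linarith
      · have h2 := h.gf_slope z hs'.1 hss
        have h3 := abs_lt.1 hg
        have h4 := abs_lt.1 hs'.2
        linarith [h3.1, h4.2]
    linarith
  · exact ⟨0, fun s hs hg => absurd ⟨s, hs, hg⟩ hne⟩

private theorem VF.point24 (h : VF κ C₀ Vf) {Jf : V → ℝ} {φ : ℝ → ℝ}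
    (hJ : ∀ (c : ℝ) y, Jf (c • y) = |c| * Jf y) (hκJ : ∀ y, κ y ≤ Jf y)
    (hsm : ∀ z y, (Vf (z + y) + Vf (z - y)) / 2 ≤ Vf z + φ (Jf y))
    {ε C : ℝ} (hε : 0 < ε) (hC : 0 ≤ C) (hφ : ∀ u, 0 ≤ u → φ u ≤ ε * u + C * u ^ 2) (z y : V) {s1 : ℝ}
    (hs1 : ∀ s, 0 < s → |gf C₀ Vf z s| < κ y → s1 ≤ s ∧ s ≤ s1 + 2 * κ y) {s : ℝ} (hs : 0 < s) :
    (Gf C₀ Vf (z + y) s + Gf C₀ Vf (z - y) s) / 2 - Gf C₀ Vf z s ≤
      (Set.Icc s1 (s1 + 2 * κ y)).indicator (fun _ => κ y) s +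
        (Set.Icc 0 (C * Jf y / ε)).indicator (fun _ => Jf y) s +
        (Set.Icc 0 (κ z)).indicator (fun _ => 2 * ε * Jf y) s := by
  have hk0 : 0 ≤ κ y := apply_nonneg κ y
  have hkJ : κ y ≤ Jf y := hκJ y
  have hJ0 : 0 ≤ Jf y := hk0.trans hkJ
  have n1 : 0 ≤ (Set.Icc s1 (s1 + 2 * κ y)).indicator (fun _ => κ y) s :=
    Set.indicator_nonneg (fun _ _ => hk0) s
  have n2 : 0 ≤ (Set.Icc 0 (C * Jf y / ε)).indicator (fun _ => Jf y) s :=
    Set.indicator_nonneg (fun _ _ => hJ0) s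
  have n3 : 0 ≤ (Set.Icc 0 (κ z)).indicator (fun _ => 2 * ε * Jf y) s :=
    Set.indicator_nonneg (fun _ _ => by positivity) s
  have p1 : gf C₀ Vf (z + y) s ≤ gf C₀ Vf z s + κ y := h.gf_lip z y hs
  have p2 : gf C₀ Vf (z - y) s ≤ gf C₀ Vf z s + κ y := by
    have := h.gf_lip z (-y) hs
    rw [map_neg_eq_map, ← sub_eq_add_neg] at this
    exact this
  have p3 : gf C₀ Vf z s ≤ gf C₀ Vf (z + y) s + κ y := by
    have := h.gf_lip (z + y) (-y) hs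
    rw [map_neg_eq_map, add_neg_cancel_right] at this
    exact this
  have p4 : gf C₀ Vf z s ≤ gf C₀ Vf (z - y) s + κ y := by
    have := h.gf_lip (z - y) y hs
    rw [sub_add_cancel] at this
    exact this
  have hDk : (Gf C₀ Vf (z + y) s + Gf C₀ Vf (z - y) s) / 2 - Gf C₀ Vf z s ≤ κ y := by
    unfold Gf
    have q1 : max (gf C₀ Vf (z + y) s) 0 ≤ max (gf C₀ Vf z s) 0 + κ y :=
      max_le (p1.trans (by linarith [le_max_left (gf C₀ Vf z s) 0])) (by linarith [le_max_right (gf C₀ Vf z s) 0])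
    have q2 : max (gf C₀ Vf (z - y) s) 0 ≤ max (gf C₀ Vf z s) 0 + κ y :=
      max_le (p2.trans (by linarith [le_max_left (gf C₀ Vf z s) 0])) (by linarith [le_max_right (gf C₀ Vf z s) 0])
    linarith
  rcases le_or_gt (gf C₀ Vf z s) (-κ y) with hg | hg
  · have h1 : (Gf C₀ Vf (z + y) s + Gf C₀ Vf (z - y) s) / 2 - Gf C₀ Vf z s ≤ 0 := by
      unfold Gf
      rw [max_eq_right (show gf C₀ Vf (z + y) s ≤ 0 by linarith), max_eq_right (show gf C₀ Vf (z - y) s ≤ 0 by linarith)]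
      linarith [le_max_right (gf C₀ Vf z s) 0]
    linarith
  rcases lt_or_ge (gf C₀ Vf z s) (κ y) with hg' | hg'
  · obtain ⟨h1, h2⟩ := hs1 s hs (abs_lt.2 ⟨hg, hg'⟩)
    rw [Set.indicator_of_mem (show s ∈ Set.Icc s1 (s1 + 2 * κ y) from ⟨h1, h2⟩)]
    linarith
  · have hsz : s ≤ κ z := by
      have := h.gf_le z hs
      linarith
    rw [Set.indicator_of_mem (show s ∈ Set.Icc 0 (κ z) from ⟨hs.le, hsz⟩)]
    rcases le_or_gt s (C * Jf y / ε) with hsq | hsq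
    · rw [Set.indicator_of_mem (show s ∈ Set.Icc 0 (C * Jf y / ε) from ⟨hs.le, hsq⟩)]
      have : 0 ≤ 2 * ε * Jf y := by positivity
      linarith
    · have h1 : (Gf C₀ Vf (z + y) s + Gf C₀ Vf (z - y) s) / 2 - Gf C₀ Vf z s ≤ s * φ (Jf (s⁻¹ • y)) := by
        unfold Gf
        rw [max_eq_left (show 0 ≤ gf C₀ Vf (z + y) s by linarith), max_eq_left (show 0 ≤ gf C₀ Vf (z - y) s by linarith),
          max_eq_left (show 0 ≤ gf C₀ Vf z s by linarith)]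
        unfold gf
        have h2 := hsm (s⁻¹ • z) (s⁻¹ • y)
        rw [← smul_add, ← smul_sub] at h2
        have h3 := mul_le_mul_of_nonneg_left h2 hs.le
        linarith
      have h2 : Jf (s⁻¹ • y) = s⁻¹ * Jf y := by
        rw [hJ, abs_of_pos (inv_pos.2 hs)]
      have h3 : 0 ≤ s⁻¹ * Jf y := by positivity
      have h4 := mul_le_mul_of_nonneg_left (hφ _ h3) hs.le
      rw [← h2] at h4
      rw [h2] at h4
      have h5 : s * (ε * (s⁻¹ * Jf y) + C * (s⁻¹ * Jf y) ^ 2) = ε * Jf y + C * Jf y * Jf y / s := by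
        field_simp
      have h6 : C * Jf y * Jf y / s ≤ ε * Jf y := by
        rw [div_le_iff₀ hs]
        have h7 : C * Jf y < ε * s := by
          rw [div_lt_iff₀ hε] at hsq
          linarith
        have h8 := mul_le_mul_of_nonneg_right h7.le hJ0
        linarith
      rw [h2] at h1
      linarith

theorem VF.Psi_smooth (h : VF κ C₀ Vf) {Jf : V → ℝ} {φ : ℝ → ℝ}
    (hJ : ∀ (c : ℝ) y, Jf (c • y) = |c| * Jf y) (hκJ : ∀ y, κ y ≤ Jf y)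
    (hsm : ∀ z y, (Vf (z + y) + Vf (z - y)) / 2 ≤ Vf z + φ (Jf y))
    {ε C : ℝ} (hε : 0 < ε) (hC : 0 ≤ C) (hφ : ∀ u, 0 ≤ u → φ u ≤ ε * u + C * u ^ 2) (z y : V) :
    (Psi C₀ Vf (z + y) + Psi C₀ Vf (z - y)) / 2 ≤
      Psi C₀ Vf z + 2 * ε * Jf y * κ z + (C / ε + 4) * Jf y ^ 2 := by
  have hk0 : 0 ≤ κ y := apply_nonneg κ y
  have hkJ : κ y ≤ Jf y := hκJ y
  have hJ0 : 0 ≤ Jf y := hk0.trans hkJ
  have hz0 : 0 ≤ κ z := apply_nonneg κ z
  obtain ⟨s1, hs1⟩ := h.band24 z (k := κ y) hk0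
  have hq0 : 0 ≤ C * Jf y / ε := by positivity
  obtain ⟨i1, j1⟩ := ind24 s1 (s1 + 2 * κ y) (κ y) hk0 (by linarith)
  obtain ⟨i2, j2⟩ := ind24 0 (C * Jf y / ε) (Jf y) hJ0 hq0
  obtain ⟨i3, j3⟩ := ind24 0 (κ z) (2 * ε * Jf y) (by positivity) hz0
  have hsum : IntegrableOn (fun s => (Gf C₀ Vf (z + y) s + Gf C₀ Vf (z - y) s) / 2) (Set.Ioi (0 : ℝ)) :=
    ((h.integrable (z + y)).add (h.integrable (z - y))).div_const 2
  have e1 : ∫ s in Set.Ioi (0 : ℝ), ((Gf C₀ Vf (z + y) s + Gf C₀ Vf (z - y) s) / 2 - Gf C₀ Vf z s) =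
      (Psi C₀ Vf (z + y) + Psi C₀ Vf (z - y)) / 2 - Psi C₀ Vf z := by
    rw [integral_sub hsum (h.integrable z), integral_div, integral_add (h.integrable (z + y)) (h.integrable (z - y))]
    rfl
  have e2 : ∫ s in Set.Ioi (0 : ℝ), ((Gf C₀ Vf (z + y) s + Gf C₀ Vf (z - y) s) / 2 - Gf C₀ Vf z s) ≤
      ∫ s in Set.Ioi (0 : ℝ), ((Set.Icc s1 (s1 + 2 * κ y)).indicator (fun _ => κ y) s +
        (Set.Icc 0 (C * Jf y / ε)).indicator (fun _ => Jf y) s +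
        (Set.Icc 0 (κ z)).indicator (fun _ => 2 * ε * Jf y) s) := by
    refine setIntegral_mono_on (hsum.sub (h.integrable z)) ((i1.add i2).add i3) measurableSet_Ioi fun s hs => ?_
    exact h.point24 hJ hκJ hsm hε hC hφ z y hs1 hs
  have e3 : ∫ s in Set.Ioi (0 : ℝ), ((Set.Icc s1 (s1 + 2 * κ y)).indicator (fun _ => κ y) s +
        (Set.Icc 0 (C * Jf y / ε)).indicator (fun _ => Jf y) s +
        (Set.Icc 0 (κ z)).indicator (fun _ => 2 * ε * Jf y) s) =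
      (∫ s in Set.Ioi (0 : ℝ), (Set.Icc s1 (s1 + 2 * κ y)).indicator (fun _ => κ y) s) +
      (∫ s in Set.Ioi (0 : ℝ), (Set.Icc 0 (C * Jf y / ε)).indicator (fun _ => Jf y) s) +
      (∫ s in Set.Ioi (0 : ℝ), (Set.Icc 0 (κ z)).indicator (fun _ => 2 * ε * Jf y) s) := by
    have i12 : IntegrableOn (fun s => (Set.Icc s1 (s1 + 2 * κ y)).indicator (fun _ => κ y) s +
        (Set.Icc 0 (C * Jf y / ε)).indicator (fun _ => Jf y) s) (Set.Ioi (0 : ℝ)) := i1.add i2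
    rw [integral_add i12 i3, integral_add i1 i2]
  rw [e1, e3] at e2
  have e4 : (C * Jf y / ε - 0) * Jf y = C / ε * Jf y ^ 2 := by
    field_simp
    ring
  have e5 : κ y * κ y ≤ Jf y * Jf y := mul_self_le_mul_self hk0 hkJ
  rw [e4] at j2
  nlinarith [sq_nonneg (Jf y)]

end Pool.Agent.Helper25.NU
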