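import Pool.Agent.Helper25.NU.Seq
import Pool.Agent.Helper25.NU.KJ

/-!
# Project NU, block A8: decomposition of a vector for the `K`- and the `J`-functional

Write `κ i = K a b (2^i) y`, `i ∈ ℤ`.

* `ws_K`: `κ i ≤ a y` and `κ i ≤ 2^i b y` (`K_le_a`, `K_le_b`), so `2^{-i} κ_i²` is summable, with sum
  `≤ 2 (a y)² + (b y)²` (`WS.of_le`, `wsum_le`).
* `exists_decomp`.  Suppose `κ i > 0` for all `i`; let `W : ℕ`.  There are `y', w' : ℤ → V` with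
  `y' i + w' i = y`, `∑ 2^{-i} J_{2^i}(y' i)² ≤ 16 · 2^W ∑ 2^{-i} κ_i²` and
  `∑ 2^{-i} K_{2^i}(w' i)² ≤ 16 · 2^{-W} ∑ 2^{-i} κ_i²` (and both are summable).
  Proof.  Choose `u i` with `a (u i) + 2^i b (y - u i) ≤ 2 κ i` (`exists_K_near`).  Let
  `y' i = u (i+W) - u (i-W)`, `w' i = y - y' i = (y - u (i+W)) + u (i-W)`.
  (1) `a (y' i) ≤ 2 κ_{i+W} + 2 κ_{i-W}`, and
  `2^i b (y' i) ≤ 2^i b (y - u (i+W)) + 2^i b (y - u (i-W)) ≤ 2^{-W} 2 κ_{i+W} + 2^W 2 κ_{i-W}`.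
  So `J (y' i) ≤ 2 κ_{i+W} + 2 · 2^W κ_{i-W}` and `J² ≤ 8 κ_{i+W}² + 8 · 4^W κ_{i-W}²`.  By
  `wsum_shift` the weighted sum of the right hand side is
  `(8 · 2^W + 8 · 4^W 2^{-W}) ∑ 2^{-i} κ_i² = 16 · 2^W ∑ 2^{-i} κ_i²`.
  (2) `K (w' i) ≤ a (u (i-W)) + 2^i b (w' i - u (i-W)) = a (u (i-W)) + 2^i b (y - u (i+W))
  ≤ 2 κ_{i-W} + 2^{-W} 2 κ_{i+W}` (`K_le` with the vector `u (i-W)`), so
  `K² ≤ 8 κ_{i-W}² + 8 · 4^{-W} κ_{i+W}²`, with weighted sum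
  `(8 · 2^{-W} + 8 · 4^{-W} 2^W) ∑ 2^{-i} κ_i² = 16 · 2^{-W} ∑ 2^{-i} κ_i²`.
-/

namespace Pool.Agent.Helper25.NU

variable {V : Type} [AddCommGroup V] [Module ℝ V] (a b : Seminorm ℝ V)

private theorem sq_dom27 {f g h : ℤ → ℝ} {A B : ℝ} (hg : WS g) (hh : WS h)
    (hf : ∀ i, f i ^ 2 ≤ A * g i ^ 2 + B * h i ^ 2) :
    WS f ∧ wsum f ≤ A * wsum g + B * wsum h := by
  have h1 : Summable fun i : ℤ => A * ((2 : ℝ) ^ (-i) * g i ^ 2) + B * ((2 : ℝ) ^ (-i) * h i ^ 2) :=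
    (Summable.mul_left A hg).add (Summable.mul_left B hh)
  have h2 : ∀ i : ℤ, (2 : ℝ) ^ (-i) * f i ^ 2 ≤
      A * ((2 : ℝ) ^ (-i) * g i ^ 2) + B * ((2 : ℝ) ^ (-i) * h i ^ 2) := by
    intro i
    have h3 := mul_le_mul_of_nonneg_left (hf i) (show (0 : ℝ) ≤ (2 : ℝ) ^ (-i) by positivity)
    linarith
  have h4 : WS f := Summable.of_nonneg_of_le (fun i => by positivity) h2 h1
  refine ⟨h4, ?_⟩
  have h5 := Summable.tsum_le_tsum h2 h4 h1
  rw [Summable.tsum_add (Summable.mul_left A hg) (Summable.mul_left B hh), tsum_mul_left,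
    tsum_mul_left] at h5
  exact h5

theorem ws_K (y : V) : WS (fun i : ℤ => K a b (2 ^ i) y) := by
  exact WS.of_le (α := a y) (β := b y) (fun i => K_nonneg a b (by positivity) y)
    (fun i => K_le_a a b (by positivity) y) (fun i => K_le_b a b (by positivity) y)

theorem wsum_K_le (y : V) : wsum (fun i : ℤ => K a b (2 ^ i) y) ≤ 2 * a y ^ 2 + b y ^ 2 := by
  exact wsum_le (α := a y) (β := b y) (fun i => K_nonneg a b (by positivity) y)
    (fun i => K_le_a a b (by positivity) y) (fun i => K_le_b a b (by positivity) y)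

theorem exists_decomp {y : V} (hy : ∀ i : ℤ, 0 < K a b (2 ^ i) y) (W : ℕ) :
    ∃ y' w' : ℤ → V, (∀ i, y' i + w' i = y) ∧
      WS (fun i => J a b (2 ^ i) (y' i)) ∧
      wsum (fun i => J a b (2 ^ i) (y' i)) ≤ 16 * 2 ^ W * wsum (fun i => K a b (2 ^ i) y) ∧
      WS (fun i => K a b (2 ^ i) (w' i)) ∧
      wsum (fun i => K a b (2 ^ i) (w' i)) ≤ 16 / 2 ^ W * wsum (fun i => K a b (2 ^ i) y) := by
  choose u hu using fun i : ℤ => exists_K_near a b y (hy i)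
  set κ : ℤ → ℝ := fun i => K a b (2 ^ i) y with hκ
  have hκ0 : ∀ i, 0 ≤ κ i := fun i => (hy i).le
  have hws : WS κ := ws_K a b y
  have hwsp : WS (fun i => κ (i + (W : ℤ))) := hws.shift W
  have hwsm : WS (fun i => κ (i + (-(W : ℤ)))) := hws.shift (-(W : ℤ))
  have hP0 : (0 : ℝ) < 2 ^ W := by positivity
  have hsp : wsum (fun i => κ (i + (W : ℤ))) = 2 ^ W * wsum κ := by
    rw [wsum_shift κ, zpow_natCast]
  have hsm : wsum (fun i => κ (i + (-(W : ℤ)))) = (2 ^ W)⁻¹ * wsum κ := by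
    rw [wsum_shift κ, zpow_neg, zpow_natCast]
  have ha : ∀ i, a (u i) ≤ 2 * κ i := by
    intro i
    have h1 := hu i
    have h2 : (0 : ℝ) ≤ 2 ^ i * b (y - u i) := mul_nonneg (by positivity) (apply_nonneg b _)
    simp only [hκ]
    linarith
  have hb : ∀ i, 2 ^ i * b (y - u i) ≤ 2 * κ i := by
    intro i
    have h1 := hu i
    have h2 : (0 : ℝ) ≤ a (u i) := apply_nonneg a _
    simp only [hκ]
    linarith
  have hbp : ∀ i : ℤ, 2 ^ i * b (y - u (i + W)) ≤ (2 ^ W)⁻¹ * (2 * κ (i + W)) := by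
    intro i
    have h1 := mul_le_mul_of_nonneg_left (hb (i + W)) (inv_nonneg.2 hP0.le)
    have h2 : (2 : ℝ) ^ (i + (W : ℤ)) = 2 ^ i * 2 ^ W := by
      rw [zpow_add₀ two_ne_zero, zpow_natCast]
    rw [h2] at h1
    have h3 : ((2 : ℝ) ^ W)⁻¹ * (2 ^ i * 2 ^ W * b (y - u (i + W))) =
        2 ^ i * b (y - u (i + W)) := by field_simp
    rw [h3] at h1
    exact h1
  have hbm : ∀ i : ℤ, 2 ^ i * b (y - u (i + -(W : ℤ))) ≤ 2 ^ W * (2 * κ (i + -(W : ℤ))) := by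
    intro i
    have h1 := mul_le_mul_of_nonneg_left (hb (i + -(W : ℤ))) hP0.le
    have h2 : (2 : ℝ) ^ (i + -(W : ℤ)) = 2 ^ i * (2 ^ W)⁻¹ := by
      rw [zpow_add₀ two_ne_zero, zpow_neg, zpow_natCast]
    rw [h2] at h1
    have h3 : (2 : ℝ) ^ W * (2 ^ i * (2 ^ W)⁻¹ * b (y - u (i + -(W : ℤ)))) =
        2 ^ i * b (y - u (i + -(W : ℤ))) := by field_simp
    rw [h3] at h1
    exact h1
  have hJ : ∀ i : ℤ, J a b (2 ^ i) (u (i + W) - u (i + -(W : ℤ))) ≤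
      2 * κ (i + W) + 2 ^ W * (2 * κ (i + -(W : ℤ))) := by
    intro i
    have hk1 := hκ0 (i + W)
    have hk2 := hκ0 (i + -(W : ℤ))
    have hone : (1 : ℝ) ≤ 2 ^ W := one_le_pow₀ (by norm_num)
    refine max_le ?_ ?_
    · have h1 := map_sub_le_add a (u (i + W)) (u (i + -(W : ℤ)))
      have h2 := ha (i + W)
      have h3 := ha (i + -(W : ℤ))
      have h4 : 2 * κ (i + -(W : ℤ)) ≤ 2 ^ W * (2 * κ (i + -(W : ℤ))) :=
        le_mul_of_one_le_left (by positivity) hone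
      linarith
    · have h1 : u (i + W) - u (i + -(W : ℤ)) = (y - u (i + -(W : ℤ))) - (y - u (i + W)) := by abel
      have h2 := map_sub_le_add b (y - u (i + -(W : ℤ))) (y - u (i + W))
      rw [← h1] at h2
      have h3 := mul_le_mul_of_nonneg_left h2 (show (0 : ℝ) ≤ 2 ^ i by positivity)
      have h4 := hbp i
      have h5 := hbm i
      have h6 : (2 ^ W : ℝ)⁻¹ * (2 * κ (i + W)) ≤ 2 * κ (i + W) :=
        mul_le_of_le_one_left (by positivity) (inv_le_one_of_one_le₀ hone)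
      rw [mul_add] at h3
      linarith
  have hKw : ∀ i : ℤ, K a b (2 ^ i) (y - (u (i + W) - u (i + -(W : ℤ)))) ≤
      2 * κ (i + -(W : ℤ)) + (2 ^ W)⁻¹ * (2 * κ (i + W)) := by
    intro i
    have h1 := K_le a b (show (0 : ℝ) ≤ 2 ^ i by positivity)
      (y - (u (i + W) - u (i + -(W : ℤ)))) (u (i + -(W : ℤ)))
    have h2 : y - (u (i + W) - u (i + -(W : ℤ))) - u (i + -(W : ℤ)) = y - u (i + W) := by abel
    rw [h2] at h1
    have h3 := ha (i + -(W : ℤ))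
    have h4 := hbp i
    linarith
  have h1 := sq_dom27 (f := fun i => J a b (2 ^ i) (u (i + W) - u (i + -(W : ℤ))))
    (A := 8) (B := 8 * (2 ^ W) ^ 2) hwsp hwsm (by
      intro i
      have h2 := pow_le_pow_left₀ (J_nonneg a b _ _) (hJ i) 2
      have h3 : (0 : ℝ) ≤ (2 * κ (i + W) - 2 ^ W * (2 * κ (i + -(W : ℤ)))) ^ 2 := sq_nonneg _
      nlinarith)
  have h2 := sq_dom27 (f := fun i => K a b (2 ^ i) (y - (u (i + W) - u (i + -(W : ℤ)))))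
    (A := 8 * ((2 ^ W)⁻¹) ^ 2) (B := 8) hwsp hwsm (by
      intro i
      have h2 := pow_le_pow_left₀ (K_nonneg a b (show (0 : ℝ) ≤ 2 ^ i by positivity) _) (hKw i) 2
      have h3 : (0 : ℝ) ≤ (2 * κ (i + -(W : ℤ)) - (2 ^ W)⁻¹ * (2 * κ (i + W))) ^ 2 := sq_nonneg _
      nlinarith)
  rw [hsp, hsm] at h1 h2
  refine ⟨fun i => u (i + W) - u (i + -(W : ℤ)), fun i => y - (u (i + W) - u (i + -(W : ℤ))),
    fun i => add_sub_cancel _ _, h1.1, ?_, h2.1, ?_⟩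
  · refine h1.2.trans (le_of_eq ?_)
    field_simp
    ring
  · refine h2.2.trans (le_of_eq ?_)
    field_simp
    ring

end Pool.Agent.Helper25.NU
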