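import Pool.Agent.Helper25.NU.Defs

/-!
# Project NU, block D1: uniform smoothness passes to l2-sums

Let `E i` (`i : ℕ`) be normed spaces whose norms satisfy `US C`, with the same `C ≥ 0`.  Then the norm
of `lp E 2` satisfies `US C`.

Proof.  Let `z, y ∈ lp E 2`, `ε > 0`.  `‖z‖² = ∑ ‖z i‖²` (`lp.norm_rpow_eq_tsum`, or
`lp.norm_sq_eq_...`), all sums below converge.  Put
`α i = √(‖z i‖² + ε ‖z i‖ ‖y i‖ + C ε ‖y i‖²)`, `β i = ε ‖y i‖`.  By hypothesis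
`(‖z i + y i‖² + ‖z i - y i‖²)/2 ≤ (α i + β i)²`, so
`√((‖z+y‖² + ‖z-y‖²)/2) ≤ √(∑ (α i + β i)²) ≤ √(∑ (α i)²) + √(∑ (β i)²)` (Minkowski,
`Real.Lp_add_le_tsum_of_nonneg` for `p = 2`, or directly).  Finally
`∑ (α i)² = ‖z‖² + ε ∑ ‖z i‖ ‖y i‖ + C ε ‖y‖² ≤ ‖z‖² + ε ‖z‖ ‖y‖ + C ε ‖y‖²` (Cauchy-Schwarz,
`Real.inner_le_Lp_mul_Lq_tsum_of_nonneg`) and `∑ (β i)² = ε² ‖y‖²`.
-/

namespace Pool.Agent.Helper25.NU

private theorem hasSum_sq_h12 (E : ℕ → Type) [∀ i, NormedAddCommGroup (E i)]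
    (f : lp E 2) : HasSum (fun i => ‖f i‖ ^ 2) (‖f‖ ^ 2) := by
  have h := lp.hasSum_norm (E := E) (p := 2) (by simp) f
  simpa using h

private theorem cs_h12 {f g : ℕ → ℝ} {F G : ℝ} (hf : ∀ i, 0 ≤ f i) (hg : ∀ i, 0 ≤ g i)
    (hF : HasSum (fun i => f i ^ 2) F) (hG : HasSum (fun i => g i ^ 2) G) :
    Summable (fun i => f i * g i) ∧ ∑' i, f i * g i ≤ √F * √G := by
  have h0 : ∀ i, 0 ≤ f i * g i := fun i => mul_nonneg (hf i) (hg i)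
  have hs : ∀ s : Finset ℕ, ∑ i ∈ s, f i * g i ≤ √F * √G := by
    intro s
    refine (Real.sum_mul_le_sqrt_mul_sqrt s f g).trans ?_
    refine mul_le_mul (Real.sqrt_le_sqrt ?_) (Real.sqrt_le_sqrt ?_) (Real.sqrt_nonneg _)
      (Real.sqrt_nonneg _)
    · exact sum_le_hasSum s (fun i _ => sq_nonneg _) hF
    · exact sum_le_hasSum s (fun i _ => sq_nonneg _) hG
  exact ⟨summable_of_sum_le h0 hs, (summable_of_sum_le h0 hs).tsum_le_of_sum_le hs⟩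

theorem US_lp {C : ℝ → ℝ} (hC : ∀ ε, 0 < ε → 0 ≤ C ε) (E : ℕ → Type)
    [∀ i, NormedAddCommGroup (E i)] [∀ i, NormedSpace ℝ (E i)]
    (h : ∀ i, US C (fun z : E i => ‖z‖)) : US C (fun z : lp E 2 => ‖z‖) := by
  intro ε hε z y
  have hCε := hC ε hε
  have hz := hasSum_sq_h12 E z
  have hy := hasSum_sq_h12 E y
  have hp := hasSum_sq_h12 E (z + y)
  have hm := hasSum_sq_h12 E (z - y)
  obtain ⟨hzy, hzy'⟩ := cs_h12 (fun i => norm_nonneg (z i)) (fun i => norm_nonneg (y i)) hz hy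
  rw [Real.sqrt_sq (norm_nonneg z), Real.sqrt_sq (norm_nonneg y)] at hzy'
  set S : ℝ := ∑' i, ‖z i‖ * ‖y i‖ with hS
  set α : ℕ → ℝ := fun i => √(‖z i‖ ^ 2 + ε * ‖z i‖ * ‖y i‖ + C ε * ‖y i‖ ^ 2) with hα
  set β : ℕ → ℝ := fun i => ε * ‖y i‖ with hβ
  have hα0 : ∀ i, 0 ≤ α i := fun i => Real.sqrt_nonneg _
  have hβ0 : ∀ i, 0 ≤ β i := fun i => mul_nonneg hε.le (norm_nonneg _)
  have hα2 : ∀ i, α i ^ 2 = ‖z i‖ ^ 2 + ε * (‖z i‖ * ‖y i‖) + C ε * ‖y i‖ ^ 2 := by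
    intro i
    rw [hα]
    beta_reduce
    rw [Real.sq_sqrt (by positivity)]
    ring
  have hA : HasSum (fun i => α i ^ 2) (‖z‖ ^ 2 + ε * S + C ε * ‖y‖ ^ 2) := by
    simp_rw [hα2]
    exact (hz.add (hzy.hasSum.mul_left ε)).add (hy.mul_left (C ε))
  have hB : HasSum (fun i => β i ^ 2) ((ε * ‖y‖) ^ 2) := by
    have h1 := hy.mul_left (ε ^ 2)
    simp_rw [hβ, mul_pow]
    exact h1
  obtain ⟨hab, hab'⟩ := cs_h12 hα0 hβ0 hA hB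
  rw [Real.sqrt_sq (mul_nonneg hε.le (norm_nonneg y))] at hab'
  set A : ℝ := ‖z‖ ^ 2 + ε * S + C ε * ‖y‖ ^ 2 with hAdef
  have hA0 : 0 ≤ A := hA.nonneg (fun i => sq_nonneg _)
  have hX : HasSum (fun i => (‖z i + y i‖ ^ 2 + ‖z i - y i‖ ^ 2) / 2)
      ((‖z + y‖ ^ 2 + ‖z - y‖ ^ 2) / 2) := (hp.add hm).div_const 2
  have hY : HasSum (fun i => α i ^ 2 + 2 * (α i * β i) + β i ^ 2)
      (A + 2 * (∑' i, α i * β i) + (ε * ‖y‖) ^ 2) :=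
    (hA.add (hab.hasSum.mul_left 2)).add hB
  have hle : (‖z + y‖ ^ 2 + ‖z - y‖ ^ 2) / 2 ≤
      A + 2 * (∑' i, α i * β i) + (ε * ‖y‖) ^ 2 := by
    refine hasSum_le (fun i => ?_) hX hY
    have h1 : √((‖z i + y i‖ ^ 2 + ‖z i - y i‖ ^ 2) / 2) ≤ α i + β i := h i ε hε (z i) (y i)
    have h2 : 0 ≤ (‖z i + y i‖ ^ 2 + ‖z i - y i‖ ^ 2) / 2 := by positivity
    have h3 := pow_le_pow_left₀ (Real.sqrt_nonneg _) h1 2
    rw [Real.sq_sqrt h2] at h3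
    calc _ ≤ (α i + β i) ^ 2 := h3
      _ = _ := by ring
  have hfin : √((‖z + y‖ ^ 2 + ‖z - y‖ ^ 2) / 2) ≤ √A + ε * ‖y‖ := by
    refine Real.sqrt_le_iff.2 ⟨by positivity, hle.trans ?_⟩
    have h4 := Real.sq_sqrt hA0
    nlinarith [hab', h4]
  have hA1 : A ≤ ‖z‖ ^ 2 + ε * ‖z‖ * ‖y‖ + C ε * ‖y‖ ^ 2 := by
    rw [hAdef]
    have := mul_le_mul_of_nonneg_left hzy' hε.le
    nlinarith [this]
  exact hfin.trans (add_le_add_left (Real.sqrt_le_sqrt hA1) _)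

end Pool.Agent.Helper25.NU
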