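import Pool.Agent.Helper25.NU.Blocks

/-!
# Project NU, block A2: labels of arbitrary size

Claim (`levels`).  Let `m : ℕ → ℕ`, all positive.  There are a function `φ : ℝ → ℝ` and constants
`C₀`, `Cε` such that `φ ≥ 0`, `φ 0 = 0`, `φ u ≤ ε u + Cε u²` for all `ε > 0` and `u ≥ 0`, and
`E K_t(M) ≤ E ∑_j φ(J_t(x_j)) + C₀` for all `t > 0` and all trees, in every couple which satisfies
`BI a b (1 / (i + 1)) (m i)` for all `i`.

Construction.  `exists_idx`: there is `idx : ℕ → ℕ` with `idx → ∞` and
`∑_n m (idx n) / 2^n < ∞`.  For example `idx n =` the largest `i ≤ n` with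
`max_{i' ≤ i} m i' ≤ (3/2)^n`, or `0` if there is none; for `n` large there is one, since
`m 0 ≤ (3/2)^n`, and then `m (idx n) ≤ (3/2)^n`; for given `i` one has `idx n ≥ i` as soon as
`n ≥ i` and `(3/2)^n ≥ max_{i' ≤ i} m i'`.  (Any other construction is fine.)
Let `δ n = 1 / (idx n + 1)`, so `δ n → 0`, `δ n ≤ 1`, and `C₀ = ∑_n m (idx n) / 2^n`.

Levels: for `0 < u ≤ 1` let `lev u` be the `n` with `2^{-(n+1)} < u ≤ 2^{-n}`
(e.g. `Nat.find` of `∃ n, 2^{-(n+1)} < u`).
`φ u = u` if `u > 1`, `φ u = 2 δ (lev u) u` if `0 < u ≤ 1`, `φ u = 0` if `u ≤ 0`.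

Growth of `φ`.  Given `ε > 0` choose `n₀` with `2 δ n ≤ ε` for `n ≥ n₀`.  If `u ≤ 2^{-n₀}`, then
`φ u ≤ ε u`; if `u > 2^{-n₀}`, then `φ u ≤ 2 u ≤ 2 · 2^{n₀} u²`.  So `Cε = 2 · 2^{n₀}`.

Inequality.  Fix `t > 0`, a tree `T` and `N : ℕ`.  Split each label `x` as
`x = x 1[J_t x > 1] + ∑_{n < N} x 1[lev = n] + x 1[J_t x ≤ 2^{-N}]`: three kinds of odd functions
`g_big`, `g_n`, `g_small` of `x` (`J_t` is even; for `J_t x = 0` put everything in `g_small`).
For each path `K_t(s.sum) ≤ K_t((s.map g_big).sum) + ∑_{n<N} K_t((s.map g_n).sum)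
+ K_t((s.map g_small).sum)` (`K_add`).
* `K_t((s.map g_big).sum) ≤ ∑_j J_t(g_big s_j) ≤ ∑_j φ(J_t s_j) 1[J_t s_j > 1]` (`K_sum_le`,
  `K_le_J`).
* `K_t((s.map g_small).sum) ≤ (number of labels) 2^{-N} ≤ depth(T) 2^{-N}` (`Tree.All_length`).
* The tree `T.map (2^n g_n)` has labels with `J_t ≤ 1`; by `BI.blocks` with `δ n = 1/(idx n + 1)`:
  `2^n E K_t((s.map g_n).sum) ≤ δ n E nz(s.map (2^n g_n)) + δ n m (idx n)`, and
  `nz (s.map (2^n g_n)) ≤ #{j : lev (J_t s_j) = n} ≤ ∑_{j : lev = n} 2^{n+1} J_t s_j`.
  So `E K_t((s.map g_n).sum) ≤ E ∑_{j : lev = n} 2 δ n J_t s_j + m (idx n) / 2^n`.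
Sum up: `E K_t(M) ≤ E ∑_j φ(J_t s_j) + C₀ + depth(T) 2^{-N}`; let `N → ∞`.
-/

namespace Pool.Agent.Helper25.NU

private theorem h41_listsum {α ι M : Type} [AddCommMonoid M] (I : Finset ι) (g : ι → α → M)
    (s : List α) : (s.map fun x => ∑ i ∈ I, g i x).sum = ∑ i ∈ I, (s.map (g i)).sum := by
  induction s with
  | nil => simp
  | cons x s ih => simp only [List.map_cons, List.sum_cons, ih, Finset.sum_add_distrib]

private theorem h41_listadd {α M : Type} [AddCommMonoid M] (f g : α → M)
    (s : List α) : (s.map fun x => f x + g x).sum = (s.map f).sum + (s.map g).sum := by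
  induction s with
  | nil => simp
  | cons x s ih =>
    simp only [List.map_cons, List.sum_cons, ih]
    abel

private theorem h41_K_finset {V : Type} [AddCommGroup V] [Module ℝ V] (a b : Seminorm ℝ V) {t : ℝ}
    (ht : 0 ≤ t) {ι : Type} (I : Finset ι) (z : ι → V) :
    K a b t (∑ i ∈ I, z i) ≤ ∑ i ∈ I, K a b t (z i) := by
  classical
  induction I using Finset.induction_on with
  | empty =>
    simp only [Finset.sum_empty]
    simpa using K_le_a a b ht (0 : V)
  | insert i I hi ih =>
    rw [Finset.sum_insert hi, Finset.sum_insert hi]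
    exact (K_add a b ht _ _).trans (by linarith)

private theorem h41_lev : ∃ lev : ℝ → ℕ, ∀ u : ℝ, 0 < u → u ≤ 1 →
    (1 / 2 : ℝ) ^ (lev u + 1) < u ∧ u ≤ (1 / 2 : ℝ) ^ lev u := by
  have h : ∀ u : ℝ, ∃ n : ℕ, 0 < u → u ≤ 1 → (1 / 2 : ℝ) ^ (n + 1) < u ∧ u ≤ (1 / 2 : ℝ) ^ n := by
    intro u
    by_cases h0 : 0 < u
    · by_cases h1 : u ≤ 1
      · obtain ⟨n, hn⟩ := exists_nat_pow_near_of_lt_one h0 h1 (show (0 : ℝ) < 1 / 2 by norm_num)
          (by norm_num)
        exact ⟨n, fun _ _ => hn⟩
      · exact ⟨0, fun _ h => absurd h h1⟩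
    · exact ⟨0, fun h => absurd h h0⟩
  choose lev hlev using h
  exact ⟨lev, hlev⟩

/-- one level -/
private theorem h41_level {V : Type} [AddCommGroup V] [Module ℝ V] {a b : Seminorm ℝ V} {δ : ℝ}
    {m : ℕ} (h : BI a b δ m) (hδ : 0 ≤ δ) (hm : 0 < m) {t : ℝ} (ht : 0 < t) (T : Tree V) (n : ℕ)
    (P : V → Prop) [DecidablePred P] (hP : ∀ x, P (-x) ↔ P x)
    (hP1 : ∀ x, P x → J a b t x ≤ (1 / 2) ^ n)
    (hP2 : ∀ x, P x → (1 / 2) ^ (n + 1) < J a b t x) :
    T.E (fun s => K a b t (s.map fun x => if P x then x else 0).sum) ≤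
      T.E (fun s => (s.map fun x => if P x then 2 * δ * J a b t x else 0).sum) +
        δ * m / 2 ^ n := by
  classical
  let g0 : V → V := fun x => if P x then x else 0
  let g : V → V := fun x => (2 : ℝ) ^ n • g0 x
  have hg0 : ∀ x, g0 (-x) = -g0 x := by
    intro x
    simp only [g0]
    by_cases hx : P x
    · rw [if_pos ((hP x).2 hx), if_pos hx]
    · rw [if_neg (fun h => hx ((hP x).1 h)), if_neg hx, neg_zero]
  have hg : ∀ x, g (-x) = -g x := by
    intro x
    simp only [g, hg0, smul_neg]
  have h2n : (0 : ℝ) < 2 ^ n := by positivity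
  have hmul : (2 : ℝ) ^ n * (1 / 2) ^ n = 1 := by
    rw [← mul_pow]
    norm_num
  have hall : (T.map g).All (fun s => ∀ v ∈ s, J a b t v ≤ 1) := by
    rw [Tree.All_map hg]
    refine Tree.All_of_forall T fun s v hv => ?_
    rw [List.mem_map] at hv
    obtain ⟨x, -, rfl⟩ := hv
    simp only [g, g0]
    rw [J_smul, abs_of_pos h2n]
    by_cases hx : P x
    · rw [if_pos hx, ← hmul]
      exact mul_le_mul_of_nonneg_left (hP1 x hx) h2n.le
    · rw [if_neg hx, J_zero, mul_zero]
      exact zero_le_one
  have h1 := h.blocks hδ hm ht hall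
  rw [Tree.E_map hg, Tree.E_map hg] at h1
  have h3 : ∀ s : List V, K a b t (s.map g).sum = 2 ^ n * K a b t (s.map g0).sum := by
    intro s
    have h4 : (s.map g).sum = (2 : ℝ) ^ n • (s.map g0).sum := by
      induction s with
      | nil => simp
      | cons x s ih =>
        simp only [List.map_cons, List.sum_cons, ih, smul_add, g]
    rw [h4, K_smul a b ht.le, abs_of_pos h2n]
  simp only [h3] at h1
  rw [Tree.E_mul] at h1
  have h5 : T.E (fun s => nz (s.map g)) ≤
      T.E (fun s => (s.map fun x => if P x then 2 ^ (n + 1) * J a b t x else 0).sum) := by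
    refine Tree.E_mono (Tree.All_of_forall T fun s => ?_)
    rw [nz, List.map_map]
    refine sum_map_le_of_le fun x _ => ?_
    simp only [Function.comp]
    by_cases hx : P x
    · rw [if_pos hx]
      have h6 : (1 : ℝ) ≤ 2 ^ (n + 1) * J a b t x := by
        have h7 : (2 : ℝ) ^ (n + 1) * (1 / 2) ^ (n + 1) = 1 := by
          rw [← mul_pow]
          norm_num
        rw [← h7]
        exact mul_le_mul_of_nonneg_left (hP2 x hx).le (by positivity)
      split_ifs
      · linarith
      · exact h6
    · rw [if_neg hx]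
      have h6 : g x = 0 := by
        simp only [g, g0]
        rw [if_neg hx, smul_zero]
      rw [if_pos h6]
  have h6 : T.E (fun s => (s.map fun x => if P x then 2 * δ * J a b t x else 0).sum) =
      δ / 2 ^ n * T.E (fun s => (s.map fun x => if P x then 2 ^ (n + 1) * J a b t x else 0).sum) := by
    rw [← Tree.E_mul]
    congr 1
    ext s
    rw [← List.sum_map_mul_left]
    congr 1
    refine List.map_congr_left fun x _ => ?_
    by_cases hx : P x
    · rw [if_pos hx, if_pos hx, pow_succ]
      field_simp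
    · rw [if_neg hx, if_neg hx, mul_zero]
  rw [h6]
  have h7 : T.E (fun s => K a b t (s.map g0).sum) ≤
      (δ * T.E (fun s => nz (s.map g)) + δ * m) / 2 ^ n := by
    rw [le_div_iff₀ h2n]
    linarith
  refine h7.trans ?_
  rw [add_div]
  refine add_le_add ?_ le_rfl
  rw [mul_div_right_comm]
  exact mul_le_mul_of_nonneg_left h5 (by positivity)

theorem exists_idx (m : ℕ → ℕ) :
    ∃ idx : ℕ → ℕ, Filter.Tendsto idx Filter.atTop Filter.atTop ∧
      Summable (fun n => (m (idx n) : ℝ) / 2 ^ n) := by
  classical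
  let M : ℕ → ℕ := fun i => ∑ j ∈ Finset.range (i + 1), m j
  have hM : ∀ i, m i ≤ M i := fun i =>
    Finset.single_le_sum (f := m) (fun _ _ => Nat.zero_le _) (Finset.mem_range.2 (Nat.lt_succ_self i))
  let P : ℕ → ℕ → Prop := fun n i => (M i : ℝ) ≤ (3 / 2) ^ n
  refine ⟨fun n => Nat.findGreatest (P n) n, ?_, ?_⟩
  · rw [Filter.tendsto_atTop]
    intro i
    obtain ⟨N, hN⟩ := pow_unbounded_of_one_lt (M i : ℝ) (by norm_num : (1 : ℝ) < 3 / 2)
    filter_upwards [Filter.eventually_ge_atTop (max i N)] with n hn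
    refine Nat.le_findGreatest ((le_max_left _ _).trans hn) ?_
    show (M i : ℝ) ≤ (3 / 2) ^ n
    exact hN.le.trans (pow_le_pow_right₀ (by norm_num) ((le_max_right _ _).trans hn))
  · have h1 : Summable (fun n : ℕ => (M 0 : ℝ) * (1 / 2) ^ n + (3 / 4) ^ n) := by
      refine Summable.add ?_ ?_
      · exact (summable_geometric_of_lt_one (by norm_num) (by norm_num)).mul_left _
      · exact summable_geometric_of_lt_one (by norm_num) (by norm_num)
    refine Summable.of_nonneg_of_le (fun n => by positivity) (fun n => ?_) h1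
    have h2 : (m (Nat.findGreatest (P n) n) : ℝ) ≤ M 0 + (3 / 2) ^ n := by
      have h3 : (m (Nat.findGreatest (P n) n) : ℝ) ≤ M (Nat.findGreatest (P n) n) := by
        exact_mod_cast hM _
      by_cases h4 : Nat.findGreatest (P n) n = 0
      · rw [h4] at h3 ⊢
        have : (0 : ℝ) ≤ (3 / 2) ^ n := by positivity
        linarith
      · have h5 : P n (Nat.findGreatest (P n) n) := Nat.findGreatest_of_ne_zero rfl h4
        have h6 : (M (Nat.findGreatest (P n) n) : ℝ) ≤ (3 / 2) ^ n := h5
        have h7 : (0 : ℝ) ≤ M 0 := Nat.cast_nonneg _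
        linarith
    have h8 : (M 0 : ℝ) * (1 / 2) ^ n + (3 / 4) ^ n = ((M 0 : ℝ) + (3 / 2) ^ n) / 2 ^ n := by
      rw [add_div, div_pow, one_pow, mul_one_div]
      congr 1
      rw [← div_pow]
      norm_num
    rw [h8]
    gcongr

theorem levels (m : ℕ → ℕ) (hm : ∀ i, 0 < m i) :
    ∃ (φ : ℝ → ℝ) (C₀ : ℝ) (Cε : ℝ → ℝ), 0 ≤ C₀ ∧ (∀ u, 0 ≤ φ u) ∧ φ 0 = 0 ∧
      (∀ ε, 0 < ε → 0 ≤ Cε ε ∧ ∀ u, 0 ≤ u → φ u ≤ ε * u + Cε ε * u ^ 2) ∧
      ∀ (V : Type) [AddCommGroup V] [Module ℝ V] (a b : Seminorm ℝ V),
        (∀ i : ℕ, BI a b (1 / (i + 1)) (m i)) → ∀ t : ℝ, 0 < t → ∀ T : Tree V,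
          T.E (fun s => K a b t s.sum) ≤
            T.E (fun s => (s.map fun x => φ (J a b t x)).sum) + C₀ := by
  classical
  obtain ⟨idx, hidx, hsum⟩ := exists_idx m
  obtain ⟨lev, hlev⟩ := h41_lev
  let δ : ℕ → ℝ := fun n => 1 / ((idx n : ℝ) + 1)
  have hδ0 : ∀ n, 0 ≤ δ n := fun n => by positivity
  have hδ1 : ∀ n, δ n ≤ 1 := fun n => by
    simp only [δ]
    rw [div_le_one (by positivity)]
    have : (0 : ℝ) ≤ idx n := Nat.cast_nonneg _
    linarith
  have hδlim : ∀ ε : ℝ, 0 < ε → ∃ n₀ : ℕ, ∀ n, n₀ ≤ n → 2 * δ n ≤ ε := by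
    intro ε hε
    obtain ⟨N, hN⟩ := exists_nat_gt (2 / ε)
    obtain ⟨n₀, hn₀⟩ := Filter.eventually_atTop.1 (Filter.tendsto_atTop.1 hidx N)
    refine ⟨n₀, fun n hn => ?_⟩
    have h1 : (N : ℝ) ≤ idx n := by exact_mod_cast hn₀ n hn
    simp only [δ]
    rw [mul_one_div, div_le_iff₀ (by positivity)]
    rw [div_lt_iff₀ hε] at hN
    nlinarith
  choose! nn hnn using hδlim
  let φ : ℝ → ℝ := fun u => if 1 < u then u else if 0 < u then 2 * δ (lev u) * u else 0
  refine ⟨φ, ∑' n, (m (idx n) : ℝ) / 2 ^ n, fun ε => 2 * 2 ^ nn ε,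
    tsum_nonneg fun n => by positivity, ?_, ?_, ?_, ?_⟩
  · intro u
    simp only [φ]
    split_ifs with h1 h2
    · linarith
    · have := hδ0 (lev u)
      positivity
    · exact le_rfl
  · simp [φ]
  · intro ε hε
    refine ⟨by positivity, fun u hu => ?_⟩
    have hpow : (1 : ℝ) ≤ 2 ^ nn ε := one_le_pow₀ (by norm_num)
    simp only [φ]
    split_ifs with h1 h2
    · nlinarith
    · have h3 := not_lt.1 h1
      obtain ⟨h4, h5⟩ := hlev u h2 h3
      by_cases h6 : nn ε ≤ lev u
      · have h7 := hnn ε hε (lev u) h6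
        have h8 : 2 * δ (lev u) * u ≤ ε * u := mul_le_mul_of_nonneg_right h7 hu
        have h9 : 0 ≤ 2 * 2 ^ nn ε * u ^ 2 := by positivity
        linarith
      · have h7 : lev u + 1 ≤ nn ε := by omega
        have h8 : (1 / 2 : ℝ) ^ nn ε ≤ (1 / 2) ^ (lev u + 1) :=
          pow_le_pow_of_le_one (by norm_num) (by norm_num) h7
        have h9 : (1 / 2 : ℝ) ^ nn ε < u := h8.trans_lt h4
        have h10 : (2 : ℝ) ^ nn ε * (1 / 2) ^ nn ε = 1 := by
          rw [← mul_pow]
          norm_num
        have h11 : 1 ≤ (2 : ℝ) ^ nn ε * u := by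
          rw [← h10]
          exact mul_le_mul_of_nonneg_left h9.le (by positivity)
        have h12 : 2 * δ (lev u) * u ≤ 2 * 1 * u := by
          have := hδ1 (lev u)
          gcongr
        have h13 : 2 * u * 1 ≤ 2 * u * ((2 : ℝ) ^ nn ε * u) :=
          mul_le_mul_of_nonneg_left h11 (by positivity)
        have h14 : 0 ≤ ε * u := by positivity
        nlinarith
    · positivity
  · intro V _ _ a b hBI t ht T
    -- the pieces
    have hJ0 : ∀ x, 0 ≤ J a b t x := J_nonneg a b t
    let P : ℕ → V → Prop := fun n x => 0 < J a b t x ∧ J a b t x ≤ 1 ∧ lev (J a b t x) = n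
    let gb : V → V := fun x => if 1 < J a b t x then x else 0
    let gn : ℕ → V → V := fun n x => if P n x then x else 0
    let gs : ℕ → V → V := fun N x =>
      if J a b t x ≤ 0 ∨ (J a b t x ≤ 1 ∧ N ≤ lev (J a b t x)) then x else 0
    have hdec : ∀ (N : ℕ) (x : V), gb x + ∑ n ∈ Finset.range N, gn n x + gs N x = x := by
      intro N x
      simp only [gb, gn, gs, P]
      rcases (hJ0 x).eq_or_lt with h0 | h0
      · have h1 : ∑ n ∈ Finset.range N,
            (if 0 < J a b t x ∧ J a b t x ≤ 1 ∧ lev (J a b t x) = n then x else 0) = 0 := by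
          refine Finset.sum_eq_zero fun n _ => ?_
          rw [if_neg]
          rintro ⟨h, -⟩
          linarith
        rw [h1, if_neg (by linarith), if_pos (Or.inl h0.symm.le)]
        simp
      · by_cases h1 : 1 < J a b t x
        · have h2 : ∑ n ∈ Finset.range N,
              (if 0 < J a b t x ∧ J a b t x ≤ 1 ∧ lev (J a b t x) = n then x else 0) = 0 := by
            refine Finset.sum_eq_zero fun n _ => ?_
            rw [if_neg]
            rintro ⟨-, h, -⟩
            linarith
          rw [h2, if_pos h1, if_neg]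
          · simp
          · rintro (h | ⟨h, -⟩) <;> linarith
        · have h2 := not_lt.1 h1
          rw [if_neg h1]
          by_cases h3 : N ≤ lev (J a b t x)
          · have h4 : ∑ n ∈ Finset.range N,
                (if 0 < J a b t x ∧ J a b t x ≤ 1 ∧ lev (J a b t x) = n then x else 0) = 0 := by
              refine Finset.sum_eq_zero fun n hn => ?_
              rw [if_neg]
              rintro ⟨-, -, h⟩
              have := Finset.mem_range.1 hn
              omega
            rw [h4, if_pos (Or.inr ⟨h2, h3⟩)]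
            simp
          · have h4 : ∑ n ∈ Finset.range N,
                (if 0 < J a b t x ∧ J a b t x ≤ 1 ∧ lev (J a b t x) = n then x else 0) = x := by
              rw [Finset.sum_eq_single (lev (J a b t x))]
              · rw [if_pos ⟨h0, h2, rfl⟩]
              · intro n _ hn
                rw [if_neg]
                rintro ⟨-, -, h⟩
                exact hn h.symm
              · intro h
                exact absurd (Finset.mem_range.2 (not_le.1 h3)) h
            rw [h4, if_neg]
            · simp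
            · rintro (h | ⟨-, h⟩)
              · linarith
              · exact h3 h
    have hpath : ∀ (N : ℕ) (s : List V), K a b t s.sum ≤
        (s.map fun x => if 1 < J a b t x then J a b t x else 0).sum +
          ∑ n ∈ Finset.range N, K a b t (s.map (gn n)).sum + s.length * (1 / 2) ^ N := by
      intro N s
      have h1 : s.sum = (s.map gb).sum + ∑ n ∈ Finset.range N, (s.map (gn n)).sum +
          (s.map (gs N)).sum := by
        rw [← h41_listsum, ← h41_listadd, ← h41_listadd]
        simp only [hdec, List.map_id']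
      have h2 : K a b t s.sum ≤ K a b t (s.map gb).sum +
          ∑ n ∈ Finset.range N, K a b t (s.map (gn n)).sum + K a b t (s.map (gs N)).sum := by
        rw [h1]
        refine (K_add a b ht.le _ _).trans (add_le_add ?_ le_rfl)
        refine (K_add a b ht.le _ _).trans (add_le_add le_rfl ?_)
        exact h41_K_finset a b ht.le _ _
      have h3 : K a b t (s.map gb).sum ≤
          (s.map fun x => if 1 < J a b t x then J a b t x else 0).sum := by
        refine (K_sum_le a b ht.le _).trans ?_
        rw [List.map_map]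
        refine sum_map_le_of_le fun x _ => ?_
        simp only [Function.comp, gb]
        split_ifs
        · exact K_le_J a b ht.le x
        · exact (K_le_J a b ht.le 0).trans (J_zero a b t).le
      have h4 : K a b t (s.map (gs N)).sum ≤ s.length * (1 / 2) ^ N := by
        refine (K_sum_le a b ht.le _).trans ?_
        rw [List.map_map]
        have h5 : (s.map ((fun v => K a b t v) ∘ gs N)).sum ≤
            (s.map fun _ => ((1 / 2 : ℝ) ^ N)).sum := by
          refine sum_map_le_of_le fun x _ => ?_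
          simp only [Function.comp, gs]
          split_ifs with h6
          · refine (K_le_J a b ht.le x).trans ?_
            rcases h6 with h6 | ⟨h6, h7⟩
            · exact h6.trans (by positivity)
            · rcases (hJ0 x).eq_or_lt with h0 | h0
              · rw [← h0]
                positivity
              · exact (hlev _ h0 h6).2.trans
                  (pow_le_pow_of_le_one (by norm_num) (by norm_num) h7)
          · refine ((K_le_J a b ht.le 0).trans (J_zero a b t).le).trans ?_
            positivity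
        refine h5.trans ?_
        rw [List.map_const', List.sum_replicate, nsmul_eq_mul]
      linarith
    have hlevel : ∀ n : ℕ, T.E (fun s => K a b t (s.map (gn n)).sum) ≤
        T.E (fun s => (s.map fun x => if P n x then 2 * δ n * J a b t x else 0).sum) +
          δ n * m (idx n) / 2 ^ n := by
      intro n
      refine h41_level (hBI (idx n)) (hδ0 n) (hm _) ht T n (P n) ?_ ?_ ?_
      · intro x
        simp only [P, J_neg]
      · rintro x ⟨h0, h1, h2⟩
        have := (hlev _ h0 h1).2
        rwa [h2] at this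
      · rintro x ⟨h0, h1, h2⟩
        have := (hlev _ h0 h1).1
        rwa [h2] at this
    have hφ : ∀ (N : ℕ) (x : V), (if 1 < J a b t x then J a b t x else 0) +
        ∑ n ∈ Finset.range N, (if P n x then 2 * δ n * J a b t x else 0) ≤ φ (J a b t x) := by
      intro N x
      simp only [φ, P]
      by_cases h1 : 1 < J a b t x
      · rw [if_pos h1, if_pos h1, Finset.sum_eq_zero, add_zero]
        intro n _
        rw [if_neg]
        rintro ⟨-, h, -⟩
        linarith
      · rw [if_neg h1, if_neg h1, zero_add]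
        by_cases h0 : 0 < J a b t x
        · rw [if_pos h0]
          have h2 : ∀ n ∈ Finset.range N,
              (if 0 < J a b t x ∧ J a b t x ≤ 1 ∧ lev (J a b t x) = n then 2 * δ n * J a b t x
                else 0) =
              if n = lev (J a b t x) then 2 * δ (lev (J a b t x)) * J a b t x else 0 := by
            intro n _
            by_cases h3 : n = lev (J a b t x)
            · rw [if_pos h3, if_pos ⟨h0, not_lt.1 h1, h3.symm⟩, h3]
            · rw [if_neg h3, if_neg]
              rintro ⟨-, -, h⟩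
              exact h3 h.symm
          rw [Finset.sum_congr rfl h2, Finset.sum_ite_eq']
          have h4 := hδ0 (lev (J a b t x))
          split_ifs
          · exact le_rfl
          · positivity
        · rw [if_neg h0, Finset.sum_eq_zero]
          intro n _
          rw [if_neg]
          rintro ⟨h, -⟩
          exact h0 h
    have hmain : ∀ N : ℕ, T.E (fun s => K a b t s.sum) ≤
        T.E (fun s => (s.map fun x => φ (J a b t x)).sum) + ∑' n, (m (idx n) : ℝ) / 2 ^ n +
          T.depth * (1 / 2) ^ N := by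
      intro N
      have h1 : T.E (fun s => K a b t s.sum) ≤
          T.E (fun s => (s.map fun x => if 1 < J a b t x then J a b t x else 0).sum) +
          ∑ n ∈ Finset.range N, T.E (fun s => K a b t (s.map (gn n)).sum) +
          T.depth * (1 / 2) ^ N := by
        rw [← Tree.E_sum, ← Tree.E_add, ← Tree.E_const T (T.depth * (1 / 2) ^ N : ℝ),
          ← Tree.E_add]
        refine Tree.E_mono (Tree.All_mono (Tree.All_length T) fun s hs => ?_)
        refine (hpath N s).trans ?_
        have h2 : (s.length : ℝ) ≤ T.depth := by exact_mod_cast hs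
        have h3 : (s.length : ℝ) * (1 / 2) ^ N ≤ T.depth * (1 / 2) ^ N := by gcongr
        linarith
      have h2 : ∑ n ∈ Finset.range N, T.E (fun s => K a b t (s.map (gn n)).sum) ≤
          ∑ n ∈ Finset.range N,
            T.E (fun s => (s.map fun x => if P n x then 2 * δ n * J a b t x else 0).sum) +
          ∑ n ∈ Finset.range N, δ n * m (idx n) / 2 ^ n := by
        rw [← Finset.sum_add_distrib]
        exact Finset.sum_le_sum fun n _ => hlevel n
      have h3 : ∑ n ∈ Finset.range N, δ n * m (idx n) / 2 ^ n ≤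
          ∑' n, (m (idx n) : ℝ) / 2 ^ n := by
        refine le_trans ?_ (hsum.sum_le_tsum (Finset.range N) fun n _ => by positivity)
        refine Finset.sum_le_sum fun n _ => ?_
        have h4 : δ n * (m (idx n) : ℝ) ≤ 1 * m (idx n) := by
          have := hδ1 n
          gcongr
        rw [one_mul] at h4
        gcongr
      have h4 : T.E (fun s => (s.map fun x => if 1 < J a b t x then J a b t x else 0).sum) +
          ∑ n ∈ Finset.range N,
            T.E (fun s => (s.map fun x => if P n x then 2 * δ n * J a b t x else 0).sum) ≤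
          T.E (fun s => (s.map fun x => φ (J a b t x)).sum) := by
        rw [← Tree.E_sum, ← Tree.E_add]
        refine Tree.E_mono (Tree.All_of_forall T fun s => ?_)
        rw [← h41_listsum, ← h41_listadd]
        exact sum_map_le_of_le fun x _ => hφ N x
      linarith
    -- the limit
    have hlim : Filter.Tendsto (fun N : ℕ =>
        T.E (fun s => (s.map fun x => φ (J a b t x)).sum) + ∑' n, (m (idx n) : ℝ) / 2 ^ n +
          T.depth * (1 / 2 : ℝ) ^ N) Filter.atTop
        (nhds (T.E (fun s => (s.map fun x => φ (J a b t x)).sum) +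
          ∑' n, (m (idx n) : ℝ) / 2 ^ n + T.depth * 0)) :=
      (tendsto_pow_atTop_nhds_zero_of_lt_one (by norm_num) (by norm_num)).const_mul _ |>.const_add _
    rw [mul_zero, add_zero] at hlim
    exact ge_of_tendsto' hlim hmain

end Pool.Agent.Helper25.NU
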