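import Pool.Agent.Helper25.NU.L2Sum
import Pool.Agent.Helper25.NU.DualUC

/-!
# Project NU, block D3: the uniformly convex space attached to a sequence of uniformly smooth norms

Let `V i` (`i : ℕ`) be real vector spaces with norms `p i` (seminorms with `p i z = 0 → z = 0`) which
satisfy `US C` with the same `C ≥ 0`.  There is a uniformly convex Banach space `X` such that for
every `i`, every finite family `g ℓ` of linear functionals on `V i` with `|g ℓ z| ≤ c p_i(z)` is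
represented by vectors `v ℓ` of `X` with `‖v ℓ‖ ≤ c`, and the evaluation at each `z : V i` by a
functional `φ` on `X` of norm at most `p_i(z)`: `φ (v ℓ) = g ℓ z`.

Construction.  Let `E i` be `V i` with the norm `p i` (a type synonym, with the instances from
`NormedSpace.Core`), `Y = lp E 2` and `X = StrongDual ℝ Y`.  By `US_lp` and `US_dual` `X` is uniformly
convex; it is complete.  `v ℓ` is `y ↦ g ℓ (y i)`: `|g ℓ (y i)| ≤ c ‖y i‖ ≤ c ‖y‖`
(`lp.norm_apply_le_norm`, `LinearMap.mkContinuous`).  `φ` is the evaluation at `lp.single 2 i z`,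
which has norm `p_i(z)` (`lp.norm_single`), i.e. `NormedSpace.inclusionInDoubleDual ℝ Y` of it.
-/

namespace Pool.Agent.Helper25.NU

theorem core38 {V : Type} [AddCommGroup V] [Module ℝ V] (p : Seminorm ℝ V)
    (hp : ∀ z, p z = 0 → z = 0) : @NormedSpace.Core ℝ V _ _ _ ⟨p⟩ :=
  letI : Norm V := ⟨p⟩
  { norm_nonneg := fun x => apply_nonneg p x
    norm_smul := fun c x => map_smul_eq_mul p c x
    norm_triangle := fun x y => map_add_le_add p x y
    norm_eq_zero_iff := fun x => ⟨hp x, fun h => by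
      subst h
      exact map_zero p⟩ }

theorem exists_space_aux38 {C : ℝ → ℝ} (hC : ∀ ε, 0 < ε → 0 ≤ C ε) (E : ℕ → Type)
    [∀ i, NormedAddCommGroup (E i)] [∀ i, NormedSpace ℝ (E i)]
    (h : ∀ i, US C (fun z : E i => ‖z‖)) :
    ∃ (X : Type) (_ : NormedAddCommGroup X) (_ : NormedSpace ℝ X) (_ : CompleteSpace X),
      UniformConvexSpace X ∧
      ∀ (i : ℕ) (L : Type) (g : L → E i →ₗ[ℝ] ℝ) (c : ℝ), 0 ≤ c →
        (∀ ℓ z, |g ℓ z| ≤ c * ‖z‖) →
        ∃ v : L → X, (∀ ℓ, ‖v ℓ‖ ≤ c) ∧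
          ∀ z : E i, ∃ φ : StrongDual ℝ X, ‖φ‖ ≤ ‖z‖ ∧ ∀ ℓ, φ (v ℓ) = g ℓ z := by
  classical
  have : Fact ((1 : ENNReal) ≤ 2) := ⟨by norm_num⟩
  refine ⟨StrongDual ℝ (lp E 2), inferInstance, inferInstance, inferInstance,
    US_dual hC _ (US_lp hC E h), ?_⟩
  intro i L g c hc hg
  have hb : ∀ (ℓ : L) (y : lp E 2), ‖g ℓ (y i)‖ ≤ c * ‖y‖ := by
    intro ℓ y
    rw [Real.norm_eq_abs]
    exact (hg ℓ (y i)).trans
      (mul_le_mul_of_nonneg_left (lp.norm_apply_le_norm (by norm_num) y i) hc)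
  refine ⟨fun ℓ => LinearMap.mkContinuous
    { toFun := fun y : lp E 2 => g ℓ (y i)
      map_add' := fun a b => by rw [lp.coeFn_add, Pi.add_apply, map_add]
      map_smul' := fun r a => by
        rw [lp.coeFn_smul, Pi.smul_apply, map_smul, RingHom.id_apply] } c (hb ℓ),
    fun ℓ => LinearMap.mkContinuous_norm_le _ hc _, ?_⟩
  intro z
  refine ⟨NormedSpace.inclusionInDoubleDual ℝ (lp E 2) (lp.single 2 i z), ?_, ?_⟩
  · refine (NormedSpace.double_dual_bound ℝ (lp E 2) _).trans ?_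
    rw [lp.norm_single (by norm_num)]
  · intro ℓ
    rw [NormedSpace.dual_def, LinearMap.mkContinuous_apply]
    change g ℓ ((lp.single 2 i z : lp E 2) i) = g ℓ z
    rw [lp.single_apply_self]

theorem exists_space {C : ℝ → ℝ} (hC : ∀ ε, 0 < ε → 0 ≤ C ε) (V : ℕ → Type)
    [∀ i, AddCommGroup (V i)] [∀ i, Module ℝ (V i)] (p : ∀ i, Seminorm ℝ (V i))
    (hp : ∀ i z, p i z = 0 → z = 0) (h : ∀ i, US C (p i)) :
    ∃ (X : Type) (_ : NormedAddCommGroup X) (_ : NormedSpace ℝ X) (_ : CompleteSpace X),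
      UniformConvexSpace X ∧
      ∀ (i : ℕ) (L : Type) (g : L → V i →ₗ[ℝ] ℝ) (c : ℝ), 0 ≤ c →
        (∀ ℓ z, |g ℓ z| ≤ c * p i z) →
        ∃ v : L → X, (∀ ℓ, ‖v ℓ‖ ≤ c) ∧
          ∀ z : V i, ∃ φ : StrongDual ℝ X, ‖φ‖ ≤ p i z ∧ ∀ ℓ, φ (v ℓ) = g ℓ z := by
  exact @exists_space_aux38 C hC V
    (fun i => @NormedAddCommGroup.ofCore ℝ (V i) _ _ _ ⟨p i⟩ (core38 (p i) (hp i)))
    (fun i => @NormedSpace.ofCore ℝ (V i) _
      (@NormedAddCommGroup.ofCore ℝ (V i) _ _ _ ⟨p i⟩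
        (core38 (p i) (hp i))).toSeminormedAddCommGroup _ (core38 (p i) (hp i))) h

end Pool.Agent.Helper25.NU
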