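import Pool.Agent.Helper25.NU.BIInc
import Pool.Agent.Helper25.NU.Abs
import Pool.Agent.Helper25.NU.Space
import Pool.Agent.Helper25.NU.Aff

/-!
# Project NU, block F3: the space and the functions on the affine planes

Claim.  There are a uniformly convex Banach space `X` and `c ≥ 1` such that for every prime `q` there
is `f : ZMod q × ZMod q → X` (a function on the lines of the affine plane) with `‖f ℓ‖ ≤ c` and
`1/4 ≤ ‖∑_ℓ affT q p ℓ • f ℓ‖` for every point `p`.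

Proof.  For `i : ℕ` choose `m i` by `exists_BI` for `δ = 1/(i+1)` (choice), so `BI` holds for all
incidence structures.  `abstract_thm m` gives `c₁ ≥ 1` and `C'`.  Apply it to the couple
`a = sn1 P`, `b = G.sN`, `G = aff q` (`Inc.sN_le`: `b ≤ a`): a seminorm `p_q` on `P_q → ℝ` with `US C'`,
`p_q² ≤ a² + b²`, `b² ≤ 2 c₁ p_q²`.  It is a norm: `p_q z = 0` gives `b z = 0`, so `nq z = 0`,
so `z = 0` (`abs_le_nq`).
Enumerate by `i : ℕ`: `V i = (ZMod q × ZMod q → ℝ)` where `q = i` if `i` is prime, and `q = 2` otherwise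
(for example with `q i = if i.Prime then i else 2`, which is always prime).
`exists_space` gives `X`.  For a prime `q` take `i = q`, and for the lines `ℓ` the functionals
`g ℓ z = (aff q).A z ℓ`: `|g ℓ z| ≤ F z ≤ b z ≤ √(2 c₁) p_q z`, so `c = √(2 c₁)` (or
`c = max 1 √(2 c₁)`).  This gives `f = v`.
For a point `p` let `z = Pi.single p 1` and `φ` the functional of `exists_space` for `z`:
`‖φ‖ ≤ p_q z ≤ √(a(z)² + b(z)²) ≤ √2`, since `a z = n1 z = 1`, `b z ≤ a z = 1`.  Then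
`φ (∑_ℓ affT p ℓ • f ℓ) = ∑_ℓ affT p ℓ * (aff q).A z ℓ = ∑_ℓ affT p ℓ * 1[p on ℓ] = 1 - 1/q ≥ 1/2`
(`row_pairing`).  So `‖∑ ..‖ ≥ (1/2)/√2 ≥ 1/4`.
-/

namespace Pool.Agent.Helper25.NU

private def qf88 (i : ℕ) : ℕ := if i.Prime then i else 2

private instance inst88 (i : ℕ) : Fact (qf88 i).Prime := by
  refine ⟨?_⟩
  unfold qf88
  split_ifs with h
  · exact h
  · exact Nat.prime_two

private def gl88 {P L : Type} [Fintype P] [Fintype L] [DecidableEq P] [DecidableEq L] (G : Inc P L)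
    (ℓ : L) : (P → ℝ) →ₗ[ℝ] ℝ where
  toFun := fun z => G.A z ℓ
  map_add' := fun x y => G.A_add x y ℓ
  map_smul' := fun c x => G.A_smul c x ℓ

private theorem n1_single88 {P : Type} [Fintype P] [DecidableEq P] (p : P) :
    n1 (Pi.single p 1 : P → ℝ) = 1 := by
  unfold n1
  rw [Finset.sum_eq_single p]
  · simp
  · intro b _ hb
    simp [hb]
  · intro h
    exact absurd (Finset.mem_univ p) h

private theorem A_single88 {P L : Type} [Fintype P] [Fintype L] [DecidableEq P] [DecidableEq L]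
    (G : Inc P L) (p : P) (ℓ : L) :
    G.A (Pi.single p 1 : P → ℝ) ℓ = if p ∈ G.line ℓ then 1 else 0 := by
  unfold Inc.A
  simp [Pi.single_apply]

theorem main_space :
    ∃ (X : Type) (_ : NormedAddCommGroup X) (_ : NormedSpace ℝ X) (_ : CompleteSpace X),
      UniformConvexSpace X ∧ ∃ c : ℝ, 1 ≤ c ∧ ∀ (q : ℕ) [Fact q.Prime],
        ∃ f : ZMod q × ZMod q → X, (∀ ℓ, ‖f ℓ‖ ≤ c) ∧
          ∀ p, 1 / 4 ≤ ‖∑ ℓ, affT q p ℓ • f ℓ‖ := by
  have hex : ∀ i : ℕ, ∃ m : ℕ, 0 < m ∧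
      ∀ (P L : Type) [Fintype P] [Fintype L] [DecidableEq P] [DecidableEq L] (G : Inc P L),
        BI (sn1 P) G.sN (1 / ((i : ℝ) + 1)) m := fun i => exists_BI (by positivity)
  choose m hm hBI using hex
  obtain ⟨c₁, C', hc₁, hC', habs⟩ := abstract_thm m hm
  have hsem : ∀ i : ℕ, ∃ p : Seminorm ℝ (ZMod (qf88 i) × ZMod (qf88 i) → ℝ), US C' p ∧
      (∀ z, p z ^ 2 ≤ sn1 (ZMod (qf88 i) × ZMod (qf88 i)) z ^ 2 + (aff (qf88 i)).sN z ^ 2) ∧
      (∀ z, (aff (qf88 i)).sN z ^ 2 ≤ 2 * c₁ * p z ^ 2) := fun i =>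
    habs (ZMod (qf88 i) × ZMod (qf88 i) → ℝ) (sn1 _) (aff (qf88 i)).sN
      (fun j => hBI j _ _ (aff (qf88 i))) (fun z => (aff (qf88 i)).sN_le z)
  choose p hp1 hp2 hp3 using hsem
  have hdef : ∀ i z, p i z = 0 → z = 0 := by
    intro i z hz
    have h1 := hp3 i z
    rw [hz] at h1
    have h2 : (aff (qf88 i)).sN z = 0 := by
      have h3 : (aff (qf88 i)).sN z ^ 2 ≤ 0 := by
        simpa using h1
      exact pow_eq_zero_iff (two_ne_zero) |>.1 (le_antisymm h3 (sq_nonneg _))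
    have h4 : nq z ≤ 0 := by
      rw [← h2, (aff (qf88 i)).sN_apply]
      exact le_max_left _ _
    funext x
    exact abs_eq_zero.1 (le_antisymm ((abs_le_nq z x).trans h4) (abs_nonneg _))
  obtain ⟨X, i1, i2, i3, huc, hX⟩ := exists_space hC' (fun i => ZMod (qf88 i) × ZMod (qf88 i) → ℝ) p hdef hp1
  have hc0 : (0 : ℝ) ≤ √(2 * c₁) := Real.sqrt_nonneg _
  have key : ∀ i n : ℕ, n = qf88 i → ∀ [Fact n.Prime], ∃ f : ZMod n × ZMod n → X,
      (∀ ℓ, ‖f ℓ‖ ≤ √(2 * c₁)) ∧ ∀ p, 1 / 4 ≤ ‖∑ ℓ, affT n p ℓ • f ℓ‖ := by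
    intro i n hn _
    subst hn
    obtain ⟨v, hv1, hv2⟩ := hX i (ZMod (qf88 i) × ZMod (qf88 i)) (gl88 (aff (qf88 i))) (√(2 * c₁)) hc0
      (by
        intro ℓ z
        have h1 : |gl88 (aff (qf88 i)) ℓ z| ≤ (aff (qf88 i)).sN z := by
          refine ((aff (qf88 i)).abs_A_le_F z ℓ).trans ?_
          rw [(aff (qf88 i)).sN_apply]
          exact le_max_right _ _
        refine h1.trans ?_
        rw [← pow_le_pow_iff_left₀ (apply_nonneg _ _) (mul_nonneg hc0 (apply_nonneg _ _)) two_ne_zero,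
          mul_pow, Real.sq_sqrt (by linarith)]
        exact hp3 i z)
    refine ⟨v, hv1, fun x => ?_⟩
    obtain ⟨φ, hφ1, hφ2⟩ := hv2 (Pi.single x 1)
    have h1 : φ (∑ ℓ, affT (qf88 i) x ℓ • v ℓ) = 1 - 1 / (qf88 i : ℝ) := by
      rw [map_sum, ← row_pairing (qf88 i) x]
      refine Finset.sum_congr rfl fun ℓ _ => ?_
      rw [map_smul, smul_eq_mul, hφ2]
      congr 1
      exact A_single88 (aff (qf88 i)) x ℓ
    have h2 : (2 : ℝ) ≤ qf88 i := by
      exact_mod_cast (inst88 i).out.two_le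
    have h3 : (1 : ℝ) / 2 ≤ 1 - 1 / (qf88 i : ℝ) := by
      have h4 : 1 / (qf88 i : ℝ) ≤ 1 / 2 := one_div_le_one_div_of_le (by norm_num) h2
      linarith
    have h5 : p i (Pi.single x 1) ≤ 2 := by
      have h6 := hp2 i (Pi.single x 1)
      have h7 : sn1 (ZMod (qf88 i) × ZMod (qf88 i)) (Pi.single x 1) = 1 := n1_single88 x
      have h8 := (aff (qf88 i)).sN_le (Pi.single x 1)
      rw [h7] at h6 h8
      have h9 : 0 ≤ (aff (qf88 i)).sN (Pi.single x 1) := apply_nonneg _ _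
      have h10 : 0 ≤ p i (Pi.single x 1) := apply_nonneg _ _
      nlinarith
    have h11 : 1 - 1 / (qf88 i : ℝ) ≤ 2 * ‖∑ ℓ, affT (qf88 i) x ℓ • v ℓ‖ := by
      rw [← h1]
      refine (le_abs_self _).trans ?_
      rw [← Real.norm_eq_abs]
      refine (φ.le_opNorm _).trans ?_
      exact mul_le_mul_of_nonneg_right (hφ1.trans h5) (norm_nonneg _)
    linarith
  refine ⟨X, i1, i2, i3, huc, √(2 * c₁), Real.one_le_sqrt.2 (by linarith), fun q hq => ?_⟩
  exact key q q (if_pos hq.out).symm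

end Pool.Agent.Helper25.NU
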