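import Pool.Agent.Helper25.NU.Tree

/-!
# Project NU, block T2: moments of martingale transforms

Second moments.  Claim: for all `c : ℝ`, `E (c + ∑ g(s_j))² = c² + E ∑ g(s_j)²` (`g` odd); by
induction on the tree, generalizing `c`: for `node x l r`,
`((c + g x)² + (c - g x)²) / 2 = c² + (g x)²`.  The same for the transforms `R upd g q` with a
state: here `upd q (-x) = upd q x` and `g q (-x) = - g q x`, so at `node x l r` both subtrees are
used with the same state `upd q x`; generalize `c`, `q` (and the functional is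
`fun s => (c + R upd g q s)^2`).

Moments of order `4/3`.  Scalar inequality (`scalar43`): for real `a, b`,
`(|a + b| ^ (4/3) + |a - b| ^ (4/3)) / 2 ≤ |a| ^ (4/3) + |b| ^ (4/3)`.
Proof: `|u| ^ (4/3) = (u²) ^ (2/3)`; by concavity of `t ↦ t ^ (2/3)` (`Real.concaveOn_rpow`) the
left hand side is at most `(((a + b)² + (a - b)²) / 2) ^ (2/3) = (a² + b²) ^ (2/3)`, which is at most
`(a²) ^ (2/3) + (b²) ^ (2/3)` (subadditivity of `t ^ (2/3)`, `Real.rpow_add_le_add_rpow` or
`NNReal.rpow_add_le_add_rpow`).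
Then `E |c + ∑ g(s_j)| ^ (4/3) ≤ |c| ^ (4/3) + E ∑ |g(s_j)| ^ (4/3)` by induction on the tree,
generalizing `c`.

Consequences for `V = P → ℝ`: `M = s.sum`, `E ‖M‖_{4/3} ≤ (E ∑_p |M p| ^ (4/3)) ^ (3/4)` (Jensen,
`Tree.E_rpow`) `≤ (E ∑_j ∑_p |s_j p| ^ (4/3)) ^ (3/4)`; if `nq (g v) ≤ c` for all the labels and
`g 0 = 0` then `∑_p |g v p| ^ (4/3) = nq (g v) ^ (4/3) ≤ c ^ (4/3)` and there are at most `m`
non-zero labels on each path, so the bound is `(m * c ^ (4/3)) ^ (3/4) = m ^ (3/4) * c`.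
-/

namespace Pool.Agent.Helper25.NU

variable {V σ : Type}

theorem Tree.E_sq [Neg V] (T : Tree V) {g : V → ℝ} (hg : ∀ x, g (-x) = -g x) :
    T.E (fun s => (s.map g).sum ^ 2) = T.E (fun s => (s.map fun x => g x ^ 2).sum) := by
  have key : ∀ (T : Tree V) (c : ℝ), T.E (fun s => (c + (s.map g).sum) ^ 2) =
      c ^ 2 + T.E (fun s => (s.map fun x => g x ^ 2).sum) := by
    intro T
    induction T with
    | leaf => intro c; simp [Tree.E]
    | node x l r ihl ihr =>
      intro c
      simp only [Tree.E, List.map_cons, List.sum_cons, hg]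
      have e1 : (fun s : List V => (c + (g x + (s.map g).sum)) ^ 2) =
          fun s => ((c + g x) + (s.map g).sum) ^ 2 := by
        funext s; ring
      have e2 : (fun s : List V => (c + (-g x + (s.map g).sum)) ^ 2) =
          fun s => ((c - g x) + (s.map g).sum) ^ 2 := by
        funext s; ring
      rw [e1, e2, ihl, ihr, Tree.E_add, Tree.E_add, Tree.E_const, Tree.E_const]
      ring
  have h := key T 0
  simpa using h

theorem Tree.E_R_sq [Neg V] (T : Tree V) {upd : σ → V → σ} {g : σ → V → ℝ}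
    (hu : ∀ q x, upd q (-x) = upd q x) (hg : ∀ q x, g q (-x) = -g q x) (q : σ) :
    T.E (fun s => R upd g q s ^ 2) = T.E (fun s => R upd (fun q x => g q x ^ 2) q s) := by
  have key : ∀ (T : Tree V) (c : ℝ) (q : σ), T.E (fun s => (c + R upd g q s) ^ 2) =
      c ^ 2 + T.E (fun s => R upd (fun q x => g q x ^ 2) q s) := by
    intro T
    induction T with
    | leaf => intro c q; simp [Tree.E, R]
    | node x l r ihl ihr =>
      intro c q
      simp only [Tree.E, R, hg, hu]
      have e1 : (fun s : List V => (c + (g q x + R upd g (upd q x) s)) ^ 2) =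
          fun s => ((c + g q x) + R upd g (upd q x) s) ^ 2 := by
        funext s; ring
      have e2 : (fun s : List V => (c + (-g q x + R upd g (upd q x) s)) ^ 2) =
          fun s => ((c - g q x) + R upd g (upd q x) s) ^ 2 := by
        funext s; ring
      rw [e1, e2, ihl, ihr, Tree.E_add, Tree.E_add, Tree.E_const, Tree.E_const]
      ring
  have h := key T 0 q
  simpa using h

theorem scalar43 (a b : ℝ) :
    (|a + b| ^ (4 / 3 : ℝ) + |a - b| ^ (4 / 3 : ℝ)) / 2 ≤ |a| ^ (4 / 3 : ℝ) + |b| ^ (4 / 3 : ℝ) := by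
  have h0 : ∀ u : ℝ, |u| ^ (4 / 3 : ℝ) = (u ^ 2) ^ (2 / 3 : ℝ) := by
    intro u
    rw [← sq_abs, ← Real.rpow_natCast, ← Real.rpow_mul (abs_nonneg u)]
    norm_num
  rw [h0, h0, h0, h0]
  have hc := (Real.concaveOn_rpow (p := 2 / 3) (by norm_num) (by norm_num)).2
    (Set.mem_Ici.2 (sq_nonneg (a + b))) (Set.mem_Ici.2 (sq_nonneg (a - b)))
    (show (0 : ℝ) ≤ 1 / 2 by norm_num) (show (0 : ℝ) ≤ 1 / 2 by norm_num) (by norm_num)
  simp only [smul_eq_mul] at hc
  have e : 1 / 2 * (a + b) ^ 2 + 1 / 2 * (a - b) ^ 2 = a ^ 2 + b ^ 2 := by ring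
  rw [e] at hc
  have hs := Real.rpow_add_le_add_rpow (sq_nonneg a) (sq_nonneg b)
    (show (0 : ℝ) ≤ 2 / 3 by norm_num) (by norm_num)
  linarith

theorem Tree.E_pow43 [Neg V] (T : Tree V) {g : V → ℝ} (hg : ∀ x, g (-x) = -g x) :
    T.E (fun s => |(s.map g).sum| ^ (4 / 3 : ℝ)) ≤
      T.E (fun s => (s.map fun x => |g x| ^ (4 / 3 : ℝ)).sum) := by
  have key : ∀ (T : Tree V) (c : ℝ), T.E (fun s => |c + (s.map g).sum| ^ (4 / 3 : ℝ)) ≤
      |c| ^ (4 / 3 : ℝ) + T.E (fun s => (s.map fun x => |g x| ^ (4 / 3 : ℝ)).sum) := by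
    intro T
    induction T with
    | leaf => intro c; simp [Tree.E]
    | node x l r ihl ihr =>
      intro c
      simp only [Tree.E, List.map_cons, List.sum_cons, hg, abs_neg]
      have e1 : (fun s : List V => |c + (g x + (s.map g).sum)| ^ (4 / 3 : ℝ)) =
          fun s => |(c + g x) + (s.map g).sum| ^ (4 / 3 : ℝ) := by
        funext s; rw [add_assoc]
      have e2 : (fun s : List V => |c + (-g x + (s.map g).sum)| ^ (4 / 3 : ℝ)) =
          fun s => |(c - g x) + (s.map g).sum| ^ (4 / 3 : ℝ) := by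
        funext s; rw [sub_eq_add_neg, add_assoc]
      rw [e1, e2, Tree.E_add, Tree.E_add, Tree.E_const, Tree.E_const]
      have h1 := ihl (c + g x)
      have h2 := ihr (c - g x)
      have h3 := scalar43 c (g x)
      linarith
  have h := key T 0
  have h00 : |(0 : ℝ)| ^ (4 / 3 : ℝ) = 0 := by rw [abs_zero, Real.zero_rpow (by norm_num)]
  rw [h00, zero_add] at h
  simpa using h

/-- The `ℓ_{4/3}`-norm of a martingale with at most `m` non-zero steps of norm at most `c`. -/
theorem Tree.E_nq_le {P : Type} [Fintype P] {V : Type} [AddCommGroup V] (T : Tree V)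
    {g : V → P → ℝ} (hg : ∀ x, g (-x) = -g x) {m : ℕ} {c : ℝ} (hc : 0 ≤ c)
    (h : T.All (fun s => (∀ v ∈ s, nq (g v) ≤ c) ∧ nz s ≤ m)) :
    T.E (fun s => nq (s.map g).sum) ≤ (m : ℝ) ^ (3 / 4 : ℝ) * c := by
  classical
  have hg0 : g 0 = 0 := by
    have h1 := hg 0
    rw [neg_zero] at h1
    exact self_eq_neg.1 h1
  have hsum : ∀ (s : List V) (p : P), (s.map g).sum p = (s.map fun x => g x p).sum := by
    intro s p
    induction s with
    | nil => simp
    | cons a t ih => simp [ih]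
  have hswap : ∀ s : List V, ∑ p, (s.map fun x => |g x p| ^ (4 / 3 : ℝ)).sum =
      (s.map fun x => ∑ p, |g x p| ^ (4 / 3 : ℝ)).sum := by
    intro s
    induction s with
    | nil => simp
    | cons a t ih => simp [Finset.sum_add_distrib, ih]
  have h1 : T.E (fun s => nq (s.map g).sum) ≤
      (T.E (fun s => ∑ p, |(s.map g).sum p| ^ (4 / 3 : ℝ))) ^ (3 / 4 : ℝ) := by
    unfold nq
    exact Tree.E_rpow (Tree.All_of_forall T fun s =>
      Finset.sum_nonneg fun p _ => Real.rpow_nonneg (abs_nonneg _) _)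
  have h2 : T.E (fun s => ∑ p, |(s.map g).sum p| ^ (4 / 3 : ℝ)) ≤ m * c ^ (4 / 3 : ℝ) := by
    rw [Tree.E_sum]
    have h3 : ∀ p, T.E (fun s => |(s.map g).sum p| ^ (4 / 3 : ℝ)) ≤
        T.E (fun s => (s.map fun x => |g x p| ^ (4 / 3 : ℝ)).sum) := by
      intro p
      simp only [hsum]
      exact Tree.E_pow43 T (g := fun x => g x p) (fun x => by rw [hg, Pi.neg_apply])
    refine (Finset.sum_le_sum fun p _ => h3 p).trans ?_
    rw [← Tree.E_sum]
    refine Tree.E_le_const (Tree.All_mono h ?_)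
    rintro s ⟨hs1, hs2⟩
    rw [hswap]
    have h4 : (s.map fun x => ∑ p, |g x p| ^ (4 / 3 : ℝ)).sum ≤ c ^ (4 / 3 : ℝ) * nz s := by
      refine sum_map_le_nz ?_ ?_
      · rw [hg0]
        refine Finset.sum_eq_zero fun p _ => ?_
        rw [Pi.zero_apply, abs_zero, Real.zero_rpow (by norm_num)]
      · intro v hv
        rw [← nq_rpow]
        exact Real.rpow_le_rpow (nq_nonneg _) (hs1 v hv) (by norm_num)
    refine h4.trans ?_
    rw [mul_comm]
    exact mul_le_mul_of_nonneg_right hs2 (Real.rpow_nonneg hc _)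
  have h0 : 0 ≤ T.E (fun s => ∑ p, |(s.map g).sum p| ^ (4 / 3 : ℝ)) :=
    Tree.E_nonneg (Tree.All_of_forall T fun s =>
      Finset.sum_nonneg fun p _ => Real.rpow_nonneg (abs_nonneg _) _)
  refine h1.trans ((Real.rpow_le_rpow h0 h2 (by norm_num)).trans (le_of_eq ?_))
  rw [Real.mul_rpow (Nat.cast_nonneg m) (Real.rpow_nonneg hc _), ← Real.rpow_mul hc]
  norm_num

end Pool.Agent.Helper25.NU
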