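import Pool.Agent.Helper25.NU.Aff
import Pool.Agent.Helper82.MK.Defs

/-!
# Project NU, block F4: failure of uniform curvedness

Let `X` be a normed space, `c ≥ 1`, and for every prime `q` let there be a function `f` on the lines of
the affine plane with `‖f ℓ‖ ≤ c` and `1/4 ≤ ‖∑_ℓ affT q p ℓ • f ℓ‖` for all points `p`.  Then `X` is
not `UCurved`.

Proof.  Suppose it is; let `ε` be given for `η = 1/(16 c)`.  Choose a prime `q` with `1/q ≤ ε²`
(`Nat.exists_infinite_primes`).  Let `n = q²` and identify `Fin n` with `ZMod q × ZMod q` by a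
bijection (`Fintype.equivFinOfCardEq` or `Fintype.equivFin`; `n` is the cardinality).  Weights `w = 1`,
matrix `T = affT/2`.  The hypotheses of `UCurved`: `∑_ℓ |T| ≤ 1`, `∑_p |T| ≤ 1` (`sum_abs_row`,
`sum_abs_col`), `∑_p (T g)² ≤ (1/4)(1/q) ∑ g² ≤ ε² ∑ g²` (`sum_sq_le`).  The conclusion gives
`n (1/8)² ≤ ∑_p ‖T f p‖² ≤ η² ∑ ‖f‖² ≤ η² n c² = n/256`, a contradiction (`n > 0`).
-/

namespace Pool.Agent.Helper25.NU

open Pool.Agent.Helper82.MK

theorem not_UCurved {X : Type} [NormedAddCommGroup X] [NormedSpace ℝ X] {c : ℝ} (hc : 1 ≤ c)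
    (h : ∀ (q : ℕ) [Fact q.Prime], ∃ f : ZMod q × ZMod q → X, (∀ ℓ, ‖f ℓ‖ ≤ c) ∧
      ∀ p, 1 / 4 ≤ ‖∑ ℓ, affT q p ℓ • f ℓ‖) : ¬ UCurved X := by
  intro hU
  have hc0 : 0 < c := by linarith
  obtain ⟨ε, hε, hT⟩ := hU (1 / (16 * c)) (by positivity)
  obtain ⟨q, hq1, hq2⟩ := Nat.exists_infinite_primes (⌈1 / ε ^ 2⌉₊ + 1)
  have : Fact q.Prime := ⟨hq2⟩
  have hq0 : (0 : ℝ) < q := by exact_mod_cast hq2.pos
  have hqε : 1 / (q : ℝ) ≤ ε ^ 2 := by
    have h1 : 1 / ε ^ 2 ≤ (q : ℝ) := by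
      refine (Nat.le_ceil _).trans ?_
      have : ((⌈1 / ε ^ 2⌉₊ : ℕ) : ℝ) ≤ q := by
        have h2 : ⌈1 / ε ^ 2⌉₊ ≤ q := by omega
        exact_mod_cast h2
      exact this
    rw [div_le_iff₀ (by positivity)] at h1
    rw [div_le_iff₀ hq0]
    linarith
  obtain ⟨f, hf1, hf2⟩ := h q
  obtain ⟨n, ⟨e⟩⟩ : ∃ n : ℕ, Nonempty (Fin n ≃ ZMod q × ZMod q) :=
    ⟨_, ⟨(Fintype.equivFin (ZMod q × ZMod q)).symm⟩⟩
  have hn : 0 < n := by
    have i0 : Fin n := e.symm (0, 0)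
    exact lt_of_le_of_lt (Nat.zero_le _) i0.2
  have key := hT n (fun _ => 1) (Matrix.of fun i j => affT q (e i) (e j) / 2) (fun _ => one_pos)
    ?_ ?_ ?_ (fun j => f (e j))
  · have hact : ∀ i, act (Matrix.of fun i j => affT q (e i) (e j) / 2) (fun j => f (e j)) i =
        (1 / 2 : ℝ) • ∑ ℓ, affT q (e i) ℓ • f ℓ := by
      intro i
      unfold act
      rw [← Equiv.sum_comp e, Finset.smul_sum]
      refine Finset.sum_congr rfl fun j _ => ?_
      rw [Matrix.of_apply, smul_smul]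
      congr 1
      ring
    have hlow : ∀ i, (1 / 8 : ℝ) ^ 2 ≤
        ‖act (Matrix.of fun i j => affT q (e i) (e j) / 2) (fun j => f (e j)) i‖ ^ 2 := by
      intro i
      rw [hact, norm_smul]
      have h1 := hf2 (e i)
      have h2 : ‖(1 / 2 : ℝ)‖ = 1 / 2 := by norm_num
      rw [h2]
      refine pow_le_pow_left₀ (by norm_num) ?_ 2
      linarith
    have hup : ∀ j, ‖f (e j)‖ ^ 2 ≤ c ^ 2 := fun j =>
      pow_le_pow_left₀ (norm_nonneg _) (hf1 (e j)) 2
    have hl : (n : ℝ) * (1 / 8) ^ 2 ≤ ∑ i : Fin n, 1 *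
        ‖act (Matrix.of fun i j => affT q (e i) (e j) / 2) (fun j => f (e j)) i‖ ^ 2 := by
      calc (n : ℝ) * (1 / 8) ^ 2 = ∑ _i : Fin n, (1 / 8 : ℝ) ^ 2 := by
            rw [Finset.sum_const, Finset.card_univ, Fintype.card_fin, nsmul_eq_mul]
        _ ≤ _ := Finset.sum_le_sum fun i _ => by
            rw [one_mul]
            exact hlow i
    have hr : ∑ j : Fin n, 1 * ‖f (e j)‖ ^ 2 ≤ (n : ℝ) * c ^ 2 := by
      calc ∑ j : Fin n, 1 * ‖f (e j)‖ ^ 2 ≤ ∑ _j : Fin n, c ^ 2 := Finset.sum_le_sum fun j _ => by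
            rw [one_mul]
            exact hup j
        _ = (n : ℝ) * c ^ 2 := by
            rw [Finset.sum_const, Finset.card_univ, Fintype.card_fin, nsmul_eq_mul]
    have hn' : (0 : ℝ) < n := by exact_mod_cast hn
    have h3 : (n : ℝ) * (1 / 8) ^ 2 ≤ (1 / (16 * c)) ^ 2 * ((n : ℝ) * c ^ 2) :=
      hl.trans (key.trans (mul_le_mul_of_nonneg_left hr (by positivity)))
    have h4 : (1 / (16 * c)) ^ 2 * ((n : ℝ) * c ^ 2) = (n : ℝ) * (1 / 256) := by
      field_simp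
      ring
    rw [h4] at h3
    nlinarith
  · intro i
    have h1 := sum_abs_row q (e i)
    rw [← Equiv.sum_comp e] at h1
    have h2 : ∑ j, |(Matrix.of fun i j => affT q (e i) (e j) / 2) i j| =
        (∑ j, |affT q (e i) (e j)|) / 2 := by
      rw [Finset.sum_div]
      refine Finset.sum_congr rfl fun j _ => ?_
      rw [Matrix.of_apply, abs_div, abs_two]
    rw [h2]
    linarith
  · intro j
    have h1 := sum_abs_col q (e j)
    rw [← Equiv.sum_comp e] at h1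
    have h2 : ∑ i, 1 * |(Matrix.of fun i j => affT q (e i) (e j) / 2) i j| =
        (∑ i, |affT q (e i) (e j)|) / 2 := by
      rw [Finset.sum_div]
      refine Finset.sum_congr rfl fun i _ => ?_
      rw [Matrix.of_apply, abs_div, abs_two, one_mul]
    rw [h2]
    linarith
  · intro g
    have h1 := sum_sq_le q (fun ℓ => g (e.symm ℓ))
    rw [← Equiv.sum_comp e] at h1
    have h3 : ∑ ℓ, g (e.symm ℓ) ^ 2 = ∑ j, g j ^ 2 := by
      rw [← Equiv.sum_comp e]
      refine Finset.sum_congr rfl fun j _ => ?_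
      rw [Equiv.symm_apply_apply]
    rw [h3] at h1
    have h2 : ∑ i, 1 * (act (Matrix.of fun i j => affT q (e i) (e j) / 2) g i) ^ 2 =
        (∑ i, (∑ ℓ, affT q (e i) ℓ * g (e.symm ℓ)) ^ 2) / 4 := by
      rw [Finset.sum_div]
      refine Finset.sum_congr rfl fun i _ => ?_
      have h5 : act (Matrix.of fun i j => affT q (e i) (e j) / 2) g i =
          (∑ ℓ, affT q (e i) ℓ * g (e.symm ℓ)) / 2 := by
        unfold act
        rw [← Equiv.sum_comp e, Finset.sum_div]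
        refine Finset.sum_congr rfl fun j _ => ?_
        rw [Matrix.of_apply, Equiv.symm_apply_apply, smul_eq_mul]
        ring
      rw [h5]
      ring
    rw [h2]
    have h6 : (0 : ℝ) ≤ ∑ j, g j ^ 2 := Finset.sum_nonneg fun j _ => sq_nonneg _
    have h7 : 1 / (q : ℝ) * ∑ j, g j ^ 2 ≤ ε ^ 2 * ∑ j, g j ^ 2 :=
      mul_le_mul_of_nonneg_right hqε h6
    have h8 : ∑ i, 1 * g i ^ 2 = ∑ j, g j ^ 2 :=
      Finset.sum_congr rfl fun j _ => one_mul _
    rw [h8]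
    have h9 : (0 : ℝ) ≤ ε ^ 2 * ∑ j, g j ^ 2 := by positivity
    linarith

end Pool.Agent.Helper25.NU
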