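import Pool.Agent.Helper25.NU.Aff
import Pool.Agent.Helper82.MK.Defs

/-!
# Project NU, block F5: failure of the one-step Markov criterion

Setting as in block F4.  Claim: there is `η > 0` such that for every `δ > 0` there are `n`, `w`,
symmetric Markov matrices `M`, `P` with `‖(1 - M) P‖ ≤ δ` on `L_2(w)`, and `f` with `‖f i‖ ≤ 1` and
`η ≤ ∑ w_i ‖((1 - M) P f)_i‖`.

Proof.  `η = 1/(8 c)`.  Given `δ`, choose a prime `q` with `1/q ≤ δ²`.  Let
`I = (ZMod q × ZMod q) ⊕ (ZMod q × ZMod q)` (points and lines), `n = 2 q²`, `Fin n ≃ I`, `w = 1/n`.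
`P (p, ℓ) = P (ℓ, p) = 1/q` if `p` is on `ℓ`, and all other entries are `0`; `M` has the entries
`1/q²` for two points and for two lines, and `0` otherwise.  Both are non-negative and symmetric, with
row sums `1` (each line has `q` points, each point is on `q` lines), and the weights are constant, so
`Wt w`, `Mk w M`, `Mk w P`.
`(1 - M) P` has the entries: `(p, ℓ)`: `P (p, ℓ) - ∑_{p'} (1/q²) P (p', ℓ) = affT p ℓ`; `(ℓ, p)`:
`affT p ℓ` as well; `(p, p')` and `(ℓ, ℓ')`: `0`.
So for `g = (g₁, g₂)` (points, lines), by `sum_sq_le` and `sum_sq_le'`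
`∑ ((1-M) P g)² = ∑_p (∑_ℓ affT g₂)² + ∑_ℓ (∑_p affT g₁)² ≤ (1/q) ∑ g² ≤ δ² ∑ g²`.
Take `f = (0, c⁻¹ f_q)`: `((1-M) P f)_p = c⁻¹ ∑_ℓ affT p ℓ • f_q ℓ` has norm `≥ 1/(4 c)`, so
`∑ w ‖..‖ ≥ (q²/n) (1/(4 c)) = 1/(8 c)`.
(It may be convenient to prove the statement first for an arbitrary finite index type, and then to
transfer it to `Fin n` along `Fintype.equivFin`.)
-/

namespace Pool.Agent.Helper25.NU

open Pool.Agent.Helper82.MK

section helper34

variable (q : ℕ) [Fact q.Prime]

/-- Incidence matrix, symmetrised, on points and lines. -/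
noncomputable def P034 : Matrix ((ZMod q × ZMod q) ⊕ (ZMod q × ZMod q))
    ((ZMod q × ZMod q) ⊕ (ZMod q × ZMod q)) ℝ := Matrix.of fun i j =>
  match i, j with
  | Sum.inl p, Sum.inr l => if p ∈ (aff q).line l then 1 / (q : ℝ) else 0
  | Sum.inr l, Sum.inl p => if p ∈ (aff q).line l then 1 / (q : ℝ) else 0
  | Sum.inl _, Sum.inl _ => 0
  | Sum.inr _, Sum.inr _ => 0

/-- The mean over points and over lines. -/
noncomputable def M034 : Matrix ((ZMod q × ZMod q) ⊕ (ZMod q × ZMod q))
    ((ZMod q × ZMod q) ⊕ (ZMod q × ZMod q)) ℝ := Matrix.of fun i j =>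
  match i, j with
  | Sum.inl _, Sum.inr _ => 0
  | Sum.inr _, Sum.inl _ => 0
  | Sum.inl _, Sum.inl _ => 1 / (q : ℝ) ^ 2
  | Sum.inr _, Sum.inr _ => 1 / (q : ℝ) ^ 2

/-- The product `(1 - M) P`. -/
noncomputable def A034 : Matrix ((ZMod q × ZMod q) ⊕ (ZMod q × ZMod q))
    ((ZMod q × ZMod q) ⊕ (ZMod q × ZMod q)) ℝ := Matrix.of fun i j =>
  match i, j with
  | Sum.inl p, Sum.inr l => affT q p l
  | Sum.inr l, Sum.inl p => affT q p l
  | Sum.inl _, Sum.inl _ => 0
  | Sum.inr _, Sum.inr _ => 0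

theorem q_pos34 : (0 : ℝ) < q := by exact_mod_cast (Fact.out : q.Prime).pos

theorem sum_line34 (l : ZMod q × ZMod q) :
    ∑ p : ZMod q × ZMod q, (if p ∈ (aff q).line l then 1 / (q : ℝ) else 0) = 1 := by
  have hq := q_pos34 q
  rw [← Finset.sum_filter, Finset.sum_const, Finset.filter_univ_mem, (aff q).card l, aff_k,
    nsmul_eq_mul]
  field_simp

theorem sum_pt34 (p : ZMod q × ZMod q) :
    ∑ l : ZMod q × ZMod q, (if p ∈ (aff q).line l then 1 / (q : ℝ) else 0) = 1 := by
  have hq := q_pos34 q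
  rw [← Finset.sum_filter, Finset.sum_const, card_through q p, nsmul_eq_mul]
  field_simp

theorem A034_eq : (1 - M034 q) * P034 q = A034 q := by
  have hq := q_pos34 q
  rw [sub_mul, one_mul]
  ext i j
  rw [Matrix.sub_apply, Matrix.mul_apply, Fintype.sum_sum_type]
  rcases i with p | l <;> rcases j with p' | l'
  · simp [P034, M034, A034]
  · simp only [P034, M034, A034, Matrix.of_apply, Finset.sum_const_zero, add_zero, mul_zero]
    rw [← Finset.mul_sum, sum_line34 q l', mul_one]
    rfl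
  · simp only [P034, M034, A034, Matrix.of_apply, Finset.sum_const_zero, zero_add, mul_zero]
    rw [← Finset.mul_sum, sum_pt34 q p', mul_one]
    rfl
  · simp [P034, M034, A034]

theorem act_sub34 {I : Type} [Fintype I] {n : ℕ} (e : I ≃ Fin n) (A : Matrix I I ℝ)
    {E : Type*} [AddCommGroup E] [Module ℝ E] (f : Fin n → E) (k : I) :
    act (A.submatrix e.symm e.symm) f (e k) = ∑ j, A k j • f (e j) := by
  unfold act
  rw [← Equiv.sum_comp e]
  simp

end helper34

theorem not_Markov {X : Type} [NormedAddCommGroup X] [NormedSpace ℝ X] {c : ℝ} (hc : 1 ≤ c)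
    (h : ∀ (q : ℕ) [Fact q.Prime], ∃ f : ZMod q × ZMod q → X, (∀ ℓ, ‖f ℓ‖ ≤ c) ∧
      ∀ p, 1 / 4 ≤ ‖∑ ℓ, affT q p ℓ • f ℓ‖) :
    ∃ η : ℝ, 0 < η ∧ ∀ δ : ℝ, 0 < δ →
      ∃ (n : ℕ) (w : Fin n → ℝ) (M P : Matrix (Fin n) (Fin n) ℝ), Wt w ∧ Mk w M ∧ Mk w P ∧
        (∀ g : Fin n → ℝ,
          ∑ i, w i * (act ((1 - M) * P) g i) ^ 2 ≤ δ ^ 2 * ∑ i, w i * (g i) ^ 2) ∧
        ∃ f : Fin n → X, (∀ i, ‖f i‖ ≤ 1) ∧ η ≤ ∑ i, w i * ‖act ((1 - M) * P) f i‖ := by
  have hc0 : 0 < c := by linarith
  refine ⟨1 / (8 * c), by positivity, fun δ hδ => ?_⟩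
  obtain ⟨q, hq1, hq⟩ := Nat.exists_infinite_primes (⌈1 / δ ^ 2⌉₊ + 1)
  have : Fact q.Prime := ⟨hq⟩
  have hqpos : (0 : ℝ) < q := q_pos34 q
  have hqd : 1 / (q : ℝ) ≤ δ ^ 2 := by
    have h1 : 1 / δ ^ 2 ≤ (q : ℝ) := by
      refine (Nat.le_ceil _).trans ?_
      exact_mod_cast (Nat.le_succ _).trans hq1
    rw [div_le_iff₀ (by positivity)] at h1
    rw [div_le_iff₀ hqpos]
    linarith
  obtain ⟨f0, hf0, hf1⟩ := h q
  have hcard : Fintype.card ((ZMod q × ZMod q) ⊕ (ZMod q × ZMod q)) = 2 * q ^ 2 := by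
    rw [Fintype.card_sum, Fintype.card_prod, ZMod.card]; ring
  have e : ((ZMod q × ZMod q) ⊕ (ZMod q × ZMod q)) ≃ Fin (2 * q ^ 2) :=
    Fintype.equivFinOfCardEq hcard
  have hn : (0 : ℝ) < ((2 * q ^ 2 : ℕ) : ℝ) := by push_cast; positivity
  have hprod : (1 - (M034 q).submatrix e.symm e.symm) * (P034 q).submatrix e.symm e.symm
      = (A034 q).submatrix e.symm e.symm := by
    have h1 : (1 : Matrix (Fin (2 * q ^ 2)) (Fin (2 * q ^ 2)) ℝ)
        - (M034 q).submatrix e.symm e.symm = (1 - M034 q).submatrix e.symm e.symm := by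
      rw [← Matrix.submatrix_one_equiv e.symm]
      rfl
    rw [h1, Matrix.submatrix_mul_equiv, A034_eq]
  refine ⟨2 * q ^ 2, fun _ => 1 / ((2 * q ^ 2 : ℕ) : ℝ), (M034 q).submatrix e.symm e.symm,
    (P034 q).submatrix e.symm e.symm, ⟨fun _ => by positivity, ?_⟩, ⟨?_, ?_, ?_⟩, ⟨?_, ?_, ?_⟩,
    ?_, ?_⟩
  · rw [Finset.sum_const, Finset.card_univ, Fintype.card_fin, nsmul_eq_mul]
    field_simp
  · intro i j
    rw [Matrix.submatrix_apply]
    rcases e.symm i with p | l <;> rcases e.symm j with p' | l' <;>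
      simp only [M034, Matrix.of_apply] <;> positivity
  · intro i
    rw [← Equiv.sum_comp e]
    simp only [Matrix.submatrix_apply, Equiv.symm_apply_apply]
    rw [Fintype.sum_sum_type]
    rcases e.symm i with p | l
    · simp only [M034, Matrix.of_apply, Finset.sum_const_zero, add_zero, Finset.sum_const,
        Finset.card_univ, Fintype.card_prod, ZMod.card, nsmul_eq_mul]
      push_cast
      field_simp
    · simp only [M034, Matrix.of_apply, Finset.sum_const_zero, zero_add, Finset.sum_const,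
        Finset.card_univ, Fintype.card_prod, ZMod.card, nsmul_eq_mul]
      push_cast
      field_simp
  · intro i j
    rw [Matrix.submatrix_apply, Matrix.submatrix_apply]
    rcases e.symm i with p | l <;> rcases e.symm j with p' | l' <;>
      simp only [M034, Matrix.of_apply]
  · intro i j
    rw [Matrix.submatrix_apply]
    rcases e.symm i with p | l <;> rcases e.symm j with p' | l' <;>
      simp only [P034, Matrix.of_apply] <;> (try split_ifs) <;> positivity
  · intro i
    rw [← Equiv.sum_comp e]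
    simp only [Matrix.submatrix_apply, Equiv.symm_apply_apply]
    rw [Fintype.sum_sum_type]
    rcases e.symm i with p | l
    · simp only [P034, Matrix.of_apply, Finset.sum_const_zero, zero_add]
      exact sum_pt34 q p
    · simp only [P034, Matrix.of_apply, Finset.sum_const_zero, add_zero]
      exact sum_line34 q l
  · intro i j
    rw [Matrix.submatrix_apply, Matrix.submatrix_apply]
    rcases e.symm i with p | l <;> rcases e.symm j with p' | l' <;>
      simp only [P034, Matrix.of_apply]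
  · intro g
    rw [hprod, ← Equiv.sum_comp e, ← Equiv.sum_comp e (fun i => _ * g i ^ 2)]
    simp only [act_sub34, smul_eq_mul]
    rw [← Finset.mul_sum, ← Finset.mul_sum, mul_left_comm]
    refine mul_le_mul_of_nonneg_left ?_ (by positivity)
    rw [Fintype.sum_sum_type, Fintype.sum_sum_type]
    simp only [Fintype.sum_sum_type, A034, Matrix.of_apply, zero_mul, Finset.sum_const_zero,
      zero_add, add_zero]
    have h1 := sum_sq_le q (fun l => g (e (Sum.inr l)))
    have h2 := sum_sq_le' q (fun p => g (e (Sum.inl p)))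
    have h3 : 0 ≤ ∑ l : ZMod q × ZMod q, g (e (Sum.inr l)) ^ 2 :=
      Finset.sum_nonneg fun _ _ => sq_nonneg _
    have h4 : 0 ≤ ∑ p : ZMod q × ZMod q, g (e (Sum.inl p)) ^ 2 :=
      Finset.sum_nonneg fun _ _ => sq_nonneg _
    have h5 := mul_le_mul_of_nonneg_right hqd h3
    have h6 := mul_le_mul_of_nonneg_right hqd h4
    rw [mul_add]
    linarith
  · refine ⟨fun i => match e.symm i with
      | Sum.inl _ => 0
      | Sum.inr l => c⁻¹ • f0 l, ?_, ?_⟩
    · intro i
      dsimp only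
      rcases e.symm i with p | l
      · simp
      · dsimp only
        rw [norm_smul, Real.norm_eq_abs, abs_of_pos (by positivity), inv_mul_le_iff₀ hc0, mul_one]
        exact hf0 l
    · rw [hprod, ← Equiv.sum_comp e]
      simp only [act_sub34, Equiv.symm_apply_apply]
      rw [← Finset.mul_sum, Fintype.sum_sum_type]
      have hA : ∀ p : ZMod q × ZMod q, 1 / (4 * c) ≤
          ‖∑ j : (ZMod q × ZMod q) ⊕ (ZMod q × ZMod q), A034 q (Sum.inl p) j •
            (match j with
              | Sum.inl _ => (0 : X)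
              | Sum.inr l => c⁻¹ • f0 l)‖ := by
        intro p
        rw [Fintype.sum_sum_type]
        simp only [A034, Matrix.of_apply, zero_smul, Finset.sum_const_zero, zero_add]
        have : ∑ l : ZMod q × ZMod q, affT q p l • c⁻¹ • f0 l
            = c⁻¹ • ∑ l : ZMod q × ZMod q, affT q p l • f0 l := by
          rw [Finset.smul_sum]
          exact Finset.sum_congr rfl fun l _ => smul_comm _ _ _
        rw [this, norm_smul, Real.norm_eq_abs, abs_of_pos (by positivity)]
        have h1 := mul_le_mul_of_nonneg_left (hf1 p) (inv_nonneg.mpr hc0.le)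
        calc 1 / (4 * c) = c⁻¹ * (1 / 4) := by field_simp
          _ ≤ _ := h1
      have hB := Finset.sum_le_sum fun p (_ : p ∈ (Finset.univ : Finset (ZMod q × ZMod q))) => hA p
      rw [Finset.sum_const, Finset.card_univ, Fintype.card_prod, ZMod.card, nsmul_eq_mul] at hB
      have hC : 0 ≤ ∑ l : ZMod q × ZMod q,
          ‖∑ j : (ZMod q × ZMod q) ⊕ (ZMod q × ZMod q), A034 q (Sum.inr l) j •
            (match j with
              | Sum.inl _ => (0 : X)
              | Sum.inr l => c⁻¹ • f0 l)‖ := Finset.sum_nonneg fun _ _ => norm_nonneg _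
      have hD : 1 / (8 * c) = 1 / ((2 * q ^ 2 : ℕ) : ℝ) * (((q * q : ℕ) : ℝ) * (1 / (4 * c))) := by
        push_cast
        field_simp
        ring
      rw [hD]
      refine mul_le_mul_of_nonneg_left ?_ (by positivity)
      linarith

end Pool.Agent.Helper25.NU
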