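import Pool.Agent.Helper25.NU.Abs

/-!
# Project NU: the abstract theorem for a single norm

If every dyadic martingale with differences of norm at most one, and at most `m i` non-zero
differences on each path, satisfies `E ‖M‖ ≤ m i / (i + 1)`, for all `i`, then the norm is equivalent to a
uniformly smooth one, with constants depending only on `m`.
-/

namespace Pool.Agent.Helper25.NU

/-- The abstract theorem for the couple `(a, a)`. -/
theorem abstract_one (m : ℕ → ℕ) (hm : ∀ i, 0 < m i) :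
    ∃ (c₁ : ℝ) (C' : ℝ → ℝ), 1 ≤ c₁ ∧ (∀ ε, 0 < ε → 0 ≤ C' ε) ∧
      ∀ (V : Type) [AddCommGroup V] [Module ℝ V] (a : Seminorm ℝ V),
        (∀ i : ℕ, ∀ T : Tree V, T.All (fun s => (∀ v ∈ s, a v ≤ 1) ∧ nz s ≤ m i) →
          T.E (fun s => a s.sum) ≤ 1 / ((i : ℝ) + 1) * m i) →
        ∃ p : Seminorm ℝ V, US C' p ∧ (∀ z, p z ^ 2 ≤ 2 * a z ^ 2) ∧
          (∀ z, a z ^ 2 ≤ 2 * c₁ * p z ^ 2) := by
  obtain ⟨c₁, C', h1, h2, h3⟩ := abstract_thm m hm
  refine ⟨c₁, C', h1, h2, ?_⟩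
  intro V _ _ a h
  have hBI : ∀ i : ℕ, BI a a (1 / ((i : ℝ) + 1)) (m i) := by
    intro i t ht T hT
    refine (Tree.E_mono (Tree.All_of_forall T fun s => K_le_a a a ht.le s.sum)).trans ?_
    exact h i T (Tree.All_mono hT fun s hs =>
      ⟨fun v hv => (le_max_left _ _).trans (hs.1 v hv), hs.2⟩)
  obtain ⟨p, hp1, hp2, hp3⟩ := h3 V a a hBI (fun z => le_rfl)
  exact ⟨p, hp1, fun z => (hp2 z).trans (le_of_eq (by ring)), hp3⟩

end Pool.Agent.Helper25.NU
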