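import Mathlib

/-!
# Project NU, block A7: weighted square sums over the integers

For `f : ℤ → ℝ` consider `∑_i 2^{-i} f_i²`, `i ∈ ℤ`.  (Equivalently the ℓ²-norm of `√2^{-i} f_i`.)

* `wsum_add_le` (Minkowski): `√∑ 2^{-i} (f_i + g_i)² ≤ √∑ 2^{-i} f_i² + √∑ 2^{-i} g_i²` for
  non-negative `f, g` (from `Real.Lp_add_le_tsum_of_nonneg`, or from finite sums, or from the
  Cauchy-Schwarz inequality below).
* `wsum_mul_le` (Cauchy-Schwarz): `∑ 2^{-i} f_i g_i ≤ √∑ 2^{-i} f_i² √∑ 2^{-i} g_i²`, and the left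
  hand side is summable (`Real.inner_le_Lp_mul_Lq_tsum_of_nonneg` or `2 f g ≤ f² + g²` and finite
  sums).
* `wsum_shift`: `∑ 2^{-i} f_{i+w}² = 2^w ∑ 2^{-j} f_j²` for `w ∈ ℤ`
  (`Equiv.tsum_eq (Equiv.addRight w)`).
* `wsummable_of_le`: if `0 ≤ f_i ≤ α` and `f_i ≤ 2^i β` for all `i`, then `2^{-i} f_i²` is summable
  with sum at most `2 α² + β²`: the terms with `i ≥ 0` are at most `2^{-i} α²`, the terms with
  `i = -n`, `n ≥ 1`, at most `2^{n} 4^{-n} β² = 2^{-n} β²`.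
-/

namespace Pool.Agent.Helper25.NU

/-- Summability of `2^{-i} f_i²`. -/
def WS (f : ℤ → ℝ) : Prop := Summable fun i : ℤ => (2 : ℝ) ^ (-i) * f i ^ 2

/-- The sum of `2^{-i} f_i²`. -/
noncomputable def wsum (f : ℤ → ℝ) : ℝ := ∑' i : ℤ, (2 : ℝ) ^ (-i) * f i ^ 2

private theorem wsum_nonneg68 (f : ℤ → ℝ) : 0 ≤ wsum f :=
  tsum_nonneg fun i => by positivity

private theorem summable_mul68 {f g : ℤ → ℝ} (hf : WS f) (hg : WS g) :
    Summable (fun i : ℤ => (2 : ℝ) ^ (-i) * (f i * g i)) := by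
  refine Summable.of_norm_bounded (Summable.add hf hg) (fun i => ?_)
  have h0 : (0 : ℝ) < (2 : ℝ) ^ (-i) := by positivity
  have h1 : (0 : ℝ) ≤ (2 : ℝ) ^ (-i) * (f i - g i) ^ 2 := by positivity
  have h2 : (0 : ℝ) ≤ (2 : ℝ) ^ (-i) * (f i + g i) ^ 2 := by positivity
  rw [Real.norm_eq_abs, abs_le]
  constructor <;> nlinarith [h1, h2]

private theorem cs68 {f g : ℤ → ℝ} (hf : WS f) (hg : WS g) :
    ∑' i : ℤ, (2 : ℝ) ^ (-i) * (f i * g i) ≤ √(wsum f) * √(wsum g) := by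
  have key : ∀ x : ℝ, 0 ≤ wsum f * (x * x) + (2 * ∑' i : ℤ, (2 : ℝ) ^ (-i) * (f i * g i)) * x +
      wsum g := by
    intro x
    have h3 := ((hf.hasSum.mul_left (x * x)).add ((summable_mul68 hf hg).hasSum.mul_left (2 * x))).add
      (Summable.hasSum hg)
    have h4 := HasSum.nonneg (fun i => ?_) h3
    · have h5 : x * x * (∑' i : ℤ, (2 : ℝ) ^ (-i) * f i ^ 2) = wsum f * (x * x) := by
        rw [wsum]; ring
      rw [h5] at h4
      have h6 : wsum g = ∑' i : ℤ, (2 : ℝ) ^ (-i) * g i ^ 2 := rfl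
      rw [h6]
      linarith
    · have h5 : (0 : ℝ) ≤ (2 : ℝ) ^ (-i) * (x * f i + g i) ^ 2 := by positivity
      nlinarith [h5]
  have h1 := discrim_le_zero key
  rw [discrim] at h1
  rw [← Real.sqrt_mul (wsum_nonneg68 f)]
  refine Real.le_sqrt_of_sq_le ?_
  nlinarith [h1]

private theorem congr68 {ι : Type*} {f g : ι → ℝ} {a : ℝ} (h : HasSum f a)
    (e : ∀ i, g i = f i) : HasSum g a := by
  have : g = f := funext e
  rw [this]
  exact h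

private theorem shift68 (f : ℤ → ℝ) (w i : ℤ) :
    (2 : ℝ) ^ w * (((fun i : ℤ => (2 : ℝ) ^ (-i) * f i ^ 2) ∘ (Equiv.addRight w)) i) =
      (2 : ℝ) ^ (-i) * f (i + w) ^ 2 := by
  have h1 : (2 : ℝ) ^ w * (2 : ℝ) ^ (-(i + w)) = (2 : ℝ) ^ (-i) := by
    rw [← zpow_add₀ two_ne_zero]
    congr 1
    ring
  simp only [Function.comp_apply, Equiv.coe_addRight]
  rw [← mul_assoc, h1]

/-- the majorant -/
private noncomputable def HH68 (α β : ℝ) (i : ℤ) : ℝ :=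
  if 0 ≤ i then (2 : ℝ) ^ (-i) * α ^ 2 else (2 : ℝ) ^ i * β ^ 2

private theorem hasSum_HH68 (α β : ℝ) : HasSum (HH68 α β) (2 * α ^ 2 + β ^ 2) := by
  have e : ∀ n : ℕ, (2 : ℝ) ^ (-(n : ℤ)) = (1 / 2) ^ n := by
    intro n
    rw [zpow_neg, zpow_natCast, one_div, inv_pow]
  refine HasSum.of_nat_of_neg_add_one ?_ ?_
  · have h1 := hasSum_geometric_two.mul_right (α ^ 2)
    refine congr68 h1 fun n => ?_
    rw [HH68, if_pos (Int.natCast_nonneg n), e]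
  · have h1 := hasSum_geometric_two.mul_right (β ^ 2 / 2)
    have h2 : (2 : ℝ) * (β ^ 2 / 2) = β ^ 2 := by ring
    rw [h2] at h1
    refine congr68 h1 fun n => ?_
    rw [HH68, if_neg (by omega)]
    have h3 : (-((n : ℤ) + 1)) = -((n + 1 : ℕ) : ℤ) := by push_cast; ring
    rw [h3, e, pow_succ]
    ring

private theorem le_HH68 {f : ℤ → ℝ} {α β : ℝ} (h0 : ∀ i, 0 ≤ f i) (hα : ∀ i, f i ≤ α)
    (hβ : ∀ i : ℤ, f i ≤ 2 ^ i * β) (i : ℤ) : (2 : ℝ) ^ (-i) * f i ^ 2 ≤ HH68 α β i := by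
  rw [HH68]
  split_ifs with h
  · exact mul_le_mul_of_nonneg_left (pow_le_pow_left₀ (h0 i) (hα i) 2) (by positivity)
  · have h1 : (2 : ℝ) ^ (-i) * f i ^ 2 ≤ (2 : ℝ) ^ (-i) * (2 ^ i * β) ^ 2 :=
      mul_le_mul_of_nonneg_left (pow_le_pow_left₀ (h0 i) (hβ i) 2) (by positivity)
    have h2 : (2 : ℝ) ^ (-i) * (2 ^ i * β) ^ 2 = 2 ^ i * β ^ 2 := by
      have h3 : (2 : ℝ) ^ (-i) * 2 ^ i = 1 := by
        rw [← zpow_add₀ two_ne_zero, neg_add_cancel, zpow_zero]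
      calc (2 : ℝ) ^ (-i) * (2 ^ i * β) ^ 2 = ((2 : ℝ) ^ (-i) * 2 ^ i) * (2 ^ i * β ^ 2) := by ring
        _ = _ := by rw [h3, one_mul]
    rw [h2] at h1
    exact h1

theorem wsum_nonneg (f : ℤ → ℝ) : 0 ≤ wsum f := by
  exact tsum_nonneg fun i => by positivity

theorem WS.mono {f g : ℤ → ℝ} (hg : WS g) (h0 : ∀ i, 0 ≤ f i) (h : ∀ i, f i ≤ g i) : WS f := by
  refine Summable.of_nonneg_of_le (fun i => by positivity) (fun i => ?_) hg
  exact mul_le_mul_of_nonneg_left (pow_le_pow_left₀ (h0 i) (h i) 2) (by positivity)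

theorem wsum_mono {f g : ℤ → ℝ} (hg : WS g) (h0 : ∀ i, 0 ≤ f i) (h : ∀ i, f i ≤ g i) :
    wsum f ≤ wsum g := by
  refine Summable.tsum_le_tsum (fun i => ?_) (WS.mono hg h0 h) hg
  exact mul_le_mul_of_nonneg_left (pow_le_pow_left₀ (h0 i) (h i) 2) (by positivity)

theorem WS.const_mul {f : ℤ → ℝ} (hf : WS f) (c : ℝ) : WS (fun i => c * f i) := by
  refine (Summable.mul_left (c ^ 2) hf).congr (fun i => ?_)
  ring

theorem wsum_const_mul (f : ℤ → ℝ) (c : ℝ) : wsum (fun i => c * f i) = c ^ 2 * wsum f := by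
  rw [wsum, wsum, ← tsum_mul_left]
  refine tsum_congr (fun i => ?_)
  ring

theorem WS.add {f g : ℤ → ℝ} (hf : WS f) (hg : WS g) : WS (fun i => f i + g i) := by
  refine Summable.of_nonneg_of_le (fun i => by positivity) (fun i => ?_)
    (Summable.mul_left 2 (Summable.add hf hg))
  have h1 : (0 : ℝ) ≤ (2 : ℝ) ^ (-i) * (f i - g i) ^ 2 := by positivity
  nlinarith [h1]

theorem wsum_add_le {f g : ℤ → ℝ} (hf : WS f) (hg : WS g) (hf0 : ∀ i, 0 ≤ f i)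
    (hg0 : ∀ i, 0 ≤ g i) : √(wsum (fun i => f i + g i)) ≤ √(wsum f) + √(wsum g) := by
  have h1 := cs68 hf hg
  have h2 : wsum (fun i => f i + g i) = wsum f + 2 * ∑' i : ℤ, (2 : ℝ) ^ (-i) * (f i * g i) +
      wsum g := by
    have h3 := ((Summable.hasSum hf).add ((summable_mul68 hf hg).hasSum.mul_left 2)).add
      (Summable.hasSum hg)
    refine HasSum.tsum_eq (congr68 h3 fun i => ?_)
    ring
  rw [Real.sqrt_le_iff]
  refine ⟨by positivity, ?_⟩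
  rw [h2, add_sq, Real.sq_sqrt (wsum_nonneg68 f), Real.sq_sqrt (wsum_nonneg68 g)]
  nlinarith [h1]

theorem WS.summable_mul {f g : ℤ → ℝ} (hf : WS f) (hg : WS g) :
    Summable (fun i : ℤ => (2 : ℝ) ^ (-i) * (f i * g i)) := by
  exact summable_mul68 hf hg

theorem wsum_mul_le {f g : ℤ → ℝ} (hf : WS f) (hg : WS g) :
    ∑' i : ℤ, (2 : ℝ) ^ (-i) * (f i * g i) ≤ √(wsum f) * √(wsum g) := by
  exact cs68 hf hg

theorem WS.shift {f : ℤ → ℝ} (hf : WS f) (w : ℤ) : WS (fun i => f (i + w)) := by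
  have h1 : Summable ((fun i : ℤ => (2 : ℝ) ^ (-i) * f i ^ 2) ∘ (Equiv.addRight w)) :=
    (Equiv.addRight w).summable_iff.2 hf
  refine (h1.mul_left ((2 : ℝ) ^ w)).congr (fun i => ?_)
  exact shift68 f w i

theorem wsum_shift (f : ℤ → ℝ) (w : ℤ) : wsum (fun i => f (i + w)) = 2 ^ w * wsum f := by
  have h1 := Equiv.tsum_eq (Equiv.addRight w) (fun i : ℤ => (2 : ℝ) ^ (-i) * f i ^ 2)
  rw [wsum, wsum, ← h1, ← tsum_mul_left]
  refine tsum_congr (fun i => ?_)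
  exact (shift68 f w i).symm

theorem WS.of_le {f : ℤ → ℝ} {α β : ℝ} (h0 : ∀ i, 0 ≤ f i) (hα : ∀ i, f i ≤ α)
    (hβ : ∀ i : ℤ, f i ≤ 2 ^ i * β) : WS f := by
  exact Summable.of_nonneg_of_le (fun i => by positivity) (le_HH68 h0 hα hβ)
    (hasSum_HH68 α β).summable

theorem wsum_le {f : ℤ → ℝ} {α β : ℝ} (h0 : ∀ i, 0 ≤ f i) (hα : ∀ i, f i ≤ α)
    (hβ : ∀ i : ℤ, f i ≤ 2 ^ i * β) : wsum f ≤ 2 * α ^ 2 + β ^ 2 := by
  have h1 := Summable.tsum_le_tsum (le_HH68 h0 hα hβ)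
    (Summable.of_nonneg_of_le (fun i => by positivity) (le_HH68 h0 hα hβ)
      (hasSum_HH68 α β).summable) (hasSum_HH68 α β).summable
  rw [(hasSum_HH68 α β).tsum_eq] at h1
  exact h1

/-- One term is at most the sum. -/
theorem term_le_wsum {f : ℤ → ℝ} (hf : WS f) (i : ℤ) : (2 : ℝ) ^ (-i) * f i ^ 2 ≤ wsum f := by
  exact Summable.le_tsum hf i (fun j _ => by positivity)

end Pool.Agent.Helper25.NU
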