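import Pool.Agent.Helper25.NU.Tree
import Pool.Agent.Helper25.NU.Count2

/-!
# Project NU, block S1: the decomposition for small `t` (facts about single paths)

Paths are lists `s` of labels `x : P → ℝ`.  The state is the function `V : P → ℝ` of the accumulated
absolute values: `updV V x p = V p + |x p|`.  With a threshold `c > 0` the sum of the path is split,
coordinatewise, into
* `mA c V s p`: the sum of the `x p` over the steps after which the accumulated value at `p` is
  still `< c`;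
* `mB c V s p`: the sum of the `x p` over the other steps.
For a line `ℓ` and a level `d > 0`, `Sl G c d ℓ V s` is the sum of the `A (a-part of x) ℓ` over the
steps after which `d ≤ ∑_{p ∈ ℓ} min (V p) c` (the line is born).

Facts (all by induction on `s`, generalizing `V`):

* `sum_eq`: `s.sum p = mA + mB`.
* `mB_eq_zero`: if `V p + ∑_j |s_j p| < c` then `mB c V s p = 0` (all the accumulated values at `p`
  are at most the final one).
* `mB_l1`: if all the labels have `n1 v ≤ 1`, `nz s ≤ m` and `c = η m` with `η, m > 0`, then for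
  `V = 0`: `∑_p |mB p| ≤ √(1/η) √(∑_p mB p ²)`.  Proof: the set `H` of the `p` with
  `c ≤ ∑_j |s_j p|` has `|H| c ≤ ∑_p ∑_j |s_j p| = ∑_j n1 (s_j) ≤ nz s ≤ m` (`sum_map_le_nz`), so
  `|H| ≤ 1/η`; `mB` vanishes outside `H`; Cauchy-Schwarz.
* `A_mA_le`: `|G.A (mA c 0 s) ℓ| ≤ d + |Sl G c d ℓ 0 s|` for `d > 0`, `c > 0`.
  Proof.  (1) If `d ≤ A (min V c) ℓ` (born at the state `V`), then this holds for all later states
  (they are larger), so `Sl G c d ℓ V s = G.A (mA c V s) ℓ` (induction on `s`).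
  (2) If `V ≥ 0`, `A (min V c) ℓ < d` and `z : ℝ` satisfies `|z| ≤ A (min V c) ℓ`, then
  `|z + G.A (mA c V s) ℓ| ≤ d + |Sl G c d ℓ V s|`.  Induction on `s`, generalizing `V`, `z`.
  For `s = []` clear.  For `x :: s`, let `V' = updV V x`, and `a = G.A (fun p => if V' p < c then
  x p else 0) ℓ`.  One has `|z + a| ≤ A (min V c) ℓ + ∑_{p ∈ ℓ, V' p < c} |x p| ≤ A (min V' c) ℓ`,
  because `min (V p) c + |x p| = V' p = min (V' p) c` if `V' p < c`, and
  `min (V p) c ≤ min (V' p) c` otherwise.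
  If `ℓ` is not born at `V'`, the step contributes `0` to `Sl` and the induction hypothesis for
  `V'`, `z + a` applies.  If it is born at `V'`, then by (1) (for the rest of the path)
  `Sl G c d ℓ V (x :: s) = a + G.A (mA c V' s) ℓ = G.A (mA c V (x :: s)) ℓ`, and
  `|z + Sl| ≤ |z| + |Sl| ≤ d + |Sl|`.
  Take `V = 0`, `z = 0`.
* `sum_SlSq_le`: with `c = δ²/8 * m`, `d = δ * m`, labels with `n1 v ≤ 1` and `nz s ≤ m`:
  `∑_ℓ R updV (SlStep ℓ)² 0 s ≤ (2/δ) m`.
  Proof.  One proves by induction on `s`: if `0 ≤ V`, `∑_p V p + nz s ≤ m` then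
  `∑_ℓ R updV (SlStep ℓ)² V s ≤ (2/δ) nz s`.  At a step with label `x = 0` all the terms vanish
  and the state does not change; if `x ≠ 0` then `∑_p V' p ≤ ∑_p V p + 1`, so the invariant passes
  on, and the terms of the step are `≤ 1` each (`|A y ℓ| ≤ n1 y ≤ n1 x ≤ 1` by
  `Inc.abs_A_le`) and vanish unless `ℓ ∈ B := {ℓ : δ m ≤ A (min V' c) ℓ}`; by `Inc.count2`
  (for `w = min V' c`) `|B| ≤ 2/δ`.
* `sum_mBSq_le`: `∑_p R updV (mBStep p)² 0 s ≤ m` for labels with `n1 v ≤ 1`, `nz s ≤ m`: at each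
  step `∑_p |x p|² ≤ (∑_p |x p|)² ≤ 1`, and `= 0` for zero labels.
-/

namespace Pool.Agent.Helper25.NU

open Finset

variable {P L : Type} [Fintype P] [Fintype L] [DecidableEq P] [DecidableEq L]

/-- The state: accumulated absolute values. -/
def updV {P : Type} (V x : P → ℝ) : P → ℝ := fun p => V p + |x p|

/-- One step of `mA`. -/
noncomputable def mAStep {P : Type} (c : ℝ) (p : P) (V x : P → ℝ) : ℝ :=
  if V p + |x p| < c then x p else 0

/-- One step of `mB`. -/
noncomputable def mBStep {P : Type} (c : ℝ) (p : P) (V x : P → ℝ) : ℝ :=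
  if V p + |x p| < c then 0 else x p

noncomputable def mA {P : Type} (c : ℝ) (V : P → ℝ) (s : List (P → ℝ)) : P → ℝ :=
  fun p => R updV (mAStep c p) V s

noncomputable def mB {P : Type} (c : ℝ) (V : P → ℝ) (s : List (P → ℝ)) : P → ℝ :=
  fun p => R updV (mBStep c p) V s

/-- One step of `Sl`. -/
noncomputable def SlStep (G : Inc P L) (c d : ℝ) (ℓ : L) (V x : P → ℝ) : ℝ :=
  if d ≤ G.A (fun p => min (V p + |x p|) c) ℓ then G.A (fun p => mAStep c p V x) ℓ else 0

noncomputable def Sl (G : Inc P L) (c d : ℝ) (ℓ : L) (V : P → ℝ) (s : List (P → ℝ)) : ℝ :=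
  R updV (SlStep G c d ℓ) V s

theorem mA_cons_h30 {P : Type} (c : ℝ) (V x : P → ℝ) (s : List (P → ℝ)) (p : P) :
    mA c V (x :: s) p = mAStep c p V x + mA c (updV V x) s p := rfl

theorem mB_cons_h30 {P : Type} (c : ℝ) (V x : P → ℝ) (s : List (P → ℝ)) (p : P) :
    mB c V (x :: s) p = mBStep c p V x + mB c (updV V x) s p := rfl

theorem Sl_cons_h30 (G : Inc P L) (c d : ℝ) (ℓ : L) (V x : P → ℝ) (s : List (P → ℝ)) :
    Sl G c d ℓ V (x :: s) = SlStep G c d ℓ V x + Sl G c d ℓ (updV V x) s := rfl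

theorem sum_eq {P : Type} (c : ℝ) (V : P → ℝ) (s : List (P → ℝ)) (p : P) :
    s.sum p = mA c V s p + mB c V s p := by
  induction s generalizing V with
  | nil => simp [mA, mB, R]
  | cons x s ih =>
    rw [List.sum_cons, Pi.add_apply, mA_cons_h30, mB_cons_h30, ih (updV V x)]
    have h : x p = mAStep c p V x + mBStep c p V x := by
      unfold mAStep mBStep
      split_ifs <;> simp
    linarith

theorem list_sum_abs_nonneg_h30 {P : Type} (s : List (P → ℝ)) (p : P) :
    0 ≤ (s.map fun v => |v p|).sum := by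
  induction s with
  | nil => simp
  | cons x s ih =>
    rw [List.map_cons, List.sum_cons]
    exact add_nonneg (abs_nonneg _) ih

theorem mB_eq_zero_h30 {P : Type} {c : ℝ} {V : P → ℝ} {s : List (P → ℝ)} {p : P}
    (h : V p + (s.map fun v => |v p|).sum < c) : mB c V s p = 0 := by
  induction s generalizing V with
  | nil => rfl
  | cons x s ih =>
    rw [List.map_cons, List.sum_cons] at h
    have h0 := list_sum_abs_nonneg_h30 s p
    rw [mB_cons_h30, ih (V := updV V x) (by unfold updV; linarith)]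
    unfold mBStep
    rw [if_pos (by linarith), add_zero]

theorem sum_swap_h30 (s : List (P → ℝ)) :
    ∑ p, (s.map fun v => |v p|).sum = (s.map n1).sum := by
  induction s with
  | nil => simp
  | cons x s ih =>
    simp only [List.map_cons, List.sum_cons]
    rw [Finset.sum_add_distrib, ih]
    rfl

theorem n1_zero_h30 : n1 (0 : P → ℝ) = 0 := by simp [n1]

theorem mB_l1 {m : ℕ} (hm : 0 < m) {η : ℝ} (hη : 0 < η) {s : List (P → ℝ)}
    (h1 : ∀ v ∈ s, n1 v ≤ 1) (hs : nz s ≤ m) :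
    ∑ p, |mB (η * m) 0 s p| ≤ √(1 / η) * √(∑ p, mB (η * m) 0 s p ^ 2) := by
  classical
  have hm' : (0 : ℝ) < m := Nat.cast_pos.mpr hm
  set H : Finset P := Finset.univ.filter fun p => η * m ≤ (s.map fun v => |v p|).sum with hH
  have hout : ∀ p, p ∉ H → mB (η * m) 0 s p = 0 := by
    intro p hp
    refine mB_eq_zero_h30 ?_
    rw [Pi.zero_apply, zero_add]
    by_contra hcon
    exact hp (Finset.mem_filter.mpr ⟨Finset.mem_univ _, not_lt.mp hcon⟩)
  have hcard : (H.card : ℝ) ≤ 1 / η := by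
    have h2 : (H.card : ℝ) * (η * m) ≤ m := by
      calc (H.card : ℝ) * (η * m) = ∑ _p ∈ H, η * m := by
            rw [Finset.sum_const, nsmul_eq_mul]
        _ ≤ ∑ p ∈ H, (s.map fun v => |v p|).sum :=
            Finset.sum_le_sum fun p hp => (Finset.mem_filter.mp hp).2
        _ ≤ ∑ p, (s.map fun v => |v p|).sum :=
            Finset.sum_le_univ_sum_of_nonneg fun p => list_sum_abs_nonneg_h30 s p
        _ = (s.map n1).sum := sum_swap_h30 s
        _ ≤ 1 * nz s := sum_map_le_nz n1_zero_h30 h1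
        _ ≤ m := by rw [one_mul]; exact hs
    rw [le_div_iff₀ hη]
    have h3 : (H.card : ℝ) * η * m ≤ 1 * m := by rw [one_mul, mul_assoc]; exact h2
    exact le_of_mul_le_mul_right h3 hm'
  have e1 : ∑ p, |mB (η * m) 0 s p| = ∑ p ∈ H, |mB (η * m) 0 s p| := by
    symm
    refine Finset.sum_subset (Finset.subset_univ H) fun p _ hp => ?_
    rw [hout p hp, abs_zero]
  have e2 : ∑ p ∈ H, mB (η * m) 0 s p ^ 2 ≤ ∑ p, mB (η * m) 0 s p ^ 2 :=
    Finset.sum_le_univ_sum_of_nonneg fun p => sq_nonneg _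
  have e3 : (∑ p ∈ H, |mB (η * m) 0 s p|) ^ 2 ≤ (1 / η) * ∑ p, mB (η * m) 0 s p ^ 2 := by
    refine (sq_sum_le_card_mul_sum_sq (s := H) (f := fun p => |mB (η * m) 0 s p|)).trans ?_
    simp only [sq_abs]
    exact mul_le_mul hcard e2 (Finset.sum_nonneg fun p _ => sq_nonneg _) (by positivity)
  rw [e1, ← Real.sqrt_mul (by positivity)]
  exact Real.le_sqrt_of_sq_le e3

theorem A_min_mono_h30 (G : Inc P L) (c : ℝ) (ℓ : L) (V x : P → ℝ) :
    G.A (fun p => min (V p) c) ℓ ≤ G.A (fun p => min (V p + |x p|) c) ℓ := by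
  unfold Inc.A
  refine Finset.sum_le_sum fun p _ => min_le_min_right _ ?_
  have := abs_nonneg (x p)
  linarith

theorem A_mA_cons_h30 (G : Inc P L) (c : ℝ) (ℓ : L) (V x : P → ℝ) (s : List (P → ℝ)) :
    G.A (mA c V (x :: s)) ℓ = G.A (fun p => mAStep c p V x) ℓ + G.A (mA c (updV V x) s) ℓ := by
  unfold Inc.A
  rw [← Finset.sum_add_distrib]
  rfl

theorem Sl_born_h30 (G : Inc P L) {c d : ℝ} (ℓ : L) (s : List (P → ℝ)) {V : P → ℝ}
    (h : d ≤ G.A (fun p => min (V p) c) ℓ) : Sl G c d ℓ V s = G.A (mA c V s) ℓ := by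
  induction s generalizing V with
  | nil =>
    have : mA c V [] = fun _ => 0 := rfl
    rw [this]
    simp [Sl, R, Inc.A]
  | cons x s ih =>
    have h2 : d ≤ G.A (fun p => min (V p + |x p|) c) ℓ := h.trans (A_min_mono_h30 G c ℓ V x)
    rw [Sl_cons_h30, A_mA_cons_h30, ih (V := updV V x) h2, SlStep, if_pos h2]

theorem A_mA_aux_h30 (G : Inc P L) {c d : ℝ} (hc : 0 < c) (ℓ : L) (s : List (P → ℝ))
    {V : P → ℝ} {z : ℝ} (hV : ∀ p, 0 ≤ V p) (hb : G.A (fun p => min (V p) c) ℓ < d)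
    (hz : |z| ≤ G.A (fun p => min (V p) c) ℓ) :
    |z + G.A (mA c V s) ℓ| ≤ d + |Sl G c d ℓ V s| := by
  induction s generalizing V z with
  | nil =>
    have h1 : mA c V [] = fun _ => 0 := rfl
    have h2 : Sl G c d ℓ V [] = 0 := rfl
    have h3 : G.A (fun _ => (0 : ℝ)) ℓ = 0 := by simp [Inc.A]
    rw [h1, h2, h3, add_zero, abs_zero, add_zero]
    linarith
  | cons x s ih =>
    have hV' : ∀ p, 0 ≤ updV V x p := fun p => add_nonneg (hV p) (abs_nonneg _)
    have hstep : |z + G.A (fun p => mAStep c p V x) ℓ| ≤ G.A (fun p => min (updV V x p) c) ℓ := by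
      have h1 : |G.A (fun p => mAStep c p V x) ℓ| ≤ ∑ p ∈ G.line ℓ, |mAStep c p V x| :=
        Finset.abs_sum_le_sum_abs _ _
      have h2 : G.A (fun p => min (V p) c) ℓ + ∑ p ∈ G.line ℓ, |mAStep c p V x| ≤
          G.A (fun p => min (updV V x p) c) ℓ := by
        unfold Inc.A
        rw [← Finset.sum_add_distrib]
        refine Finset.sum_le_sum fun p _ => ?_
        have hx := abs_nonneg (x p)
        unfold mAStep updV
        split_ifs with h3
        · rw [min_eq_left (by linarith), min_eq_left (by linarith)]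
        · rw [abs_zero, add_zero]
          exact min_le_min_right _ (by linarith)
      have h3 := abs_add_le z (G.A (fun p => mAStep c p V x) ℓ)
      linarith
    rw [A_mA_cons_h30, Sl_cons_h30]
    by_cases hborn : d ≤ G.A (fun p => min (V p + |x p|) c) ℓ
    · have h4 : Sl G c d ℓ (updV V x) s = G.A (mA c (updV V x) s) ℓ :=
        Sl_born_h30 G ℓ s hborn
      rw [SlStep, if_pos hborn, h4]
      refine (abs_add_le _ _).trans ?_
      linarith
    · have h5 := ih (V := updV V x) (z := z + G.A (fun p => mAStep c p V x) ℓ) hV'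
        (not_le.mp hborn) hstep
      rw [SlStep, if_neg hborn, zero_add, ← add_assoc]
      exact h5

theorem A_mA_le (G : Inc P L) {c d : ℝ} (hc : 0 < c) (hd : 0 < d) (ℓ : L) (s : List (P → ℝ)) :
    |G.A (mA c 0 s) ℓ| ≤ d + |Sl G c d ℓ 0 s| := by
  have h0 : G.A (fun p => min ((0 : P → ℝ) p) c) ℓ = 0 := by
    unfold Inc.A
    refine Finset.sum_eq_zero fun p _ => ?_
    rw [Pi.zero_apply, min_eq_left hc.le]
  have h := A_mA_aux_h30 G (c := c) (d := d) hc ℓ s (V := 0) (z := 0) (fun p => le_refl _)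
    (by rw [h0]; exact hd) (by rw [h0, abs_zero])
  rwa [zero_add] at h

theorem nz_nonneg_h30 {V : Type} [Zero V] (s : List V) : 0 ≤ nz s := by
  induction s with
  | nil => simp [nz]
  | cons x s ih =>
    unfold nz at *
    rw [List.map_cons, List.sum_cons]
    refine add_nonneg ?_ ih
    split_ifs <;> norm_num

theorem nz_cons_zero_h30 {V : Type} [Zero V] (s : List V) : nz ((0 : V) :: s) = nz s := by
  unfold nz
  rw [List.map_cons, List.sum_cons, if_pos rfl, zero_add]

theorem nz_cons_ne_h30 {V : Type} [Zero V] {x : V} (hx : x ≠ 0) (s : List V) :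
    nz (x :: s) = 1 + nz s := by
  unfold nz
  rw [List.map_cons, List.sum_cons, if_neg hx]

theorem n1_mAStep_h30 (c : ℝ) (V x : P → ℝ) : n1 (fun p => mAStep c p V x) ≤ n1 x := by
  unfold n1
  refine Finset.sum_le_sum fun p _ => ?_
  change |mAStep c p V x| ≤ |x p|
  unfold mAStep
  split_ifs
  · exact le_refl _
  · rw [abs_zero]; exact abs_nonneg _

theorem sum_Sl_aux_h30 (G : Inc P L) {m : ℕ} (hm : 0 < m) {δ : ℝ} (hδ : 0 < δ)
    (s : List (P → ℝ)) {V : P → ℝ} (hV : ∀ p, 0 ≤ V p) (h1 : ∀ v ∈ s, n1 v ≤ 1)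
    (hs : ∑ p, V p + nz s ≤ m) :
    ∑ ℓ, R updV (fun V x => SlStep G (δ ^ 2 / 8 * m) (δ * m) ℓ V x ^ 2) V s ≤ 2 / δ * nz s := by
  have hm' : (0 : ℝ) < m := Nat.cast_pos.mpr hm
  induction s generalizing V with
  | nil => simp [R, nz]
  | cons x s ih =>
    have hV' : ∀ p, 0 ≤ updV V x p := fun p => add_nonneg (hV p) (abs_nonneg _)
    have e0 : ∑ ℓ, R updV (fun V x => SlStep G (δ ^ 2 / 8 * m) (δ * m) ℓ V x ^ 2) V (x :: s) =
        ∑ ℓ, SlStep G (δ ^ 2 / 8 * m) (δ * m) ℓ V x ^ 2 +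
          ∑ ℓ, R updV (fun V x => SlStep G (δ ^ 2 / 8 * m) (δ * m) ℓ V x ^ 2) (updV V x) s := by
      rw [← Finset.sum_add_distrib]
      rfl
    rw [e0]
    have h1' : ∀ v ∈ s, n1 v ≤ 1 := fun v hv => h1 v (List.mem_cons_of_mem _ hv)
    have hx1 : n1 x ≤ 1 := h1 x List.mem_cons_self
    have hsumV : ∑ p, updV V x p = ∑ p, V p + n1 x := by
      unfold updV n1
      rw [Finset.sum_add_distrib]
    have hnz := nz_nonneg_h30 s
    by_cases hx : x = 0
    · subst hx
      rw [nz_cons_zero_h30] at hs ⊢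
      have e1 : ∀ ℓ, SlStep G (δ ^ 2 / 8 * m) (δ * m) ℓ V 0 ^ 2 = 0 := by
        intro ℓ
        have e2 : (fun p => mAStep (δ ^ 2 / 8 * m) p V (0 : P → ℝ)) = fun _ => 0 := by
          funext p
          unfold mAStep
          split_ifs <;> rfl
        unfold SlStep
        rw [e2]
        have e3 : G.A (fun _ => (0 : ℝ)) ℓ = 0 := by simp [Inc.A]
        rw [e3]
        split_ifs <;> norm_num
      rw [Finset.sum_eq_zero fun ℓ _ => e1 ℓ, zero_add]
      refine ih hV' h1' ?_
      rw [hsumV, n1_zero_h30, add_zero]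
      exact hs
    · rw [nz_cons_ne_h30 hx] at hs ⊢
      have hb : ∑ p, updV V x p ≤ m := by rw [hsumV]; linarith
      have e4 := ih hV' h1' (by rw [hsumV]; linarith)
      have e5 : ∑ ℓ, SlStep G (δ ^ 2 / 8 * m) (δ * m) ℓ V x ^ 2 ≤ 2 / δ := by
        set B : Finset L := Finset.univ.filter fun ℓ =>
          δ * m ≤ G.A (fun p => min (V p + |x p|) (δ ^ 2 / 8 * m)) ℓ with hB
        have hcB : (B.card : ℝ) ≤ 2 / δ := by
          refine G.count2 hm' hδ (w := fun p => min (V p + |x p|) (δ ^ 2 / 8 * m))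
            (fun p => le_min (hV' p) (by positivity)) (fun p => min_le_right _ _) ?_ B
            (fun ℓ hℓ => (Finset.mem_filter.mp hℓ).2)
          exact (Finset.sum_le_sum fun p _ => min_le_left _ _).trans hb
        refine le_trans ?_ hcB
        calc ∑ ℓ, SlStep G (δ ^ 2 / 8 * m) (δ * m) ℓ V x ^ 2
            ≤ ∑ ℓ, (if ℓ ∈ B then (1 : ℝ) else 0) := by
              refine Finset.sum_le_sum fun ℓ _ => ?_
              by_cases hℓ : ℓ ∈ B
              · rw [if_pos hℓ, SlStep, if_pos (Finset.mem_filter.mp hℓ).2]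
                have e6 := (G.abs_A_le (fun p => mAStep (δ ^ 2 / 8 * m) p V x) ℓ).trans
                  ((n1_mAStep_h30 _ V x).trans hx1)
                exact (sq_le_one_iff_abs_le_one _).mpr e6
              · rw [if_neg hℓ, SlStep, if_neg fun hcon =>
                  hℓ (Finset.mem_filter.mpr ⟨Finset.mem_univ _, hcon⟩)]
                norm_num
          _ = (B.card : ℝ) := by
              rw [Finset.sum_ite_mem, Finset.univ_inter, Finset.sum_const, nsmul_eq_mul, mul_one]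
      have : 2 / δ * (1 + nz s) = 2 / δ + 2 / δ * nz s := by ring
      linarith

theorem sum_SlSq_le (G : Inc P L) {m : ℕ} (hm : 0 < m) {δ : ℝ} (hδ : 0 < δ)
    {s : List (P → ℝ)} (h1 : ∀ v ∈ s, n1 v ≤ 1) (hs : nz s ≤ m) :
    ∑ ℓ, R updV (fun V x => SlStep G (δ ^ 2 / 8 * m) (δ * m) ℓ V x ^ 2) 0 s ≤ 2 / δ * m := by
  refine (sum_Sl_aux_h30 G hm hδ s (V := 0) (fun p => le_refl _) h1 ?_).trans ?_
  · simpa using hs
  · exact mul_le_mul_of_nonneg_left hs (by positivity)

theorem sum_mB_aux_h30 {c : ℝ} (s : List (P → ℝ)) {V : P → ℝ} (h1 : ∀ v ∈ s, n1 v ≤ 1) :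
    ∑ p, R updV (fun V x => mBStep c p V x ^ 2) V s ≤ nz s := by
  induction s generalizing V with
  | nil => simp [R, nz]
  | cons x s ih =>
    have e0 : ∑ p, R updV (fun V x => mBStep c p V x ^ 2) V (x :: s) =
        ∑ p, mBStep c p V x ^ 2 +
          ∑ p, R updV (fun V x => mBStep c p V x ^ 2) (updV V x) s := by
      rw [← Finset.sum_add_distrib]
      rfl
    have h1' : ∀ v ∈ s, n1 v ≤ 1 := fun v hv => h1 v (List.mem_cons_of_mem _ hv)
    have hx1 : n1 x ≤ 1 := h1 x List.mem_cons_self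
    have e1 := ih (V := updV V x) h1'
    have hsq : ∀ p, mBStep c p V x ^ 2 ≤ |x p| := by
      intro p
      have h2 : |x p| ≤ n1 x :=
        Finset.single_le_sum (f := fun p => |x p|) (fun _ _ => abs_nonneg _) (Finset.mem_univ p)
      have h3 := abs_nonneg (x p)
      unfold mBStep
      split_ifs
      · simpa using h3
      · rw [← sq_abs]
        nlinarith
    rw [e0]
    by_cases hx : x = 0
    · subst hx
      rw [nz_cons_zero_h30]
      have e2 : ∑ p, mBStep c p V (0 : P → ℝ) ^ 2 ≤ 0 := by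
        refine (Finset.sum_le_sum fun p _ => hsq p).trans ?_
        simp
      linarith
    · rw [nz_cons_ne_h30 hx]
      have e2 : ∑ p, mBStep c p V x ^ 2 ≤ n1 x := Finset.sum_le_sum fun p _ => hsq p
      linarith

theorem sum_mBSq_le {m : ℕ} {c : ℝ} {s : List (P → ℝ)} (h1 : ∀ v ∈ s, n1 v ≤ 1)
    (hs : nz s ≤ m) : ∑ p, R updV (fun V x => mBStep c p V x ^ 2) 0 s ≤ m :=
  (sum_mB_aux_h30 s h1).trans hs

end Pool.Agent.Helper25.NU
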