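import Pool.Agent.Helper25.NU.Moments
import Pool.Agent.Helper25.NU.SmallA

/-!
# Project NU, block S2: the sums over lines of a martingale with `ℓ₁`-bounded steps

Claim: `E F(M) ≤ δ m + √(2 m / δ) + √(8 m) / δ` if all labels have `‖x‖₁ ≤ 1` and each path has at
most `m ≥ 1` non-zero labels.

Proof.  Let `c = δ²/8 * m`, `d = δ m` and use the decomposition of `SmallA.lean`, with initial state
`0`.  For each path `s` and line `ℓ`,
`|A s.sum ℓ| ≤ |A (mA c 0 s) ℓ| + |A (mB c 0 s) ℓ| ≤ δ m + |Sl ℓ| + ∑_p |mB p|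
  ≤ δ m + √(∑_ℓ' (Sl ℓ')²) + √(8/δ²) √(∑_p (mB p)²)`
(`sum_eq`, `A_mA_le`, `mB_l1` with `η = δ²/8`).  Take the expectation; `E √X ≤ √(E X)`
(`Tree.E_sqrt`); by `Tree.E_sum`, `Tree.E_R_sq` (the steps `SlStep`, `mBStep` are odd in the label,
`updV` is even) and `sum_SlSq_le`: `E ∑_ℓ (Sl ℓ)² = E ∑_ℓ R updV (SlStep ..)² ≤ 2 m / δ`, and
similarly `E ∑_p (mB p)² ≤ m` by `sum_mBSq_le`.
-/

namespace Pool.Agent.Helper25.NU

variable {P L : Type} [Fintype P] [Fintype L] [DecidableEq P] [DecidableEq L]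

private theorem h42_updV_neg {P : Type} (V x : P → ℝ) : updV V (-x) = updV V x := by
  funext p
  simp [updV]

private theorem h42_mAStep_neg {P : Type} (c : ℝ) (p : P) (V x : P → ℝ) :
    mAStep c p V (-x) = -mAStep c p V x := by
  simp only [mAStep, Pi.neg_apply, abs_neg]
  split_ifs <;> simp

private theorem h42_mBStep_neg {P : Type} (c : ℝ) (p : P) (V x : P → ℝ) :
    mBStep c p V (-x) = -mBStep c p V x := by
  simp only [mBStep, Pi.neg_apply, abs_neg]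
  split_ifs <;> simp

private theorem h42_SlStep_neg (G : Inc P L) (c d : ℝ) (ℓ : L) (V x : P → ℝ) :
    SlStep G c d ℓ V (-x) = -SlStep G c d ℓ V x := by
  simp only [SlStep, Pi.neg_apply, abs_neg]
  split_ifs
  · rw [← G.A_neg]
    congr 1
    funext p
    exact h42_mAStep_neg c p V x
  · simp

private theorem h42_path (G : Inc P L) {m : ℕ} (hm : 0 < m) {δ : ℝ} (hδ : 0 < δ)
    {s : List (P → ℝ)} (h1 : ∀ v ∈ s, n1 v ≤ 1) (hs : nz s ≤ m) :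
    G.F s.sum ≤ δ * m + √(∑ ℓ, Sl G (δ ^ 2 / 8 * m) (δ * m) ℓ 0 s ^ 2) +
      √(1 / (δ ^ 2 / 8)) * √(∑ p, mB (δ ^ 2 / 8 * m) 0 s p ^ 2) := by
  have hm' : (0 : ℝ) < m := by exact_mod_cast hm
  have hη : 0 < δ ^ 2 / 8 := by positivity
  have hc : 0 < δ ^ 2 / 8 * m := by positivity
  have hd : 0 < δ * m := by positivity
  refine G.F_le (by positivity) fun ℓ => ?_
  have e1 : s.sum = mA (δ ^ 2 / 8 * m) 0 s + mB (δ ^ 2 / 8 * m) 0 s := by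
    funext p
    exact sum_eq _ _ _ _
  rw [e1, G.A_add]
  have e2 := A_mA_le G hc hd ℓ s
  have e3 : |Sl G (δ ^ 2 / 8 * m) (δ * m) ℓ 0 s| ≤
      √(∑ ℓ, Sl G (δ ^ 2 / 8 * m) (δ * m) ℓ 0 s ^ 2) :=
    Real.abs_le_sqrt (Finset.single_le_sum
      (f := fun ℓ => Sl G (δ ^ 2 / 8 * m) (δ * m) ℓ 0 s ^ 2)
      (fun _ _ => sq_nonneg _) (Finset.mem_univ ℓ))
  have e4 := G.abs_A_le (mB (δ ^ 2 / 8 * m) 0 s) ℓ
  have e5 := mB_l1 hm hη h1 hs
  have e6 : n1 (mB (δ ^ 2 / 8 * m) 0 s) = ∑ p, |mB (δ ^ 2 / 8 * m) 0 s p| := rfl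
  refine (abs_add_le _ _).trans ?_
  linarith

theorem Inc.E_F_le (G : Inc P L) {m : ℕ} (hm : 0 < m) {δ : ℝ} (hδ : 0 < δ) (T : Tree (P → ℝ))
    (h : T.All (fun s => (∀ v ∈ s, n1 v ≤ 1) ∧ nz s ≤ m)) :
    T.E (fun s => G.F s.sum) ≤ δ * m + √(2 * m / δ) + √(8 * m) / δ := by
  have hm' : (0 : ℝ) < m := by exact_mod_cast hm
  have hη : 0 < δ ^ 2 / 8 := by positivity
  have h1 : T.E (fun s => G.F s.sum) ≤
      T.E (fun s => δ * m + √(∑ ℓ, Sl G (δ ^ 2 / 8 * m) (δ * m) ℓ 0 s ^ 2) +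
        √(1 / (δ ^ 2 / 8)) * √(∑ p, mB (δ ^ 2 / 8 * m) 0 s p ^ 2)) :=
    Tree.E_mono (Tree.All_mono h fun s hs => h42_path G hm hδ hs.1 hs.2)
  rw [Tree.E_add, Tree.E_add, Tree.E_const, Tree.E_mul] at h1
  have h2 : T.E (fun s => √(∑ ℓ, Sl G (δ ^ 2 / 8 * m) (δ * m) ℓ 0 s ^ 2)) ≤ √(2 * m / δ) := by
    refine (Tree.E_sqrt (Tree.All_of_forall T fun s =>
      Finset.sum_nonneg fun _ _ => sq_nonneg _)).trans ?_
    apply Real.sqrt_le_sqrt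
    rw [Tree.E_sum]
    have e : ∀ ℓ : L, T.E (fun s => Sl G (δ ^ 2 / 8 * m) (δ * m) ℓ 0 s ^ 2) =
        T.E (fun s => R updV (fun V x => SlStep G (δ ^ 2 / 8 * m) (δ * m) ℓ V x ^ 2) 0 s) :=
      fun ℓ => Tree.E_R_sq T h42_updV_neg (h42_SlStep_neg G _ _ ℓ) 0
    simp_rw [e]
    rw [← Tree.E_sum]
    refine (Tree.E_le_const (c := 2 / δ * m) (Tree.All_mono h fun s hs =>
      sum_SlSq_le G hm hδ hs.1 hs.2)).trans (le_of_eq ?_)
    ring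
  have h3 : T.E (fun s => √(∑ p, mB (δ ^ 2 / 8 * m) 0 s p ^ 2)) ≤ √m := by
    refine (Tree.E_sqrt (Tree.All_of_forall T fun s =>
      Finset.sum_nonneg fun _ _ => sq_nonneg _)).trans ?_
    apply Real.sqrt_le_sqrt
    rw [Tree.E_sum]
    have e : ∀ p : P, T.E (fun s => mB (δ ^ 2 / 8 * m) 0 s p ^ 2) =
        T.E (fun s => R updV (fun V x => mBStep (δ ^ 2 / 8 * m) p V x ^ 2) 0 s) :=
      fun p => Tree.E_R_sq T h42_updV_neg (h42_mBStep_neg _ p) 0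
    simp_rw [e]
    rw [← Tree.E_sum]
    exact Tree.E_le_const (Tree.All_mono h fun s hs => sum_mBSq_le hs.1 hs.2)
  have h4 : √(1 / (δ ^ 2 / 8)) * √m = √(8 * m) / δ := by
    rw [← Real.sqrt_mul (by positivity)]
    rw [show 1 / (δ ^ 2 / 8) * (m : ℝ) = 8 * m / δ ^ 2 by field_simp]
    rw [Real.sqrt_div (by positivity), Real.sqrt_sq hδ.le]
  have h5 := mul_le_mul_of_nonneg_left h3 (Real.sqrt_nonneg (1 / (δ ^ 2 / 8)))
  rw [h4] at h5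
  linarith

end Pool.Agent.Helper25.NU
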