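import Pool.Agent.Helper25.NU.Defs

/-!
# Project NU, block T1: the basic rules for expectations over trees

All the statements follow by induction on the tree, generalizing the functional.
For `E_map`, `All_map` one uses that `g` is odd: the first label of a path of the right subtree of
`node (g x) _ _` is `- g x = g (-x)`.
For `E_sqrt` (Jensen): `f ≥ 0` on all paths, the function `√` is concave:
`(√u + √v) / 2 ≤ √((u + v) / 2)` for `u, v ≥ 0`; for `E_rpow` the same with `u ^ (3/4)`
(`Real.concaveOn_rpow`).
`E_cs` : `E f ≤ √(E f²)`.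
-/

namespace Pool.Agent.Helper25.NU

variable {V W : Type}

theorem Tree.All_mono [Neg V] {T : Tree V} {Q Q' : List V → Prop} (h : T.All Q)
    (hQ : ∀ s, Q s → Q' s) : T.All Q' := by
  induction T generalizing Q Q' with
  | leaf => exact hQ _ h
  | node x l r ihl ihr => exact ⟨ihl h.1 fun s hs => hQ _ hs, ihr h.2 fun s hs => hQ _ hs⟩

theorem Tree.All_and [Neg V] {T : Tree V} {Q Q' : List V → Prop} (h : T.All Q) (h' : T.All Q') :
    T.All (fun s => Q s ∧ Q' s) := by
  induction T generalizing Q Q' with
  | leaf => exact ⟨h, h'⟩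
  | node x l r ihl ihr => exact ⟨ihl h.1 h'.1, ihr h.2 h'.2⟩

theorem Tree.All_of_forall [Neg V] (T : Tree V) {Q : List V → Prop} (h : ∀ s, Q s) :
    T.All Q := by
  induction T generalizing Q with
  | leaf => exact h _
  | node x l r ihl ihr => exact ⟨ihl fun s => h _, ihr fun s => h _⟩

/-- On a path of a tree the number of labels is at most the depth. -/
theorem Tree.All_length [Neg V] (T : Tree V) : T.All (fun s => s.length ≤ T.depth) := by
  induction T with
  | leaf => exact le_refl 0
  | node x l r ihl ihr =>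
    refine ⟨Tree.All_mono ihl fun s hs => ?_, Tree.All_mono ihr fun s hs => ?_⟩
    · exact Nat.succ_le_succ (hs.trans (le_max_left _ _))
    · exact Nat.succ_le_succ (hs.trans (le_max_right _ _))

theorem Tree.E_congr [Neg V] {T : Tree V} {f g : List V → ℝ} (h : T.All (fun s => f s = g s)) :
    T.E f = T.E g := by
  induction T generalizing f g with
  | leaf => exact h
  | node x l r ihl ihr =>
    rw [Tree.E, Tree.E, ihl h.1, ihr h.2]

theorem Tree.E_mono [Neg V] {T : Tree V} {f g : List V → ℝ} (h : T.All (fun s => f s ≤ g s)) :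
    T.E f ≤ T.E g := by
  induction T generalizing f g with
  | leaf => exact h
  | node x l r ihl ihr =>
    rw [Tree.E, Tree.E]
    have h1 := ihl h.1
    have h2 := ihr h.2
    linarith

theorem Tree.E_const [Neg V] (T : Tree V) (c : ℝ) : T.E (fun _ => c) = c := by
  induction T with
  | leaf => rfl
  | node x l r ihl ihr =>
    rw [Tree.E, ihl, ihr]
    ring

theorem Tree.E_add [Neg V] (T : Tree V) (f g : List V → ℝ) :
    T.E (fun s => f s + g s) = T.E f + T.E g := by
  induction T generalizing f g with
  | leaf => rfl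
  | node x l r ihl ihr =>
    rw [Tree.E, Tree.E, Tree.E, ihl, ihr]
    ring

theorem Tree.E_sub [Neg V] (T : Tree V) (f g : List V → ℝ) :
    T.E (fun s => f s - g s) = T.E f - T.E g := by
  induction T generalizing f g with
  | leaf => rfl
  | node x l r ihl ihr =>
    rw [Tree.E, Tree.E, Tree.E, ihl, ihr]
    ring

theorem Tree.E_mul [Neg V] (T : Tree V) (c : ℝ) (f : List V → ℝ) :
    T.E (fun s => c * f s) = c * T.E f := by
  induction T generalizing f with
  | leaf => rfl
  | node x l r ihl ihr =>
    rw [Tree.E, Tree.E, ihl, ihr]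
    ring

theorem Tree.E_sum [Neg V] {ι : Type} (T : Tree V) (I : Finset ι) (f : ι → List V → ℝ) :
    T.E (fun s => ∑ i ∈ I, f i s) = ∑ i ∈ I, T.E (f i) := by
  classical
  induction I using Finset.induction_on with
  | empty =>
    simp only [Finset.sum_empty]
    exact Tree.E_const T 0
  | insert a I ha ih =>
    simp only [Finset.sum_insert ha]
    rw [Tree.E_add, ih]

/-- A bound for an expectation from a bound on all paths. -/
theorem Tree.E_le_const [Neg V] {T : Tree V} {f : List V → ℝ} {c : ℝ}
    (h : T.All (fun s => f s ≤ c)) : T.E f ≤ c := by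
  have h1 := Tree.E_mono (g := fun _ => c) h
  rwa [Tree.E_const] at h1

theorem Tree.E_nonneg [Neg V] {T : Tree V} {f : List V → ℝ} (h : T.All (fun s => 0 ≤ f s)) :
    0 ≤ T.E f := by
  have h1 := Tree.E_mono (f := fun _ => (0 : ℝ)) h
  rwa [Tree.E_const] at h1

theorem Tree.E_map [Neg V] [Neg W] {g : V → W} (hg : ∀ x, g (-x) = -g x) (T : Tree V)
    (f : List W → ℝ) : (T.map g).E f = T.E (fun s => f (s.map g)) := by
  induction T generalizing f with
  | leaf => rfl
  | node x l r ihl ihr =>
    rw [Tree.map, Tree.E, Tree.E, ihl, ihr]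
    simp only [List.map_cons, hg]

theorem Tree.All_map [Neg V] [Neg W] {g : V → W} (hg : ∀ x, g (-x) = -g x) (T : Tree V)
    (Q : List W → Prop) : (T.map g).All Q ↔ T.All (fun s => Q (s.map g)) := by
  induction T generalizing Q with
  | leaf => exact Iff.rfl
  | node x l r ihl ihr =>
    rw [Tree.map, Tree.All, Tree.All, ihl, ihr]
    simp only [List.map_cons, hg]

theorem Tree.E_sqrt [Neg V] {T : Tree V} {f : List V → ℝ} (h : T.All (fun s => 0 ≤ f s)) :
    T.E (fun s => √(f s)) ≤ √(T.E f) := by
  induction T generalizing f with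
  | leaf => exact le_refl _
  | node x l r ihl ihr =>
    rw [Tree.E, Tree.E]
    have h1 := ihl h.1
    have h2 := ihr h.2
    have h3 := Tree.E_nonneg h.1
    have h4 := Tree.E_nonneg h.2
    have h5 := Real.sq_sqrt h3
    have h6 := Real.sq_sqrt h4
    have h7 : (√(l.E fun s => f (x :: s)) + √(r.E fun s => f (-x :: s))) / 2 ≤
        √(((l.E fun s => f (x :: s)) + r.E fun s => f (-x :: s)) / 2) := by
      apply Real.le_sqrt_of_sq_le
      nlinarith [sq_nonneg (√(l.E fun s => f (x :: s)) - √(r.E fun s => f (-x :: s)))]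
    refine le_trans ?_ h7
    linarith

theorem Tree.E_cs [Neg V] (T : Tree V) (f : List V → ℝ) : T.E f ≤ √(T.E (fun s => f s ^ 2)) := by
  have h1 : T.E f ≤ T.E (fun s => √(f s ^ 2)) := by
    refine Tree.E_mono (Tree.All_of_forall T fun s => ?_)
    rw [Real.sqrt_sq_eq_abs]
    exact le_abs_self _
  exact h1.trans (Tree.E_sqrt (Tree.All_of_forall T fun s => sq_nonneg _))

theorem Tree.E_rpow [Neg V] {T : Tree V} {f : List V → ℝ} (h : T.All (fun s => 0 ≤ f s)) :
    T.E (fun s => f s ^ (3 / 4 : ℝ)) ≤ (T.E f) ^ (3 / 4 : ℝ) := by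
  induction T generalizing f with
  | leaf => exact le_refl _
  | node x l r ihl ihr =>
    rw [Tree.E, Tree.E]
    have h1 := ihl h.1
    have h2 := ihr h.2
    have h3 := Tree.E_nonneg h.1
    have h4 := Tree.E_nonneg h.2
    have h7 := (Real.concaveOn_rpow (p := 3 / 4) (by norm_num) (by norm_num)).2 h3 h4
      (show (0 : ℝ) ≤ 1 / 2 by norm_num) (show (0 : ℝ) ≤ 1 / 2 by norm_num) (by norm_num)
    simp only [smul_eq_mul] at h7
    have h8 : ((l.E fun s => f (x :: s)) + r.E fun s => f (-x :: s)) / 2 =
        1 / 2 * (l.E fun s => f (x :: s)) + 1 / 2 * r.E fun s => f (-x :: s) := by ring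
    rw [h8]
    refine le_trans ?_ h7
    linarith

/-- Deterministic inequalities for the sums along paths. -/
theorem sum_map_le_of_le {s : List V} {f g : V → ℝ} (h : ∀ v ∈ s, f v ≤ g v) :
    (s.map f).sum ≤ (s.map g).sum := by
  exact List.sum_le_sum h

/-- A sum along a path of terms which vanish for zero labels and are at most `c` otherwise. -/
theorem sum_map_le_nz [Zero V] {s : List V} {f : V → ℝ} {c : ℝ} (h0 : f 0 = 0)
    (h : ∀ v ∈ s, f v ≤ c) : (s.map f).sum ≤ c * nz s := by
  classical
  unfold nz
  induction s with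
  | nil => simp
  | cons v s ih =>
    rw [List.map_cons, List.sum_cons, List.map_cons, List.sum_cons, mul_add]
    refine add_le_add ?_ (ih fun v hv => h v (List.mem_cons_of_mem _ hv))
    by_cases hv : v = 0
    · rw [if_pos hv, hv, h0, mul_zero]
    · rw [if_neg hv, mul_one]
      exact h v List.mem_cons_self

theorem abs_sum_map_le (s : List V) (f : V → ℝ) : |(s.map f).sum| ≤ (s.map fun v => |f v|).sum := by
  induction s with
  | nil => simp
  | cons v s ih =>
    rw [List.map_cons, List.sum_cons, List.map_cons, List.sum_cons]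
    exact (abs_add_le _ _).trans (add_le_add (le_refl _) ih)

end Pool.Agent.Helper25.NU
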